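import Pool.Agent.H16.AP.GLA
import Pool.Agent.H20.AP.FRE
import Pool.Agent.H63.P6.D1w

/-!
# CBV: virtual piece with a shifted apex `p` inside the quadrilateral of the site (general part)
-/

set_option autoImplicit false

open Set Real Finset MeasureTheory

noncomputable section

namespace Pool.Agent.H16.AP

open Pool.Agent.H20.AL Pool.Agent.H63.P6 Pool.Agent.H16.T3 Pool.Agent.H78.P6 Pool.Agent.H20.AP

variable {p a b c d : ℂ}

theorem cr_comb (A B C U : ℂ) : cr B C * cr A U = cr U C * cr A B + cr B U * cr A C := by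
  simp [cr]; ring

/-- the quadrilateral with an inner apex is smaller -/
theorem qo_shift (hQ : QC p b c d) (hp : p ∈ Qd a b c d) (hA : QC a b c d) : Qo p b c d ⊆ Qo a b c d := by
  rintro u ⟨h1, h2, h3, h4⟩
  obtain ⟨p1, p2, p3, p4⟩ := hp
  refine ⟨?_, h2, h3, ?_⟩
  · -- left of `a b`
    have e1 := cr_comb (b - a) (c - b) (p - b) (u - b)
    have k1 : 0 < cr (c - b) (p - b) := by
      have := hQ.pab
      simp only [cr, Complex.sub_re, Complex.sub_im] at *; linarith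
    have k2 : 0 < cr (u - b) (p - b) := by
      simp only [cr, Complex.sub_re, Complex.sub_im] at *; linarith
    have k3 : 0 < cr (b - a) (c - b) := by
      have := hA.pab
      simp only [cr, Complex.sub_re, Complex.sub_im] at *; linarith
    have k4 : 0 ≤ cr (b - a) (p - b) := by
      simp only [cr, Complex.sub_re, Complex.sub_im] at *; linarith
    have k5 : 0 < cr (c - b) (p - b) * cr (b - a) (u - b) := by
      rw [e1]
      have := mul_pos k2 k3
      have := mul_nonneg h2.le k4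
      linarith
    have k6 : 0 < cr (b - a) (u - b) := pos_of_mul_pos_right k5 k1.le
    simp only [cr, Complex.sub_re, Complex.sub_im] at *; linarith
  · have e1 := cr_comb (a - d) (p - d) (c - d) (u - d)
    have k1 : 0 < cr (p - d) (c - d) := by
      have := hQ.bcp
      simp only [cr, Complex.sub_re, Complex.sub_im] at *; linarith
    have k2 : 0 < cr (u - d) (c - d) := by
      simp only [cr, Complex.sub_re, Complex.sub_im] at *; linarith
    have k3 : 0 < cr (a - d) (c - d) := by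
      have := hA.bcp
      simp only [cr, Complex.sub_re, Complex.sub_im] at *; linarith
    have k5 : 0 < cr (p - d) (c - d) * cr (a - d) (u - d) := by
      rw [e1]
      have := mul_nonneg k2.le p4
      have := mul_pos h4 k3
      linarith
    exact pos_of_mul_pos_right k5 k1.le

/-- segments from a corner to the inner apex stay in the quadrilateral -/
theorem qd_seg {u v : ℂ} (hu : u ∈ Qd a b c d) (hv : v ∈ Qd a b c d) {t : ℝ} (h0 : 0 ≤ t) (h1 : t ≤ 1) :
    u + (t : ℂ) * (v - u) ∈ Qd a b c d := by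
  obtain ⟨u1, u2, u3, u4⟩ := hu
  obtain ⟨v1, v2, v3, v4⟩ := hv
  refine ⟨?_, ?_, ?_, ?_⟩
  · rw [cr_line]
    exact add_nonneg (mul_nonneg (by linarith) u1) (mul_nonneg h0 v1)
  · rw [cr_line]
    exact add_nonneg (mul_nonneg (by linarith) u2) (mul_nonneg h0 v2)
  · rw [cr_line]
    exact add_nonneg (mul_nonneg (by linarith) u3) (mul_nonneg h0 v3)
  · rw [cr_line]
    exact add_nonneg (mul_nonneg (by linarith) u4) (mul_nonneg h0 v4)

theorem qd_b (hA : QC a b c d) : b ∈ Qd a b c d := by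
  refine ⟨?_, ?_, ?_, ?_⟩
  · rw [cr_self]
  · simp [cr]
  · have := hA.abc
    simp only [cr, Complex.sub_re, Complex.sub_im] at *; linarith
  · have := hA.cpa
    simp only [cr, Complex.sub_re, Complex.sub_im] at *; linarith

theorem qd_d (hA : QC a b c d) : d ∈ Qd a b c d := by
  refine ⟨?_, ?_, ?_, ?_⟩
  · exact hA.cpa.le
  · exact hA.abc.le
  · rw [cr_self]
  · simp [cr]

/-- a point not hitting the quadrilateral does not cap the ray from a corner to the inner apex -/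
theorem nocap_out {e z : ℂ} (he : e ∈ Qd a b c d) (hp : p ∈ Qd a b c d) (hl : 1 / √3 ≤ ‖p - e‖)
    (hz : ∀ q ∈ Qd a b c d, 1 / √3 ≤ dist z q) : NoCap e p z := by
  refine nocap_miss hl fun t h0 h1 => ?_
  have := hz _ (qd_seg he hp h0 h1)
  rw [dist_comm, dist_eq_norm] at this
  exact this

/-- two angles with a vertex in common -/
theorem ag_sum {a b c d : ℂ} (h1 : 0 < cr (b - a) (c - a)) (h2 : 0 < cr (c - a) (d - a)) {t : ℝ} (ht : t ≤ π)
    (h : dt (b - a) (d - a) ≤ Real.cos t * (‖b - a‖ * ‖d - a‖)) : t ≤ Ag a b c + Ag a c d := by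
  set B := b - a with hB
  set C := c - a with hC
  set E := d - a with hE
  have hB0 : 0 < ‖B‖ := by
    rw [norm_pos_iff]; rintro h0; rw [h0] at h1; simp [cr] at h1
  have hC0 : 0 < ‖C‖ := by
    rw [norm_pos_iff]; rintro h0; rw [h0] at h1; simp [cr] at h1
  have hE0 : 0 < ‖E‖ := by
    rw [norm_pos_iff]; rintro h0; rw [h0] at h2; simp [cr] at h2
  have hb1 : ∀ U W : ℂ, 0 < ‖U‖ → 0 < ‖W‖ → |dt U W / (‖U‖ * ‖W‖)| ≤ 1 := by
    intro U W hU hW
    rw [abs_div, abs_of_pos (mul_pos hU hW), div_le_one (mul_pos hU hW)]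
    have := lag U W
    exact abs_le_of_sq_le_sq (by nlinarith [sq_nonneg (cr U W)]) (by positivity)
  have hsin : ∀ U W : ℂ, 0 < ‖U‖ → 0 < ‖W‖ → 0 < cr U W → √(1 - (dt U W / (‖U‖ * ‖W‖)) ^ 2) = cr U W / (‖U‖ * ‖W‖) := by
    intro U W hU hW hc
    have hUW : (0:ℝ) < ‖U‖ * ‖W‖ := mul_pos hU hW
    rw [show 1 - (dt U W / (‖U‖ * ‖W‖)) ^ 2 = (cr U W / (‖U‖ * ‖W‖)) ^ 2 by
      rw [div_pow, div_pow, eq_div_iff (by positivity), sub_mul, div_mul_cancel₀ _ (by positivity)]
      have := lag U W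
      linarith [mul_pow ‖U‖ ‖W‖ 2]]
    exact Real.sqrt_sq (by positivity)
  have hcos : Real.cos (Ag a b c + Ag a c d) = dt B E / (‖B‖ * ‖E‖) := by
    unfold Ag
    rw [Real.cos_add, Real.cos_arccos (abs_le.1 (hb1 B C hB0 hC0)).1 (abs_le.1 (hb1 B C hB0 hC0)).2,
      Real.cos_arccos (abs_le.1 (hb1 C E hC0 hE0)).1 (abs_le.1 (hb1 C E hC0 hE0)).2, Real.sin_arccos, Real.sin_arccos,
      hsin B C hB0 hC0 h1, hsin C E hC0 hE0 h2]
    have key : dt B C * dt C E - cr B C * cr C E = ‖C‖ ^ 2 * dt B E := by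
      rw [nsq]; simp [dt, cr]; ring
    field_simp
    linarith
  by_contra hlt
  push Not at hlt
  have h0 : 0 ≤ Ag a b c + Ag a c d := add_nonneg (Ag_nonneg _ _ _) (Ag_nonneg _ _ _)
  have hc := Real.cos_lt_cos_of_nonneg_of_le_pi h0 ht hlt
  rw [hcos, lt_div_iff₀ (mul_pos hB0 hE0)] at hc
  linarith

/-- the union of the caps of one side -/
theorem side_cap {K : Set ℂ} {b e : ℂ} {δ : ℝ} (hd0 : 0 ≤ δ) (hd1 : δ ≤ 1 / √3) (heb : e ≠ b) {L : ℂ → Prop}
    (hK : ∀ q ∈ K, 0 ≤ cr (e - b) (q - b)) (hw : ∀ w, L w → cr (e - b) (w - b) ≤ -(δ * ‖e - b‖))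
    (hu : ∀ w w', L w → L w' → w = w') :
    ∃ S : Set ℂ, volume S ≠ ⊤ ∧ volume.real S ≤ 2 * (1 / √3 - δ) * √(1 / 3 - δ ^ 2) ∧
      ∀ w, L w → K ∩ D w ⊆ S := by
  by_cases hex : ∃ w, L w
  · obtain ⟨w, hwL⟩ := hex
    obtain ⟨S, h1, h2, h3⟩ := cap_line hd0 hd1 heb hK (hw w hwL)
    refine ⟨S, h2, h3, fun w' hw' => ?_⟩
    rw [← hu w w' hwL hw']; exact h1
  · refine ⟨∅, by simp, ?_, fun w' hw' => absurd ⟨w', hw'⟩ hex⟩
    simp only [measureReal_empty]
    exact mul_nonneg (by linarith) (Real.sqrt_nonneg _)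

/-- the rectangle bounds -/
theorem rect_num : (2 * (1 / √3 - 1 / 2) * √(1 / 3 - (1 / 2) ^ 2) ≤ √3 / 2 * (516 / 10000)) ∧
    (2 * (1 / √3 - 13 / 25) * √(1 / 3 - (13 / 25) ^ 2) ≤ √3 / 2 * (333 / 10000)) ∧
    (2 * (1 / √3 - 27 / 50) * √(1 / 3 - (27 / 50) ^ 2) ≤ √3 / 2 * (177 / 10000)) := by
  have h1 : (17320 / 10000 : ℝ) < √3 := sq3_lo
  have h5 : (173205 / 100000 : ℝ) < √3 := Real.lt_sqrt_of_sq_lt (by norm_num)
  have hr : 1 / √3 ≤ 57736 / 100000 := by
    rw [div_le_div_iff₀ sq3_pos (by norm_num)]; linarith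
  have key : ∀ (d s ρ : ℝ), 0 ≤ s → 1 / 3 - d ^ 2 ≤ s ^ 2 → d ≤ 57736 / 100000 →
      2 * (57736 / 100000 - d) * s ≤ 17320 / 10000 / 2 * ρ → 0 ≤ ρ → d ≤ 1 / √3 →
      2 * (1 / √3 - d) * √(1 / 3 - d ^ 2) ≤ √3 / 2 * ρ := by
    intro d s ρ hs h hd hm hρ hd'
    have a1 : √(1 / 3 - d ^ 2) ≤ s := by
      rw [Real.sqrt_le_left hs]; exact h
    calc 2 * (1 / √3 - d) * √(1 / 3 - d ^ 2) ≤ 2 * (57736 / 100000 - d) * s :=
          mul_le_mul (by linarith) a1 (Real.sqrt_nonneg _) (by linarith)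
      _ ≤ 17320 / 10000 / 2 * ρ := hm
      _ ≤ √3 / 2 * ρ := by nlinarith
  have h3 : √3 < 17321 / 10000 := sq3_hi
  have hd' : ∀ d : ℝ, d ≤ 577 / 1000 → d ≤ 1 / √3 := by
    intro d hd
    rw [le_div_iff₀ sq3_pos]
    rcases le_total d 0 with g | g
    · have := mul_nonneg (neg_nonneg.2 g) sq3_pos.le
      linarith
    · nlinarith
  refine ⟨key _ (28868 / 100000) _ (by norm_num) (by norm_num) (by norm_num) (by norm_num) (by norm_num) (hd' _ (by norm_num)),
    key _ (25087 / 100000) _ (by norm_num) (by norm_num) (by norm_num) (by norm_num) (by norm_num) (hd' _ (by norm_num)),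
    key _ (20430 / 100000) _ (by norm_num) (by norm_num) (by norm_num) (by norm_num) (by norm_num) (hd' _ (by norm_num))⟩

/-- `cos (116.96 degrees) ≥ -.454` -/
theorem cos117 : -(454 / 1000) ≤ Real.cos (2 * π * (3249 / 10000)) := by
  have e : 2 * π * (3249 / 10000) = 1498 / 10000 * π + π / 2 := by ring
  rw [e, Real.cos_add_pi_div_two]
  have hp : π < 3.1416 := Real.pi_lt_d4
  have hp0 : 0 < π := Real.pi_pos
  have h1 : Real.sin (1498 / 10000 * π) ≤ 454 / 1000 := by
    have hx0 : 0 ≤ 1498 / 10000 * π := by positivity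
    have h2 : Real.sin (1498 / 10000 * π) ≤ Real.sin (4707 / 10000) := by
      apply Real.sin_le_sin_of_le_of_le_pi_div_two
      · linarith
      · have : 3.14 < π := Real.pi_gt_d2
        linarith
      · linarith
    refine h2.trans ?_
    have h3 := Real.sin_bound (x := 4707 / 10000) (by rw [abs_of_pos] <;> norm_num)
    rw [abs_le] at h3
    have h4 := h3.2
    rw [abs_of_pos (by norm_num : (0:ℝ) < 4707 / 10000)] at h4
    norm_num at h4 ⊢
    linarith
  linarith

end Pool.Agent.H16.AP
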