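import Pool.Agent.H16.T3.VCASE
import Pool.Agent.H78.P6.CP

/-!
# Apex pieces of T3 (MP_591ade_co, p = 6): definitions and interface

For the wedge `k` with apex site `a` the frames are `g1, g2, g3` (matched points of `a + E (kk k + i)`, `i = 0, 1, 2`).
The apex piece is the open convex quadrilateral `Qo p g1 g2 g3` (minus discs of foreign points), where `p` is a real point `y` of
`X` (`RF`) or the site `a` itself (`VF`).
-/

set_option autoImplicit false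

open Set Real Finset MeasureTheory

noncomputable section

namespace Pool.Agent.H16.AP

open Pool.Agent.H20.AL Pool.Agent.H63.P6 Pool.Agent.H16.T3 Pool.Agent.H78.P6

/-- frames of the wedge `k` at the site `a` -/
def g1 (X : Set ℂ) (k : Fin 3) (a : ℂ) : ℂ := pos X (a + E (kk k))
def g2 (X : Set ℂ) (k : Fin 3) (a : ℂ) : ℂ := pos X (a + E (kk k + 1))
def g3 (X : Set ℂ) (k : Fin 3) (a : ℂ) : ℂ := pos X (a + E (kk k + 2))

/-- excess of the non-apex cells of the wedge -/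
def Rest (X : Set ℂ) (k : Fin 3) (a : ℂ) (M : ℤ) : ℝ :=
  En (lx X k a) M (1, 0) + En (lx X k a) M (0, 1) - En (lx X k a) M (1, 1)

/-- `Phi` of the frames -/
def PhiF (V : ℂ → ℝ) (κ : ℝ) (X : Set ℂ) (k : Fin 3) (a : ℂ) : ℝ :=
  Phi V κ (disp (lx X k a) (1, 0)) (disp (lx X k a) (1, 1)) (disp (lx X k a) (0, 1))

/-- open convex quadrilateral -/
def Qo (p a b c : ℂ) : Set ℂ :=
  {u | 0 < cr (a - p) (u - p) ∧ 0 < cr (b - a) (u - a) ∧ 0 < cr (c - b) (u - b) ∧ 0 < cr (p - c) (u - c)}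

/-- bounds for the potential (true for the potential of the certificate T1) -/
structure VB (V : ℂ → ℝ) : Prop where
  nrm : ∀ u : ℂ, V u ≤ 1 / 3 → ‖u‖ ≤ 47 / 100
  up : ∀ u : ℂ, V u ≤ 1 / 3 → u.im ≤ 8 / 100
  dn : ∀ u : ℂ, V u ≤ 1 / 3 → -(35 / 100) ≤ u.im
  n120 : ∀ u : ℂ, V u ≤ 1 / 3 → -(1 / 2) * u.re + √3 / 2 * u.im ≤ 13 / 100
  n60 : ∀ u : ℂ, V u ≤ 1 / 3 → 1 / 2 * u.re + √3 / 2 * u.im ≤ 13 / 100

/-- the segment `[z, w]` meets both legs `[p, a]` and `[p, c]` -/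
def Cross2 (p a c z w : ℂ) : Prop :=
  ∃ s σ t ρ : ℝ, 0 ≤ s ∧ s ≤ 1 ∧ 0 ≤ σ ∧ σ ≤ 1 ∧ 0 ≤ t ∧ t ≤ 1 ∧ 0 ≤ ρ ∧ ρ ≤ 1 ∧
    z + (s : ℂ) * (w - z) = p + (σ : ℂ) * (a - p) ∧ z + (t : ℂ) * (w - z) = p + (ρ : ℂ) * (c - p)

/-- real fan: the point `y` of `X` is used as apex of the wedge `k` with apex site `a` -/
structure RF (X : Set ℂ) (k : Fin 3) (a y : ℂ) : Prop where
  yX : y ∈ X
  n1 : y ≠ g1 X k a
  n2 : y ≠ g2 X k a
  n3 : y ≠ g3 X k a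
  near : ‖y - a‖ ≤ 709 / 1000
  lo : -(578 / 1000) ≤ dt (y - a) (E (kk k + 1))
  c12 : 0 < cr (g1 X k a - y) (g2 X k a - y)
  c23 : 0 < cr (g2 X k a - y) (g3 X k a - y)
  c13 : 0 < cr (g1 X k a - y) (g3 X k a - y)
  up1 : 0 < dt (g1 X k a - y) (E (kk k + 1))
  up3 : 0 < dt (g3 X k a - y) (E (kk k + 1))
  s1 : 0 < dt (g1 X k a - y) (E (kk k))
  s3 : 0 < dt (g3 X k a - y) (E (kk k + 2))
  l1 : ‖g1 X k a - y‖ ^ 2 ≤ 3
  l3 : ‖g3 X k a - y‖ ^ 2 ≤ 3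
  nx : ∀ z ∈ X, z ∈ Qd y (g1 X k a) (g2 X k a) (g3 X k a) → z = y ∨ z = g1 X k a ∨ z = g2 X k a ∨ z = g3 X k a
  cross : ∀ z ∈ X, ∀ w ∈ X, z ≠ w → ‖z - w‖ ^ 2 ≤ 3 → (∀ v : ℂ, v = y ∨ v = g1 X k a ∨ v = g3 X k a → z ≠ v ∧ w ≠ v) →
    ¬ Cross2 y (g1 X k a) (g3 X k a) z w

/-- virtual fan: the unmatched site `a` itself is used as apex -/
structure VF (X : Set ℂ) (k : Fin 3) (a : ℂ) : Prop where
  unm : Unm X a
  nx : ∀ z ∈ X, z ≠ g1 X k a → z ≠ g2 X k a → z ≠ g3 X k a → z ∉ Qd a (g1 X k a) (g2 X k a) (g3 X k a)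

/-- the configuration: active wedges `act` (those with an apex piece), apex points `p`, real (`re`) or virtual -/
structure Cf (V : ℂ → ℝ) (κ el : ℝ) (X : Set ℂ) (a : Fin 3 → ℂ) (M : Fin 3 → ℤ) (c : ℂ) (act re : Fin 3 → Prop)
    (p : Fin 3 → ℂ) : Prop where
  sep : Sep X
  vb : VB V
  hel : el ≤ 147 / 100
  cL : c ∈ Lam
  hc : ∀ k, ∃ q : ℤ × ℤ, 0 ≤ q ∧ a k = c + ws k q
  ad : ∀ k, ApexData V κ el X k (a k) (M k)
  rf : ∀ k, act k → re k → RF X k (a k) (p k)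
  vf : ∀ k, act k → ¬ re k → p k = a k ∧ VF X k (a k)
  same : ∀ k l, act k → act l → a k = a l → p k = p l ∧ (re k ↔ re l)
  mat : ∀ k, act k → Mat X (a k) → re k ∧ p k = pos X (a k)

/-- the quadrilateral of the wedge `k` -/
def QK (X : Set ℂ) (a : Fin 3 → ℂ) (p : Fin 3 → ℂ) (k : Fin 3) : Set ℂ :=
  Qo (p k) (g1 X k (a k)) (g2 X k (a k)) (g3 X k (a k))

end Pool.Agent.H16.AP
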