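import Pool.Agent.H16.AP.CBV
import Pool.Agent.H30.P6.BMore
import Pool.Agent.H30.P6.VBt

/-!
# CBW: class B: wedges of an unmatched site all of whose hits are far
-/

set_option autoImplicit false

open Set Real Finset MeasureTheory

noncomputable section

namespace Pool.Agent.H16.AP

open Pool.Agent.H20.AL Pool.Agent.H63.P6 Pool.Agent.H16.T3 Pool.Agent.H78.P6 Pool.Agent.H20.AP

open Pool.Agent.H30.P6 (V30 V30_self V30_nonneg V30_le_iff)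
open Pool.Agent.H30.Q (pB FarH FarR mu mu_norm mu_re mu_im V30_mu m1 m3 mu_sub)

variable {X : Set ℂ} {k : Fin 3} {a z : ℂ} {M : ℤ}

theorem nrm_rho (k : Fin 3) (u : ℂ) : ‖rho k * u‖ = ‖u‖ := Pool.Agent.H16.T3.norm_rho_mul k u

/-- the shifted apex -/
def pv (k : Fin 3) (a : ℂ) : ℂ := a + (1 / 20 : ℂ) * E (kk k + 1)

theorem rho_pv (k : Fin 3) (a w : ℂ) : rho k * (w - pv k a) = rho k * (w - a) - pB := by
  have e : rho k * (w - pv k a) = rho k * (w - a) - (1 / 20 : ℂ) * (rho k * E (kk k + 1)) := by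
    unfold pv; ring
  rw [e, rho_E1]
  congr 1
  apply Complex.ext
  · simp [pB, d2]
  · simp [pB, d2]

section local_coords

variable (X k a)

def w1 : ℂ := disp (lx X k a) (1, 0)
def w2 : ℂ := disp (lx X k a) (1, 1)
def w3 : ℂ := disp (lx X k a) (0, 1)

theorem r1 : rho k * (g1 X k a - a) = d1 + w1 X k a := by unfold w1; rw [(D1_disp X k a).1]; ring
theorem r2 : rho k * (g2 X k a - a) = d2 + w2 X k a := by unfold w2; rw [(D1_disp X k a).2.1]; ring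
theorem r3 : rho k * (g3 X k a - a) = d3 + w3 X k a := by unfold w3; rw [(D1_disp X k a).2.2]; ring

theorem rp1 : rho k * (g1 X k a - pv k a) = d1 + w1 X k a - pB := by rw [rho_pv, r1]
theorem rp2 : rho k * (g2 X k a - pv k a) = d2 + w2 X k a - pB := by rw [rho_pv, r2]
theorem rp3 : rho k * (g3 X k a - pv k a) = d3 + w3 X k a - pB := by rw [rho_pv, r3]

end local_coords

theorem v_le (h : ApexData V30 (4 / 25) (147 / 100) X k a M) :
    V30 (w1 X k a) ≤ 1 / 3 ∧ V30 (w2 X k a) ≤ 1 / 3 ∧ V30 (w3 X k a) ≤ 1 / 3 := by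
  have p1 : (0 : ℤ × ℤ) ≤ (1, 0) ∧ ((1, 0) : ℤ × ℤ) ≠ 0 := by decide
  have p2 : (0 : ℤ × ℤ) ≤ (1, 1) ∧ ((1, 1) : ℤ × ℤ) ≠ 0 := by decide
  have p3 : (0 : ℤ × ℤ) ≤ (0, 1) ∧ ((0, 1) : ℤ × ℤ) ≠ 0 := by decide
  exact ⟨(h.pot _ p1.1 p1.2).trans (h.en _ p1.1 p1.2), (h.pot _ p2.1 p2.2).trans (h.en _ p2.1 p2.2),
    (h.pot _ p3.1 p3.2).trans (h.en _ p3.1 p3.2)⟩

theorem ne_fr (h : ApexData V30 (4 / 25) (147 / 100) X k a M) :
    g2 X k a ≠ g1 X k a ∧ g3 X k a ≠ g2 X k a ∧ g3 X k a ≠ g1 X k a := by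
  have hA := qc_v h
  refine ⟨?_, ?_, ?_⟩
  · intro e; have := hA.abc; rw [e] at this; simp [cr] at this
  · intro e; have := hA.bcp; rw [e] at this; rw [cr_self] at this; exact lt_irrefl _ this
  · intro e; have := hA.cpa; rw [e] at this; rw [cr_self] at this; exact lt_irrefl _ this

theorem ge_one (hX : Sep X) {x y : ℂ} (hx : x ∈ X) (hy : y ∈ X) (hne : x ≠ y) : 1 ≤ ‖x - y‖ := by
  have := hX x hx y hy hne
  rwa [dist_eq_norm] at this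

theorem loc_e12 (hX : Sep X) (h : ApexData V30 (4 / 25) (147 / 100) X k a M) :
    (1 ≤ ‖(d2 + w2 X k a) - (d1 + w1 X k a)‖ ∧ ‖(d2 + w2 X k a) - (d1 + w1 X k a)‖ ≤ 147 / 100) ∧
      (1 ≤ ‖(d3 + w3 X k a) - (d2 + w2 X k a)‖ ∧ ‖(d3 + w3 X k a) - (d2 + w2 X k a)‖ ≤ 147 / 100) := by
  obtain ⟨f1, f2, f3⟩ := frame h
  obtain ⟨n1, n2, -⟩ := ne_fr h
  obtain ⟨b1, b2⟩ := D1_edges h le_rfl
  rw [← r1, ← r2, ← r3, ← mul_sub, ← mul_sub, nrm_rho, nrm_rho, sub_sub_sub_cancel_right,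
    sub_sub_sub_cancel_right]
  exact ⟨⟨ge_one hX f2.1 f1.1 n1, b1⟩, ⟨ge_one hX f3.1 f2.1 n2, b2⟩⟩

theorem s3v : (1732 / 1000 : ℝ) < √3 ∧ √3 < 17321 / 10000 := ⟨by have := sq3_lo; linarith, sq3_hi⟩

/-- box bounds of the frames -/
theorem v_box {v : ℂ} (h : V30 v ≤ 1 / 3) : |v.re| ≤ 336 / 1000 ∧ v.im ≤ 8 / 100 ∧ -(35 / 100) ≤ v.im := by
  have hs := V30_le_iff.1 h
  have h3 := s3v
  have e : v.re = √3 / 2 * (2 * v.re / √3) := by field_simp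
  have f6 := hs.f6
  have f7 := hs.f7
  refine ⟨?_, by linarith [hs.f12], by linarith [hs.f1]⟩
  rw [abs_le]
  constructor <;> rw [e] <;> nlinarith

/-- a point far from the frame `x1` is on the left -/
theorem far_re {v u : ℂ} (h : V30 v ≤ 1 / 3) (hu : ‖u‖ ≤ 709 / 1000) (hi : -(578 / 1000) ≤ u.im) (hi' : u.im ≤ -(1 / 5))
    (hf : 3 < ‖d1 + v - u‖ ^ 2) : u.re ≤ 0 := by
  by_contra hc
  push Not at hc
  obtain ⟨b1, b2, b3⟩ := v_box h
  obtain ⟨b4, b5⟩ := abs_le.1 b1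
  have h3 := s3v
  have hu2 : u.re ^ 2 + u.im ^ 2 ≤ 503 / 1000 := by
    rw [← nsq]
    have := norm_nonneg u
    nlinarith
  rw [nsq] at hf
  simp only [d1, Complex.sub_re, Complex.sub_im, Complex.add_re, Complex.add_im] at hf
  set A := √3 / 2 + v.re with hA
  set B := 1 / 2 + v.im with hB
  have hA0 : 0 < A := by rw [hA]; linarith
  have hA1 : A ≤ 1203 / 1000 := by rw [hA]; linarith
  have hB0 : 0 < B := by rw [hB]; linarith
  have hB1 : B ≤ 58 / 100 := by rw [hB]; linarith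
  have k1 : A ^ 2 ≤ (1203 / 1000) ^ 2 := pow_le_pow_left₀ hA0.le hA1 2
  have k2 : B ^ 2 ≤ (58 / 100) ^ 2 := pow_le_pow_left₀ hB0.le hB1 2
  have k3 : 0 < A * u.re := mul_pos hA0 hc
  have k4 : -(B * u.im) ≤ 58 / 100 * (578 / 1000) := by
    have : B * (-u.im) ≤ 58 / 100 * (578 / 1000) := mul_le_mul hB1 (by linarith) (by linarith) (by norm_num)
    linarith
  nlinarith

/-- the mirrored version -/
theorem far_re' {v u : ℂ} (h : V30 v ≤ 1 / 3) (hu : ‖u‖ ≤ 709 / 1000) (hi : -(578 / 1000) ≤ u.im) (hi' : u.im ≤ -(1 / 5))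
    (hf : 3 < ‖d3 + v - u‖ ^ 2) : 0 ≤ u.re := by
  have := far_re (v := mu v) (u := mu u) (by rwa [V30_mu]) (by rwa [mu_norm]) hi hi' (by
    rw [m1, ← mu_sub, mu_norm]; exact hf)
  rw [mu_re] at this
  linarith

theorem rho_im (k : Fin 3) (u : ℂ) : (rho k * u).im = dt u (E (kk k + 1)) := by
  rw [← dt_rho k, rho_E1]
  simp [dt, d2]

theorem hit_norms (hX : Sep X) (h : ApexData V30 (4 / 25) (147 / 100) X k a M) (hz : Hit X k a z) :
    1 ≤ ‖d1 + w1 X k a - rho k * (z - a)‖ ∧ 1 ≤ ‖d2 + w2 X k a - rho k * (z - a)‖ ∧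
      1 ≤ ‖d3 + w3 X k a - rho k * (z - a)‖ := by
  obtain ⟨f1, f2, f3⟩ := frame h
  rw [← r1, ← r2, ← r3, ← mul_sub, ← mul_sub, ← mul_sub, nrm_rho, nrm_rho, nrm_rho,
    sub_sub_sub_cancel_right, sub_sub_sub_cancel_right, sub_sub_sub_cancel_right]
  exact ⟨ge_one hX f1.1 hz.1 hz.2.1.symm, ge_one hX f2.1 hz.1 hz.2.2.1.symm, ge_one hX f3.1 hz.1 hz.2.2.2.1.symm⟩

/-- distance of a hit from the lines of the legs -/
theorem hit_line (hz : Hit X k a z) :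
    cr (g3 X k a - a) (z - a) ≤ ‖g3 X k a - a‖ / √3 ∧ cr (z - a) (g1 X k a - a) ≤ ‖g1 X k a - a‖ / √3 := by
  obtain ⟨-, -, -, -, q, hq, hd⟩ := hz
  rw [dist_eq_norm] at hd
  have hcr : ∀ u v : ℂ, cr u v ≤ ‖u‖ * ‖v‖ := by
    intro u v
    have := lag u v
    exact (abs_le_of_sq_le_sq' (by nlinarith [sq_nonneg (dt u v)]) (by positivity)).2
  constructor
  · have e : cr (g3 X k a - a) (z - a) = cr (g3 X k a - a) (z - q) - cr (a - g3 X k a) (q - g3 X k a) := by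
      simp [cr]; ring
    have h1 := hcr (g3 X k a - a) (z - q)
    have h2 := hq.2.2.2
    have h3 : ‖g3 X k a - a‖ * ‖z - q‖ ≤ ‖g3 X k a - a‖ * (1 / √3) := mul_le_mul_of_nonneg_left hd.le (norm_nonneg _)
    rw [e, div_eq_mul_one_div]; linarith
  · have e : cr (z - a) (g1 X k a - a) = cr (z - q) (g1 X k a - a) - cr (g1 X k a - a) (q - a) := by
      simp [cr]; ring
    have h1 := hcr (z - q) (g1 X k a - a)
    have h2 := hq.1
    have h3 : ‖z - q‖ * ‖g1 X k a - a‖ ≤ (1 / √3) * ‖g1 X k a - a‖ := mul_le_mul_of_nonneg_right hd.le (norm_nonneg _)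
    rw [e, div_eq_mul_one_div, mul_comm ‖g1 X k a - a‖]; linarith

theorem phi_le (h : ApexData V30 (4 / 25) (147 / 100) X k a M) :
    Phi V30 (4 / 25) (w1 X k a) (w2 X k a) (w3 X k a) ≤ Rest X k a M := h.phi

/-- left far hits -/
theorem farH_of (hX : Sep X) (h : ApexData V30 (4 / 25) (147 / 100) X k a M) (hR : Rest X k a M ≤ 1 / 3)
    (hz : Hit X k a z) (hn : ‖z - a‖ ≤ 709 / 1000) (hi : dt (z - a) (E (kk k + 1)) ≤ -(1 / 5))
    (hf : 3 < ‖g1 X k a - z‖ ^ 2) : FarH (w1 X k a) (w2 X k a) (w3 X k a) (rho k * (z - a)) ∧ (rho k * (z - a)).re ≤ 0 := by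
  obtain ⟨v1, v2, v3⟩ := v_le h
  obtain ⟨⟨e1, e2⟩, e3, e4⟩ := loc_e12 hX h
  obtain ⟨n1, n2, n3⟩ := hit_norms hX h hz
  have hlo := hit_lo h hz
  rw [← rho_im] at hi hlo
  have hn' : ‖rho k * (z - a)‖ ≤ 709 / 1000 := by rwa [nrm_rho]
  have hf' : 3 < ‖d1 + w1 X k a - rho k * (z - a)‖ ^ 2 := by
    rw [← r1, ← mul_sub, nrm_rho, sub_sub_sub_cancel_right]; exact hf
  have hre := far_re v1 hn' hlo hi hf'
  obtain ⟨b1, b2, b3⟩ := v_box v3
  obtain ⟨b4, b5⟩ := abs_le.1 b1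
  have h3 := s3v
  refine ⟨⟨v1, v2, v3, (phi_le h).trans hR, e1, e2, e3, e4, n2, n3, hf'.le, hn', hi, ?_, ?_⟩, hre⟩
  · unfold cr
    simp only [d3, Complex.add_re, Complex.add_im]
    have k1 : -(√3 / 2) + (w3 X k a).re ≤ 0 := by linarith
    have k2 : 0 ≤ 1 / 2 + (w3 X k a).im := by linarith
    have := mul_nonneg (neg_nonneg.2 k1) (neg_nonneg.2 (hi.trans (by norm_num : -(1 / 5 : ℝ) ≤ 0)))
    have := mul_nonneg k2 (neg_nonneg.2 hre)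
    linarith
  · rw [← r3, cr_rho, nrm_rho]
    exact (hit_line hz).1

/-- right far hits -/
theorem farR_of (hX : Sep X) (h : ApexData V30 (4 / 25) (147 / 100) X k a M) (hR : Rest X k a M ≤ 1 / 3)
    (hz : Hit X k a z) (hn : ‖z - a‖ ≤ 709 / 1000) (hi : dt (z - a) (E (kk k + 1)) ≤ -(1 / 5))
    (hf : 3 < ‖g3 X k a - z‖ ^ 2) : FarR (w1 X k a) (w2 X k a) (w3 X k a) (rho k * (z - a)) ∧ 0 ≤ (rho k * (z - a)).re := by
  obtain ⟨v1, v2, v3⟩ := v_le h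
  obtain ⟨⟨e1, e2⟩, e3, e4⟩ := loc_e12 hX h
  obtain ⟨n1, n2, n3⟩ := hit_norms hX h hz
  have hlo := hit_lo h hz
  rw [← rho_im] at hi hlo
  have hn' : ‖rho k * (z - a)‖ ≤ 709 / 1000 := by rwa [nrm_rho]
  have hf' : 3 < ‖d3 + w3 X k a - rho k * (z - a)‖ ^ 2 := by
    rw [← r3, ← mul_sub, nrm_rho, sub_sub_sub_cancel_right]; exact hf
  have hre := far_re' v3 hn' hlo hi hf'
  obtain ⟨b1, b2, b3⟩ := v_box v1
  obtain ⟨b4, b5⟩ := abs_le.1 b1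
  have h3 := s3v
  refine ⟨⟨v1, v2, v3, (phi_le h).trans hR, e1, e2, e3, e4, n2, n1, hf'.le, hn', hi, ?_, ?_⟩, hre⟩
  · unfold cr
    simp only [d1, Complex.add_re, Complex.add_im]
    have k1 : 0 ≤ √3 / 2 + (w1 X k a).re := by linarith
    have k2 : 0 ≤ 1 / 2 + (w1 X k a).im := by linarith
    have := mul_nonneg k1 (neg_nonneg.2 (hi.trans (by norm_num : -(1 / 5 : ℝ) ≤ 0)))
    have := mul_nonneg k2 hre
    linarith
  · rw [← r1, cr_rho, nrm_rho]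
    exact (hit_line hz).2

/-- two low points on the same side are near -/
theorem near_side {u u' : ℂ} (h1 : ‖u‖ ≤ 709 / 1000) (h2 : ‖u'‖ ≤ 709 / 1000) (i1 : u.im ≤ -(1 / 5)) (i2 : u'.im ≤ -(1 / 5))
    (hs : 0 ≤ u.re * u'.re) : ‖u - u'‖ < 1 := by
  have k1 : u.re ^ 2 + u.im ^ 2 ≤ 503 / 1000 := by
    rw [← nsq]; have := norm_nonneg u; nlinarith
  have k2 : u'.re ^ 2 + u'.im ^ 2 ≤ 503 / 1000 := by
    rw [← nsq]; have := norm_nonneg u'; nlinarith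
  have k3 : 1 / 25 ≤ u.im * u'.im := by nlinarith
  have k4 : ‖u - u'‖ ^ 2 < 1 := by
    rw [nsq]
    simp only [Complex.sub_re, Complex.sub_im]
    nlinarith
  nlinarith [norm_nonneg (u - u')]

/-- numerical facts of class B -/
structure BN (X : Set ℂ) (k : Fin 3) (a p : ℂ) : Prop where
  n1 : 7 / 10 ≤ ‖g1 X k a - p‖
  n3 : 7 / 10 ≤ ‖g3 X k a - p‖
  c12 : 1 / 2 * ‖g1 X k a - p‖ ≤ cr (g1 X k a - p) (g2 X k a - p)
  c23 : 1 / 2 * ‖g3 X k a - p‖ ≤ cr (g2 X k a - p) (g3 X k a - p)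
  c13 : 0 < cr (g1 X k a - p) (g3 X k a - p)
  ang : dt (g1 X k a - p) (g3 X k a - p) ≤ -(454 / 1000) * (‖g1 X k a - p‖ * ‖g3 X k a - p‖)

theorem pB_norm : ‖pB‖ = 1 / 20 := by
  have : ‖pB‖ ^ 2 = (1 / 20) ^ 2 := by rw [nsq]; simp [pB]
  exact (sq_eq_sq₀ (norm_nonneg _) (by norm_num)).1 this

theorem bn_left (H : FarH (w1 X k a) (w2 X k a) (w3 X k a) (rho k * (z - a))) : BN X k a (pv k a) := by
  refine ⟨?_, ?_, ?_, ?_, ?_, ?_⟩
  · rw [← nrm_rho k, rp1]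
    have h1 : √3 ≤ ‖d1 + w1 X k a - rho k * (z - a)‖ := Real.sqrt_le_iff.2 ⟨norm_nonneg _, H.far⟩
    have h2 : ‖d1 + w1 X k a - rho k * (z - a)‖ ≤ ‖d1 + w1 X k a - pB‖ + ‖rho k * (z - a) - pB‖ := by
      have : d1 + w1 X k a - rho k * (z - a) = (d1 + w1 X k a - pB) - (rho k * (z - a) - pB) := by ring
      rw [this]; exact norm_sub_le _ _
    have h3 : ‖rho k * (z - a) - pB‖ ≤ ‖rho k * (z - a)‖ + ‖pB‖ := norm_sub_le _ _
    rw [pB_norm] at h3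
    have := H.un
    have := s3v.1
    linarith
  · rw [← nrm_rho k, rp3]; exact H.B4
  · rw [← nrm_rho k, ← cr_rho k, rp1, rp2]; exact H.B5
  · rw [← nrm_rho k, ← cr_rho k, rp2, rp3]; exact H.B6
  · rw [← cr_rho k, rp1, rp3]; exact H.c13
  · rw [← nrm_rho k, ← nrm_rho k (g3 X k a - pv k a), ← dt_rho k, rp1, rp3]; exact H.B3'

theorem bn_right (H : FarR (w1 X k a) (w2 X k a) (w3 X k a) (rho k * (z - a))) : BN X k a (pv k a) := by
  refine ⟨?_, ?_, ?_, ?_, ?_, ?_⟩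
  · rw [← nrm_rho k, rp1]; exact H.B4
  · rw [← nrm_rho k, rp3]
    have h1 : √3 ≤ ‖d3 + w3 X k a - rho k * (z - a)‖ := Real.sqrt_le_iff.2 ⟨norm_nonneg _, H.far⟩
    have h2 : ‖d3 + w3 X k a - rho k * (z - a)‖ ≤ ‖d3 + w3 X k a - pB‖ + ‖rho k * (z - a) - pB‖ := by
      have : d3 + w3 X k a - rho k * (z - a) = (d3 + w3 X k a - pB) - (rho k * (z - a) - pB) := by ring
      rw [this]; exact norm_sub_le _ _
    have h3 : ‖rho k * (z - a) - pB‖ ≤ ‖rho k * (z - a)‖ + ‖pB‖ := norm_sub_le _ _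
    rw [pB_norm] at h3
    have := H.un
    have := s3v.1
    linarith
  · rw [← nrm_rho k, ← cr_rho k, rp1, rp2]; exact H.B5
  · rw [← nrm_rho k, ← cr_rho k, rp2, rp3]; exact H.B6
  · rw [← cr_rho k, rp1, rp3]; exact H.c13
  · rw [← nrm_rho k, ← nrm_rho k (g3 X k a - pv k a), ← dt_rho k, rp1, rp3]; exact H.B3'

end Pool.Agent.H16.AP
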