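import Pool.Agent.H16.AP.CBW

/-!
# CBX: class B, the piece
-/

set_option autoImplicit false

open Set Real Finset MeasureTheory

noncomputable section

namespace Pool.Agent.H16.AP

open Pool.Agent.H20.AL Pool.Agent.H63.P6 Pool.Agent.H16.T3 Pool.Agent.H78.P6 Pool.Agent.H20.AP

open Pool.Agent.H30.P6 (V30)
open Pool.Agent.H30.Q (pB FarH FarR)

variable {X : Set ℂ} {k : Fin 3} {a z p : ℂ} {M : ℤ}

/-- the shifted apex is in the quadrilateral of the site -/
theorem pv_mem (h : ApexData V30 (4 / 25) (147 / 100) X k a M) (hb : BN X k a (pv k a)) :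
    pv k a ∈ Qd a (g1 X k a) (g2 X k a) (g3 X k a) := by
  obtain ⟨v1, v2, v3⟩ := v_le h
  obtain ⟨b1, -, -⟩ := v_box v1
  obtain ⟨b3, -, -⟩ := v_box v3
  obtain ⟨b4, b5⟩ := abs_le.1 b1
  obtain ⟨b6, b7⟩ := abs_le.1 b3
  have h3 := s3v
  have e1 : rho k * (pv k a - a) = pB := by
    have := rho_pv k a a
    have e : rho k * (pv k a - a) = -(rho k * (a - pv k a)) := by ring
    rw [e, this]; simp
  have n1 : 0 ≤ ‖g1 X k a - pv k a‖ := norm_nonneg _
  have n3 : 0 ≤ ‖g3 X k a - pv k a‖ := norm_nonneg _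
  refine ⟨?_, ?_, ?_, ?_⟩
  · rw [← cr_rho k, r1, e1]
    simp only [cr, d1, pB, Complex.add_re, Complex.add_im]
    nlinarith
  · have e : cr (g2 X k a - g1 X k a) (pv k a - g1 X k a) = cr (g1 X k a - pv k a) (g2 X k a - pv k a) := by
      simp [cr]; ring
    rw [e]; have := hb.c12; linarith
  · have e : cr (g3 X k a - g2 X k a) (pv k a - g2 X k a) = cr (g2 X k a - pv k a) (g3 X k a - pv k a) := by
      simp [cr]; ring
    rw [e]; have := hb.c23; linarith
  · have e : cr (a - g3 X k a) (pv k a - g3 X k a) = -cr (g3 X k a - a) (pv k a - a) := by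
      simp [cr]; ring
    rw [e, ← cr_rho k, r3, e1]
    simp only [cr, d3, pB, Complex.add_re, Complex.add_im]
    nlinarith

theorem inv3_le : 1 / √3 ≤ 7 / 10 := by
  rw [div_le_div_iff₀ sq3_pos (by norm_num)]
  have := s3v.1
  linarith

/-- numerical facts give the convexity -/
theorem bn_qc (h : ApexData V30 (4 / 25) (147 / 100) X k a M) (hb : BN X k a p) :
    QC p (g1 X k a) (g2 X k a) (g3 X k a) := by
  have n1 := hb.n1
  have n3 := hb.n3
  exact ⟨by linarith [hb.c12], (qc_v h).abc, by linarith [hb.c23], hb.c13⟩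

theorem bn_13 (hb : BN X k a p) : 2 / √3 ≤ ‖g1 X k a - g3 X k a‖ := by
  have n1 := hb.n1
  have n3 := hb.n3
  have ha := hb.ang
  have e : ‖g1 X k a - g3 X k a‖ ^ 2 = ‖g1 X k a - p‖ ^ 2 + ‖g3 X k a - p‖ ^ 2 - 2 * dt (g1 X k a - p) (g3 X k a - p) := by
    rw [nsq, nsq, nsq]; simp [dt]; ring
  have h1 : (2 / √3) ^ 2 = 4 / 3 := by
    rw [div_pow, Real.sq_sqrt (by norm_num)]; norm_num
  have h2 : 4 / 3 ≤ ‖g1 X k a - g3 X k a‖ ^ 2 := by
    rw [e]
    have k1 : (7 / 10 : ℝ) * (7 / 10) ≤ ‖g1 X k a - p‖ * ‖g3 X k a - p‖ := mul_le_mul n1 n3 (by norm_num) (by linarith)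
    nlinarith
  rw [← h1] at h2
  exact le_of_sq_le_sq h2 (norm_nonneg _)
where
  le_of_sq_le_sq {x y : ℝ} (h : x ^ 2 ≤ y ^ 2) (hy : 0 ≤ y) : x ≤ y := by
    by_contra hc
    push Not at hc
    nlinarith

/-- facts about all hits -/
structure HB (X : Set ℂ) (k : Fin 3) (a p : ℂ) (L R : ℂ → Prop) (δ : ℝ) : Prop where
  lr : ∀ z, Hit X k a z → L z ∨ R z
  hl : ∀ z, L z → Hit X k a z ∧ 3 < ‖g1 X k a - z‖ ^ 2 ∧ δ * ‖g3 X k a - p‖ ≤ cr (g3 X k a - p) (z - p)
  hr : ∀ z, R z → Hit X k a z ∧ 3 < ‖g3 X k a - z‖ ^ 2 ∧ δ * ‖g1 X k a - p‖ ≤ cr (z - p) (g1 X k a - p)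
  ul : ∀ z z', L z → L z' → z = z'
  ur : ∀ z z', R z → R z' → z = z'

theorem two_sq3 {x y : ℂ} (h : 3 < ‖x - y‖ ^ 2) : 2 / √3 ≤ ‖y - x‖ := by
  have h1 : √3 ≤ ‖y - x‖ := by
    rw [norm_sub_rev]; exact Real.sqrt_le_iff.2 ⟨norm_nonneg _, h.le⟩
  have h2 : 2 / √3 ≤ √3 := by
    rw [div_le_iff₀ sq3_pos, Real.mul_self_sqrt (by norm_num)]; norm_num
  linarith

theorem not_hit (hz : z ∈ X) (z1 : z ≠ g1 X k a) (z2 : z ≠ g2 X k a) (z3 : z ≠ g3 X k a) (hh : ¬ Hit X k a z) :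
    ∀ q ∈ Qd a (g1 X k a) (g2 X k a) (g3 X k a), 1 / √3 ≤ dist z q := by
  intro q hq
  by_contra hc
  push Not at hc
  exact hh ⟨hz, z1, z2, z3, q, hq, hc⟩

/-- both rays are free -/
theorem rays (hX : Sep X) (h : ApexData V30 (4 / 25) (147 / 100) X k a M) (hb : BN X k a p)
    (hp : p ∈ Qd a (g1 X k a) (g2 X k a) (g3 X k a)) {L R : ℂ → Prop} {δ : ℝ} (hδ : 1 / 2 ≤ δ) (H : HB X k a p L R δ) :
    Free X (g1 X k a) p ∧ Free X (g3 X k a) p := by
  have hA := qc_v h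
  obtain ⟨f1, f2, f3⟩ := frame h
  obtain ⟨n21, n32, n31⟩ := ne_fr h
  have i3 := inv3_le
  constructor
  · refine free_of_nocap fun z hz hz1 => ?_
    by_cases z2 : z = g2 X k a
    · subst z2
      refine nocap_line (ge_one hX hz f1.1 hz1) ?_
      have e : cr (p - g1 X k a) (g2 X k a - g1 X k a) = -cr (g1 X k a - p) (g2 X k a - p) := by simp [cr]; ring
      rw [e, abs_neg, norm_sub_rev]
      exact hb.c12.trans (le_abs_self _)
    by_cases z3 : z = g3 X k a
    · subst z3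
      refine nocap_far ?_
      rw [norm_sub_rev]; exact bn_13 hb
    by_cases hh : Hit X k a z
    · rcases H.lr z hh with hL | hR
      · exact nocap_far (two_sq3 (H.hl z hL).2.1)
      · refine nocap_line (ge_one hX hz f1.1 hz1) ?_
        have e : cr (p - g1 X k a) (z - g1 X k a) = cr (z - p) (g1 X k a - p) := by simp [cr]; ring
        rw [e, norm_sub_rev]
        refine le_trans ?_ (le_abs_self _)
        refine le_trans ?_ (H.hr z hR).2.2
        exact mul_le_mul_of_nonneg_right hδ (norm_nonneg _)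
    · refine nocap_out (qd_b hA) hp ?_ (not_hit hz hz1 z2 z3 hh)
      rw [norm_sub_rev]; linarith [hb.n1]
  · refine free_of_nocap fun z hz hz3 => ?_
    by_cases z2 : z = g2 X k a
    · subst z2
      refine nocap_line (ge_one hX hz f3.1 hz3) ?_
      have e : cr (p - g3 X k a) (g2 X k a - g3 X k a) = cr (g2 X k a - p) (g3 X k a - p) := by simp [cr]; ring
      rw [e, norm_sub_rev]
      exact hb.c23.trans (le_abs_self _)
    by_cases z1 : z = g1 X k a
    · subst z1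
      exact nocap_far (bn_13 hb)
    by_cases hh : Hit X k a z
    · rcases H.lr z hh with hL | hR
      · refine nocap_line (ge_one hX hz f3.1 hz3) ?_
        have e : cr (p - g3 X k a) (z - g3 X k a) = -cr (g3 X k a - p) (z - p) := by simp [cr]; ring
        rw [e, abs_neg, norm_sub_rev]
        refine le_trans ?_ (le_abs_self _)
        refine le_trans ?_ (H.hl z hL).2.2
        exact mul_le_mul_of_nonneg_right hδ (norm_nonneg _)
      · exact nocap_far (two_sq3 (H.hr z hR).2.1)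
    · refine nocap_out (qd_d hA) hp ?_ (not_hit hz z1 z2 hz3 hh)
      rw [norm_sub_rev]; linarith [hb.n3]

/-- the piece of a wedge all of whose hits are far -/
theorem b_piece (hX : Sep X) (h : ApexData V30 (4 / 25) (147 / 100) X k a M) (hb : BN X k a p)
    (hp : p ∈ Qd a (g1 X k a) (g2 X k a) (g3 X k a)) {L R : ℂ → Prop} {δ ρ : ℝ} (hδ : 1 / 2 ≤ δ) (hδ1 : δ ≤ 1 / √3)
    (hρ : 2 * (1 / √3 - δ) * √(1 / 3 - δ ^ 2) ≤ √3 / 2 * ρ) (H : HB X k a p L R δ) :
    ∃ (P : Set ℂ) (C : Finset (ℂ × ℂ × ℂ)), Piece X P C ∧ P ⊆ Qo a (g1 X k a) (g2 X k a) (g3 X k a) ∧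
      √3 / 2 * (fanY X k a p + 3249 / 10000 - 2 * ρ) ≤ val P C := by
  have hA := qc_v h
  have hQ := bn_qc h hb
  obtain ⟨f1, f2, f3⟩ := frame h
  obtain ⟨n21, n32, n31⟩ := ne_fr h
  obtain ⟨ray1, ray3⟩ := rays hX h hb hp hδ H
  obtain ⟨b1, b2⟩ := base_len (el_sq le_rfl h) h
  have hn1 : g1 X k a ≠ p := by
    intro e
    have := hb.n1
    rw [e, sub_self, norm_zero] at this
    norm_num at this
  have hn3 : p ≠ g3 X k a := by
    intro e
    have := hb.n3
    rw [← e, sub_self, norm_zero] at this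
    norm_num at this
  obtain ⟨SL, l1, l2, l3⟩ := side_cap (K := Qo p (g1 X k a) (g2 X k a) (g3 X k a)) (b := g3 X k a) (e := p) (L := L)
    (by linarith) hδ1 hn3 (fun q hq => hq.2.2.2.le) (fun w hw => by
      have e : cr (p - g3 X k a) (w - g3 X k a) = -cr (g3 X k a - p) (w - p) := by simp [cr]; ring
      rw [e, norm_sub_rev]
      exact neg_le_neg (H.hl w hw).2.2) H.ul
  obtain ⟨SR, q1, q2, q3⟩ := side_cap (K := Qo p (g1 X k a) (g2 X k a) (g3 X k a)) (b := p) (e := g1 X k a) (L := R)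
    (by linarith) hδ1 hn1 (fun q hq => hq.1.le) (fun w hw => by
      have e : cr (g1 X k a - p) (w - p) = -cr (w - p) (g1 X k a - p) := by simp [cr]; ring
      rw [e]
      exact neg_le_neg (H.hr w hw).2.2) H.ur
  have hsub := qo_shift hQ hp hA
  have fx1 : g1 X k a ∈ X := f1.1
  have fx2 : g2 X k a ∈ X := f2.1
  have fx3 : g3 X k a ∈ X := f3.1
  obtain ⟨P, C, c1, c2, c3⟩ := vpiece hX fx1 fx2 fx3 hQ (b1.trans (by norm_num)) (b2.trans (by norm_num)) ray1 ray3
    (S := SL ∪ SR) (β := 2 * ρ) (by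
      intro w hw w1 w2 w3
      by_cases hh : Hit X k a w
      · rcases H.lr w hh with hL | hR
        · exact (l3 w hL).trans Set.subset_union_left
        · exact (q3 w hR).trans Set.subset_union_right
      · rintro q ⟨hq, hqD⟩
        exfalso
        have h1 := not_hit hw w1 w2 w3 hh q (Qo_sub_Qd _ _ _ _ (hsub hq))
        have h2 := mem_D.1 hqD
        rw [dist_comm, dist_eq_norm] at h1
        linarith)
    (measure_union_lt_top l1.lt_top q1.lt_top).ne (by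
      have := measureReal_union_le (μ := volume) SL SR
      nlinarith)
  refine ⟨P, C, c1, c2.trans hsub, le_trans ?_ c3⟩
  have hang := ag_sum (t := 2 * π * (3249 / 10000)) hQ.pab hQ.bcp (by
    have := Real.pi_pos
    linarith) (by
      refine hb.ang.trans ?_
      exact mul_le_mul_of_nonneg_right cos117 (by positivity))
  have h1 : 3249 / 10000 ≤ (Ag p (g1 X k a) (g2 X k a) + Ag p (g2 X k a) (g3 X k a)) / (2 * π) := by
    rw [le_div_iff₀ (by positivity)]
    linarith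
  unfold fanY
  exact mul_le_mul_of_nonneg_left (by linarith) (by positivity)

/-- class B: all hits are far, there is at least one -/
theorem classB (hX : Sep X) (h : ApexData V30 (4 / 25) (147 / 100) X k a M) (hR : Rest X k a M ≤ 1 / 3)
    (hh : ∀ z, Hit X k a z → ‖z - a‖ ≤ 709 / 1000 ∧ dt (z - a) (E (kk k + 1)) ≤ -(1 / 5))
    (hex : ∃ z, Hit X k a z) (hfar : ∀ z, Hit X k a z → ¬ Shrt X k a z) :
    ∃ (P : Set ℂ) (C : Finset (ℂ × ℂ × ℂ)) (w : ℝ), Piece X P C ∧ P ⊆ Qo a (g1 X k a) (g2 X k a) (g3 X k a) ∧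
      √3 / 2 * w ≤ val P C ∧ 1 / 3 < w + Rest X k a M := by
  set L : ℂ → Prop := fun z => Hit X k a z ∧ 3 < ‖g1 X k a - z‖ ^ 2 with hL
  set R : ℂ → Prop := fun z => Hit X k a z ∧ 3 < ‖g3 X k a - z‖ ^ 2 with hRd
  have hlr : ∀ z, Hit X k a z → L z ∨ R z := by
    intro z hz
    have := hfar z hz
    unfold Shrt at this
    rw [not_and_or, not_le, not_le] at this
    exact this.imp (fun g => ⟨hz, g⟩) (fun g => ⟨hz, g⟩)
  have fL : ∀ z, L z → FarH (w1 X k a) (w2 X k a) (w3 X k a) (rho k * (z - a)) ∧ (rho k * (z - a)).re ≤ 0 :=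
    fun z hz => farH_of hX h hR hz.1 (hh z hz.1).1 (hh z hz.1).2 hz.2
  have fR : ∀ z, R z → FarR (w1 X k a) (w2 X k a) (w3 X k a) (rho k * (z - a)) ∧ 0 ≤ (rho k * (z - a)).re :=
    fun z hz => farR_of hX h hR hz.1 (hh z hz.1).1 (hh z hz.1).2 hz.2
  have huniq : ∀ z z', Hit X k a z → Hit X k a z' → 0 ≤ (rho k * (z - a)).re * (rho k * (z' - a)).re → z = z' := by
    intro z z' hz hz' hs
    by_contra hne
    have h1 := ge_one hX hz.1 hz'.1 hne
    have h2 := near_side (u := rho k * (z - a)) (u' := rho k * (z' - a)) (by rw [nrm_rho]; exact (hh z hz).1)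
      (by rw [nrm_rho]; exact (hh z' hz').1) (by rw [rho_im]; exact (hh z hz).2) (by rw [rho_im]; exact (hh z' hz').2) hs
    rw [← mul_sub, nrm_rho, sub_sub_sub_cancel_right] at h2
    linarith
  have uL : ∀ z z', L z → L z' → z = z' := fun z z' hz hz' =>
    huniq z z' hz.1 hz'.1 (mul_nonneg_of_nonpos_of_nonpos (fL z hz).2 (fL z' hz').2)
  have uR : ∀ z z', R z → R z' → z = z' := fun z z' hz hz' =>
    huniq z z' hz.1 hz'.1 (mul_nonneg (fR z hz).2 (fR z' hz').2)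
  set f := fanY X k a (pv k a) + Phi V30 (4 / 25) (w1 X k a) (w2 X k a) (w3 X k a) with hf
  have ef : fanw (d1 + w1 X k a - pB) (d2 + w2 X k a - pB) (d3 + w3 X k a - pB) = fanY X k a (pv k a) := by
    rw [← rp1, ← rp2, ← rp3]
    unfold fanY fanw
    rw [cr_rho, cr_rho]
  have hb : BN X k a (pv k a) ∧ 9 / 200 ≤ f := by
    obtain ⟨z, hz⟩ := hex
    rcases hlr z hz with g | g
    · refine ⟨bn_left (fL z g).1, ?_⟩
      have := (fL z g).1.B1
      rwa [ef] at this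
    · refine ⟨bn_right (fR z g).1, ?_⟩
      have := (fR z g).1.B1
      rwa [ef] at this
  have hp := pv_mem h hb.1
  have hphi := phi_le h
  have cL : ∀ z, cr (d3 + w3 X k a - pB) (rho k * (z - a) - pB) = cr (g3 X k a - pv k a) (z - pv k a) := by
    intro z; rw [← rp3, ← rho_pv, cr_rho]
  have cR : ∀ z, cr (rho k * (z - a) - pB) (d1 + w1 X k a - pB) = cr (z - pv k a) (g1 X k a - pv k a) := by
    intro z; rw [← rp1, ← rho_pv, cr_rho]
  have nL : ‖d3 + w3 X k a - pB‖ = ‖g3 X k a - pv k a‖ := by rw [← rp3, nrm_rho]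
  have nR : ‖d1 + w1 X k a - pB‖ = ‖g1 X k a - pv k a‖ := by rw [← rp1, nrm_rho]
  have main : ∀ δ ρ φ : ℝ, 1 / 2 ≤ δ → δ ≤ 1 / √3 → 2 * (1 / √3 - δ) * √(1 / 3 - δ ^ 2) ≤ √3 / 2 * ρ → φ ≤ f →
      1 / 3 < φ + 3249 / 10000 - 2 * ρ →
      (∀ z, L z → δ * ‖g3 X k a - pv k a‖ ≤ cr (g3 X k a - pv k a) (z - pv k a)) →
      (∀ z, R z → δ * ‖g1 X k a - pv k a‖ ≤ cr (z - pv k a) (g1 X k a - pv k a)) →
      ∃ (P : Set ℂ) (C : Finset (ℂ × ℂ × ℂ)) (w : ℝ), Piece X P C ∧ P ⊆ Qo a (g1 X k a) (g2 X k a) (g3 X k a) ∧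
        √3 / 2 * w ≤ val P C ∧ 1 / 3 < w + Rest X k a M := by
    intro δ ρ φ d1 d2 d3 d4 d5 d6 d7
    obtain ⟨P, C, c1, c2, c3⟩ := b_piece hX h hb.1 hp d1 d2 d3
      ⟨hlr, fun z hz => ⟨hz.1, hz.2, d6 z hz⟩, fun z hz => ⟨hz.1, hz.2, d7 z hz⟩, uL, uR⟩
    exact ⟨P, C, _, c1, c2, c3, by linarith⟩
  obtain ⟨m1, m2, m3⟩ := rect_num
  have d1 : (1 / 2 : ℝ) ≤ 1 / √3 := by
    rw [div_le_div_iff₀ (by norm_num) sq3_pos]; linarith [s3v.2]
  have d2 : (13 / 25 : ℝ) ≤ 1 / √3 := by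
    rw [div_le_div_iff₀ (by norm_num) sq3_pos]; linarith [s3v.2]
  have d3 : (27 / 50 : ℝ) ≤ 1 / √3 := by
    rw [div_le_div_iff₀ (by norm_num) sq3_pos]; linarith [s3v.2]
  by_cases c1 : 3 / 25 ≤ f
  · refine main (1 / 2) _ _ le_rfl d1 m1 c1 (by norm_num) (fun z hz => ?_) (fun z hz => ?_)
    · have := (fL z hz).1.B0
      rwa [cL, nL] at this
    · have := (fR z hz).1.B0
      rwa [cR, nR] at this
  push Not at c1
  by_cases c2 : 2 / 25 ≤ f
  · refine main (13 / 25) _ _ (by norm_num) d2 m2 c2 (by norm_num) (fun z hz => ?_) (fun z hz => ?_)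
    · by_contra hc
      push Not at hc
      rw [← cL, ← nL] at hc
      have := (fL z hz).1.B2p hc.le
      rw [ef] at this
      linarith
    · by_contra hc
      push Not at hc
      rw [← cR, ← nR] at hc
      have := (fR z hz).1.B2p hc.le
      rw [ef] at this
      linarith
  push Not at c2
  refine main (27 / 50) _ _ (by norm_num) d3 m3 hb.2 (by norm_num) (fun z hz => ?_) (fun z hz => ?_)
  · by_contra hc
    push Not at hc
    rw [← cL, ← nL] at hc
    have := (fL z hz).1.B2 hc.le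
    rw [ef] at this
    linarith
  · by_contra hc
    push Not at hc
    rw [← cR, ← nR] at hc
    have := (fR z hz).1.B2 hc.le
    rw [ef] at this
    linarith

end Pool.Agent.H16.AP
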