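import Pool.Agent.H16.AP.QF

/-!
# CN: corners of displaced lattice triangles at the vertices of the quadrilateral
-/

set_option autoImplicit false

open Set Real

noncomputable section

namespace Pool.Agent.H16.AP

open Pool.Agent.H20.AL Pool.Agent.H63.P6 Pool.Agent.H16.T3 Pool.Agent.H78.P6

/-- a corner of a displaced lattice triangle: apex site `t`, sector `j` -/
structure Cn (X : Set ℂ) (t : ℂ) (j : Fin 6) : Prop where
  tL : t ∈ Lam
  m0 : Mt X t
  m1 : Mt X (t + E j)
  m2 : Mt X (t + E (j + 1))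
  t1 : Turn (E j) (pos X (t + E j) - pos X t)
  t2 : Turn (E (j + 1)) (pos X (t + E (j + 1)) - pos X t)

/-- the open cone of the corner -/
def CnK (X : Set ℂ) (t : ℂ) (j : Fin 6) : Set ℂ := Cone (pos X t) (pos X (t + E j)) (pos X (t + E (j + 1)))

theorem kk2a (k : Fin 3) : kk k + 1 + 1 = kk k + 2 := by rw [add_assoc]; rfl

theorem Ek1 (k : Fin 3) : E (kk k + 1) = E (kk k) + E (kk k + 2) := E1s _
theorem Ek3 (k : Fin 3) : E (kk k + 3) = -E (kk k) := E3 _
theorem Ek4 (k : Fin 3) : E (kk k + 4) = -(E (kk k) + E (kk k + 2)) := by rw [E4, Ek1]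
theorem Ek5 (k : Fin 3) : E (kk k + 5) = -E (kk k + 2) := E5 _
theorem Ek6 (k : Fin 3) : E (kk k + 5 + 1) = E (kk k) := by
  rw [add_assoc]; congr 1; exact add_zero _

variable {X : Set ℂ} {k : Fin 3} {a y : ℂ}

/-- corner at `g1` -/
theorem cn_g1 (h : QF X k a y) (hy : Mt X a → y = pos X a) (i : Fin 6) (c : Cn X (a + E (kk k)) (kk k + i))
    (hi : i ≠ 2) : Disjoint (CnK X (a + E (kk k)) (kk k + i)) (Cone (g1 X k a) (g2 X k a) y) := by
  rw [Set.disjoint_left]
  rintro v ⟨v3, v4⟩ hq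
  obtain ⟨v1, v2⟩ := hq
  have hg : pos X (a + E (kk k)) = g1 X k a := rfl
  rw [hg] at v3 v4
  have c1 := c.t1
  have c2 := c.t2
  rw [hg] at c1 c2
  rw [add_assoc (kk k) i 1] at c2 v4
  refine cx1 (E (kk k)) (b := g2 X k a - g1 X k a) (p := y - g1 X k a) i hi (by rw [DirE]; exact h.t12) ?_ ?_ ?_
    (by rw [DirE]; exact c1) (by rw [DirE]; exact c2) ?_ ?_ ?_ v1 v2 v3 v4
  · have := h.c12
    rw [cr_cyc] at this; exact this
  · rw [DirE]
    have := h.up1
    rw [← neg_sub, dt_neg_l]; linarith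
  · rw [DirE, Ek3]
    have := h.s1
    rw [← neg_sub, dt_neg_l, dt_neg_r]; linarith
  · rintro rfl
    have : a + E (kk k) + E (kk k + (1 + 1)) = a + E (kk k + 1) := by
      rw [← add_assoc, kk2a, Ek1]; ring
    rw [this]; rfl
  · rintro rfl
    have e : a + E (kk k) + E (kk k + 3) = a := by rw [Ek3]; ring
    have hm := c.m1
    rw [e] at hm ⊢
    rw [hy hm]
  · rintro rfl
    have e : a + E (kk k) + E (kk k + 4) = a + E (kk k + 5) := by rw [Ek4, Ek5]; ring
    have hm := c.m1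
    rw [e] at hm ⊢
    by_cases hyx : y = pos X (a + E (kk k + 5))
    · right; rw [hyx]
    · left
      have h6 := Ek6 k
      have hy1 : y ≠ g1 X k a := by
        rintro rfl
        have := h.up1
        simp [dt] at this
      have := h.ori (kk k + 5) hm (by rw [h6]; exact h.m1) hyx (by rw [h6]; exact hy1)
      rw [h6, hg] at this
      rw [cr_cyc2] at this
      exact this

/-- corner at `g3` -/
theorem cn_g3 (h : QF X k a y) (hy : Mt X a → y = pos X a) (i : Fin 6) (c : Cn X (a + E (kk k + 2)) (kk k + i))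
    (hi : i ≠ 5) : Disjoint (CnK X (a + E (kk k + 2)) (kk k + i)) (Cone (g3 X k a) y (g2 X k a)) := by
  rw [Set.disjoint_left]
  rintro v ⟨v3, v4⟩ hq
  obtain ⟨v1, v2⟩ := hq
  have hg : pos X (a + E (kk k + 2)) = g3 X k a := rfl
  rw [hg] at v3 v4
  have c1 := c.t1
  have c2 := c.t2
  rw [hg] at c1 c2
  rw [add_assoc (kk k) i 1] at c2 v4
  refine cx3 (E (kk k)) (b := g2 X k a - g3 X k a) (p := y - g3 X k a) i hi (by rw [DirE, add_zero]; exact h.t32) ?_ ?_ ?_
    (by rw [DirE]; exact c1) (by rw [DirE]; exact c2) ?_ ?_ ?_ v1 v2 v3 v4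
  · have := h.c23
    rw [cr_cyc2] at this; exact this
  · rw [DirE]
    have := h.up3
    rw [← neg_sub, dt_neg_l]; linarith
  · rw [DirE, Ek5]
    have := h.s3
    rw [← neg_sub, dt_neg_l, dt_neg_r]; linarith
  · rintro rfl
    have : a + E (kk k + 2) + E (kk k + 0) = a + E (kk k + 1) := by
      rw [add_zero, Ek1]; ring
    rw [this]; rfl
  · rintro rfl
    have e : a + E (kk k + 2) + E (kk k + (4 + 1)) = a := by
      rw [show (4 + 1 : Fin 6) = 5 from rfl, Ek5]; ring
    have hm := c.m2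
    rw [add_assoc (kk k) 4 1] at hm
    rw [e] at hm ⊢
    rw [hy hm]
  · rintro rfl
    have e : a + E (kk k + 2) + E (kk k + (3 + 1)) = a + E (kk k + 3) := by
      rw [show (3 + 1 : Fin 6) = 4 from rfl, Ek4, Ek3]; ring
    have hm := c.m2
    rw [add_assoc (kk k) 3 1] at hm
    rw [e] at hm ⊢
    by_cases hyx : y = pos X (a + E (kk k + 3))
    · right; rw [hyx]
    · left
      have hy3 : y ≠ g3 X k a := by
        rintro rfl
        have := h.up3
        simp [dt] at this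
      have h23 : kk k + 2 + 1 = kk k + 3 := by rw [add_assoc]; rfl
      have := h.ori (kk k + 2) h.m3 (by rw [h23]; exact hm) hy3 (by rw [h23]; exact hyx)
      rw [h23, hg] at this
      rw [cr_cyc] at this
      exact this

/-- corner at `g2` -/
theorem cn_g2 (h : QF X k a y) (i : Fin 6) (c : Cn X (a + E (kk k + 1)) (kk k + i))
    (hi3 : i ≠ 3) (hi4 : i ≠ 4) :
    Disjoint (CnK X (a + E (kk k + 1)) (kk k + i)) (Cone (g2 X k a) (g3 X k a) (g1 X k a)) := by
  rw [Set.disjoint_left]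
  rintro v ⟨v3, v4⟩ hq
  obtain ⟨v1, v2⟩ := hq
  have hg : pos X (a + E (kk k + 1)) = g2 X k a := rfl
  rw [hg] at v3 v4
  have c1 := c.t1
  have c2 := c.t2
  rw [hg] at c1 c2
  rw [add_assoc (kk k) i 1] at c2 v4
  refine cx2 (E (kk k)) (q3 := g3 X k a - g2 X k a) (q1 := g1 X k a - g2 X k a) i hi3 hi4 ?_ ?_ ?_
    (by rw [DirE]; exact c1) (by rw [DirE]; exact c2) ?_ ?_ v1 v2 v3 v4
  · rw [DirE, Ek3, ← neg_sub]; exact turn_neg h.t32
  · rw [DirE, Ek5, ← neg_sub]; exact turn_neg h.t12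
  · have := h.abc
    rw [cr_cyc] at this; exact this
  · rintro rfl
    have : a + E (kk k + 1) + E (kk k + (2 + 1)) = a + E (kk k + 2) := by
      rw [show (2 + 1 : Fin 6) = 3 from rfl, Ek3, Ek1]; ring
    rw [this]; rfl
  · rintro rfl
    have : a + E (kk k + 1) + E (kk k + 5) = a + E (kk k) := by
      rw [Ek5, Ek1]; ring
    rw [this]; rfl

end Pool.Agent.H16.AP
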