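import Pool.Agent.H16.AP.CN

/-!
# CNY: corners at a real apex point
-/

set_option autoImplicit false

open Set Real

noncomputable section

namespace Pool.Agent.H16.AP

open Pool.Agent.H20.AL Pool.Agent.H63.P6 Pool.Agent.H16.T3 Pool.Agent.H78.P6

/-- lattice points at distance less than 3/2 -/
theorem near6 {a t : ℂ} (ha : a ∈ Lam) (ht : t ∈ Lam) (h : ‖t - a‖ < 3 / 2) : t = a ∨ ∃ i : Fin 6, t = a + E i := by
  obtain ⟨m0, n0, e0⟩ := ha
  obtain ⟨m1, n1, e1⟩ := ht
  rw [← om_eq] at e0 e1
  have hE : t - a = ((m1 - m0 : ℤ) : ℂ) + ((n1 - n0 : ℤ) : ℂ) * om := by rw [e0, e1]; push_cast; ring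
  obtain ⟨m, hm⟩ : ∃ m : ℤ, m = m1 - m0 := ⟨_, rfl⟩
  obtain ⟨n, hn⟩ : ∃ n : ℤ, n = n1 - n0 := ⟨_, rfl⟩
  rw [← hm, ← hn] at hE
  have h2 : ‖t - a‖ ^ 2 < 9 / 4 := by nlinarith [norm_nonneg (t - a)]
  rw [nsq, hE] at h2
  have hre : ((m : ℂ) + (n : ℂ) * om).re = m + n * (1 / 2) := by
    simp [om_re]
  have him : ((m : ℂ) + (n : ℂ) * om).im = n * (√3 / 2) := by
    simp [om_im]
  rw [hre, him] at h2
  have s3 := sq3
  have h3 : ((m : ℝ) ^ 2 + m * n + n ^ 2) < 9 / 4 := by nlinarith
  have h4 : m ^ 2 + m * n + n ^ 2 ≤ 2 := by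
    by_contra hcon
    push Not at hcon
    have h5 : (3 : ℤ) ≤ m ^ 2 + m * n + n ^ 2 := by omega
    have h6 : (3 : ℝ) ≤ (m : ℝ) ^ 2 + m * n + n ^ 2 := by exact_mod_cast h5
    linarith
  have n1' : n ≤ 1 := by nlinarith [sq_nonneg (2 * m + n)]
  have n2' : -1 ≤ n := by nlinarith [sq_nonneg (2 * m + n)]
  have m1' : m ≤ 1 := by nlinarith [sq_nonneg (2 * n + m)]
  have m2' : -1 ≤ m := by nlinarith [sq_nonneg (2 * n + m)]
  have hta : t = a + ((m : ℂ) + (n : ℂ) * om) := by rw [← hE]; ring
  have c2 := om_sq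
  have c3 := om_cube
  have c4 : om ^ 4 = -om := by
    have : om ^ 4 = om ^ 3 * om := by ring
    rw [this, c3]; ring
  have c5 : om ^ 5 = 1 - om := by
    have : om ^ 5 = om ^ 3 * om ^ 2 := by ring
    rw [this, c3, c2]; ring
  interval_cases m <;> interval_cases n
  · norm_num at h4
  · right; exact ⟨3, by rw [hta, E_pow]; simp [c3]⟩
  · right; exact ⟨2, by rw [hta, E_pow]; simp [c2]; ring⟩
  · right; exact ⟨4, by rw [hta, E_pow]; simp [c4]⟩
  · left; rw [hta]; simp
  · right; exact ⟨1, by rw [hta, E_pow]; simp⟩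
  · right; exact ⟨5, by rw [hta, E_pow]; simp [c5]; ring⟩
  · right; exact ⟨0, by rw [hta, E_pow]; simp⟩
  · norm_num at h4

variable {X : Set ℂ} {k : Fin 3} {a y : ℂ}

theorem Ene (i : Fin 6) : E i ≠ 0 := by
  intro h
  have := norm_E i
  rw [h, norm_zero] at this
  norm_num at this

/-- orientation of a displaced lattice triangle -/
theorem flip_t (hX : Sep X) {t : ℂ} (tL : t ∈ Lam) {i : Fin 6} (m0 : Mt X t) (m1 : Mt X (t + E i)) (m2 : Mt X (t + E (i + 1))) :
    0 < cr (pos X (t + E i) - pos X t) (pos X (t + E (i + 1)) - pos X t) := by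
  have L1 : t + E i ∈ Lam := lam_E tL i
  have L2 : t + E (i + 1) ∈ Lam := lam_E tL (i + 1)
  have h01 : pos X t ≠ pos X (t + E i) := by
    intro e
    have := pos_inj tL L1 m0.lt m1.lt e
    exact Ene i (by simpa using this.symm)
  have h02 : pos X t ≠ pos X (t + E (i + 1)) := by
    intro e
    have := pos_inj tL L2 m0.lt m2.lt e
    exact Ene (i + 1) (by simpa using this.symm)
  have h12 : pos X (t + E i) ≠ pos X (t + E (i + 1)) := by
    intro e
    have h1 := pos_inj L1 L2 m1.lt m2.lt e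
    have h3 : E i = E (i + 1) := add_left_cancel h1
    have h4 := dtE1 i
    rw [← h3, dtE0] at h4
    norm_num at h4
  refine flip t i (hX _ m0.1 _ m1.1 h01) (hX _ m0.1 _ m2.1 h02) (hX _ m1.1 _ m2.1 h12) ?_
  have key : ∀ s : ℂ, Mt X s → ‖pos X s - s‖ ^ 2 < 1 / 4 := by
    intro s hs
    have h3 := hs.lt
    rw [dist_eq_norm] at h3
    have := norm_nonneg (pos X s - s)
    nlinarith
  have := key _ m0
  have := key _ m1
  have := key _ m2
  linarith

/-- the site of a matched real apex point -/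
theorem y_site (h : QF X k a y) {t : ℂ} (tL : t ∈ Lam) (m0 : Mt X t) (e : pos X t = y) (n1 : y ≠ g1 X k a)
    (n2 : y ≠ g2 X k a) (n3 : y ≠ g3 X k a) :
    t = a ∨ t = a + E (kk k + 3) ∨ t = a + E (kk k + 4) ∨ t = a + E (kk k + 5) := by
  have hn : ‖t - a‖ < 3 / 2 := by
    have h1 := m0.lt
    rw [e, dist_comm, dist_eq_norm] at h1
    have h2 := h.near
    have h3 : t - a = (t - y) + (y - a) := by ring
    rw [h3]
    have := norm_add_le (t - y) (y - a)
    linarith
  rcases near6 h.aL tL hn with h1 | ⟨i, h1⟩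
  · exact Or.inl h1
  · right
    obtain ⟨i', hi'⟩ : ∃ i' : Fin 6, i = kk k + i' := ⟨i - kk k, (add_sub_cancel _ _).symm⟩
    subst hi'
    fin_cases i'
    · exfalso; apply n1; rw [← e, h1]
      simp only [Fin.zero_eta, Fin.isValue, add_zero]; rfl
    · exfalso; apply n2; rw [← e, h1]; rfl
    · exfalso; apply n3; rw [← e, h1]; rfl
    · left; exact h1
    · right; left; exact h1
    · right; right; exact h1

/-- corner at a real apex point -/
theorem cn_y (hX : Sep X) (h : QF X k a y) (hy : Mt X a → y = pos X a) {t : ℂ} {i : Fin 6} (c : Cn X t (kk k + i))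
    (e : pos X t = y) (n1 : y ≠ g1 X k a) (n2 : y ≠ g2 X k a) (n3 : y ≠ g3 X k a) (hex : t = a → i ≠ 0 ∧ i ≠ 1) :
    Disjoint (CnK X t (kk k + i)) (Cone y (g1 X k a) (g3 X k a)) := by
  rw [Set.disjoint_left]
  rintro v ⟨v3, v4⟩ hq
  obtain ⟨v1, v2⟩ := hq
  have c1 := c.t1
  have c2 := c.t2
  rw [e] at v3 v4 c1 c2
  rw [add_assoc (kk k) i 1] at c2 v4
  have h6 := Ek6 k
  have G1 : pos X (a + E (kk k)) = g1 X k a := rfl
  have G3 : pos X (a + E (kk k + 2)) = g3 X k a := rfl
  -- no vertex at `a` unless `t = a`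
  have hna : t ≠ a → ¬ Mt X a := by
    intro hta hm
    apply hta
    exact pos_inj c.tL h.aL c.m0.lt hm.lt (by rw [e, hy hm])
  have hm1 := c.m1
  have hm2 := c.m2
  rw [add_assoc (kk k) i 1] at hm2
  have base := fun (e0 : i = 0 → pos X (t + E (kk k + (i + 1))) - y = g1 X k a - y)
    (e1 : i = 1 → pos X (t + E (kk k + i)) - y = g3 X k a - y)
    (e2 : i = 2 → pos X (t + E (kk k + i)) - y = g3 X k a - y ∨ 0 < cr (g3 X k a - y) (pos X (t + E (kk k + i)) - y))
    (e5 : i = 5 → pos X (t + E (kk k + (i + 1))) - y = g1 X k a - y ∨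
      0 < cr (pos X (t + E (kk k + (i + 1))) - y) (g1 X k a - y)) =>
    cx0 (E (kk k)) (q1 := g1 X k a - y) (q3 := g3 X k a - y) i (by rw [DirE]; exact h.up1) (by rw [DirE]; exact h.up3) h.c13
      (by rw [DirE]; exact c1) (by rw [DirE]; exact c2) e0 e1 e2 e5 v1 v2 v3 v4
  rcases y_site h c.tL c.m0 e n1 n2 n3 with ht | ht | ht | ht
  · -- t = a
    refine base (fun hi => absurd hi (hex ht).1) (fun hi => absurd hi (hex ht).2) ?_ ?_
    · rintro rfl
      left; rw [ht]; rfl
    · rintro rfl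
      left
      rw [ht, ← add_assoc, h6]; rfl
  · -- t = a + E 3
    have hta : t ≠ a := by
      rw [ht]
      intro h1
      exact Ene (kk k + 3) (by simpa using h1)
    have hM := hna hta
    refine base ?_ ?_ ?_ ?_
    · rintro rfl
      exfalso; apply hM
      have : t + E (kk k + 0) = a := by rw [ht, Ek3, add_zero]; ring
      rwa [this] at hm1
    · rintro rfl
      have : t + E (kk k + 1) = a + E (kk k + 2) := by rw [ht, Ek3, Ek1]; ring
      rw [this]; rfl
    · rintro rfl
      right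
      have e1 : t + E (kk k + 1) = a + E (kk k + 2) := by rw [ht, Ek3, Ek1]; ring
      have := flip_t hX c.tL (i := kk k + 1) c.m0 (by rw [e1]; exact h.m3) (by rw [kk2a]; exact hm1)
      rw [kk2a, e1, e] at this
      exact this
    · rintro rfl
      exfalso; apply hM
      have : t + E (kk k + (5 + 1)) = a := by rw [← add_assoc, h6, ht, Ek3]; ring
      rwa [this] at hm2
  · -- t = a + E 4
    have hta : t ≠ a := by
      rw [ht]
      intro h1
      exact Ene (kk k + 4) (by simpa using h1)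
    have hM := hna hta
    refine base ?_ ?_ ?_ ?_
    · rintro rfl
      exfalso; apply hM
      have : t + E (kk k + (0 + 1)) = a := by
        rw [show (0 + 1 : Fin 6) = 1 from rfl, ht, Ek4, Ek1]; ring
      rwa [this] at hm2
    · rintro rfl
      exfalso; apply hM
      have : t + E (kk k + 1) = a := by rw [ht, Ek4, Ek1]; ring
      rwa [this] at hm1
    · rintro rfl
      right
      have e1 : t + E (kk k + 2) = a + E (kk k + 3) := by rw [ht, Ek4, Ek3]; ring
      rw [e1] at hm1 ⊢
      have h23 : kk k + 2 + 1 = kk k + 3 := by rw [add_assoc]; rfl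
      have hne : y ≠ pos X (a + E (kk k + 3)) := by
        intro h1
        have h2 := pos_inj c.tL (lam_E h.aL _) c.m0.lt hm1.lt (by rw [e]; exact h1)
        rw [ht] at h2
        have h3 := add_left_cancel h2
        rw [Ek4, Ek3] at h3
        exact Ene (kk k + 2) (by linear_combination -h3)
      have := h.ori (kk k + 2) h.m3 (by rw [h23]; exact hm1) n3 (by rw [h23]; exact hne)
      rw [h23] at this
      exact this
    · rintro rfl
      right
      have e1 : t + E (kk k + (5 + 1)) = a + E (kk k + 5) := by rw [← add_assoc, h6, ht, Ek4, Ek5]; ring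
      rw [e1] at hm2 ⊢
      have hne : y ≠ pos X (a + E (kk k + 5)) := by
        intro h1
        have h2 := pos_inj c.tL (lam_E h.aL _) c.m0.lt hm2.lt (by rw [e]; exact h1)
        rw [ht] at h2
        have h3 := add_left_cancel h2
        rw [Ek4, Ek5] at h3
        exact Ene (kk k) (by linear_combination -h3)
      have := h.ori (kk k + 5) hm2 (by rw [h6]; exact h.m1) hne (by rw [h6]; exact n1)
      rw [h6] at this
      exact this
  · -- t = a + E 5
    have hta : t ≠ a := by
      rw [ht]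
      intro h1
      exact Ene (kk k + 5) (by simpa using h1)
    have hM := hna hta
    refine base ?_ ?_ ?_ ?_
    · rintro rfl
      have : t + E (kk k + (0 + 1)) = a + E (kk k) := by
        rw [show (0 + 1 : Fin 6) = 1 from rfl, ht, Ek5, Ek1]; ring
      rw [this]; rfl
    · rintro rfl
      exfalso; apply hM
      have : t + E (kk k + (1 + 1)) = a := by rw [← add_assoc, kk2a, ht, Ek5]; ring
      rwa [this] at hm2
    · rintro rfl
      exfalso; apply hM
      have : t + E (kk k + 2) = a := by rw [ht, Ek5]; ring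
      rwa [this] at hm1
    · rintro rfl
      right
      have e0 : t + E (kk k + (5 + 1)) = t + E (kk k) := by rw [← add_assoc, h6]
      have e1 : t + E (kk k + 1) = a + E (kk k) := by rw [ht, Ek5, Ek1]; ring
      rw [e0] at hm2 ⊢
      have := flip_t hX c.tL (i := kk k) c.m0 hm2 (by rw [e1]; exact h.m1)
      rw [e1, e] at this
      exact this

end Pool.Agent.H16.AP
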