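import Pool.Agent.H16.AP.TR

/-!
# CX0: corners at common vertices (header common to cx0 .. cx3)

Six directions `Dir u i` (`i : Fin 6`, 60 degrees apart; think of `u` at 30 degrees, so `Dir u 1` points up, `Dir u 4` points down).  `Turn d r`: `r` is within 30
degrees of `d`.  In all statements `(r1, r2)` are the two rays of a corner of sector `i` (between `Dir u i` and `Dir u (i+1)`), and the conclusion is that
no vector `v` is in both open corners.

Tools (TRN.lean): `Dir_succ, Dir_two, Dir_three` (so every `Dir u j` is a combination of `d = u` and `om * u`), `sgn0 .. sgn5` (sign of `dt d w` for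
`w` turned from the j-th direction), `cr_next`, `sep_dt` (separation by a line), `cramer_dt`, `cramer_cr`.

* `tr3`: transitivity in an open half plane: if `dt x f, dt y f, dt z f > 0`, `cr x y > 0`, `cr y z > 0` then `cr x z > 0`.
  Proof: `cr x z * dt y f = cr x y * dt z f + cr y z * dt x f` (identity).
* `cx1` (corner `(b, p)`, nominal sector 2 = between 150 and 210 degrees): `i = 1`: `r2 = b`: `cr b v > 0` and `cr v b > 0` contradict.  `i = 3`: `r1 = p`:
  same.  `i = 0, 5`: separation by `f = Dir u 3` (`dt b f > 0` from `Turn (Dir u 2) b`, `dt p f > 0` = hp3; `r1, r2` negative by windows).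
  `i = 4`: `v` is a positive combination of `r1, r2` (both within 30 degrees of `Dir u 4`, `Dir u 5`), hence `dt v (Dir u 1) < 0` (`cramer_dt`); if `r1 = p`
  trivial; else `cr p r1 > 0`, `cr r1 v > 0` in the half plane `dt · (-(Dir u 1)) > 0` (`p` by hp1) give `cr p v > 0` (tr3), against `cr v p > 0`.
* `cx3` (corner `(p, b)`, nominal sector 5): mirror image.  `i = 0`: `r1 = b`.  `i = 4`: `r2 = p`.  `i = 1, 2`: separation by `f = Dir u 5`.
  `i = 3`: `v` has `dt v (Dir u 1) < 0`; `cr v r2 > 0`, `cr r2 p > 0` give `cr v p > 0` (tr3), against `cr p v > 0`.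
* `cx2` (corner `(q3, q1)`, `q3` near `Dir u 3`, `q1` near `Dir u 5`): `i = 2`: `r2 = q3`.  `i = 5`: `r1 = q1`.  `i = 0, 1`: separation by `Dir u 1`
  (`q3, q1` negative; `r1, r2` positive).
* `cx0` (corner `(q1, q3)`, both up): `i = 3, 4`: `r1, r2` are down, separation by `Dir u 1`.  `i = 0`: `r2 = q1`.  `i = 1`: `r1 = q3`.
  `i = 5`: if `r2 = q1` trivial; else `v` up, `r2` up (`Turn (Dir u 0) r2`), `cr q1 v > 0`, `cr v r2 > 0` give `cr q1 r2 > 0`, against `cr r2 q1 > 0`.
  `i = 2`: `r1` up; `cr r1 v > 0`, `cr v q3 > 0` give `cr r1 q3 > 0`, against `cr q3 r1 > 0`.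
-/

set_option autoImplicit false

open Set Real

noncomputable section

namespace Pool.Agent.H16.AP

open Pool.Agent.H20.AL Pool.Agent.H16.T3

theorem CX0_two (u : ℂ) : Dir u 2 = om * Dir u 1 := Dir_succ u 1

theorem CX0_three (u : ℂ) : Dir u 3 = om * Dir u 1 - Dir u 1 := by
  have h := Dir_two u 1
  have h2 : (1 : Fin 6) + 1 = 2 := by decide
  have h3 : (1 : Fin 6) + 2 = 3 := by decide
  rw [h2, h3, CX0_two] at h
  exact h

theorem CX0_four (u : ℂ) : Dir u 4 = -Dir u 1 := by
  have h := Dir_three u 1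
  have h3 : (1 : Fin 6) + 3 = 4 := by decide
  rw [h3] at h
  exact h

theorem CX0_five (u : ℂ) : Dir u 5 = -(om * Dir u 1) := by
  have h := Dir_three u 2
  have h3 : (2 : Fin 6) + 3 = 5 := by decide
  rw [h3, CX0_two] at h
  exact h

theorem CX0_zero (u : ℂ) : Dir u 0 = Dir u 1 - om * Dir u 1 := by
  have h := Dir_three u 3
  have h3 : (3 : Fin 6) + 3 = 0 := by decide
  rw [h3, CX0_three] at h
  rw [h]
  ring

theorem CX0_contra {a b : ℂ} (h1 : 0 < cr a b) (h2 : 0 < cr b a) : False := by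
  have e := cr_comm a b
  rw [e] at h1
  linarith

theorem cx0 (u : ℂ) {q1 q3 r1 r2 : ℂ} (i : Fin 6) (u1 : 0 < dt q1 (Dir u 1)) (u3 : 0 < dt q3 (Dir u 1))
    (hq : 0 < cr q1 q3) (h1 : Turn (Dir u i) r1) (h2 : Turn (Dir u (i + 1)) r2) (e0 : i = 0 → r2 = q1) (e1 : i = 1 → r1 = q3)
    (e2 : i = 2 → r1 = q3 ∨ 0 < cr q3 r1) (e5 : i = 5 → r2 = q1 ∨ 0 < cr r2 q1) {v : ℂ}
    (v1 : 0 < cr q1 v) (v2 : 0 < cr v q3) (v3 : 0 < cr r1 v) (v4 : 0 < cr v r2) : False := by
  have hv : 0 < dt v (Dir u 1) := by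
    have e := cramer_dt (Dir u 1) q1 q3 v
    have h : 0 < dt v (Dir u 1) * cr q1 q3 := by
      rw [e]
      positivity
    exact (pos_iff_pos_of_mul_pos h).2 hq
  have hr : 0 < cr r1 r2 := by
    rw [Dir_succ] at h2
    exact cr_next h1 h2
  have hcases : i = 0 ∨ i = 1 ∨ i = 2 ∨ i = 3 ∨ i = 4 ∨ i = 5 := by
    clear * -
    revert i
    decide
  rcases hcases with rfl | rfl | rfl | rfl | rfl | rfl
  · rw [e0 rfl] at v4
    exact CX0_contra v1 v4
  · rw [e1 rfl] at v3
    exact CX0_contra v2 v3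
  · rcases e2 rfl with h | h
    · rw [h] at v3
      exact CX0_contra v2 v3
    · rw [CX0_two] at h1
      have hr1 : 0 < dt r1 (Dir u 1) := by
        rw [dt_symm]
        exact sgn1 h1
      exact CX0_contra h (tr3 hr1 hv u3 v3 v2)
  · have a1 : dt r1 (Dir u 1) < 0 := by
      rw [CX0_three] at h1
      rw [dt_symm]
      exact sgn2 h1
    have a2 : dt r2 (Dir u 1) < 0 := by
      have h4 : (3 : Fin 6) + 1 = 4 := by decide
      rw [h4, CX0_four] at h2
      rw [dt_symm]
      exact sgn3 h2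
    exact sep_dt hq hr u1 u3 a1 a2 v1 v2 v3 v4
  · have a1 : dt r1 (Dir u 1) < 0 := by
      rw [CX0_four] at h1
      rw [dt_symm]
      exact sgn3 h1
    have a2 : dt r2 (Dir u 1) < 0 := by
      have h4 : (4 : Fin 6) + 1 = 5 := by decide
      rw [h4, CX0_five] at h2
      rw [dt_symm]
      exact sgn4 h2
    exact sep_dt hq hr u1 u3 a1 a2 v1 v2 v3 v4
  · rcases e5 rfl with h | h
    · rw [h] at v4
      exact CX0_contra v1 v4
    · have h4 : (5 : Fin 6) + 1 = 0 := by decide
      rw [h4, CX0_zero] at h2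
      have hr2 : 0 < dt r2 (Dir u 1) := by
        rw [dt_symm]
        exact sgn5 h2
      exact CX0_contra h (tr3 u1 hv hr2 v1 v4)

end Pool.Agent.H16.AP
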