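import Pool.Agent.H16.AP.TR

/-!
# CX1: corners at common vertices (header common to cx0 .. cx3)

Six directions `Dir u i` (`i : Fin 6`, 60 degrees apart; think of `u` at 30 degrees, so `Dir u 1` points up, `Dir u 4` points down).  `Turn d r`: `r` is within 30
degrees of `d`.  In all statements `(r1, r2)` are the two rays of a corner of sector `i` (between `Dir u i` and `Dir u (i+1)`), and the conclusion is that
no vector `v` is in both open corners.

Tools (TRN.lean): `Dir_succ, Dir_two, Dir_three` (so every `Dir u j` is a combination of `d = u` and `om * u`), `sgn0 .. sgn5` (sign of `dt d w` for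
`w` turned from the j-th direction), `cr_next`, `sep_dt` (separation by a line), `cramer_dt`, `cramer_cr`.

* `tr3`: transitivity in an open half plane: if `dt x f, dt y f, dt z f > 0`, `cr x y > 0`, `cr y z > 0` then `cr x z > 0`.
  Proof: `cr x z * dt y f = cr x y * dt z f + cr y z * dt x f` (identity).
* `cx1` (corner `(b, p)`, nominal sector 2 = between 150 and 210 degrees): `i = 1`: `r2 = b`: `cr b v > 0` and `cr v b > 0` contradict.  `i = 3`: `r1 = p`:
  same.  `i = 0, 5`: separation by `f = Dir u 3` (`dt b f > 0` from `Turn (Dir u 2) b`, `dt p f > 0` = hp3; `r1, r2` negative by windows).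
  `i = 4`: `v` is a positive combination of `r1, r2` (both within 30 degrees of `Dir u 4`, `Dir u 5`), hence `dt v (Dir u 1) < 0` (`cramer_dt`); if `r1 = p`
  trivial; else `cr p r1 > 0`, `cr r1 v > 0` in the half plane `dt · (-(Dir u 1)) > 0` (`p` by hp1) give `cr p v > 0` (tr3), against `cr v p > 0`.
* `cx3` (corner `(p, b)`, nominal sector 5): mirror image.  `i = 0`: `r1 = b`.  `i = 4`: `r2 = p`.  `i = 1, 2`: separation by `f = Dir u 5`.
  `i = 3`: `v` has `dt v (Dir u 1) < 0`; `cr v r2 > 0`, `cr r2 p > 0` give `cr v p > 0` (tr3), against `cr p v > 0`.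
* `cx2` (corner `(q3, q1)`, `q3` near `Dir u 3`, `q1` near `Dir u 5`): `i = 2`: `r2 = q3`.  `i = 5`: `r1 = q1`.  `i = 0, 1`: separation by `Dir u 1`
  (`q3, q1` negative; `r1, r2` positive).
* `cx0` (corner `(q1, q3)`, both up): `i = 3, 4`: `r1, r2` are down, separation by `Dir u 1`.  `i = 0`: `r2 = q1`.  `i = 1`: `r1 = q3`.
  `i = 5`: if `r2 = q1` trivial; else `v` up, `r2` up (`Turn (Dir u 0) r2`), `cr q1 v > 0`, `cr v r2 > 0` give `cr q1 r2 > 0`, against `cr r2 q1 > 0`.
  `i = 2`: `r1` up; `cr r1 v > 0`, `cr v q3 > 0` give `cr r1 q3 > 0`, against `cr q3 r1 > 0`.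
-/

set_option autoImplicit false

open Set Real

noncomputable section

namespace Pool.Agent.H16.AP

open Pool.Agent.H20.AL Pool.Agent.H16.T3

private theorem CX1_anti {a b : ℂ} (h1 : 0 < cr a b) (h2 : 0 < cr b a) : False := by
  have e : cr b a = -cr a b := by simp [cr]; ring
  rw [e] at h2
  linarith

private theorem CX1_dt_neg (a b : ℂ) : dt a (-b) = -dt b a := by
  simp [dt]; ring

private theorem CX1_sep {d b p r1 r2 v : ℂ} (hbp : 0 < cr b p) (h12 : 0 < cr r1 r2)
    (hb : dt d b < 0) (hp : 0 < dt p (-d)) (hr1 : 0 < dt d r1) (hr2 : 0 < dt d r2)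
    (v1 : 0 < cr b v) (v2 : 0 < cr v p) (v3 : 0 < cr r1 v) (v4 : 0 < cr v r2) : False := by
  refine sep_dt (f := -d) hbp h12 ?_ hp ?_ ?_ v1 v2 v3 v4
  · rw [CX1_dt_neg]; linarith
  · rw [CX1_dt_neg]; linarith
  · rw [CX1_dt_neg]; linarith

theorem cx1 (u : ℂ) {b p r1 r2 : ℂ} (i : Fin 6) (hi : i ≠ 2) (hb : Turn (Dir u 2) b) (hbp : 0 < cr b p)
    (hp1 : dt p (Dir u 1) < 0) (hp3 : 0 < dt p (Dir u 3)) (h1 : Turn (Dir u i) r1) (h2 : Turn (Dir u (i + 1)) r2)
    (e1 : i = 1 → r2 = b) (e3 : i = 3 → r1 = p) (e4 : i = 4 → 0 < cr p r1 ∨ r1 = p) {v : ℂ}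
    (v1 : 0 < cr b v) (v2 : 0 < cr v p) (v3 : 0 < cr r1 v) (v4 : 0 < cr v r2) : False := by
  have h2' := h2
  rw [Dir_succ] at h2'
  have h12 : 0 < cr r1 r2 := cr_next h1 h2'
  obtain ⟨d, hd⟩ : ∃ d, d = Dir u 0 := ⟨_, rfl⟩
  have D1 : Dir u 1 = om * d := by rw [hd]; exact Dir_succ u 0
  have D2 : Dir u 2 = om * d - d := by
    have h := Dir_two u 0
    rw [← hd] at h
    have e : (0 : Fin 6) + 1 = 1 := rfl
    have e' : (0 : Fin 6) + 2 = 2 := rfl
    rw [e, e', D1] at h
    exact h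
  have D3 : Dir u 3 = -d := by rw [hd]; exact Dir_three u 0
  have D4 : Dir u 4 = -(om * d) := by rw [← D1]; exact Dir_three u 1
  have D5 : Dir u 5 = d - om * d := by
    have h := Dir_three u 2
    rw [D2] at h
    have e : (2 : Fin 6) + 3 = 5 := rfl
    rw [e] at h
    rw [h]; ring
  rw [D2] at hb
  rw [D3] at hp3
  rw [D1] at hp1
  have hbd : dt d b < 0 := sgn2 hb
  have hi6 : i = 0 ∨ i = 1 ∨ i = 3 ∨ i = 4 ∨ i = 5 := by
    clear * - hi
    revert i
    decide
  rcases hi6 with h | h | h | h | h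
  · subst h
    have e : (0 : Fin 6) + 1 = 1 := rfl
    rw [← hd] at h1
    rw [e, D1] at h2
    exact CX1_sep hbp h12 hbd hp3 (sgn0 h1) (sgn1 h2) v1 v2 v3 v4
  · rw [e1 h] at v4
    exact CX1_anti v1 v4
  · rw [e3 h] at v3
    exact CX1_anti v2 v3
  · subst h
    have e : (4 : Fin 6) + 1 = 5 := rfl
    rw [D4] at h1
    rw [e, D5] at h2
    have h5 : Turn (-(om * (om * d))) r2 := by
      have e : -(om * (om * d)) = d - om * d := by
        have : om * (om * d) = om ^ 2 * d := by ring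
        rw [this, om_sq]; ring
      rw [e]; exact h2
    have k1 : dt (om * d) r1 < 0 := sgn3 h1
    have k2 : dt (om * d) r2 < 0 := sgn4 h5
    have kv : dt v (om * d) < 0 := by
      have c := cramer_dt (om * d) r1 r2 v
      rw [dt_symm r1, dt_symm r2] at c
      have c2 : dt v (om * d) * cr r1 r2 < 0 := by
        rw [c]
        nlinarith [mul_pos (neg_pos.2 k1) v4, mul_pos (neg_pos.2 k2) v3]
      by_contra hcon
      push Not at hcon
      nlinarith
    rcases e4 rfl with h | h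
    · refine CX1_anti v2 (tr3 (f := -(om * d)) (y := r1) ?_ ?_ ?_ h v3)
      · rw [CX1_dt_neg, dt_symm]; linarith
      · rw [CX1_dt_neg]; linarith
      · rw [CX1_dt_neg, dt_symm]; linarith
    · rw [h] at v3
      exact CX1_anti v2 v3
  · subst h
    have e : (5 : Fin 6) + 1 = 0 := rfl
    rw [D5] at h1
    rw [e, ← hd] at h2
    exact CX1_sep hbp h12 hbd hp3 (sgn5 h1) (sgn0 h2) v1 v2 v3 v4

end Pool.Agent.H16.AP
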