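import Pool.Agent.H16.AP.TR

/-!
# CX2: corners at common vertices (header common to cx0 .. cx3)

Six directions `Dir u i` (`i : Fin 6`, 60 degrees apart; think of `u` at 30 degrees, so `Dir u 1` is up, `Dir u 4` down).  `Turn d r`: `r` is within 30
degrees of `d`.  In all statements `(r1, r2)` are the two rays of a corner of sector `i` (between `Dir u i` and `Dir u (i+1)`), and the conclusion is that
no vector `v` is in both open corners.

Tools (TRN.lean): `Dir_succ, Dir_two, Dir_three` (so every `Dir u j` is a combination of `d = u` and `om * u`), `sgn0 .. sgn5` (sign of `dt d w` for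
`w` turned from the j-th direction), `cr_next`, `sep_dt` (separation by a line), `cramer_dt`, `cramer_cr`.

* `tr3`: transitivity in an open half plane: if `dt x f, dt y f, dt z f > 0`, `cr x y > 0`, `cr y z > 0` then `cr x z > 0`.
  Proof: `cr x z * dt y f = cr x y * dt z f + cr y z * dt x f` (identity).
* `cx1` (corner `(b, p)`, nominal sector 2 = between 150 and 210 degrees): `i = 1`: `r2 = b`: `cr b v > 0` and `cr v b > 0` contradict.  `i = 3`: `r1 = p`:
  same.  `i = 0, 5`: separation by `f = Dir u 3` (`dt b f > 0` from `Turn (Dir u 2) b`, `dt p f > 0` = hp3; `r1, r2` negative by windows).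
  `i = 4`: `v` is a positive combination of `r1, r2` (both within 30 degrees of `Dir u 4`, `Dir u 5`), hence `dt v (Dir u 1) < 0` (`cramer_dt`); if `r1 = p`
  trivial; else `cr p r1 > 0`, `cr r1 v > 0` in the half plane `dt · (-(Dir u 1)) > 0` (`p` by hp1) give `cr p v > 0` (tr3), against `cr v p > 0`.
* `cx3` (corner `(p, b)`, nominal sector 5): mirror image.  `i = 0`: `r1 = b`.  `i = 4`: `r2 = p`.  `i = 1, 2`: separation by `f = Dir u 5`.
  `i = 3`: `v` has `dt v (Dir u 1) < 0`; `cr v r2 > 0`, `cr r2 p > 0` give `cr v p > 0` (tr3), against `cr p v > 0`.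
* `cx2` (corner `(q3, q1)`, `q3` near `Dir u 3`, `q1` near `Dir u 5`): `i = 2`: `r2 = q3`.  `i = 5`: `r1 = q1`.  `i = 0, 1`: separation by `Dir u 1`
  (`q3, q1` negative; `r1, r2` positive).
* `cx0` (corner `(q1, q3)`, both up): `i = 3, 4`: `r1, r2` are down, separation by `Dir u 1`.  `i = 0`: `r2 = q1`.  `i = 1`: `r1 = q3`.
  `i = 5`: if `r2 = q1` trivial; else `v` up, `r2` up (`Turn (Dir u 0) r2`), `cr q1 v > 0`, `cr v r2 > 0` give `cr q1 r2 > 0`, against `cr r2 q1 > 0`.
  `i = 2`: `r1` up; `cr r1 v > 0`, `cr v q3 > 0` give `cr r1 q3 > 0`, against `cr q3 r1 > 0`.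
-/

set_option autoImplicit false

open Set Real

noncomputable section

namespace Pool.Agent.H16.AP

open Pool.Agent.H20.AL Pool.Agent.H16.T3

theorem cx2 (u : ℂ) {q1 q3 r1 r2 : ℂ} (i : Fin 6) (hi3 : i ≠ 3) (hi4 : i ≠ 4) (hq3 : Turn (Dir u 3) q3)
    (hq1 : Turn (Dir u 5) q1) (hq : 0 < cr q3 q1) (h1 : Turn (Dir u i) r1) (h2 : Turn (Dir u (i + 1)) r2) (e2 : i = 2 → r2 = q3)
    (e5 : i = 5 → r1 = q1) {v : ℂ}
    (v1 : 0 < cr q3 v) (v2 : 0 < cr v q1) (v3 : 0 < cr r1 v) (v4 : 0 < cr v r2) : False := by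
  have D2 : Dir u 2 = om * Dir u 1 := Dir_succ u 1
  have D3 : Dir u 3 = om * Dir u 1 - Dir u 1 := by
    have h : Dir u 3 = Dir u 2 - Dir u 1 := Dir_two u 1
    rw [h, D2]
  have D4 : Dir u 4 = -Dir u 1 := Dir_three u 1
  have D5 : Dir u 5 = -(om * Dir u 1) := by
    have h : Dir u 5 = -Dir u 2 := Dir_three u 2
    rw [h, D2]
  have D0 : Dir u 0 = Dir u 1 - om * Dir u 1 := by
    have h : Dir u 0 = -Dir u 3 := Dir_three u 3
    rw [h, D3]
    ring
  have s3 : dt q3 (Dir u 1) < 0 := by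
    rw [dt_symm]
    rw [D3] at hq3
    exact sgn2 hq3
  have s1 : dt q1 (Dir u 1) < 0 := by
    rw [dt_symm]
    rw [D5] at hq1
    exact sgn4 hq1
  have hr : 0 < cr r1 r2 := by
    rw [Dir_succ] at h2
    exact cr_next h1 h2
  have anti : ∀ a b : ℂ, cr a b = -cr b a := by
    intro a b
    simp only [cr]
    ring
  fin_cases i
  · have h1' : Turn (Dir u 0) r1 := h1
    have h2' : Turn (Dir u 1) r2 := h2
    rw [D0] at h1'
    refine sep_dt (f := Dir u 1) hr hq ?_ ?_ s3 s1 v3 v4 v1 v2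
    · rw [dt_symm]
      exact sgn5 h1'
    · rw [dt_symm]
      exact sgn0 h2'
  · have h1' : Turn (Dir u 1) r1 := h1
    have h2' : Turn (Dir u 2) r2 := h2
    rw [D2] at h2'
    refine sep_dt (f := Dir u 1) hr hq ?_ ?_ s3 s1 v3 v4 v1 v2
    · rw [dt_symm]
      exact sgn0 h1'
    · rw [dt_symm]
      exact sgn1 h2'
  · have h : r2 = q3 := e2 rfl
    rw [h, anti] at v4
    linarith
  · exact hi3 rfl
  · exact hi4 rfl
  · have h : r1 = q1 := e5 rfl
    rw [h, anti] at v3
    linarith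

end Pool.Agent.H16.AP
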