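import Pool.Agent.H16.AP.TR

/-!
# CX3: corners at common vertices (header common to cx0 .. cx3)

Six directions `Dir u i` (`i : Fin 6`, 60 degrees apart; think of `u` at 30 degrees, so `Dir u 1` is up, `Dir u 4` down).  `Turn d r`: `r` is within 30
degrees of `d`.  In all statements `(r1, r2)` are the two rays of a corner of sector `i` (between `Dir u i` and `Dir u (i+1)`), and the conclusion is that
no vector `v` is in both open corners.

Tools (TRN.lean): `Dir_succ, Dir_two, Dir_three` (so every `Dir u j` is a combination of `d = u` and `om * u`), `sgn0 .. sgn5` (sign of `dt d w` for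
`w` turned from the j-th direction), `cr_next`, `sep_dt` (separation by a line), `cramer_dt`, `cramer_cr`.

* `tr3`: transitivity in an open half plane: if `dt x f, dt y f, dt z f > 0`, `cr x y > 0`, `cr y z > 0` then `cr x z > 0`.
  Proof: `cr x z * dt y f = cr x y * dt z f + cr y z * dt x f` (identity).
* `cx1` (corner `(b, p)`, nominal sector 2 = between 150 and 210 degrees): `i = 1`: `r2 = b`: `cr b v > 0` and `cr v b > 0` contradict.  `i = 3`: `r1 = p`:
  same.  `i = 0, 5`: separation by `f = Dir u 3` (`dt b f > 0` from `Turn (Dir u 2) b`, `dt p f > 0` = hp3; `r1, r2` negative by windows).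
  `i = 4`: `v` is a positive combination of `r1, r2` (both within 30 degrees of `Dir u 4`, `Dir u 5`), hence `dt v (Dir u 1) < 0` (`cramer_dt`); if `r1 = p`
  trivial; else `cr p r1 > 0`, `cr r1 v > 0` in the half plane `dt · (-(Dir u 1)) > 0` (`p` by hp1) give `cr p v > 0` (tr3), against `cr v p > 0`.
* `cx3` (corner `(p, b)`, nominal sector 5): mirror image.  `i = 0`: `r1 = b`.  `i = 4`: `r2 = p`.  `i = 1, 2`: separation by `f = Dir u 5`.
  `i = 3`: `v` has `dt v (Dir u 1) < 0`; `cr v r2 > 0`, `cr r2 p > 0` give `cr v p > 0` (tr3), against `cr p v > 0`.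
* `cx2` (corner `(q3, q1)`, `q3` near `Dir u 3`, `q1` near `Dir u 5`): `i = 2`: `r2 = q3`.  `i = 5`: `r1 = q1`.  `i = 0, 1`: separation by `Dir u 1`
  (`q3, q1` negative; `r1, r2` positive).
* `cx0` (corner `(q1, q3)`, both up): `i = 3, 4`: `r1, r2` are down, separation by `Dir u 1`.  `i = 0`: `r2 = q1`.  `i = 1`: `r1 = q3`.
  `i = 5`: if `r2 = q1` trivial; else `v` up, `r2` up (`Turn (Dir u 0) r2`), `cr q1 v > 0`, `cr v r2 > 0` give `cr q1 r2 > 0`, against `cr r2 q1 > 0`.
  `i = 2`: `r1` up; `cr r1 v > 0`, `cr v q3 > 0` give `cr r1 q3 > 0`, against `cr q3 r1 > 0`.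
-/

set_option autoImplicit false

open Set Real

noncomputable section

namespace Pool.Agent.H16.AP

open Pool.Agent.H20.AL Pool.Agent.H16.T3

theorem CX3_anti (a b : ℂ) : cr a b = -cr b a := by
  simp [cr]; ring

theorem CX3_cases : ∀ i : Fin 6, i = 0 ∨ i = 1 ∨ i = 2 ∨ i = 3 ∨ i = 4 ∨ i = 5 := by decide

theorem cx3 (u : ℂ) {b p r1 r2 : ℂ} (i : Fin 6) (hi : i ≠ 5) (hb : Turn (Dir u 0) b) (hpb : 0 < cr p b)
    (hp1 : dt p (Dir u 1) < 0) (hp5 : 0 < dt p (Dir u 5)) (h1 : Turn (Dir u i) r1) (h2 : Turn (Dir u (i + 1)) r2)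
    (e0 : i = 0 → r1 = b) (e4 : i = 4 → r2 = p) (e3 : i = 3 → 0 < cr r2 p ∨ r2 = p) {v : ℂ}
    (v1 : 0 < cr p v) (v2 : 0 < cr v b) (v3 : 0 < cr r1 v) (v4 : 0 < cr v r2) : False := by
  have hr : 0 < cr r1 r2 := by
    have h2' := h2
    rw [Dir_succ] at h2'
    exact cr_next h1 h2'
  -- the directions in the frame of `Dir u 5` and of `Dir u 1`
  have D50 : Dir u 0 = om * Dir u 5 := Dir_succ u 5
  have D51 : Dir u 1 = om * Dir u 5 - Dir u 5 := by
    have := Dir_two u 5
    rw [← D50]
    exact this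
  have D52 : Dir u 2 = -Dir u 5 := Dir_three u 5
  have D53 : Dir u 3 = -(om * Dir u 5) := by
    rw [← D50]
    exact Dir_three u 0
  have D13 : Dir u 3 = om * Dir u 1 - Dir u 1 := by
    have h := Dir_two u 1
    have h' : Dir u (1 + 1) = om * Dir u 1 := Dir_succ u 1
    rw [← h']
    exact h
  have D14 : Dir u 4 = -Dir u 1 := Dir_three u 1
  have hb5 : 0 < dt b (Dir u 5) := by
    rw [dt_symm]
    rw [D50] at hb
    exact sgn1 hb
  rcases CX3_cases i with rfl | rfl | rfl | rfl | rfl | rfl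
  · rw [e0 rfl] at v3
    have := CX3_anti b v
    linarith
  · have h2' : Turn (Dir u 2) r2 := h2
    rw [D51] at h1
    rw [D52] at h2'
    refine sep_dt (f := Dir u 5) hpb hr hp5 hb5 ?_ ?_ v1 v2 v3 v4
    · rw [dt_symm]; exact sgn2 h1
    · rw [dt_symm]; exact sgn3 h2'
  · have h2' : Turn (Dir u 3) r2 := h2
    rw [D52] at h1
    rw [D53] at h2'
    refine sep_dt (f := Dir u 5) hpb hr hp5 hb5 ?_ ?_ v1 v2 v3 v4
    · rw [dt_symm]; exact sgn3 h1
    · rw [dt_symm]; exact sgn4 h2'
  · have h2' : Turn (Dir u 4) r2 := h2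
    rw [D13] at h1
    rw [D14] at h2'
    have k1 : dt r1 (Dir u 1) < 0 := by rw [dt_symm]; exact sgn2 h1
    have k2 : dt r2 (Dir u 1) < 0 := by rw [dt_symm]; exact sgn3 h2'
    have k3 : dt v (Dir u 1) < 0 := by
      have e1 := cramer_dt (Dir u 1) r1 r2 v
      have p1 : dt v (Dir u 1) * cr r1 r2 < 0 := by
        rw [e1]
        have a1 := mul_neg_of_neg_of_pos k1 v4
        have a2 := mul_neg_of_neg_of_pos k2 v3
        linarith
      by_contra hcon
      push Not at hcon
      have := mul_nonneg hcon hr.le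
      linarith
    have ev := CX3_anti p v
    have hneg : ∀ w : ℂ, dt w (-Dir u 1) = -dt w (Dir u 1) := by
      intro w; simp [dt]; ring
    rcases e3 rfl with h | h
    · have := tr3 (f := -Dir u 1) (x := v) (y := r2) (z := p) (by rw [hneg]; linarith)
        (by rw [hneg]; linarith) (by rw [hneg]; linarith) v4 h
      linarith
    · rw [h] at v4
      linarith
  · rw [e4 rfl] at v4
    have := CX3_anti p v
    linarith
  · exact hi rfl

end Pool.Agent.H16.AP
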