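import Pool.Agent.H16.AP.VNC

/-!
# D1: the non-apex cell triangles are disjoint from the apex quadrilaterals
-/

set_option autoImplicit false

open Set Real

noncomputable section

namespace Pool.Agent.H16.AP

open Pool.Agent.H20.AL Pool.Agent.H63.P6 Pool.Agent.H16.T3 Pool.Agent.H78.P6

variable {V : ℂ → ℝ} {κ el : ℝ} {X : Set ℂ} {k : Fin 3} {a : Fin 3 → ℂ} {M : Fin 3 → ℤ} {c : ℂ} {act re : Fin 3 → Prop}
  {p : Fin 3 → ℂ}

theorem dir1 (j : Fin 6) : Dir 1 j = E j := rfl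

/-- site and sector of the corner `m` of the cell triangle `q` -/
def ct (a : Fin 3 → ℂ) (q : Cell) (m : Fin 3) : ℂ × Fin 6 := crn 1 (cs (a q.1) q.1 q.2.1, kb q.1 q.2.2) m

theorem nt_pos (q : Cell) (m : Fin 3) : NT X a q m = pos X (ct a q m).1 := LT_apply _ _ _ _

theorem nt_k3 (q : Cell) (m : Fin 3) : K3 (NT X a q) m = CnK X (ct a q m).1 (ct a q m).2 := by
  unfold K3 CnK NT ct
  rw [LT_next, LT_next2, LT_apply]; rfl

theorem ct_next (q : Cell) (m : Fin 3) : (ct a q (m + 1)).1 = (ct a q m).1 + E (ct a q m).2 := by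
  have h1 := LT_apply id 1 (cs (a q.1) q.1 q.2.1, kb q.1 q.2.2) (m + 1)
  have h2 := LT_next id 1 (cs (a q.1) q.1 q.2.1, kb q.1 q.2.2) m
  rw [h1] at h2
  exact h2

theorem ct_next2 (q : Cell) (m : Fin 3) : (ct a q (m + 2)).1 = (ct a q m).1 + E ((ct a q m).2 + 1) := by
  have h1 := LT_apply id 1 (cs (a q.1) q.1 q.2.1, kb q.1 q.2.2) (m + 2)
  have h2 := LT_next2 id 1 (cs (a q.1) q.1 q.2.1, kb q.1 q.2.2) m
  rw [h1] at h2
  exact h2

theorem ct_mt (hvb : VB V) (h : ∀ k, ApexData V κ el X k (a k) (M k)) {q : Cell} (hq : 0 ≤ q.2.1) (h0 : q.2.1 ≠ 0) (m : Fin 3) :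
    (ct a q m).1 ∈ Lam ∧ Mt X (ct a q m).1 := by
  obtain ⟨p', h1, h2, h3⟩ := crn_cs (a q.1) q.1 q.2.1 hq q.2.2 m
  unfold ct
  rw [h3]
  exact ⟨cs_mem (h q.1).mem _ _, mt_of hvb (h q.1) h1 (h2 (Or.inl h0))⟩

theorem cn_of (hvb : VB V) (hel : el ^ 2 ≤ 8 / 3) (h : ∀ k, ApexData V κ el X k (a k) (M k)) {q : Cell} (hq : 0 ≤ q.2.1) (h0 : q.2.1 ≠ 0)
    (m : Fin 3) : Cn X (ct a q m).1 (ct a q m).2 := by
  obtain ⟨t1, t2⟩ := crn_turn (nt_good hel h hq h0).1 m
  refine ⟨(ct_mt hvb h hq h0 m).1, (ct_mt hvb h hq h0 m).2, ?_, ?_, ?_, ?_⟩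
  · rw [← ct_next]; exact (ct_mt hvb h hq h0 (m + 1)).2
  · rw [← ct_next2]; exact (ct_mt hvb h hq h0 (m + 2)).2
  · rw [LT_next, LT_apply] at t1; exact t1
  · rw [LT_next2, LT_apply] at t2; exact t2

theorem ct_ne (hc : ∀ k, ∃ q : ℤ × ℤ, 0 ≤ q ∧ a k = c + ws k q) {q : Cell} (hq : 0 ≤ q.2.1) (h0 : q.2.1 ≠ 0)
    (m : Fin 3) (k : Fin 3) (b : Bool) (m' : Fin 3) : ct a q m ≠ crn 1 (a k, kb k b) m' := by
  intro e
  have h1 := crn_cen 1 (cs (a q.1) q.1 q.2.1, kb q.1 q.2.2) m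
  have h2 := crn_cen 1 (a k, kb k b) m'
  have h3 : cen 1 (cs (a q.1) q.1 q.2.1, kb q.1 q.2.2) ≠ cen 1 (cs (a k) k 0, kb k b) := by
    refine cen_ne hc hq le_rfl ?_
    intro hh
    simp only [Prod.mk.injEq] at hh
    exact h0 hh.2.1
  apply h3
  rw [← h1, cs_zero, ← h2]
  exact congrArg (cen 1) e

/-- excluded corners -/
theorem ct_ex (hc : ∀ k, ∃ q : ℤ × ℤ, 0 ≤ q ∧ a k = c + ws k q) {q : Cell} (hq : 0 ≤ q.2.1) (h0 : q.2.1 ≠ 0)
    (m : Fin 3) (k : Fin 3) :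
    ((ct a q m).1 = a k + E (kk k) → (ct a q m).2 ≠ kk k + 2) ∧
    ((ct a q m).1 = a k + E (kk k + 1) → (ct a q m).2 ≠ kk k + 3 ∧ (ct a q m).2 ≠ kk k + 4) ∧
    ((ct a q m).1 = a k + E (kk k + 2) → (ct a q m).2 ≠ kk k + 5) ∧
    ((ct a q m).1 = a k → (ct a q m).2 ≠ kk k + 0 ∧ (ct a q m).2 ≠ kk k + 1) := by
  have key := ct_ne hc hq h0 m k
  refine ⟨?_, ?_, ?_, ?_⟩
  · intro h1 h2
    exact key false 1 (Prod.ext h1 h2)
  · intro h1
    constructor
    · intro h2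
      refine key true 1 (Prod.ext h1 (h2.trans ?_))
      change kk k + 3 = kk k + 1 + 2
      rw [add_assoc]; rfl
    · intro h2
      exact key false 2 (Prod.ext h1 h2)
  · intro h1 h2
    refine key true 2 (Prod.ext (h1.trans ?_) (h2.trans ?_))
    · change a k + E (kk k + 2) = a k + E (kk k + 1 + 1)
      rw [kk2a]
    · change kk k + 5 = kk k + 1 + 4
      rw [add_assoc]; rfl
  · intro h1
    constructor
    · intro h2
      rw [add_zero] at h2
      exact key false 0 (Prod.ext h1 h2)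
    · intro h2
      exact key true 0 (Prod.ext h1 h2)

/-- the fan facts in a configuration -/
theorem Cf.qf (h : Cf V κ el X a M c act re p) (hk : act k) : QF X k (a k) (p k) := by
  by_cases hr : re k
  · exact qf_real h.vb h.sep (h.ad k) (h.rf k hk hr)
  · obtain ⟨e, hv⟩ := h.vf k hk hr
    rw [e]
    exact qf_virt h.vb (h.ad k) hv

theorem Cf.hy (h : Cf V κ el X a M c act re p) (hk : act k) : Mt X (a k) → p k = pos X (a k) := fun hm =>
  (h.mat k hk ⟨_, hm.1, hm.lt⟩).2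

theorem Cf.el2 (h : Cf V κ el X a M c act re p) : el ^ 2 ≤ 8 / 3 := by
  have h0 : (0 : ℤ × ℤ) ≤ 0 := le_rfl
  have g := ps_all (h.ad 0) (nz_10 h0).1 (nz_10 h0).2
  have h1 : 0 < el := lt_of_le_of_lt (norm_nonneg _) g.l1
  have h2 := h.hel
  nlinarith

/-- the corner index relative to the wedge `k` -/
theorem rel_idx (j : Fin 6) (k : Fin 3) : ∃ i : Fin 6, j = kk k + i := ⟨j - kk k, (add_sub_cancel _ _).symm⟩

theorem fq_g1 (h : Cf V κ el X a M c act re p) (hk : act k) {q : Cell} (hq : 0 ≤ q.2.1) (h0 : q.2.1 ≠ 0) (m : Fin 3)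
    (e : NT X a q m = g1 X k (a k)) :
    Disjoint (K3 (NT X a q) m) (Cone (g1 X k (a k)) (g2 X k (a k)) (p k)) := by
  have hc := cn_of h.vb h.el2 h.ad hq h0 m
  rw [nt_k3]
  rw [nt_pos] at e
  have ht : (ct a q m).1 = a k + E (kk k) := pos_inj hc.tL (lam_E (h.ad k).mem _) hc.m0.lt (h.qf hk).m1.lt e
  have hex := (ct_ex h.hc hq h0 m k).1 ht
  obtain ⟨i, hi⟩ := rel_idx (ct a q m).2 k
  rw [ht, hi] at hc ⊢
  rw [hi] at hex
  exact cn_g1 (h.qf hk) (h.hy hk) i hc (fun e => hex (by rw [e]))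

theorem fq_g2 (h : Cf V κ el X a M c act re p) (hk : act k) {q : Cell} (hq : 0 ≤ q.2.1) (h0 : q.2.1 ≠ 0) (m : Fin 3)
    (e : NT X a q m = g2 X k (a k)) :
    Disjoint (K3 (NT X a q) m) (Cone (g2 X k (a k)) (g3 X k (a k)) (g1 X k (a k))) := by
  have hc := cn_of h.vb h.el2 h.ad hq h0 m
  rw [nt_k3]
  rw [nt_pos] at e
  have ht : (ct a q m).1 = a k + E (kk k + 1) := pos_inj hc.tL (lam_E (h.ad k).mem _) hc.m0.lt (h.qf hk).m2.lt e
  have hex := (ct_ex h.hc hq h0 m k).2.1 ht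
  obtain ⟨i, hi⟩ := rel_idx (ct a q m).2 k
  rw [ht, hi] at hc ⊢
  rw [hi] at hex
  exact cn_g2 (h.qf hk) i hc (fun e => hex.1 (by rw [e])) (fun e => hex.2 (by rw [e]))

theorem fq_g3 (h : Cf V κ el X a M c act re p) (hk : act k) {q : Cell} (hq : 0 ≤ q.2.1) (h0 : q.2.1 ≠ 0) (m : Fin 3)
    (e : NT X a q m = g3 X k (a k)) :
    Disjoint (K3 (NT X a q) m) (Cone (g3 X k (a k)) (p k) (g2 X k (a k))) := by
  have hc := cn_of h.vb h.el2 h.ad hq h0 m
  rw [nt_k3]
  rw [nt_pos] at e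
  have ht : (ct a q m).1 = a k + E (kk k + 2) := pos_inj hc.tL (lam_E (h.ad k).mem _) hc.m0.lt (h.qf hk).m3.lt e
  have hex := (ct_ex h.hc hq h0 m k).2.2.1 ht
  obtain ⟨i, hi⟩ := rel_idx (ct a q m).2 k
  rw [ht, hi] at hc ⊢
  rw [hi] at hex
  exact cn_g3 (h.qf hk) (h.hy hk) i hc (fun e => hex (by rw [e]))

/-- a real apex point differs from the frames; a virtual one is not in `X` -/
theorem Cf.pne (h : Cf V κ el X a M c act re p) (hk : act k) :
    p k ≠ g1 X k (a k) ∧ p k ≠ g2 X k (a k) ∧ p k ≠ g3 X k (a k) := by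
  have hf := h.qf hk
  refine ⟨?_, ?_, ?_⟩
  · intro e
    have := hf.c12
    rw [e] at this
    simp [cr] at this
  · intro e
    have := hf.c12
    rw [e] at this
    simp [cr] at this
  · intro e
    have := hf.c23
    rw [e] at this
    simp [cr] at this

theorem fq_y (h : Cf V κ el X a M c act re p) (hk : act k) {q : Cell} (hq : 0 ≤ q.2.1) (h0 : q.2.1 ≠ 0) (m : Fin 3)
    (e : NT X a q m = p k) :
    Disjoint (K3 (NT X a q) m) (Cone (p k) (g1 X k (a k)) (g3 X k (a k))) := by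
  have hc := cn_of h.vb h.el2 h.ad hq h0 m
  rw [nt_k3]
  rw [nt_pos] at e
  obtain ⟨n1, n2, n3⟩ := h.pne hk
  have hex := (ct_ex h.hc hq h0 m k).2.2.2
  obtain ⟨i, hi⟩ := rel_idx (ct a q m).2 k
  rw [hi] at hc hex ⊢
  exact cn_y h.sep (h.qf hk) (h.hy hk) hc e n1 n2 n3
    (fun e => ⟨fun e1 => (hex e).1 (by rw [e1]), fun e1 => (hex e).2 (by rw [e1])⟩)

/-- no edge of a cell triangle without common vertex crosses both legs -/
theorem fq_cr (h : Cf V κ el X a M c act re p) (hk : act k) {q : Cell} (hq : 0 ≤ q.2.1) (h0 : q.2.1 ≠ 0)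
    (hn : ∀ i, NT X a q i ≠ p k ∧ NT X a q i ≠ g1 X k (a k) ∧ NT X a q i ≠ g2 X k (a k) ∧ NT X a q i ≠ g3 X k (a k))
    (i : Fin 3) : ¬ Cross2 (p k) (g1 X k (a k)) (g3 X k (a k)) (NT X a q i) (NT X a q (i + 1)) := by
  have hg := (nt_good h.el2 h.ad hq h0).2
  have hz := nt_mem h.ad hq i (Or.inl h0)
  have hw := nt_mem h.ad hq (i + 1) (Or.inl h0)
  have hlen := hg.2.1 i
  by_cases hr : re k
  · refine (h.rf k hk hr).cross _ hz _ hw ?_ ?_ ?_
    · intro e
      have h1 := NOV_orient (NT X a q) i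
      rw [← e, sub_self] at h1
      have h2 := hg.1
      rw [← h1] at h2
      simp [cr] at h2
    · rw [norm_sub_rev]; linarith
    · rintro v (rfl | rfl | rfl)
      · exact ⟨(hn i).1, (hn (i + 1)).1⟩
      · exact ⟨(hn i).2.1, (hn (i + 1)).2.1⟩
      · exact ⟨(hn i).2.2.2, (hn (i + 1)).2.2.2⟩
  · obtain ⟨e, hv⟩ := h.vf k hk hr
    rw [e]
    rintro ⟨s, σ, t, ρ, s0, s1, σ0, σ1, t0, t1, ρ0, ρ1, hs, ht⟩
    have hu := hv.unm
    have hf := h.qf hk
    -- the sites of the vertices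
    obtain ⟨p1, a1, a2, a3⟩ := crn_cs (a q.1) q.1 q.2.1 hq q.2.2 i
    obtain ⟨p2, b1, b2, b3⟩ := crn_cs (a q.1) q.1 q.2.1 hq q.2.2 (i + 1)
    have a2 := a2 (Or.inl h0)
    have b2 := b2 (Or.inl h0)
    have ez : NT X a q i = pos X (cs (a q.1) q.1 p1) := by rw [nt_pos]; unfold ct; rw [a3]
    have ew : NT X a q (i + 1) = pos X (cs (a q.1) q.1 p2) := by rw [nt_pos]; unfold ct; rw [b3]
    have hni := hn i
    have hnj := hn (i + 1)
    rw [ez, ew] at hs ht hlen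
    rw [ez] at hni
    rw [ew] at hnj
    have c10 : cs (a k) k (1, 0) = a k + E (kk k) := by
      have := cs_10 (a k) k 0
      rw [cs_zero] at this; exact this
    have c01 : cs (a k) k (0, 1) = a k + E (kk k + 2) := by
      have := cs_01 (a k) k 0
      rw [cs_zero] at this; exact this
    have cases3 : q.1 = k ∨ q.1 = k + 1 ∨ q.1 = k + 2 := by
      generalize q.1 = l
      fin_cases k <;> fin_cases l <;> decide
    rcases cases3 with hl | hl | hl
    · -- same wedge: heights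
      rw [hl] at hs hni hnj
      have n10 : ∀ {p' : ℤ × ℤ}, pos X (cs (a k) k p') ≠ g1 X k (a k) → p' ≠ (1, 0) := by
        rintro p' hne rfl
        exact hne (by rw [c10]; rfl)
      have n01 : ∀ {p' : ℤ × ℤ}, pos X (cs (a k) k p') ≠ g3 X k (a k) → p' ≠ (0, 1) := by
        rintro p' hne rfl
        exact hne (by rw [c01]; rfl)
      have x1 := vnc_same (k := k) h.vb h.ad a1 a2 (n10 hni.2.1) (n01 hni.2.2.2)
      have x2 := vnc_same (k := k) h.vb h.ad b1 b2 (n10 hnj.2.1) (n01 hnj.2.2.2)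
      have hP := pb h.vb (h.ad k) (p := (1, 0)) (nz_10 (p := 0) le_rfl).1 (nz_10 (p := 0) le_rfl).2
      rw [c10] at hP
      have hup := hP.up
      have hg1 : dt (g1 X k (a k) - a k) (E (kk k + 1)) = dt (pos X (a k + E (kk k)) - (a k + E (kk k))) (E (kk k + 1)) + 1 / 2 := by
        rw [← dtE1 (kk k), ← dt_add_l]; congr 1; unfold g1; ring
      have h3 : dt (pos X (cs (a k) k p1) + (s : ℂ) * (pos X (cs (a k) k p2) - pos X (cs (a k) k p1)) - a k) (E (kk k + 1)) =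
          dt (a k + (σ : ℂ) * (g1 X k (a k) - a k) - a k) (E (kk k + 1)) := by rw [hs]
      have h4 : dt (pos X (cs (a k) k p1) + (s : ℂ) * (pos X (cs (a k) k p2) - pos X (cs (a k) k p1)) - a k) (E (kk k + 1)) =
          (1 - s) * dt (pos X (cs (a k) k p1) - a k) (E (kk k + 1)) + s * dt (pos X (cs (a k) k p2) - a k) (E (kk k + 1)) := by
        simp [dt]; ring
      have h5 : dt (a k + (σ : ℂ) * (g1 X k (a k) - a k) - a k) (E (kk k + 1)) = σ * dt (g1 X k (a k) - a k) (E (kk k + 1)) := by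
        simp [dt]; ring
      rw [h4, h5, hg1] at h3
      have k1 := mul_le_mul_of_nonneg_left x1 (show 0 ≤ 1 - s by linarith)
      have k2 := mul_le_mul_of_nonneg_left x2 s0
      have k3 : σ * (dt (pos X (a k + E (kk k)) - (a k + E (kk k))) (E (kk k + 1)) + 1 / 2) ≤ 58 / 100 := by
        rcases le_total 0 (dt (pos X (a k + E (kk k)) - (a k + E (kk k))) (E (kk k + 1)) + 1 / 2) with hh | hh
        · nlinarith
        · nlinarith
      linarith
    · -- left neighbour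
      rw [hl] at hs ht hlen
      have x1 := vnc_left h.vb h.ad h.hc hu a1 a2
      have x2 := vnc_left h.vb h.ad h.hc hu b1 b2
      have hlen' : ‖(pos X (cs (a (k + 1)) (k + 1) p2) - a k) - (pos X (cs (a (k + 1)) (k + 1) p1) - a k)‖ ^ 2 ≤ 8 / 3 := by
        rw [sub_sub_sub_cancel_right]; exact hlen
      have hpt : pos X (cs (a (k + 1)) (k + 1) p1) - a k + (s : ℂ) * ((pos X (cs (a (k + 1)) (k + 1) p2) - a k) -
          (pos X (cs (a (k + 1)) (k + 1) p1) - a k)) = (σ : ℂ) * (g1 X k (a k) - a k) := by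
        linear_combination hs
      have hg1 := mt_dt hf.m1 (norm_NN (kk k)).le
      have hg1' := mt_dt hf.m1 (n := E (kk k + 2)) (c := 1) (norm_E _).le
      have s3 := sq3_hi
      have e1 : dt (g1 X k (a k) - a k) (E (kk k) + E (kk k + 1)) =
          dt (pos X (a k + E (kk k)) - (a k + E (kk k))) (E (kk k) + E (kk k + 1)) + 3 / 2 := by
        rw [← dtM0 (kk k), ← dt_add_l]; congr 1; unfold g1; ring
      have e2 : dt (g1 X k (a k) - a k) (E (kk k + 2)) =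
          dt (pos X (a k + E (kk k)) - (a k + E (kk k))) (E (kk k + 2)) + -(1 / 2) := by
        rw [← dtE2 (kk k), ← dt_add_l]; congr 1; unfold g1; ring
      refine lev (norm_E (kk k + 2)) x1 x2 hlen' s0 s1 ?_ ?_
      · rw [hpt]
        have : dt ((σ : ℂ) * (g1 X k (a k) - a k)) (E (kk k) + E (kk k + 1)) =
            σ * dt (g1 X k (a k) - a k) (E (kk k) + E (kk k + 1)) := by simp [dt]; ring
        rw [this, e1]
        have := (abs_le.1 hg1).1
        exact mul_nonneg σ0 (by linarith)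
      · rw [hpt]
        have : dt ((σ : ℂ) * (g1 X k (a k) - a k)) (E (kk k + 2)) =
            σ * dt (g1 X k (a k) - a k) (E (kk k + 2)) := by simp [dt]; ring
        rw [this, e2]
        have := (abs_le.1 hg1').2
        exact mul_nonpos_of_nonneg_of_nonpos σ0 (by linarith)
    · -- right neighbour
      rw [hl] at hs ht hlen
      have x1 := vnc_right h.vb h.ad h.hc hu a1 a2
      have x2 := vnc_right h.vb h.ad h.hc hu b1 b2
      have hlen' : ‖(pos X (cs (a (k + 2)) (k + 2) p2) - a k) - (pos X (cs (a (k + 2)) (k + 2) p1) - a k)‖ ^ 2 ≤ 8 / 3 := by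
        rw [sub_sub_sub_cancel_right]; exact hlen
      have hpt : pos X (cs (a (k + 2)) (k + 2) p1) - a k + (t : ℂ) * ((pos X (cs (a (k + 2)) (k + 2) p2) - a k) -
          (pos X (cs (a (k + 2)) (k + 2) p1) - a k)) = (ρ : ℂ) * (g3 X k (a k) - a k) := by
        linear_combination ht
      have hNN : ‖E (kk k + 1) + E (kk k + 2)‖ ≤ √3 := by rw [← kk2a]; exact (norm_NN _).le
      have hg3 := mt_dt hf.m3 hNN
      have hg3' := mt_dt hf.m3 (n := E (kk k)) (c := 1) (norm_E _).le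
      have s3 := sq3_hi
      have e1 : dt (g3 X k (a k) - a k) (E (kk k + 1) + E (kk k + 2)) =
          dt (pos X (a k + E (kk k + 2)) - (a k + E (kk k + 2))) (E (kk k + 1) + E (kk k + 2)) + 3 / 2 := by
        rw [← dtN2 (kk k), ← dt_add_l]; congr 1; unfold g3; ring
      have e2 : dt (g3 X k (a k) - a k) (E (kk k)) =
          dt (pos X (a k + E (kk k + 2)) - (a k + E (kk k + 2))) (E (kk k)) + -(1 / 2) := by
        rw [← dtE2 (kk k), dt_comm (E (kk k)), ← dt_add_l]; congr 1; unfold g3; ring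
      refine lev (norm_E (kk k)) x1 x2 hlen' t0 t1 ?_ ?_
      · rw [hpt]
        have : dt ((ρ : ℂ) * (g3 X k (a k) - a k)) (E (kk k + 1) + E (kk k + 2)) =
            ρ * dt (g3 X k (a k) - a k) (E (kk k + 1) + E (kk k + 2)) := by simp [dt]; ring
        rw [this, e1]
        have := (abs_le.1 hg3).1
        exact mul_nonneg ρ0 (by linarith)
      · rw [hpt]
        have : dt ((ρ : ℂ) * (g3 X k (a k) - a k)) (E (kk k)) =
            ρ * dt (g3 X k (a k) - a k) (E (kk k)) := by simp [dt]; ring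
        rw [this, e2]
        have := (abs_le.1 hg3').2
        exact mul_nonpos_of_nonneg_of_nonpos ρ0 (by linarith)

/-- the cell on the other side of `[g1, g2]` -/
def T12 (X : Set ℂ) (a : Fin 3 → ℂ) (k : Fin 3) : Fin 3 → ℂ := NT X a ⟨k, ((1, 0), true)⟩
/-- the cell on the other side of `[g2, g3]` -/
def T23 (X : Set ℂ) (a : Fin 3 → ℂ) (k : Fin 3) : Fin 3 → ℂ := NT X a ⟨k, ((0, 1), false)⟩

theorem T12_v (X : Set ℂ) (a : Fin 3 → ℂ) (k : Fin 3) : T12 X a k 0 = g1 X k (a k) ∧ T12 X a k 2 = g2 X k (a k) := by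
  have c10 : cs (a k) k (1, 0) = a k + E (kk k) := by
    have := cs_10 (a k) k 0
    rw [cs_zero] at this; exact this
  constructor
  · change pos X (cs (a k) k (1, 0)) = _
    rw [c10]; rfl
  · change pos X (cs (a k) k (1, 0) + E (kk k + 1 + 1)) = _
    rw [c10, kk2a, show a k + E (kk k) + E (kk k + 2) = a k + E (kk k + 1) by rw [Ek1]; ring]; rfl

theorem T23_v (X : Set ℂ) (a : Fin 3 → ℂ) (k : Fin 3) : T23 X a k 0 = g3 X k (a k) ∧ T23 X a k 1 = g2 X k (a k) := by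
  have c01 : cs (a k) k (0, 1) = a k + E (kk k + 2) := by
    have := cs_01 (a k) k 0
    rw [cs_zero] at this; exact this
  constructor
  · change pos X (cs (a k) k (0, 1)) = _
    rw [c01]; rfl
  · change pos X (cs (a k) k (0, 1) + E (kk k)) = _
    rw [c01, show a k + E (kk k + 2) + E (kk k) = a k + E (kk k + 1) by rw [Ek1]; ring]; rfl

theorem T12_ok (k : Fin 3) : (0 : ℤ × ℤ) ≤ (⟨k, ((1, 0), true)⟩ : Cell).2.1 ∧ (⟨k, ((1, 0), true)⟩ : Cell).2.1 ≠ 0 :=
  nz_10 (p := 0) le_rfl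
theorem T23_ok (k : Fin 3) : (0 : ℤ × ℤ) ≤ (⟨k, ((0, 1), false)⟩ : Cell).2.1 ∧ (⟨k, ((0, 1), false)⟩ : Cell).2.1 ≠ 0 :=
  nz_01 (p := 0) le_rfl

theorem T12_LL (h : Cf V κ el X a M c act re p) (k : Fin 3) : LL (T3 (T12 X a k)) (g2 X k (a k)) (g1 X k (a k)) := by
  have hg := (nt_good h.el2 h.ad (T12_ok k).1 (T12_ok k).2).2
  have := LL_tri hg.1 2
  obtain ⟨e0, e2⟩ := T12_v X a k
  unfold T12 at e0 e2
  rw [show (2 + 1 : Fin 3) = 0 from rfl, e0, e2] at this
  exact this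

theorem T23_LL (h : Cf V κ el X a M c act re p) (k : Fin 3) : LL (T3 (T23 X a k)) (g3 X k (a k)) (g2 X k (a k)) := by
  have hg := (nt_good h.el2 h.ad (T23_ok k).1 (T23_ok k).2).2
  have := LL_tri hg.1 0
  obtain ⟨e0, e2⟩ := T23_v X a k
  unfold T23 at e0 e2
  rw [show (0 + 1 : Fin 3) = 1 from rfl, e0, e2] at this
  exact this

/-- D1 -/
theorem fq_disj (h : Cf V κ el X a M c act re p) (hk : act k) {q : Cell} (hq : 0 ≤ q.2.1) (h0 : q.2.1 ≠ 0) :
    Disjoint (T3 (NT X a q)) (QK X a p k) := by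
  unfold QK
  by_cases hcom : ∃ i, NT X a q i = p k ∨ NT X a q i = g1 X k (a k) ∨ NT X a q i = g2 X k (a k) ∨ NT X a q i = g3 X k (a k)
  · obtain ⟨i, hi | hi | hi | hi⟩ := hcom
    · exact (fq_y h hk hq h0 i hi).mono (T3_sub_K3 _ i) (Qo_sub_p _ _ _ _)
    · exact (fq_g1 h hk hq h0 i hi).mono (T3_sub_K3 _ i) (Qo_sub_a _ _ _ _)
    · exact (fq_g2 h hk hq h0 i hi).mono (T3_sub_K3 _ i) (Qo_sub_b _ _ _ _)
    · exact (fq_g3 h hk hq h0 i hi).mono (T3_sub_K3 _ i) (Qo_sub_c _ _ _ _)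
  · push Not at hcom
    have hg := (nt_good h.el2 h.ad hq h0).2
    have hne1 : q ≠ ⟨k, ((1, 0), true)⟩ := by
      rintro rfl
      exact (hcom 0).2.1 (T12_v X a k).1
    have hne2 : q ≠ ⟨k, ((0, 1), false)⟩ := by
      rintro rfl
      exact (hcom 0).2.2.2 (T23_v X a k).1
    refine fq_nc h.sep (h.qf hk) (fun i => nt_mem h.ad hq i (Or.inl h0)) hg hcom (T12_LL h k) (T23_LL h k) ?_ ?_
      (fq_cr h hk hq h0 hcom)
    · exact nt_disj h.sep h.el2 h.ad h.hc hq h0 (T12_ok k).1 (T12_ok k).2 hne1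
    · exact nt_disj h.sep h.el2 h.ad h.hc hq h0 (T23_ok k).1 (T23_ok k).2 hne2

end Pool.Agent.H16.AP
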