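import Pool.Agent.H16.AP.D1

/-!
# D2A: corners of two apex quadrilaterals at common vertices
-/

set_option autoImplicit false

open Set Real

noncomputable section

namespace Pool.Agent.H16.AP

open Pool.Agent.H20.AL Pool.Agent.H63.P6 Pool.Agent.H16.T3 Pool.Agent.H78.P6

variable {V : ℂ → ℝ} {κ el : ℝ} {X : Set ℂ} {k : Fin 3} {a : Fin 3 → ℂ} {M : Fin 3 → ℤ} {c : ℂ} {act re : Fin 3 → Prop}
  {p : Fin 3 → ℂ}

/-- vertices of the quadrilateral -/
def QV (X : Set ℂ) (a : Fin 3 → ℂ) (p : Fin 3 → ℂ) (k : Fin 3) : Fin 4 → ℂ :=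
  ![p k, g1 X k (a k), g2 X k (a k), g3 X k (a k)]

/-- cones of the quadrilateral at its vertices -/
def QCn (X : Set ℂ) (a : Fin 3 → ℂ) (p : Fin 3 → ℂ) (k : Fin 3) : Fin 4 → Set ℂ :=
  ![Cone (p k) (g1 X k (a k)) (g3 X k (a k)), Cone (g1 X k (a k)) (g2 X k (a k)) (p k),
    Cone (g2 X k (a k)) (g3 X k (a k)) (g1 X k (a k)), Cone (g3 X k (a k)) (p k) (g2 X k (a k))]

theorem QK_sub (X : Set ℂ) (a : Fin 3 → ℂ) (p : Fin 3 → ℂ) (k : Fin 3) (i : Fin 4) : QK X a p k ⊆ QCn X a p k i := by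
  fin_cases i
  · exact Qo_sub_p _ _ _ _
  · exact Qo_sub_a _ _ _ _
  · exact Qo_sub_b _ _ _ _
  · exact Qo_sub_c _ _ _ _

theorem lat_inj (k : Fin 3) {x y x' y' : ℤ}
    (h : (x : ℂ) * E (kk k) + (y : ℂ) * E (kk k + 2) = (x' : ℂ) * E (kk k) + (y' : ℂ) * E (kk k + 2)) : x = x' ∧ y = y' := by
  have := wedge_inj (k := k) (α := (x : ℝ)) (β := (y : ℝ)) (α' := (x' : ℝ)) (β' := (y' : ℝ)) (by push_cast; exact h)
  exact ⟨by exact_mod_cast this.1, by exact_mod_cast this.2⟩

/-- possible sites of a real apex point, in coordinates -/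
theorem ysite (hf : QF X k (a k) (p k)) (hn : p k ≠ g1 X k (a k) ∧ p k ≠ g2 X k (a k) ∧ p k ≠ g3 X k (a k)) {x z : ℤ} {t : ℂ}
    (ht : t = a k + ((x : ℂ) * E (kk k) + (z : ℂ) * E (kk k + 2))) (tL : t ∈ Lam) (m0 : Mt X t) (e : pos X t = p k) :
    (x = 0 ∧ z = 0) ∨ (x = -1 ∧ z = 0) ∨ (x = -1 ∧ z = -1) ∨ (x = 0 ∧ z = -1) := by
  rcases y_site hf tL m0 e hn.1 hn.2.1 hn.2.2 with h | h | h | h
  · left
    refine lat_inj k (x' := 0) (y' := 0) ?_
    rw [ht] at h
    push_cast; linear_combination h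
  · right; left
    rw [ht, Ek3] at h
    have := lat_inj k (x := x) (y := z) (x' := -1) (y' := 0) (by push_cast; linear_combination h)
    exact this
  · right; right; left
    rw [ht, Ek4] at h
    have := lat_inj k (x := x) (y := z) (x' := -1) (y' := -1) (by push_cast; linear_combination h)
    exact this
  · right; right; right
    rw [ht, Ek5] at h
    have := lat_inj k (x := x) (y := z) (x' := 0) (y' := -1) (by push_cast; linear_combination h)
    exact this

/-- sites of the right neighbour in its own coordinates -/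
theorem site_r {α β : ℤ} (hb : a (k + 2) = a k + (α : ℂ) * E (kk k) - (β : ℂ) * E (kk k + 2)) (x z : ℤ) :
    a k + ((x : ℂ) * E (kk k) + (z : ℂ) * E (kk k + 2)) =
      a (k + 2) + (((-(z + β) : ℤ) : ℂ) * E (kk (k + 2)) + ((x - α - z - β : ℤ) : ℂ) * E (kk (k + 2) + 2)) := by
  rw [Er0, Er2, hb]; push_cast; ring

/-- a nonapex site of the wedge `k` is matched -/
theorem mt_site (h : Cf V κ el X a M c act re p) (k : Fin 3) {x z : ℤ} (hx : 0 ≤ x) (hz : 0 ≤ z) (hn : x ≠ 0 ∨ z ≠ 0) :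
    Mt X (a k + ((x : ℂ) * E (kk k) + (z : ℂ) * E (kk k + 2))) := by
  have h1 := mt_of h.vb (h.ad k) (p := (x, z)) ⟨hx, hz⟩ (by
    intro e
    have e1 := congrArg Prod.fst e
    have e2 := congrArg Prod.snd e
    simp at e1 e2
    rcases hn with hn | hn
    · exact hn e1
    · exact hn e2)
  rw [wsE] at h1
  exact h1

/-- the apex of the right neighbour is matched when it is to the right on the common row -/
theorem row_pos (h : Cf V κ el X a M c act re p) {α : ℤ} (hα : 1 ≤ α)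
    (hb : a (k + 2) = a k + (α : ℂ) * E (kk k) - ((0 : ℤ) : ℂ) * E (kk k + 2)) : Mt X (a (k + 2)) := by
  have := mt_site h k (x := α) (z := 0) (by omega) le_rfl (Or.inl (by omega))
  convert this using 1
  rw [hb]; push_cast; ring

theorem row_neg (h : Cf V κ el X a M c act re p) {α : ℤ} (hα : α ≤ -1)
    (hb : a (k + 2) = a k + (α : ℂ) * E (kk k) - ((0 : ℤ) : ℂ) * E (kk k + 2)) : Mt X (a k) := by
  have := mt_site h (k + 2) (x := 0) (z := -α) le_rfl (by omega) (Or.inr (by omega))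
  convert this using 1
  rw [hb, Er0, Er2]; push_cast; ring

/-- cones at a common apex point, different apex sites -/
theorem qq_yy (hf : QF X k (a k) (p k)) (hf' : QF X (k + 2) (a (k + 2)) (p (k + 2))) (e : p k = p (k + 2))
    (ho : 0 < cr (g3 X (k + 2) (a (k + 2)) - p k) (g1 X k (a k) - p k)) :
    Disjoint (Cone (p k) (g1 X k (a k)) (g3 X k (a k)))
      (Cone (p (k + 2)) (g1 X (k + 2) (a (k + 2))) (g3 X (k + 2) (a (k + 2)))) := by
  rw [Set.disjoint_left]
  rintro v ⟨v1, v2⟩ ⟨v3, v4⟩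
  have u1 := hf.up1
  have u3 := hf.up3
  have u1' := hf'.up1
  have u3' := hf'.up3
  have s3' := hf'.s3
  have s1 := hf.s1
  have c13 := hf.c13
  have c13' := hf'.c13
  rw [← e] at v3 v4 u1' u3' s3' c13'
  rw [Er1] at u1' u3'
  rw [Er2] at s3'
  -- v up and v down-right
  have w1 : 0 < dt (v - p k) (E (kk k + 1)) := by
    have h1 := cramer_dt (E (kk k + 1)) (g1 X k (a k) - p k) (g3 X k (a k) - p k) (v - p k)
    have h2 : 0 < dt (v - p k) (E (kk k + 1)) * cr (g1 X k (a k) - p k) (g3 X k (a k) - p k) := by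
      rw [h1]; positivity
    exact (pos_iff_pos_of_mul_pos h2).2 c13
  have w5 : 0 < dt (v - p k) (-E (kk k + 2)) := by
    have h1 := cramer_dt (-E (kk k + 2)) (g1 X (k + 2) (a (k + 2)) - p k) (g3 X (k + 2) (a (k + 2)) - p k) (v - p k)
    have h2 : 0 < dt (v - p k) (-E (kk k + 2)) * cr (g1 X (k + 2) (a (k + 2)) - p k) (g3 X (k + 2) (a (k + 2)) - p k) := by
      rw [h1]; positivity
    exact (pos_iff_pos_of_mul_pos h2).2 c13'
  have w0 : 0 < dt (v - p k) (E (kk k)) := by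
    rw [dt_neg_r] at w5
    rw [Ek1, dt_add_r] at w1
    linarith
  have := tr3 w0 s3' s1 v4 ho
  have h3 : cr (v - p k) (g1 X k (a k) - p k) = -cr (g1 X k (a k) - p k) (v - p k) := by simp [cr]; ring
  rw [h3] at this
  linarith

/-- the apex point of the right neighbour is `g1` -/
theorem qq_g1y (hf : QF X k (a k) (p k)) (hf' : QF X (k + 2) (a (k + 2)) (p (k + 2))) (e : g1 X k (a k) = p (k + 2))
    (ho : cr (g1 X (k + 2) (a (k + 2)) - g1 X k (a k)) (p k - g1 X k (a k)) ≤ 0 ∨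
      dt (p k - g1 X k (a k)) (-E (kk k + 2)) ≤ 0) :
    Disjoint (Cone (g1 X k (a k)) (g2 X k (a k)) (p k))
      (Cone (p (k + 2)) (g1 X (k + 2) (a (k + 2))) (g3 X (k + 2) (a (k + 2)))) := by
  rw [Set.disjoint_left]
  rintro v ⟨v1, v2⟩ ⟨v3, v4⟩
  have u1' := hf'.up1
  have u3' := hf'.up3
  have c13' := hf'.c13
  rw [← e] at v3 v4 u1' u3' c13'
  rw [Er1] at u1' u3'
  have w5 : 0 < dt (v - g1 X k (a k)) (-E (kk k + 2)) := by
    have h1 := cramer_dt (-E (kk k + 2)) (g1 X (k + 2) (a (k + 2)) - g1 X k (a k)) (g3 X (k + 2) (a (k + 2)) - g1 X k (a k))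
      (v - g1 X k (a k))
    have h2 : 0 < dt (v - g1 X k (a k)) (-E (kk k + 2)) *
        cr (g1 X (k + 2) (a (k + 2)) - g1 X k (a k)) (g3 X (k + 2) (a (k + 2)) - g1 X k (a k)) := by
      rw [h1]; positivity
    exact (pos_iff_pos_of_mul_pos h2).2 c13'
  have hb : dt (g2 X k (a k) - g1 X k (a k)) (-E (kk k + 2)) < 0 := by
    have := tp0 hf.t12
    rw [dt_neg_r]; linarith
  have hp : 0 < dt (p k - g1 X k (a k)) (-E (kk k + 2)) := by
    by_contra hcon
    push Not at hcon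
    have h1 := cramer_dt (-E (kk k + 2)) (g2 X k (a k) - g1 X k (a k)) (p k - g1 X k (a k)) (v - g1 X k (a k))
    have h3 : 0 < cr (g2 X k (a k) - g1 X k (a k)) (p k - g1 X k (a k)) := by
      have := hf.c12
      rw [cr_cyc] at this; exact this
    have h4 := mul_pos w5 h3
    rw [h1] at h4
    have h5 := mul_neg_of_neg_of_pos hb v2
    have h6 := mul_nonpos_of_nonpos_of_nonneg hcon v1.le
    linarith
  have h7 := tr3 u1' w5 hp v3 v2
  rcases ho with ho | ho
  · linarith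
  · linarith

/-- the apex point is `g3` of the right neighbour -/
theorem qq_yg3 (hf : QF X k (a k) (p k)) (hf' : QF X (k + 2) (a (k + 2)) (p (k + 2))) (e : p k = g3 X (k + 2) (a (k + 2)))
    (ho : cr (p (k + 2) - p k) (g3 X k (a k) - p k) ≤ 0 ∨ dt (p (k + 2) - p k) (E (kk k + 1)) ≤ 0) :
    Disjoint (Cone (p k) (g1 X k (a k)) (g3 X k (a k)))
      (Cone (g3 X (k + 2) (a (k + 2))) (p (k + 2)) (g2 X (k + 2) (a (k + 2)))) := by
  rw [Set.disjoint_left]
  rintro v ⟨v1, v2⟩ ⟨v3, v4⟩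
  have u1 := hf.up1
  have u3 := hf.up3
  have c13 := hf.c13
  rw [← e] at v3 v4
  have w1 : 0 < dt (v - p k) (E (kk k + 1)) := by
    have h1 := cramer_dt (E (kk k + 1)) (g1 X k (a k) - p k) (g3 X k (a k) - p k) (v - p k)
    have h2 : 0 < dt (v - p k) (E (kk k + 1)) * cr (g1 X k (a k) - p k) (g3 X k (a k) - p k) := by
      rw [h1]; positivity
    exact (pos_iff_pos_of_mul_pos h2).2 c13
  have hb : dt (g2 X (k + 2) (a (k + 2)) - p k) (E (kk k + 1)) < 0 := by
    have := tp0 hf'.t32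
    rw [← e, Er0, ← Ek1, dt_neg_r] at this
    linarith
  have hp : 0 < dt (p (k + 2) - p k) (E (kk k + 1)) := by
    by_contra hcon
    push Not at hcon
    have h1 := cramer_dt (E (kk k + 1)) (p (k + 2) - p k) (g2 X (k + 2) (a (k + 2)) - p k) (v - p k)
    have h3 : 0 < cr (p (k + 2) - p k) (g2 X (k + 2) (a (k + 2)) - p k) := by
      have := hf'.c23
      rw [cr_cyc2, ← e] at this; exact this
    have h4 := mul_pos w1 h3
    rw [h1] at h4
    have h5 := mul_neg_of_neg_of_pos hb v3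
    have h6 := mul_nonpos_of_nonpos_of_nonneg hcon v4.le
    linarith
  have h7 := tr3 hp w1 u3 v3 v2
  rcases ho with ho | ho
  · linarith
  · linarith

/-- common ray -/
theorem ray_disj (x y b c : ℂ) : Disjoint (Cone x y b) (Cone x c y) := by
  rw [Set.disjoint_left]
  rintro v ⟨v1, _⟩ ⟨_, v4⟩
  have : cr (v - x) (y - x) = -cr (y - x) (v - x) := by simp [cr]; ring
  linarith

end Pool.Agent.H16.AP
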