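import Pool.Agent.H16.AP.D2A

/-!
# D2B: corners of two apex quadrilaterals at common vertices, all cases
-/

set_option autoImplicit false

open Set Real

noncomputable section

namespace Pool.Agent.H16.AP

open Pool.Agent.H20.AL Pool.Agent.H63.P6 Pool.Agent.H16.T3 Pool.Agent.H78.P6

variable {V : ℂ → ℝ} {κ el : ℝ} {X : Set ℂ} {k : Fin 3} {a : Fin 3 → ℂ} {M : Fin 3 → ℤ} {c : ℂ} {act re : Fin 3 → Prop}
  {p : Fin 3 → ℂ}

/-- the site with coordinates `(x, z)` relative to `a k` -/
def S (a : Fin 3 → ℂ) (k : Fin 3) (x z : ℤ) : ℂ := a k + ((x : ℂ) * E (kk k) + (z : ℂ) * E (kk k + 2))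

theorem S_mem (h : Cf V κ el X a M c act re p) (k : Fin 3) (x z : ℤ) : S a k x z ∈ Lam :=
  lam_zsmul (h.ad k).mem x z _ _

theorem S_inj (h : Cf V κ el X a M c act re p) {k : Fin 3} {x z x' z' : ℤ} (m : Mt X (S a k x z)) (m' : Mt X (S a k x' z'))
    (e : pos X (S a k x z) = pos X (S a k x' z')) : x = x' ∧ z = z' := by
  have := pos_inj (S_mem h k x z) (S_mem h k x' z') m.lt m'.lt e
  exact lat_inj k (add_left_cancel this)

theorem S00 (a : Fin 3 → ℂ) (k : Fin 3) : S a k 0 0 = a k := by simp [S]

theorem g1S (X : Set ℂ) (a : Fin 3 → ℂ) (k : Fin 3) : g1 X k (a k) = pos X (S a k 1 0) := by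
  unfold g1 S; push_cast; congr 1; ring
theorem g2S (X : Set ℂ) (a : Fin 3 → ℂ) (k : Fin 3) : g2 X k (a k) = pos X (S a k 1 1) := by
  unfold g2 S; rw [Ek1]; push_cast; congr 1; ring
theorem g3S (X : Set ℂ) (a : Fin 3 → ℂ) (k : Fin 3) : g3 X k (a k) = pos X (S a k 0 1) := by
  unfold g3 S; push_cast; congr 1; ring

theorem m1S (hf : QF X k (a k) (p k)) : Mt X (S a k 1 0) := by
  have := hf.m1
  rw [show a k + E (kk k) = S a k 1 0 by unfold S; push_cast; ring] at this
  exact this
theorem m2S (hf : QF X k (a k) (p k)) : Mt X (S a k 1 1) := by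
  have := hf.m2
  rw [show a k + E (kk k + 1) = S a k 1 1 by unfold S; rw [Ek1]; push_cast; ring] at this
  exact this
theorem m3S (hf : QF X k (a k) (p k)) : Mt X (S a k 0 1) := by
  have := hf.m3
  rw [show a k + E (kk k + 2) = S a k 0 1 by unfold S; push_cast; ring] at this
  exact this

section
variable {α β : ℤ} (hb : a (k + 2) = a k + (α : ℂ) * E (kk k) - (β : ℂ) * E (kk k + 2))
include hb

theorem bS : a (k + 2) = S a k α (-β) := by rw [hb]; unfold S; push_cast; ring
/-- change of coordinates to the right neighbour -/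
theorem S_r (x z : ℤ) : S a (k + 2) x z = S a k (α - x + z) (-β - x) := by
  unfold S
  rw [Er0, Er2, hb]; push_cast; ring
theorem S_r' (x z : ℤ) : S a k x z = S a (k + 2) (-(z + β)) (x - α - z - β) := by
  rw [S_r hb]; congr 1 <;> ring

theorem g1r : g1 X (k + 2) (a (k + 2)) = pos X (S a k (α - 1) (-β - 1)) := by
  rw [g1S, S_r hb]; congr 2; ring
theorem g2r : g2 X (k + 2) (a (k + 2)) = pos X (S a k α (-β - 1)) := by
  rw [g2S, S_r hb]; congr 2; ring
theorem g3r : g3 X (k + 2) (a (k + 2)) = pos X (S a k (α + 1) (-β)) := by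
  rw [g3S, S_r hb]; congr 2 <;> ring

theorem m1r (hf : QF X (k + 2) (a (k + 2)) (p (k + 2))) : Mt X (S a k (α - 1) (-β - 1)) := by
  have := m1S hf
  rw [S_r hb] at this
  convert this using 2; ring
theorem m2r (hf : QF X (k + 2) (a (k + 2)) (p (k + 2))) : Mt X (S a k α (-β - 1)) := by
  have := m2S hf
  rw [S_r hb] at this
  convert this using 2; ring
theorem m3r (hf : QF X (k + 2) (a (k + 2)) (p (k + 2))) : Mt X (S a k (α + 1) (-β)) := by
  have := m3S hf
  rw [S_r hb] at this
  convert this using 2 <;> ring

end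

/-- a row apex on the right is matched -/
theorem row_p (h : Cf V κ el X a M c act re p) {α : ℤ} (hα : 1 ≤ α) (k : Fin 3) : Mt X (S a k α 0) := by
  have := mt_site h k (x := α) (z := 0) (by omega) le_rfl (Or.inl (by omega))
  exact this

theorem qsite (h : Cf V κ el X a M c act re p) (hk : act k) {x z : ℤ} (m : Mt X (S a k x z)) (e : p k = pos X (S a k x z)) :
    (x = 0 ∧ z = 0) ∨ (x = -1 ∧ z = 0) ∨ (x = -1 ∧ z = -1) ∨ (x = 0 ∧ z = -1) :=
  ysite (h.qf hk) (h.pne hk) rfl (S_mem h k x z) m e.symm

/-- real or virtual: a point of `X` as apex means real -/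
theorem real_of (h : Cf V κ el X a M c act re p) (hk : act k) (hX : p k ∈ X) : re k := by
  by_contra hr
  obtain ⟨e, hv⟩ := h.vf k hk hr
  exact unm_not_mem hv.unm (e ▸ hX)

theorem qq_cone_right (h : Cf V κ el X a M c act re p) (hk : act k) (hl : act (k + 2)) (i j : Fin 4)
    (e : QV X a p k i = QV X a p (k + 2) j) : Disjoint (QCn X a p k i) (QCn X a p (k + 2) j) := by
  obtain ⟨α, β, hβ, hb⟩ := ad_right h.hc k
  have hf := h.qf hk
  have hf' := h.qf hl
  have pk := h.pne hk
  have pl := h.pne hl
  have hyk := h.hy hk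
  have hyl := h.hy hl
  have M1 := m1S hf
  have M2 := m2S hf
  have M3 := m3S hf
  have N1 := m1r hb hf'
  have N2 := m2r hb hf'
  have N3 := m3r hb hf'
  have G1 := g1S X a k
  have G2 := g2S X a k
  have G3 := g3S X a k
  have H1 := g1r (X := X) hb
  have H2 := g2r (X := X) hb
  have H3 := g3r (X := X) hb
  have B := bS hb
  -- same apex
  have same : α = 0 → β = 0 → p k = p (k + 2) ∧ g1 X k (a k) = g3 X (k + 2) (a (k + 2)) := by
    rintro rfl rfl
    have e1 : a k = a (k + 2) := by rw [hb]; push_cast; ring
    refine ⟨(h.same k (k + 2) hk hl e1).1, ?_⟩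
    rw [G1, H3]; congr 2
  -- row on the right
  have rowR : 1 ≤ α → β = 0 → p (k + 2) = pos X (S a k α 0) := by
    rintro hα rfl
    have hm := row_p h hα k
    rw [neg_zero] at B
    rw [← B] at hm ⊢
    exact hyl hm
  -- row on the left
  have rowL : α ≤ -1 → β = 0 → Mt X (S a k 0 0) ∧ p k = pos X (S a k 0 0) := by
    rintro hα rfl
    have hm := mt_site h (k + 2) (x := 0) (z := -α) le_rfl (by omega) (Or.inr (by omega))
    have hm' : Mt X (S a (k + 2) 0 (-α)) := hm
    rw [S_r hb, show α - 0 + -α = 0 by ring, show -(0 : ℤ) - 0 = 0 by ring] at hm'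
    refine ⟨hm', ?_⟩
    rw [S00] at hm' ⊢
    exact hyk hm'
  fin_cases i <;> fin_cases j
  · -- (0,0)
    have e : p k = p (k + 2) := e
    change Disjoint (Cone (p k) (g1 X k (a k)) (g3 X k (a k)))
      (Cone (p (k + 2)) (g1 X (k + 2) (a (k + 2))) (g3 X (k + 2) (a (k + 2))))
    by_cases hs : α = 0 ∧ β = 0
    · obtain ⟨e1, e2⟩ := same hs.1 hs.2
      rw [← e1, ← e2]
      exact ray_disj _ _ _ _
    · have hd : ‖a (k + 2) - a k‖ < 3 / 2 := by
        have h1 := hf.near
        have h2 := hf'.near
        rw [← e] at h2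
        have h3 : a (k + 2) - a k = (p k - a k) - (p k - a (k + 2)) := by ring
        rw [h3]
        have := norm_sub_le (p k - a k) (p k - a (k + 2))
        linarith
      rcases near6 hf.aL hf'.aL hd with h1 | ⟨i, h1⟩
      · exfalso; apply hs
        rw [B, ← S00 a k] at h1
        have := lat_inj k (add_left_cancel h1)
        omega
      · obtain ⟨i', hi'⟩ := rel_idx i k
        rw [hi'] at h1
        have hS : ∀ {x z : ℤ}, E (kk k + i') = (x : ℂ) * E (kk k) + (z : ℂ) * E (kk k + 2) → α = x ∧ -β = z := by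
          intro x z hE
          rw [B] at h1
          unfold S at h1
          have := add_left_cancel h1
          rw [hE] at this
          exact lat_inj k this
        fin_cases i'
        · have := hS (x := 1) (z := 0) (by simp)
          exfalso
          apply pk.1
          rw [e, rowR (by omega) (by omega), G1, this.1]
        · have := hS (x := 1) (z := 1) (by
            change E (kk k + 1) = _
            rw [Ek1]; push_cast; ring)
          omega
        · have := hS (x := 0) (z := 1) (by
            change E (kk k + 2) = _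
            push_cast; ring)
          omega
        · have := hS (x := -1) (z := 0) (by
            change E (kk k + 3) = _
            rw [Ek3]; push_cast; ring)
          exfalso
          apply pl.2.2
          rw [← e, (rowL (by omega) (by omega)).2, H3]
          congr 2 <;> omega
        · have := hS (x := -1) (z := -1) (by
            change E (kk k + 4) = _
            rw [Ek4]; push_cast; ring)
          obtain ⟨hα, hβ1⟩ := this
          refine qq_yy hf hf' e ?_
          have e5 : a k + E (kk k + 5) = S a k (α + 1) (-β) := by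
            rw [Ek5, hα, hβ1]; unfold S; push_cast; ring
          have h6 := Ek6 k
          have := hf.ori (kk k + 5) (by rw [e5]; exact N3) (by rw [h6]; exact hf.m1)
            (by rw [e5, ← H3, e]; exact pl.2.2) (by rw [h6]; exact pk.1)
          rw [h6, e5, ← H3] at this
          exact this
        · have := hS (x := 0) (z := -1) (by
            change E (kk k + 5) = _
            rw [Ek5]; push_cast; ring)
          obtain ⟨hα, hβ1⟩ := this
          refine qq_yy hf hf' e ?_
          have h23 : kk (k + 2) + 2 + 1 = kk (k + 2) + 3 := by rw [add_assoc]; rfl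
          have e5 : a (k + 2) + E (kk (k + 2) + 3) = a k + E (kk k) := by
            rw [Ek3, Er0, B, hα, hβ1]; unfold S; push_cast; ring
          have := hf'.ori (kk (k + 2) + 2) hf'.m3 (by rw [h23, e5]; exact hf.m1)
            pl.2.2 (by rw [h23, e5, ← e]; exact pk.1)
          rw [h23, e5, ← e] at this
          exact this
  · -- (0,1)
    have e : p k = g1 X (k + 2) (a (k + 2)) := e
    change Disjoint (Cone (p k) (g1 X k (a k)) (g3 X k (a k)))
      (Cone (g1 X (k + 2) (a (k + 2))) (g2 X (k + 2) (a (k + 2))) (p (k + 2)))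
    rcases qsite h hk N1 (e.trans H1) with hh | hh | hh | hh
    · omega
    · omega
    · exfalso; apply pl.1
      rw [← (same (by omega) (by omega)).1, e]
    · have e2 : p (k + 2) = g1 X k (a k) := by
        rw [rowR (by omega) (by omega), G1]; congr 2; omega
      rw [← e, e2]
      exact ray_disj _ _ _ _
  · -- (0,2)
    exfalso
    have e : p k = g2 X (k + 2) (a (k + 2)) := e
    rcases qsite h hk N2 (e.trans H2) with hh | hh | hh | hh
    · omega
    · omega
    · obtain ⟨m, e2⟩ := rowL (by omega) (by omega)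
      have := S_inj h m N2 (by rw [← e2, e, H2])
      omega
    · apply pl.2.1
      rw [← (same (by omega) (by omega)).1, e]
  · -- (0,3)
    have e : p k = g3 X (k + 2) (a (k + 2)) := e
    change Disjoint (Cone (p k) (g1 X k (a k)) (g3 X k (a k)))
      (Cone (g3 X (k + 2) (a (k + 2))) (p (k + 2)) (g2 X (k + 2) (a (k + 2))))
    rcases qsite h hk N3 (e.trans H3) with hh | hh | hh | hh
    · -- α = -1, β = 0
      have hα : α = -1 := by omega
      have hβ0 : β = 0 := by omega
      refine qq_yg3 hf hf' e (Or.inl ?_)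
      by_cases hy : p (k + 2) = g3 X k (a k)
      · rw [hy]; simp [cr]; ring_nf; exact le_rfl
      · have h23 : kk (k + 2) + 2 + 1 = kk (k + 2) + 3 := by rw [add_assoc]; rfl
        have e5 : a (k + 2) + E (kk (k + 2) + 3) = a k + E (kk k + 2) := by
          rw [Ek3, Er0, B, hα, hβ0]; unfold S; push_cast; ring
        have := hf'.ori (kk (k + 2) + 2) hf'.m3 (by rw [h23, e5]; exact hf.m3) pl.2.2 (by rw [h23, e5]; exact hy)
        rw [h23, e5, cr_cyc] at this
        have h7 : cr (p (k + 2) - p k) (g3 X k (a k) - p k) =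
            -cr (g3 X k (a k) - p k) (p (k + 2) - p k) := by simp [cr]; ring
        rw [h7, e]
        have h8 : 0 < cr (g3 X k (a k) - g3 X (k + 2) (a (k + 2))) (p (k + 2) - g3 X (k + 2) (a (k + 2))) := this
        linarith
    · obtain ⟨m, e2⟩ := rowL (by omega) (by omega)
      have := S_inj h m N3 (by rw [← e2, e, H3])
      omega
    · -- α = -2, β = 1
      have hα : α = -2 := by omega
      have hβ0 : β = 1 := by omega
      refine qq_yg3 hf hf' e (Or.inr (low4 (norm_E _) hf.near hf'.near ?_).le)
      have : a (k + 2) - a k = ((-2 : ℤ) : ℂ) * E (kk k) + ((-1 : ℤ) : ℂ) * E (kk k + 2) := by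
        rw [hb, hα, hβ0]; push_cast; ring
      have e2 := dtE1 (kk k + 1)
      rw [kk2a, dt_comm] at e2
      rw [this, dt_add_l, dt_smul, dt_smul, dtE1, e2]; norm_num
    · -- α = -1, β = 1
      have hα : α = -1 := by omega
      have hβ0 : β = 1 := by omega
      refine qq_yg3 hf hf' e (Or.inr ?_)
      by_cases hr : re (k + 2)
      · have haa : a k - E (kk k + 1) = a (k + 2) := by
          rw [hb, hα, hβ0, Ek1]; push_cast; ring
        refine (low3 (norm_E (kk k + 1)) (m := -E (kk k + 2)) (by rw [norm_neg]; exact norm_E _) ?_ hf.near ?_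
          (y := p (k + 2)) (by rw [haa]; exact hf'.near) ?_ ?_).le
        · have := dtE1 (kk k + 1)
          rw [kk2a] at this
          rw [dt_neg_r, this]
        · rw [e, H3]
          have h9 := (abs_le.1 (mt_dt' N3 (n := -E (kk k + 2)) (by rw [norm_neg]; exact norm_E _))).1
          have h10 : dt (pos X (S a k (α + 1) (-β)) - a k) (-E (kk k + 2)) =
              dt (pos X (S a k (α + 1) (-β)) - S a k (α + 1) (-β)) (-E (kk k + 2)) + 1 := by
            have e0 : S a k (α + 1) (-β) - a k = -E (kk k + 2) := by rw [hα, hβ0]; unfold S; push_cast; ring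
            have e1 : pos X (S a k (α + 1) (-β)) - a k =
                (pos X (S a k (α + 1) (-β)) - S a k (α + 1) (-β)) + (S a k (α + 1) (-β) - a k) := by ring
            have e2 : dt (-E (kk k + 2)) (-E (kk k + 2)) = 1 := by rw [dt_neg_l, dt_neg_r, neg_neg, dtE0]
            rw [e1, dt_add_l, e0, e2]
          rw [h10]; linarith
        · rw [haa, ← Er1]; exact hf'.lo
        · have h1 := (h.rf _ hl hr).yX
          have h2 : p k ∈ X := by rw [e]; exact hf'.m3.1
          have := h.sep _ h1 _ h2 (by rw [e]; exact pl.2.2)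
          rwa [dist_eq_norm] at this
      · obtain ⟨e3, hv⟩ := h.vf _ hl hr
        have := tp1 (g3_turn (h.ad (k + 2)))
        have h23 : kk (k + 2) + 2 + 1 = kk (k + 2) + 3 := by rw [add_assoc]; rfl
        rw [h23, Ek3, Er0, ← Ek1, neg_neg] at this
        rw [e3, e, ← neg_sub, dt_neg_l]
        linarith
  · -- (1,0)
    have e : g1 X k (a k) = p (k + 2) := e
    change Disjoint (Cone (g1 X k (a k)) (g2 X k (a k)) (p k))
      (Cone (p (k + 2)) (g1 X (k + 2) (a (k + 2))) (g3 X (k + 2) (a (k + 2))))
    have Q := S_r' hb 1 0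
    have hq := qsite h hl (x := -(0 + β)) (z := 1 - α - 0 - β) (by rw [← Q]; exact M1) (by rw [← Q, ← G1, e])
    rcases hq with hh | hh | hh | hh
    · -- β = 0, α = 1
      have hα : α = 1 := by omega
      have hβ0 : β = 0 := by omega
      refine qq_g1y hf hf' e (Or.inl ?_)
      have e5 : a k + E (kk k + 5) = S a k (α - 1) (-β - 1) := by
        rw [Ek5, hα, hβ0]; unfold S; push_cast; ring
      by_cases hy : p k = g1 X (k + 2) (a (k + 2))
      · rw [hy]; simp [cr]; ring_nf; exact le_rfl
      · have h6 := Ek6 k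
        have := hf.ori (kk k + 5) (by rw [e5]; exact N1) (by rw [h6]; exact hf.m1) (by rw [e5, ← H1]; exact hy)
          (by rw [h6]; exact pk.1)
        rw [h6, e5, ← H1, cr_cyc2] at this
        have h7 : cr (g1 X (k + 2) (a (k + 2)) - g1 X k (a k)) (p k - g1 X k (a k)) =
            -cr (p k - g1 X k (a k)) (g1 X (k + 2) (a (k + 2)) - g1 X k (a k)) := by simp [cr]; ring
        rw [h7]
        have h8 : 0 < cr (p k - g1 X k (a k)) (g1 X (k + 2) (a (k + 2)) - g1 X k (a k)) := this
        linarith
    · -- β = 1, α = 0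
      have hα : α = 0 := by omega
      have hβ0 : β = 1 := by omega
      refine qq_g1y hf hf' e (Or.inr ?_)
      by_cases hr : re k
      · have haa : a (k + 2) - -E (kk k + 2) = a k := by
          rw [hb, hα, hβ0]; push_cast; ring
        refine (low3 (n := -E (kk k + 2)) (m := E (kk k + 1)) (by rw [norm_neg]; exact norm_E _) (norm_E _) ?_
          (a := a (k + 2)) (by rw [e]; exact hf'.near) ?_ (y := p k) (by rw [haa]; exact hf.near) ?_ ?_).le
        · have := dtE1 (kk k + 1)
          rw [kk2a, dt_comm] at this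
          rw [dt_neg_l, this]
        · rw [G1]
          have h9 := (abs_le.1 (mt_dt' M1 (n := E (kk k + 1)) (norm_E _))).1
          have h10 : dt (pos X (S a k 1 0) - a (k + 2)) (E (kk k + 1)) =
              dt (pos X (S a k 1 0) - S a k 1 0) (E (kk k + 1)) + 1 := by
            have e0 : S a k 1 0 - a (k + 2) = E (kk k + 1) := by rw [hb, hα, hβ0, Ek1]; unfold S; push_cast; ring
            have e1 : pos X (S a k 1 0) - a (k + 2) =
                (pos X (S a k 1 0) - S a k 1 0) + (S a k 1 0 - a (k + 2)) := by ring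
            rw [e1, dt_add_l, e0, dtE0]
          rw [h10]; linarith
        · rw [haa]; exact hf.lo
        · have h1 := (h.rf _ hk hr).yX
          have := h.sep _ h1 _ hf.m1.1 pk.1
          rwa [dist_eq_norm] at this
      · obtain ⟨e3, hv⟩ := h.vf _ hk hr
        have := tm2 (g1_turn (h.ad k))
        rw [e3, dt_neg_r, ← neg_sub, dt_neg_l, neg_neg]
        exact this.le
    · -- β = 1, α = 1
      have hα : α = 1 := by omega
      have hβ0 : β = 1 := by omega
      refine qq_g1y hf hf' e (Or.inr (low4 (n := -E (kk k + 2)) (by rw [norm_neg]; exact norm_E _) (a := a (k + 2))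
        (c := a k) (by rw [e]; exact hf'.near) hf.near ?_).le)
      have : a k - a (k + 2) = ((-1 : ℤ) : ℂ) * E (kk k) + ((1 : ℤ) : ℂ) * E (kk k + 2) := by
        rw [hb, hα, hβ0]; push_cast; ring
      rw [this, dt_add_l, dt_smul, dt_smul, dt_neg_r, dt_neg_r, dtE2, dtE0]; norm_num
    · have hβ0 : β = 0 := by omega
      have hα : α = 2 := by omega
      have e2 := rowR (by omega) hβ0
      have := S_inj h (row_p h (show 1 ≤ α by omega) k) M1 (by rw [← e2, ← e, G1])
      omega
  · -- (1,1)
    exfalso
    have e : g1 X k (a k) = g1 X (k + 2) (a (k + 2)) := e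
    rw [G1, H1] at e
    have := S_inj h M1 N1 e
    omega
  · exfalso
    have e : g1 X k (a k) = g2 X (k + 2) (a (k + 2)) := e
    rw [G1, H2] at e
    have := S_inj h M1 N2 e
    omega
  · -- (1,3)
    have e : g1 X k (a k) = g3 X (k + 2) (a (k + 2)) := e
    change Disjoint (Cone (g1 X k (a k)) (g2 X k (a k)) (p k))
      (Cone (g3 X (k + 2) (a (k + 2))) (p (k + 2)) (g2 X (k + 2) (a (k + 2))))
    have e' := e
    rw [G1, H3] at e'
    have := S_inj h M1 N3 e'
    have e2 := (same (by omega) (by omega)).1
    rw [← e, ← e2]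
    exact (ray_disj _ _ _ _).symm
  · -- (2,0)
    exfalso
    have e : g2 X k (a k) = p (k + 2) := e
    have Q := S_r' hb 1 1
    have hq := qsite h hl (x := -(1 + β)) (z := 1 - α - 1 - β) (by rw [← Q]; exact M2) (by rw [← Q, ← G2, e])
    rcases hq with hh | hh | hh | hh
    · omega
    · apply pk.2.1
      rw [(same (by omega) (by omega)).1, e]
    · have e2 := rowR (by omega) (by omega)
      have := S_inj h (row_p h (show 1 ≤ α by omega) k) M2 (by rw [← e2, ← e, G2])
      omega
    · omega
  · exfalso
    have e : g2 X k (a k) = g1 X (k + 2) (a (k + 2)) := e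
    rw [G2, H1] at e
    have := S_inj h M2 N1 e
    omega
  · exfalso
    have e : g2 X k (a k) = g2 X (k + 2) (a (k + 2)) := e
    rw [G2, H2] at e
    have := S_inj h M2 N2 e
    omega
  · exfalso
    have e : g2 X k (a k) = g3 X (k + 2) (a (k + 2)) := e
    rw [G2, H3] at e
    have := S_inj h M2 N3 e
    omega
  · -- (3,0)
    have e : g3 X k (a k) = p (k + 2) := e
    change Disjoint (Cone (g3 X k (a k)) (p k) (g2 X k (a k)))
      (Cone (p (k + 2)) (g1 X (k + 2) (a (k + 2))) (g3 X (k + 2) (a (k + 2))))
    have Q := S_r' hb 0 1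
    have hq := qsite h hl (x := -(1 + β)) (z := 0 - α - 1 - β) (by rw [← Q]; exact M3) (by rw [← Q, ← G3, e])
    rcases hq with hh | hh | hh | hh
    · omega
    · have hα : α = -1 := by omega
      have hβ0 : β = 0 := by omega
      have e2 := (rowL (by omega) hβ0).2
      have e3 : g3 X (k + 2) (a (k + 2)) = p k := by
        rw [e2, H3]; congr 2 <;> omega
      rw [← e, e3]
      exact ray_disj _ _ _ _
    · exfalso; apply pk.2.2
      rw [(same (by omega) (by omega)).1, e]
    · omega
  · exfalso
    have e : g3 X k (a k) = g1 X (k + 2) (a (k + 2)) := e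
    rw [G3, H1] at e
    have := S_inj h M3 N1 e
    omega
  · exfalso
    have e : g3 X k (a k) = g2 X (k + 2) (a (k + 2)) := e
    rw [G3, H2] at e
    have := S_inj h M3 N2 e
    omega
  · exfalso
    have e : g3 X k (a k) = g3 X (k + 2) (a (k + 2)) := e
    rw [G3, H3] at e
    have := S_inj h M3 N3 e
    omega

/-- cones of two different quadrilaterals at a common vertex -/
theorem qq_cone (h : Cf V κ el X a M c act re p) {k l : Fin 3} (hkl : k ≠ l) (hk : act k) (hl : act l) (i j : Fin 4)
    (e : QV X a p k i = QV X a p l j) : Disjoint (QCn X a p k i) (QCn X a p l j) := by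
  have : l = k + 2 ∨ k = l + 2 := by
    fin_cases k <;> fin_cases l <;> first | exact absurd rfl hkl | decide
  rcases this with rfl | rfl
  · exact qq_cone_right h hk hl i j e
  · exact (qq_cone_right h hl hk j i e.symm).symm

end Pool.Agent.H16.AP
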