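import Pool.Agent.H16.AP.D2B

/-!
# D2C: two apex quadrilaterals are disjoint
-/

set_option autoImplicit false

open Set Real

noncomputable section

namespace Pool.Agent.H16.AP

open Pool.Agent.H20.AL Pool.Agent.H63.P6 Pool.Agent.H16.T3 Pool.Agent.H78.P6

/-- a region on the left of a segment which has an inner point in an open set -/
theorem LL_hit {B : Set ℂ} {z w : ℂ} (hB : LL B z w) (hzw : z ≠ w) {U : Set ℂ} (hU : IsOpen U) (d : Disjoint B U) {s : ℝ} (s0 : 0 < s)
    (s1 : s < 1) (hm : z + (s : ℂ) * (w - z) ∈ U) : False := by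
  obtain ⟨r, hr0, hr⟩ := Metric.isOpen_iff.1 hU _ hm
  have hn : 0 < ‖w - z‖ := norm_pos_iff.2 (sub_ne_zero.2 hzw.symm)
  -- direction i * (w - z)
  have hd : 0 < cr (w - z) (Complex.I * (w - z)) := by
    have : cr (w - z) (Complex.I * (w - z)) = ‖w - z‖ ^ 2 := by rw [nsq]; simp [cr]; ring
    rw [this]; positivity
  obtain ⟨ε0, e0, hε⟩ := hB s s0 s1 _ hd
  set ε := min (ε0 / 2) (r / (2 * ‖w - z‖)) with hεd
  have h1 : 0 < ε := lt_min (by positivity) (by positivity)
  have h2 : ε < ε0 := lt_of_le_of_lt (min_le_left _ _) (by linarith)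
  have h3 := hε ε h1 h2
  refine Set.disjoint_left.1 d h3 (hr ?_)
  rw [Metric.mem_ball, dist_eq_norm]
  have : z + (s : ℂ) * (w - z) + (ε : ℂ) * (Complex.I * (w - z)) - (z + (s : ℂ) * (w - z)) =
      (ε : ℂ) * (Complex.I * (w - z)) := by ring
  rw [this, norm_mul, norm_mul, Complex.norm_I, one_mul, Complex.norm_real, Real.norm_of_nonneg h1.le]
  have h4 : ε ≤ r / (2 * ‖w - z‖) := min_le_right _ _
  have h5 : ε * ‖w - z‖ ≤ r / 2 := by
    calc ε * ‖w - z‖ ≤ r / (2 * ‖w - z‖) * ‖w - z‖ := mul_le_mul_of_nonneg_right h4 hn.le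
      _ = r / 2 := by field_simp
  linarith

/-- two quadrilaterals whose legs do not cross twice -/
theorem qq_A {y g1 g2 g3 y' g1' g2' g3' : ℂ} (hq : QC y g1 g2 g3) (hq' : QC y' g1' g2' g3') {B1 B2 B1' B2' : Set ℂ}
    (hB1 : LL B1 g2 g1) (hB2 : LL B2 g3 g2) (hB1' : LL B1' g2' g1') (hB2' : LL B2' g3' g2')
    (d1 : Disjoint B1 (Qo y' g1' g2' g3')) (d2 : Disjoint B2 (Qo y' g1' g2' g3'))
    (d1' : Disjoint B1' (Qo y g1 g2 g3)) (d2' : Disjoint B2' (Qo y g1 g2 g3))
    (n1 : g1 ∉ Qd y' g1' g2' g3') (n2 : g2 ∉ Qd y' g1' g2' g3') (n3 : g3 ∉ Qd y' g1' g2' g3')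
    (m0 : y' ∉ Qd y g1 g2 g3) (m1 : g1' ∉ Qd y g1 g2 g3) (m2 : g2' ∉ Qd y g1 g2 g3) (m3 : g3' ∉ Qd y g1 g2 g3)
    (c1 : ¬ Cross2 y g1 g3 y' g1') (c2 : ¬ Cross2 y g1 g3 g3' y') :
    Disjoint (Qo y g1 g2 g3) (Qo y' g1' g2' g3') := by
  rw [Set.disjoint_left]
  intro u hu hu'
  obtain ⟨q0, q1, q2, q3⟩ := QC_mem hq
  obtain ⟨q0', q1', q2', q3'⟩ := QC_mem hq'
  obtain ⟨τ, σ, τ0, τ1, σ0, σ1, hc⟩ := exit4 hq' (Qo_sub_Qd _ _ _ _ hu') n1
  -- the exit point
  have hτ : ∀ {v w : ℂ}, v ∈ Qd y' g1' g2' g3' → w ∈ Qd y' g1' g2' g3' → u + (τ : ℂ) * (g1 - u) = v + (σ : ℂ) * (w - v) →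
      v + (σ : ℂ) * (w - v) ∈ Qo y g1 g2 g3 := by
    intro v w hv hw e
    have h1 : τ < 1 := by
      rcases τ1.eq_or_lt with hh | hh
      · exfalso
        apply n1
        have : g1 = v + (σ : ℂ) * (w - v) := by rw [← e, hh]; push_cast; ring
        rw [this]; exact Qd_convex hv hw σ0 σ1
      · exact hh
    rw [← e]; exact Qo_inner hu q1 τ0 h1
  have hne : ∀ {v w : ℂ}, v ∉ Qd y g1 g2 g3 → w ∉ Qd y g1 g2 g3 → v + (σ : ℂ) * (w - v) ∈ Qo y g1 g2 g3 → 0 < σ ∧ σ < 1 := by
    intro v w hv hw hm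
    constructor
    · rcases σ0.eq_or_lt with hh | hh
      · exfalso; apply hv
        rw [← hh] at hm; simp at hm
        exact Qo_sub_Qd _ _ _ _ hm
      · exact hh
    · rcases σ1.eq_or_lt with hh | hh
      · exfalso; apply hw
        rw [hh] at hm
        have : v + ((1 : ℝ) : ℂ) * (w - v) = w := by push_cast; ring
        rw [this] at hm
        exact Qo_sub_Qd _ _ _ _ hm
      · exact hh
  -- base edges
  have base : ∀ {v w : ℂ} {B : Set ℂ}, LL B w v → v ≠ w → Disjoint B (Qo y g1 g2 g3) → v ∉ Qd y g1 g2 g3 → w ∉ Qd y g1 g2 g3 →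
      v + (σ : ℂ) * (w - v) ∈ Qo y g1 g2 g3 → False := by
    intro v w B hB hvw d hv hw hm
    obtain ⟨h1, h2⟩ := hne hv hw hm
    refine LL_hit hB hvw.symm (Qo_open y g1 g2 g3) d (s := 1 - σ) (by linarith) (by linarith) ?_
    have : w + ((1 - σ : ℝ) : ℂ) * (v - w) = v + (σ : ℂ) * (w - v) := by push_cast; ring
    rw [this]; exact hm
  have ne12 : g1' ≠ g2' := by
    rintro rfl
    have := hq'.abc
    simp [cr] at this
  have ne23 : g2' ≠ g3' := by
    rintro rfl
    have := hq'.bcp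
    simp [cr] at this
    linarith
  rcases hc with ⟨-, e⟩ | ⟨-, e⟩ | ⟨-, e⟩ | ⟨-, e⟩
  · have hm := hτ q0' q1' e
    obtain ⟨b1, b2⟩ := no_base hq (z := y') (w := g1') (LL_pa hq') hB1 hB2 d1.symm d2.symm m0 m1
      (fun s s0 s1 e => n1 (by rw [← e]; exact Qd_convex q0' q1' s0 s1))
      (fun s s0 s1 e => n2 (by rw [← e]; exact Qd_convex q0' q1' s0 s1))
      (fun s s0 s1 e => n3 (by rw [← e]; exact Qd_convex q0' q1' s0 s1))
    exact c1 (cross_legs hq σ0 σ1 (Qo_sub_Qd _ _ _ _ hm) m0 m1 b1 b2)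
  · exact base hB1' ne12 d1' m1 m2 (hτ q1' q2' e)
  · exact base hB2' ne23 d2' m2 m3 (hτ q2' q3' e)
  · have hm := hτ q3' q0' e
    obtain ⟨b1, b2⟩ := no_base hq (z := g3') (w := y') (LL_cp hq') hB1 hB2 d1.symm d2.symm m3 m0
      (fun s s0 s1 e => n1 (by rw [← e]; exact Qd_convex q3' q0' s0 s1))
      (fun s s0 s1 e => n2 (by rw [← e]; exact Qd_convex q3' q0' s0 s1))
      (fun s s0 s1 e => n3 (by rw [← e]; exact Qd_convex q3' q0' s0 s1))
    exact c2 (cross_legs hq σ0 σ1 (Qo_sub_Qd _ _ _ _ hm) m3 m0 b1 b2)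

theorem bary_dt (a b c z n : ℂ) : cr (b - a) (c - a) * dt z n = cr (c - b) (z - b) * dt a n +
    cr (a - c) (z - c) * dt b n + cr (b - a) (z - a) * dt c n := by
  simp [cr, dt]; ring

/-- levels on the closed quadrilateral -/
theorem Qd_level {p a b c : ℂ} (h : QC p a b c) {u n : ℂ} (hu : u ∈ Qd p a b c) {l : ℝ} (hp : l ≤ dt p n) (ha : l ≤ dt a n)
    (hb : l ≤ dt b n) (hc : l ≤ dt c n) : l ≤ dt u n := by
  obtain ⟨h1, h2, h3, h4⟩ := hu
  have key : ∀ {a b c : ℂ}, 0 < cr (b - a) (c - a) → 0 ≤ cr (b - a) (u - a) → 0 ≤ cr (c - b) (u - b) →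
      0 ≤ cr (a - c) (u - c) → l ≤ dt a n → l ≤ dt b n → l ≤ dt c n → l ≤ dt u n := by
    intro a b c hA k1 k2 k3 la lb lc
    have e := bary_dt a b c u n
    have s := CRS_sum a b c u
    have h5 : cr (b - a) (c - a) * l ≤ cr (b - a) (c - a) * dt u n := by
      rw [e, ← s, add_mul, add_mul]
      have := mul_le_mul_of_nonneg_left la k2
      have := mul_le_mul_of_nonneg_left lb k3
      have := mul_le_mul_of_nonneg_left lc k1
      linarith
    exact le_of_mul_le_mul_left h5 hA
  rcases le_total 0 (cr (p - b) (u - b)) with hh | hh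
  · exact key h.pab h1 h2 hh hp ha hb
  · have e : cr (b - p) (u - p) = -cr (p - b) (u - b) := by simp [cr]; ring
    exact key h.bcp (by rw [e]; linarith) h3 h4 hp hb hc

variable {V : ℂ → ℝ} {κ el : ℝ} {X : Set ℂ} {k : Fin 3} {a : Fin 3 → ℂ} {M : Fin 3 → ℤ} {c : ℂ} {act re : Fin 3 → Prop}
  {p : Fin 3 → ℂ}

/-- displacement of an apex point -/
theorem near_dt {y a n : ℂ} (h : ‖y - a‖ ≤ 709 / 1000) {c : ℝ} (hn : ‖n‖ ≤ c) : |dt (y - a) n| ≤ 709 / 1000 * c := by
  refine (dt_le_norm _ _).trans ?_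
  exact mul_le_mul h hn (norm_nonneg _) (by norm_num)

theorem dt_split (x y z n : ℂ) : dt (x - z) n = dt (x - y) n + dt (y - z) n := by
  rw [← dt_add_l]; congr 1; ring

theorem S_dt (a : Fin 3 → ℂ) (k : Fin 3) (x z : ℤ) (n : ℂ) :
    dt (S a k x z - a k) n = x * dt (E (kk k)) n + z * dt (E (kk k + 2)) n := by
  have : S a k x z - a k = (x : ℂ) * E (kk k) + (z : ℂ) * E (kk k + 2) := by unfold S; ring
  rw [this, dt_add_l, dt_smul, dt_smul]

theorem cross_lin {p a c z w n : ℂ} {q : ℂ} (h : Cross2 p a c z w) (l : ℝ) (hz : l < dt (z - q) n) (hw : l < dt (w - q) n)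
    (hp : dt (p - q) n ≤ l) : l < dt (a - q) n ∧ l < dt (c - q) n := by
  obtain ⟨s, σ, t, ρ, s0, s1, σ0, σ1, t0, t1, ρ0, ρ1, hs, ht⟩ := h
  have key : ∀ {v : ℂ} {s σ : ℝ}, 0 ≤ s → s ≤ 1 → 0 ≤ σ → σ ≤ 1 → z + (s : ℂ) * (w - z) = p + (σ : ℂ) * (v - p) →
      l < dt (v - q) n := by
    intro v s σ s0 s1 σ0 σ1 e
    have h1 : dt (z + (s : ℂ) * (w - z) - q) n = (1 - s) * dt (z - q) n + s * dt (w - q) n := by simp [dt]; ring
    have h2 : dt (p + (σ : ℂ) * (v - p) - q) n = (1 - σ) * dt (p - q) n + σ * dt (v - q) n := by simp [dt]; ring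
    rw [e, h2] at h1
    by_contra hcon
    push Not at hcon
    have h3 : (1 - σ) * dt (p - q) n + σ * dt (v - q) n ≤ l := by nlinarith
    have h4 : l < (1 - s) * dt (z - q) n + s * dt (w - q) n := by
      rcases s0.eq_or_lt with hh | hh
      · rw [← hh]; linarith
      · nlinarith
    linarith
  exact ⟨key s0 s1 σ0 σ1 hs, key t0 t1 ρ0 ρ1 ht⟩

/-- D2 -/
theorem qq_disj_right (h : Cf V κ el X a M c act re p) (hk : act k) (hl : act (k + 2)) :
    Disjoint (QK X a p k) (QK X a p (k + 2)) := by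
  by_cases hcom : ∃ i j, QV X a p k i = QV X a p (k + 2) j
  · obtain ⟨i, j, e⟩ := hcom
    exact (qq_cone_right h hk hl i j e).mono (QK_sub X a p k i) (QK_sub X a p (k + 2) j)
  push Not at hcom
  obtain ⟨α, β, hβ, hb⟩ := ad_right h.hc k
  have hf := h.qf hk
  have hf' := h.qf hl
  have pk := h.pne hk
  have pl := h.pne hl
  have hyk := h.hy hk
  have hyl := h.hy hl
  have M1 := m1S hf
  have M2 := m2S hf
  have M3 := m3S hf
  have N1 := m1r hb hf'
  have N2 := m2r hb hf'
  have N3 := m3r hb hf'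
  have G1 := g1S X a k
  have G2 := g2S X a k
  have G3 := g3S X a k
  have H1 := g1r (X := X) hb
  have H2 := g2r (X := X) hb
  have H3 := g3r (X := X) hb
  have B := bS hb
  have d1 := fq_disj h hl (T12_ok k).1 (T12_ok k).2
  have d2 := fq_disj h hl (T23_ok k).1 (T23_ok k).2
  have d1' := fq_disj h hk (T12_ok (k + 2)).1 (T12_ok (k + 2)).2
  have d2' := fq_disj h hk (T23_ok (k + 2)).1 (T23_ok (k + 2)).2
  -- frames and apex points are not in the other quadrilateral
  have e00 := hcom 0 0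
  have e01 := hcom 0 1
  have e02 := hcom 0 2
  have e03 := hcom 0 3
  have e10 := hcom 1 0
  have e11 := hcom 1 1
  have e12 := hcom 1 2
  have e13 := hcom 1 3
  have e20 := hcom 2 0
  have e21 := hcom 2 1
  have e22 := hcom 2 2
  have e23 := hcom 2 3
  have e30 := hcom 3 0
  have e31 := hcom 3 1
  have e32 := hcom 3 2
  have e33 := hcom 3 3
  change p k ≠ p (k + 2) at e00
  change p k ≠ g1 X (k + 2) (a (k + 2)) at e01
  change p k ≠ g2 X (k + 2) (a (k + 2)) at e02
  change p k ≠ g3 X (k + 2) (a (k + 2)) at e03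
  change g1 X k (a k) ≠ p (k + 2) at e10
  change g1 X k (a k) ≠ g1 X (k + 2) (a (k + 2)) at e11
  change g1 X k (a k) ≠ g2 X (k + 2) (a (k + 2)) at e12
  change g1 X k (a k) ≠ g3 X (k + 2) (a (k + 2)) at e13
  change g2 X k (a k) ≠ p (k + 2) at e20
  change g2 X k (a k) ≠ g1 X (k + 2) (a (k + 2)) at e21
  change g2 X k (a k) ≠ g2 X (k + 2) (a (k + 2)) at e22
  change g2 X k (a k) ≠ g3 X (k + 2) (a (k + 2)) at e23
  change g3 X k (a k) ≠ p (k + 2) at e30
  change g3 X k (a k) ≠ g1 X (k + 2) (a (k + 2)) at e31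
  change g3 X k (a k) ≠ g2 X (k + 2) (a (k + 2)) at e32
  change g3 X k (a k) ≠ g3 X (k + 2) (a (k + 2)) at e33
  have nk : ∀ z ∈ X, z ≠ p k → z ≠ g1 X k (a k) → z ≠ g2 X k (a k) → z ≠ g3 X k (a k) →
    z ∉ Qd (p k) (g1 X k (a k)) (g2 X k (a k)) (g3 X k (a k)) := hf.nin
  have nl : ∀ z ∈ X, z ≠ p (k + 2) → z ≠ g1 X (k + 2) (a (k + 2)) → z ≠ g2 X (k + 2) (a (k + 2)) →
    z ≠ g3 X (k + 2) (a (k + 2)) →
    z ∉ Qd (p (k + 2)) (g1 X (k + 2) (a (k + 2))) (g2 X (k + 2) (a (k + 2))) (g3 X (k + 2) (a (k + 2))) := hf'.nin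
  have a1 := nl _ hf.m1.1 e10 e11 e12 e13
  have a2 := nl _ hf.m2.1 e20 e21 e22 e23
  have a3 := nl _ hf.m3.1 e30 e31 e32 e33
  have b1 := nk _ hf'.m1.1 e01.symm e11.symm e21.symm e31.symm
  have b2 := nk _ hf'.m2.1 e02.symm e12.symm e22.symm e32.symm
  have b3 := nk _ hf'.m3.1 e03.symm e13.symm e23.symm e33.symm
  have hnotsame : ¬ (α = 0 ∧ β = 0) := by
    rintro ⟨rfl, rfl⟩
    apply e00
    exact (h.same k (k + 2) hk hl (by rw [hb]; push_cast; ring)).1
  have s3 := sq3_hi
  have hNN : ‖E (kk k + 1) + E (kk k + 2)‖ ≤ √3 := by rw [← kk2a]; exact (norm_NN _).le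
  -- row facts
  have rowR : 1 ≤ α → β = 0 → Mt X (a (k + 2)) := by
    rintro hα rfl
    have hm := row_p h hα k
    rw [neg_zero] at B
    rw [← B] at hm
    exact hm
  have rowL : α ≤ -1 → β = 0 → Mt X (a k) := by
    rintro hα rfl
    have hm := mt_site h (k + 2) (x := 0) (z := -α) le_rfl (by omega) (Or.inr (by omega))
    have hm' : Mt X (S a (k + 2) 0 (-α)) := hm
    rw [S_r hb, show α - 0 + -α = 0 by ring, show -(0 : ℤ) - 0 = 0 by ring, S00] at hm'
    exact hm'
  by_cases hr : re k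
  · by_cases hr' : re (k + 2)
    · -- both real
      have R := h.rf k hk hr
      have R' := h.rf (k + 2) hl hr'
      refine qq_A hf.qc hf'.qc (T12_LL h k) (T23_LL h k) (T12_LL h (k + 2)) (T23_LL h (k + 2)) d1 d2 d1' d2' a1 a2 a3
        (nk _ R'.yX e00.symm e10.symm e20.symm e30.symm) b1 b2 b3 ?_ ?_
      · refine R.cross _ R'.yX _ hf'.m1.1 pl.1 ?_ ?_
        · rw [norm_sub_rev]; exact R'.l1
        · rintro v (rfl | rfl | rfl)
          · exact ⟨e00.symm, e01.symm⟩
          · exact ⟨e10.symm, e11.symm⟩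
          · exact ⟨e30.symm, e31.symm⟩
      · refine R.cross _ hf'.m3.1 _ R'.yX pl.2.2.symm ?_ ?_
        · exact R'.l3
        · rintro v (rfl | rfl | rfl)
          · exact ⟨e03.symm, e00.symm⟩
          · exact ⟨e13.symm, e10.symm⟩
          · exact ⟨e33.symm, e30.symm⟩
    · -- k real, l virtual
      obtain ⟨el', hv⟩ := h.vf _ hl hr'
      have R := h.rf k hk hr
      have hα : 1 ≤ β ∨ α ≤ -2 := by
        by_contra hcon
        push Not at hcon
        have hβ0 : β = 0 := by omega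
        rcases (show 1 ≤ α ∨ α = -1 ∨ α = 0 by omega) with hh | hh | hh
        · exact unm_mt hv.unm (rowR hh hβ0)
        · have hm := rowL (by omega) hβ0
          apply e03
          rw [hyk hm, H3, ← S00 a k]
          congr 2 <;> omega
        · exact hnotsame ⟨hh, hβ0⟩
      -- levels relative to a (k+2)
      have lev2 : ∀ n : ℂ, dt (a k - a (k + 2)) n = -(α : ℝ) * dt (E (kk k)) n + β * dt (E (kk k + 2)) n := by
        intro n
        have : a k - a (k + 2) = ((-α : ℤ) : ℂ) * E (kk k) + (β : ℂ) * E (kk k + 2) := by rw [hb]; push_cast; ring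
        rw [this, dt_add_l, dt_smul, dt_smul]; push_cast; ring
      have hcr : ∀ z w : ℂ, (z = p k ∨ z = g1 X k (a k) ∨ z = g3 X k (a k)) → (w = p k ∨ w = g1 X k (a k) ∨ w = g3 X k (a k)) →
          ¬ Cross2 (p (k + 2)) (g1 X (k + 2) (a (k + 2))) (g3 X (k + 2) (a (k + 2))) z w := by
        intro z w hz hw hc
        rcases hα with hβ1 | hα2
        · -- normal N
          have hβr : (1 : ℝ) ≤ β := by exact_mod_cast hβ1
          have hlev : ∀ z, (z = p k ∨ z = g1 X k (a k) ∨ z = g3 X k (a k)) →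
              0 < dt (z - a (k + 2)) (E (kk k + 1) + E (kk k + 2)) := by
            rintro z (rfl | rfl | rfl)
            · rw [dt_split _ (a k), lev2, dtN0, dtN2]
              have := (abs_le.1 (near_dt hf.near hNN)).1
              nlinarith
            · rw [dt_split _ (a k), lev2, dtN0, dtN2, G1, dt_split _ (S a k 1 0), S_dt, dtN0, dtN2]
              have := (abs_le.1 (mt_dt M1 hNN)).1
              push_cast
              nlinarith
            · rw [dt_split _ (a k), lev2, dtN0, dtN2, G3, dt_split _ (S a k 0 1), S_dt, dtN0, dtN2]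
              have := (abs_le.1 (mt_dt M3 hNN)).1
              push_cast
              nlinarith
          have := (cross_lin hc 0 (hlev z hz) (hlev w hw) (by rw [el', sub_self]; simp [dt])).1
          rw [H1, dt_split _ (S a k (α - 1) (-β - 1)), dt_split (S a k (α - 1) (-β - 1)) (a k), S_dt, lev2, dtN0, dtN2] at this
          have h9 := (abs_le.1 (mt_dt N1 hNN)).2
          push_cast at this
          nlinarith
        · have hαr : (α : ℝ) ≤ -2 := by exact_mod_cast hα2
          have hβr : (0 : ℝ) ≤ β := by exact_mod_cast hβ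
          have hβ0 : β = 0 ∨ 1 ≤ β := by omega
          rcases hβ0 with hβ0 | hβ1
          · have hm := rowL (by omega) hβ0
            have hbr : (β : ℝ) = 0 := by exact_mod_cast hβ0
            have e20' : dt (E (kk k + 2)) (E (kk k)) = -(1 / 2) := by rw [dt_comm, dtE2]
            have hlev : ∀ z, (z = p k ∨ z = g1 X k (a k) ∨ z = g3 X k (a k)) → 0 < dt (z - a (k + 2)) (E (kk k)) := by
              rintro z (rfl | rfl | rfl)
              · rw [dt_split _ (a k), lev2, dtE0, e20', hyk hm]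
                have := (abs_le.1 (mt_dt hm (n := E (kk k)) (c := 1) (norm_E _).le)).1
                rw [hbr]; linarith
              · rw [dt_split _ (a k), lev2, dtE0, e20', G1, dt_split _ (S a k 1 0), S_dt, dtE0, e20']
                have := (abs_le.1 (mt_dt M1 (n := E (kk k)) (c := 1) (norm_E _).le)).1
                push_cast; rw [hbr]; linarith
              · rw [dt_split _ (a k), lev2, dtE0, e20', G3, dt_split _ (S a k 0 1), S_dt, dtE0, e20']
                have := (abs_le.1 (mt_dt M3 (n := E (kk k)) (c := 1) (norm_E _).le)).1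
                push_cast; rw [hbr]; linarith
            have := (cross_lin hc 0 (hlev z hz) (hlev w hw) (by rw [el', sub_self]; simp [dt])).1
            rw [H1, dt_split _ (S a k (α - 1) (-β - 1)), dt_split (S a k (α - 1) (-β - 1)) (a k), S_dt, lev2, dtE0, e20'] at this
            have h9 := (abs_le.1 (mt_dt N1 (n := E (kk k)) (c := 1) (norm_E _).le)).2
            push_cast at this
            rw [hbr] at this
            linarith
          · -- as before
            have hβr : (1 : ℝ) ≤ β := by exact_mod_cast hβ1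
            have hlev : ∀ z, (z = p k ∨ z = g1 X k (a k) ∨ z = g3 X k (a k)) →
                0 < dt (z - a (k + 2)) (E (kk k + 1) + E (kk k + 2)) := by
              rintro z (rfl | rfl | rfl)
              · rw [dt_split _ (a k), lev2, dtN0, dtN2]
                have := (abs_le.1 (near_dt hf.near hNN)).1
                nlinarith
              · rw [dt_split _ (a k), lev2, dtN0, dtN2, G1, dt_split _ (S a k 1 0), S_dt, dtN0, dtN2]
                have := (abs_le.1 (mt_dt M1 hNN)).1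
                push_cast
                nlinarith
              · rw [dt_split _ (a k), lev2, dtN0, dtN2, G3, dt_split _ (S a k 0 1), S_dt, dtN0, dtN2]
                have := (abs_le.1 (mt_dt M3 hNN)).1
                push_cast
                nlinarith
            have := (cross_lin hc 0 (hlev z hz) (hlev w hw) (by rw [el', sub_self]; simp [dt])).1
            rw [H1, dt_split _ (S a k (α - 1) (-β - 1)), dt_split (S a k (α - 1) (-β - 1)) (a k), S_dt, lev2, dtN0, dtN2] at this
            have h9 := (abs_le.1 (mt_dt N1 hNN)).2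
            push_cast at this
            nlinarith
      refine (qq_A hf'.qc hf.qc (T12_LL h (k + 2)) (T23_LL h (k + 2)) (T12_LL h k) (T23_LL h k) d1' d2' d1 d2 b1 b2 b3
        (nl _ R.yX e00 e01 e02 e03) a1 a2 a3 (hcr _ _ (Or.inl rfl) (Or.inr (Or.inl rfl)))
        (hcr _ _ (Or.inr (Or.inr rfl)) (Or.inl rfl))).symm
  · -- k virtual
    obtain ⟨ek, hv⟩ := h.vf _ hk hr
    have hα : 1 ≤ β ∨ (β = 0 ∧ 2 ≤ α) := by
      by_contra hcon
      push Not at hcon
      have hβ0 : β = 0 := by omega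
      have := hcon.2 hβ0
      rcases (show α = 1 ∨ α ≤ -1 ∨ α = 0 by omega) with hh | hh | hh
      · apply e10
        have hm := rowR (by omega) hβ0
        rw [hyl hm, G1, B]; congr 2 <;> omega
      · exact unm_mt hv.unm (rowL hh hβ0)
      · exact hnotsame ⟨hh, hβ0⟩
    have lev1 : ∀ n : ℂ, dt (a (k + 2) - a k) n = α * dt (E (kk k)) n - β * dt (E (kk k + 2)) n := by
      intro n
      rw [B, S_dt]; push_cast; ring
    have e20' : dt (E (kk k + 2)) (E (kk k)) = -(1 / 2) := by rw [dt_comm, dtE2]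
    -- levels of the vertices of the right quadrilateral
    have hcr : ∀ z w : ℂ, (z = p (k + 2) ∨ z = g1 X (k + 2) (a (k + 2)) ∨ z = g3 X (k + 2) (a (k + 2))) →
        (w = p (k + 2) ∨ w = g1 X (k + 2) (a (k + 2)) ∨ w = g3 X (k + 2) (a (k + 2))) →
        ¬ Cross2 (p k) (g1 X k (a k)) (g3 X k (a k)) z w := by
      intro z w hz hw hc
      rcases hα with hβ1 | ⟨hβ0, hα2⟩
      · have hβr : (1 : ℝ) ≤ β := by exact_mod_cast hβ1
        have hlev : ∀ z, (z = p (k + 2) ∨ z = g1 X (k + 2) (a (k + 2)) ∨ z = g3 X (k + 2) (a (k + 2))) →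
            0 < dt (z - a k) (-(E (kk k + 1) + E (kk k + 2))) := by
          rintro z (rfl | rfl | rfl)
          · rw [dt_neg_r, dt_split _ (a (k + 2)), lev1, dtN0, dtN2]
            have := (abs_le.1 (near_dt hf'.near hNN)).2
            nlinarith
          · rw [dt_neg_r, H1, dt_split _ (S a k (α - 1) (-β - 1)), S_dt, dtN0, dtN2]
            have := (abs_le.1 (mt_dt N1 hNN)).2
            push_cast
            nlinarith
          · rw [dt_neg_r, H3, dt_split _ (S a k (α + 1) (-β)), S_dt, dtN0, dtN2]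
            have := (abs_le.1 (mt_dt N3 hNN)).2
            push_cast
            nlinarith
        have := (cross_lin hc 0 (hlev z hz) (hlev w hw) (by rw [ek, sub_self]; simp [dt])).2
        rw [dt_neg_r, G3, dt_split _ (S a k 0 1), S_dt, dtN0, dtN2] at this
        have h9 := (abs_le.1 (mt_dt M3 hNN)).1
        push_cast at this
        linarith
      · have hαr : (2 : ℝ) ≤ α := by exact_mod_cast hα2
        have hbr : (β : ℝ) = 0 := by exact_mod_cast hβ0
        have hm := rowR (by omega) hβ0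
        have hlev : ∀ z, (z = p (k + 2) ∨ z = g1 X (k + 2) (a (k + 2)) ∨ z = g3 X (k + 2) (a (k + 2))) →
            0 < dt (z - a k) (E (kk k)) := by
          rintro z (rfl | rfl | rfl)
          · rw [dt_split _ (a (k + 2)), lev1, dtE0, e20', hyl hm]
            have := (abs_le.1 (mt_dt hm (n := E (kk k)) (c := 1) (norm_E _).le)).1
            rw [hbr]; linarith
          · rw [H1, dt_split _ (S a k (α - 1) (-β - 1)), S_dt, dtE0, e20']
            have := (abs_le.1 (mt_dt N1 (n := E (kk k)) (c := 1) (norm_E _).le)).1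
            push_cast; rw [hbr]; linarith
          · rw [H3, dt_split _ (S a k (α + 1) (-β)), S_dt, dtE0, e20']
            have := (abs_le.1 (mt_dt N3 (n := E (kk k)) (c := 1) (norm_E _).le)).1
            push_cast; rw [hbr]; linarith
        have := (cross_lin hc 0 (hlev z hz) (hlev w hw) (by rw [ek, sub_self]; simp [dt])).2
        rw [G3, dt_split _ (S a k 0 1), S_dt, dtE0, e20'] at this
        have h9 := (abs_le.1 (mt_dt M3 (n := E (kk k)) (c := 1) (norm_E _).le)).2
        push_cast at this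
        linarith
    have b0 : p (k + 2) ∉ Qd (p k) (g1 X k (a k)) (g2 X k (a k)) (g3 X k (a k)) := by
      by_cases hr' : re (k + 2)
      · exact nk _ (h.rf _ hl hr').yX e00.symm e10.symm e20.symm e30.symm
      · obtain ⟨el', hv'⟩ := h.vf _ hl hr'
        have hβ1 : 1 ≤ β := by
          rcases hα with hh | hh
          · exact hh
          · exact absurd (rowR (by omega) hh.1) (unm_mt hv'.unm)
        have hβr : (1 : ℝ) ≤ β := by exact_mod_cast hβ1
        intro hin
        have key := Qd_level hf.qc hin (n := E (kk k + 1) + E (kk k + 2)) (l := dt (a k) (E (kk k + 1) + E (kk k + 2)) - 867 / 1000)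
          (by rw [ek]; linarith) ?_ ?_ ?_
        · have h1 := lev1 (E (kk k + 1) + E (kk k + 2))
          rw [dtN0, dtN2, dt_sub_l] at h1
          rw [el'] at key
          nlinarith
        · have h1 : dt (g1 X k (a k) - a k) (E (kk k + 1) + E (kk k + 2)) =
              dt (pos X (S a k 1 0) - S a k 1 0) (E (kk k + 1) + E (kk k + 2)) := by
            rw [G1, dt_split _ (S a k 1 0), S_dt, dtN0, dtN2]; push_cast; ring
          rw [dt_sub_l] at h1
          have := (abs_le.1 (mt_dt M1 hNN)).1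
          linarith
        · have h1 : dt (g2 X k (a k) - a k) (E (kk k + 1) + E (kk k + 2)) =
              dt (pos X (S a k 1 1) - S a k 1 1) (E (kk k + 1) + E (kk k + 2)) + 3 / 2 := by
            rw [G2, dt_split _ (S a k 1 1), S_dt, dtN0, dtN2]; push_cast; ring
          rw [dt_sub_l] at h1
          have := (abs_le.1 (mt_dt M2 hNN)).1
          linarith
        · have h1 : dt (g3 X k (a k) - a k) (E (kk k + 1) + E (kk k + 2)) =
              dt (pos X (S a k 0 1) - S a k 0 1) (E (kk k + 1) + E (kk k + 2)) + 3 / 2 := by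
            rw [G3, dt_split _ (S a k 0 1), S_dt, dtN0, dtN2]; push_cast; ring
          rw [dt_sub_l] at h1
          have := (abs_le.1 (mt_dt M3 hNN)).1
          linarith
    exact qq_A hf.qc hf'.qc (T12_LL h k) (T23_LL h k) (T12_LL h (k + 2)) (T23_LL h (k + 2)) d1 d2 d1' d2' a1 a2 a3
      b0 b1 b2 b3 (hcr _ _ (Or.inl rfl) (Or.inr (Or.inl rfl))) (hcr _ _ (Or.inr (Or.inr rfl)) (Or.inl rfl))

theorem qq_disj (h : Cf V κ el X a M c act re p) {k l : Fin 3} (hkl : k ≠ l) (hk : act k) (hl : act l) :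
    Disjoint (QK X a p k) (QK X a p l) := by
  have : l = k + 2 ∨ k = l + 2 := by
    fin_cases k <;> fin_cases l <;> first | exact absurd rfl hkl | decide
  rcases this with rfl | rfl
  · exact qq_disj_right h hk hl
  · exact (qq_disj_right h hl hk).symm

end Pool.Agent.H16.AP
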