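import Pool.Agent.H16.AP.GLB
import Pool.Agent.H30.P6.DPt
import Pool.Agent.H30.P6.VBt

/-!
# FINP: the case p = 6 from the three specifications
-/

set_option autoImplicit false

noncomputable section

namespace Pool.Agent.H16.AP

open Pool.Agent.H63.P6 Pool.Agent.H30.P6

theorem p6_of_specs (hR : RealSpec V30 (4 / 25) (147 / 100)) (hH : HitSpec V30 (4 / 25) (147 / 100))
    (hV : VirtSpec V30 (4 / 25) (147 / 100)) :
    ∀ H : Set ℂ, H = {z : ℂ | ∃ m n : ℤ, z = (m : ℂ) + (n : ℂ) * ((1/2 : ℂ) + ((Real.sqrt 3 / 2 : ℝ) : ℂ) * Complex.I)} →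
    ∀ s ∈ H, ∀ g : ℂ → ℂ, ((H \ {s}) ∩ {c | g c ≠ c}).Finite →
      (∀ c ∈ H \ {s}, ∀ d ∈ H \ {s}, c ≠ d → (1 : ℝ) ≤ dist (g c) (g d)) →
      ∃ φ : ℂ ≃ᵢ ℂ, φ '' (H \ {s}) = g '' (H \ {s}) :=
  first_half DP30 (glue DP30 VB30 (by norm_num) hR hH hV)

end Pool.Agent.H16.AP
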