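import Pool.Agent.H16.T3.LAT

/-!
# FLIP: a displaced unit lattice triangle with small total displacement keeps its orientation

Proof.  Put `P0 = s, P1 = s + E i, P2 = s + E (i+1)` (so `P1 - P0 = e`, `P2 - P0 = om * e`, `|e| = 1`, `E (i+1) = om * E i`: `Dir_succ`),
`δj = xj - Pj`.  Let `z = om ^ 2` (`1 + z + z ^ 2 = 0` with `z ^ 2 = om ^ 4 = -om`).
(1) `q := x0 + z * x1 + z ^ 2 * x2` resp. its mirror `q' := x0 + z ^ 2 * x1 + z * x2`: exactly one of the two vanishes on `P` (call it `q`; by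
    `om_sq`, `om_cube`), hence `q = δ0 + z^{..} δ1 + z^{..} δ2` and `|q|^2 ≤ 3 (|δ0|^2 + |δ1|^2 + |δ2|^2) < 3` (Cauchy; `|om| = 1`).
(2) Identity (expand in coordinates, `(√3)^2 = 3`): `2 |q|^2 = S - 2 √3 K`, where `S = |x1-x0|^2 + |x2-x0|^2 + |x2-x1|^2` and
    `K = cr (x1 - x0) (x2 - x0)`.  Hence `S - 2 √3 K < 6`.
(3) Suppose `K ≤ 0`.  With `a = |x1-x0|^2, b = |x2-x0|^2, c = |x2-x1|^2 ≥ 1` we have (Heron, from `lag`)
    `4 K^2 = 2(ab+bc+ca) - a^2-b^2-c^2`.  From (2): `0 ≤ 2 √3 (-K) < 6 - S`, so `12 K^2 < (6 - S)^2`.  Put `a = 1+x, b = 1+y, c = 1+w`, `t = x+y+w < 3`: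
    `12 K^2 = 9 + 6 t + 12 (xy+yw+wx) - 3 t^2 ≥ 9 + 6t - 3t^2` and `(6-S)^2 = (3-t)^2 = 9 - 6t + t^2`; so `12 t < 4 t^2`, `t > 3` or `t < 0`: contradiction
    (`t = 0` gives `9 < 9`).
-/

set_option autoImplicit false

open Set Real

noncomputable section

namespace Pool.Agent.H16.AP

open Pool.Agent.H20.AL Pool.Agent.H63.P6 Pool.Agent.H16.T3

theorem flip (s : ℂ) (i : Fin 6) {x0 x1 x2 : ℂ} (h01 : 1 ≤ dist x0 x1) (h02 : 1 ≤ dist x0 x2) (h12 : 1 ≤ dist x1 x2)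
    (hd : ‖x0 - s‖ ^ 2 + ‖x1 - (s + E i)‖ ^ 2 + ‖x2 - (s + E (i + 1))‖ ^ 2 < 1) : 0 < cr (x1 - x0) (x2 - x0) := by
  by_contra hcon
  push Not at hcon
  have hom : ‖om‖ = 1 := norm_om
  have hom1 : ‖om - 1‖ = 1 := by rw [← om_sq, norm_pow, hom, one_pow]
  have hq : (om - 1) * (x1 - x0) - om * (x2 - x0) =
      (x0 - s) + (om - 1) * (x1 - (s + E i)) - om * (x2 - (s + E (i + 1))) := by
    rw [E_succ]
    linear_combination (-(E i)) * om_sq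
  have h1 : ‖(om - 1) * (x1 - x0) - om * (x2 - x0)‖ ≤
      ‖x0 - s‖ + ‖x1 - (s + E i)‖ + ‖x2 - (s + E (i + 1))‖ := by
    rw [hq]
    calc _ ≤ ‖(x0 - s) + (om - 1) * (x1 - (s + E i))‖ + ‖om * (x2 - (s + E (i + 1)))‖ :=
          norm_sub_le _ _
      _ ≤ ‖x0 - s‖ + ‖(om - 1) * (x1 - (s + E i))‖ + ‖om * (x2 - (s + E (i + 1)))‖ := by
          gcongr
          exact norm_add_le _ _
      _ = _ := by rw [norm_mul, norm_mul, hom, hom1, one_mul, one_mul]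
  have h2 : ‖(om - 1) * (x1 - x0) - om * (x2 - x0)‖ ^ 2 < 3 := by
    set p := ‖x0 - s‖
    set q := ‖x1 - (s + E i)‖
    set r := ‖x2 - (s + E (i + 1))‖
    calc _ ≤ (p + q + r) ^ 2 := by gcongr
      _ ≤ 3 * (p ^ 2 + q ^ 2 + r ^ 2) := by
          nlinarith [sq_nonneg (p - q), sq_nonneg (q - r), sq_nonneg (p - r)]
      _ < 3 := by linarith
  rw [nsq] at h2
  have e01 : 1 ≤ ‖x0 - x1‖ ^ 2 := by
    rw [dist_eq_norm] at h01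
    nlinarith [norm_nonneg (x0 - x1)]
  have e02 : 1 ≤ ‖x0 - x2‖ ^ 2 := by
    rw [dist_eq_norm] at h02
    nlinarith [norm_nonneg (x0 - x2)]
  have e12 : 1 ≤ ‖x1 - x2‖ ^ 2 := by
    rw [dist_eq_norm] at h12
    nlinarith [norm_nonneg (x1 - x2)]
  rw [nsq] at e01 e02 e12
  unfold cr at hcon
  obtain ⟨a0, b0⟩ := x0
  obtain ⟨a1, b1⟩ := x1
  obtain ⟨a2, b2⟩ := x2
  simp only [Complex.sub_re, Complex.sub_im, Complex.mul_re, Complex.mul_im, om_re, om_im,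
    Complex.one_re, Complex.one_im] at h2 e01 e02 e12 hcon
  have hs : √3 ^ 2 = 3 := Real.sq_sqrt (by norm_num)
  have hs0 : 0 < √3 := Real.sqrt_pos.2 (by norm_num)
  obtain ⟨w, hw⟩ : ∃ w, w = √3 := ⟨_, rfl⟩
  rw [← hw] at h2 hs hs0
  obtain ⟨u1, hu1⟩ : ∃ u, u = a1 - a0 := ⟨_, rfl⟩
  obtain ⟨u2, hu2⟩ : ∃ u, u = b1 - b0 := ⟨_, rfl⟩
  obtain ⟨v1, hv1⟩ : ∃ u, u = a2 - a0 := ⟨_, rfl⟩
  obtain ⟨v2, hv2⟩ : ∃ u, u = b2 - b0 := ⟨_, rfl⟩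
  rw [← hu1, ← hu2, ← hv1, ← hv2] at h2 hcon
  obtain ⟨K, hK⟩ : ∃ K, K = u1 * v2 - u2 * v1 := ⟨_, rfl⟩
  rw [← hK] at hcon
  obtain ⟨a, ha⟩ : ∃ a, a = u1 ^ 2 + u2 ^ 2 := ⟨_, rfl⟩
  obtain ⟨b, hb⟩ : ∃ a, a = v1 ^ 2 + v2 ^ 2 := ⟨_, rfl⟩
  obtain ⟨c, hc⟩ : ∃ a, a = (v1 - u1) ^ 2 + (v2 - u2) ^ 2 := ⟨_, rfl⟩
  have a1' : 1 ≤ a := by rw [ha, hu1, hu2]; linarith
  have b1' : 1 ≤ b := by rw [hb, hv1, hv2]; linarith
  have c1' : 1 ≤ c := by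
    rw [hc, hu1, hu2, hv1, hv2]
    linarith
  have heron : 4 * K ^ 2 = 2 * (a * b + b * c + c * a) - a ^ 2 - b ^ 2 - c ^ 2 := by
    rw [hK, ha, hb, hc]
    ring
  have h3 : a + b + c - 2 * w * K < 6 := by
    have e : a + b + c - 2 * w * K = 2 * (((1 / 2 - 1) * u1 - (w / 2 - 0) * u2 -
        (1 / 2 * v1 - w / 2 * v2)) ^ 2 + ((1 / 2 - 1) * u2 + (w / 2 - 0) * u1 -
        (1 / 2 * v2 + w / 2 * v1)) ^ 2) := by
      rw [ha, hb, hc, hK]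
      linear_combination (-(1 / 2) * ((u1 - v1) ^ 2 + (u2 - v2) ^ 2)) * hs
    rw [e]
    linarith
  have h4 : 0 ≤ -(2 * w * K) := by
    have := mul_nonneg hs0.le (neg_nonneg.2 hcon)
    linarith
  have h5 : 12 * K ^ 2 < (6 - (a + b + c)) ^ 2 := by
    have e : (-(2 * w * K)) ^ 2 = 12 * K ^ 2 := by
      linear_combination (4 * K ^ 2) * hs
    rw [← e]
    exact pow_lt_pow_left₀ (by linarith) h4 two_ne_zero
  obtain ⟨x, hx⟩ : ∃ x, x = a - 1 := ⟨_, rfl⟩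
  obtain ⟨y, hy⟩ : ∃ x, x = b - 1 := ⟨_, rfl⟩
  obtain ⟨v, hv⟩ : ∃ x, x = c - 1 := ⟨_, rfl⟩
  have hx0 : 0 ≤ x := by linarith
  have hy0 : 0 ≤ y := by linarith
  have hv0 : 0 ≤ v := by linarith
  have ht : x + y + v < 3 := by linarith
  have h6 : 12 * K ^ 2 = 9 + 6 * (x + y + v) + 12 * (x * y + y * v + v * x) -
      3 * (x + y + v) ^ 2 := by
    have : a = 1 + x := by linarith
    have : b = 1 + y := by linarith
    have : c = 1 + v := by linarith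
    subst_vars
    linear_combination 3 * heron
  have h7 : (6 - (a + b + c)) = 3 - (x + y + v) := by linarith
  rw [h6, h7] at h5
  have h8 : 0 ≤ x * y + y * v + v * x := by positivity
  nlinarith [mul_nonneg (add_nonneg (add_nonneg hx0 hy0) hv0) (by linarith : 0 ≤ 3 - (x + y + v))]

end Pool.Agent.H16.AP
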