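import Pool.Agent.H16.AP.GLD
import Pool.Agent.H63.P6.Main

/-!
# GLA: geometry of the glue: hits, neighbouring wedges with the same apex
-/

set_option autoImplicit false

open Set Real Finset MeasureTheory

noncomputable section

namespace Pool.Agent.H16.AP

open Pool.Agent.H20.AL Pool.Agent.H63.P6 Pool.Agent.H16.T3 Pool.Agent.H78.P6 Pool.Agent.H20.AP

variable {V : ℂ → ℝ} {κ el : ℝ} {X : Set ℂ} {k : Fin 3} {a y z : ℂ} {m : ℤ}

/-- the quadrilateral with the site as apex is convex -/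
theorem qc_v (h : ApexData V κ el X k a m) : QC a (g1 X k a) (g2 X k a) (g3 X k a) := by
  have h1 := g1_turn h
  have h3 := g3_turn h
  have c12 := cr_next h1 (by rw [← E_succ]; exact g2_turn h)
  have c23 := cr_next (g2_turn h) (by
    rw [← E_succ, show kk k + 1 + 1 = kk k + 2 by rw [add_assoc]; rfl]; exact h3)
  have t3 : 0 < dt (g3 X k a - a) (E (kk k + 1)) := by
    have := tp5 h3
    rwa [show kk k + 2 + 5 = kk k + 1 by rw [add_assoc]; rfl] at this
  exact ⟨c12, base_abc h, c23, tr3 (tp1 h1) (tp0 (g2_turn h)) t3 c12 c23⟩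

/-- the virtual quadrilateral is above its apex -/
theorem qd_up (h : ApexData V κ el X k a m) {q : ℂ} (hq : q ∈ Qd a (g1 X k a) (g2 X k a) (g3 X k a)) :
    0 ≤ dt (q - a) (E (kk k + 1)) := by
  have h1 := tp1 (g1_turn h)
  have h2 := tp0 (g2_turn h)
  have h3 : 0 < dt (g3 X k a - a) (E (kk k + 1)) := by
    have := tp5 (g3_turn h)
    rwa [show kk k + 2 + 5 = kk k + 1 by rw [add_assoc]; rfl] at this
  rw [dt_sub_l] at h1 h2 h3 ⊢
  have := Qd_level (qc_v h) hq (n := E (kk k + 1)) (l := dt a (E (kk k + 1))) le_rfl (by linarith) (by linarith) (by linarith)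
  linarith

theorem inv_sq3 : 1 / √3 ≤ 578 / 1000 := by
  have := sq3_lo
  rw [div_le_div_iff₀ sq3_pos (by norm_num)]
  linarith

/-- hits are not low -/
theorem hit_lo (h : ApexData V κ el X k a m) (hz : Hit X k a z) : -(578 / 1000) ≤ dt (z - a) (E (kk k + 1)) := by
  obtain ⟨-, -, -, -, q, hq, hd⟩ := hz
  have h1 := qd_up h hq
  have h2 := dt_le_norm (z - q) (E (kk k + 1))
  rw [norm_E, mul_one, ← dist_eq_norm] at h2
  have h3 := (abs_le.1 h2).1
  have h4 := inv_sq3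
  have h5 : dt (z - a) (E (kk k + 1)) = dt (z - q) (E (kk k + 1)) + dt (q - a) (E (kk k + 1)) := dt_split _ _ _ _
  rw [h5]; linarith

/-- virtual fans -/
theorem vf_of (hH : HitSpec V κ el) (hX : Sep X) (h : ApexData V κ el X k a m) (hR : Rest X k a m ≤ 1 / 3) (hu : Unm X a) :
    VF X k a := by
  refine ⟨hu, ?_⟩
  intro z hz h1 h2 h3 hq
  have hit : Hit X k a z := ⟨hz, h1, h2, h3, z, hq, by rw [dist_self]; positivity⟩
  have := (hH X k a z m hX h hR hu hit).2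
  have := qd_up h hq
  linarith

/-- the far frame of a neighbouring wedge is not far from a low point -/
theorem far_ok {u v n : ℂ} (hn : ‖n‖ = 1) (h1 : ‖u‖ ≤ 709 / 1000) (h2 : dt u n ≤ -(1 / 5)) (hv : ‖v‖ ≤ 47 / 100) :
    ‖(-n + v) - u‖ ^ 2 ≤ 3 := by
  have e : ‖u + n‖ ^ 2 = ‖u‖ ^ 2 + 2 * dt u n + ‖n‖ ^ 2 := by
    rw [nsq, nsq, nsq]; simp [dt]; ring
  have h3 : ‖u + n‖ ≤ 1051 / 1000 := by
    have : ‖u + n‖ ^ 2 ≤ (1051 / 1000) ^ 2 := by
      rw [e, hn]
      have := norm_nonneg u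
      nlinarith
    nlinarith [norm_nonneg (u + n)]
  have h4 : ‖(-n + v) - u‖ ≤ ‖u + n‖ + ‖v‖ := by
    have : (-n + v) - u = v - (u + n) := by ring
    rw [this]
    have := norm_sub_le v (u + n)
    linarith
  have h5 : ‖(-n + v) - u‖ ≤ 1521 / 1000 := by linarith
  have := norm_nonneg ((-n + v) - u)
  nlinarith

theorem axis_ok {u : ℂ} (j : Fin 6) (h1 : ‖u‖ ≤ 709 / 1000) (h2 : dt u (E (j + 1)) ≤ -(1 / 5)) :
    dt u (E j) ≤ 578 / 1000 ∧ dt u (E (j + 2)) ≤ 578 / 1000 := by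
  rw [E1s, dt_add_r] at h2
  have a1 := (abs_le.1 (dt_le_norm u (E j))).1
  have a2 := (abs_le.1 (dt_le_norm u (E (j + 2)))).1
  rw [norm_E, mul_one] at a1 a2
  constructor <;> linarith

/-- short legs pass to the other wedges with the same apex -/
theorem nb_ok (hvb : VB V) {l : Fin 3} {m' : ℤ} (hkl : l ≠ k) (h' : ApexData V κ el X l a m')
    (h1 : ‖z - a‖ ≤ 709 / 1000) (h2 : dt (z - a) (E (kk k + 1)) ≤ -(1 / 5)) (hs : Shrt X k a z) :
    Shrt X l a z ∧ -(578 / 1000) ≤ dt (z - a) (E (kk l + 1)) := by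
  have cs : l = k + 2 ∨ l = k + 1 := by
    revert hkl
    fin_cases k <;> fin_cases l <;> first | (intro h; exact absurd rfl h) | (intro _; decide)
  obtain ⟨x1, x2⟩ := axis_ok (kk k) h1 h2
  obtain ⟨m1, -, m3⟩ := apex_m hvb h'
  rcases cs with rfl | rfl
  · refine ⟨⟨?_, ?_⟩, ?_⟩
    · have e : g1 X (k + 2) a - z = (-E (kk k + 1) + (pos X (a + E (kk (k + 2))) - (a + E (kk (k + 2))))) - (z - a) := by
        unfold g1
        have : E (kk (k + 2)) = -E (kk k + 1) := by rw [Er0, ← Ek1]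
        rw [this]; ring
      rw [e]
      refine far_ok (norm_E _) h1 h2 ?_
      have := m1.2
      rwa [dist_eq_norm] at this
    · have e : g3 X (k + 2) a = g1 X k a := by
        unfold g1 g3; rw [Er2]
      rw [e]; exact hs.1
    · rw [Er1, dt_neg_r]; linarith
  · refine ⟨⟨?_, ?_⟩, ?_⟩
    · have e : g1 X (k + 1) a = g3 X k a := by
        unfold g1 g3; rw [El0]
      rw [e]; exact hs.2
    · have e : g3 X (k + 1) a - z = (-E (kk k + 1) + (pos X (a + E (kk (k + 1) + 2)) - (a + E (kk (k + 1) + 2)))) - (z - a) := by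
        unfold g3
        have : E (kk (k + 1) + 2) = -E (kk k + 1) := by rw [El2, ← Ek1]
        rw [this]; ring
      rw [e]
      refine far_ok (norm_E _) h1 h2 ?_
      have := m3.2
      rwa [dist_eq_norm] at this
    · rw [El1, dt_neg_r]; linarith

/-- the matched apex point is not a frame -/
theorem pos_ne (h : ApexData V κ el X k a m) (hm : Mat X a) :
    pos X a ≠ g1 X k a ∧ pos X a ≠ g2 X k a ∧ pos X a ≠ g3 X k a := by
  obtain ⟨f1, f2, f3⟩ := frame h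
  have hp := pos_spec hm
  have key : ∀ i : Fin 6, dist (pos X (a + E i)) (a + E i) < 1 / 2 → pos X a ≠ pos X (a + E i) := by
    intro i hi e
    have := pos_inj h.mem (lam_E h.mem i) hp.2 hi e
    exact Ene i (by simpa using this.symm)
  exact ⟨key _ f1.2, key _ f2.2, key _ f3.2⟩

/-- the fan of the local coordinates is the fan of the apex point -/
theorem fan_pos (X : Set ℂ) (k : Fin 3) (a : ℂ) : fan (lx X k a) 0 = fanY X k a (pos X a) := by
  rw [Ind_fan, lx_10, lx_11, lx_01, cs_zero]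
  unfold fanw fanY fanw g1 g2 g3
  rw [cr_rho, cr_rho]

/-- base edges -/
theorem base_len (hel : el ^ 2 ≤ 8 / 3) (h : ApexData V κ el X k a m) :
    ‖g2 X k a - g1 X k a‖ ^ 2 ≤ 8 / 3 ∧ ‖g3 X k a - g2 X k a‖ ^ 2 ≤ 8 / 3 := by
  have h0 : (0 : ℤ × ℤ) ≤ 0 := le_rfl
  have g1' := ps_all h (nz_10 h0).1 (nz_10 h0).2
  have g3' := ps_all h (nz_01 h0).1 (nz_01 h0).2
  rw [cs_10, cs_zero] at g1'
  rw [cs_01, cs_zero] at g3'
  have e1 : a + E (kk k) + E (kk k + 2) = a + E (kk k + 1) := by rw [E_two_sub]; ring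
  have e3 : a + E (kk k + 2) + E (kk k) = a + E (kk k + 1) := by rw [E_two_sub]; ring
  have s3 := g1'.l3
  have s1 := g3'.l1
  rw [e1] at s3
  rw [e3] at s1
  have hsq : ∀ z : ℂ, ‖z‖ < el → ‖z‖ ^ 2 ≤ 8 / 3 := by
    intro z hz
    have := norm_nonneg z
    nlinarith
  refine ⟨hsq _ s3, ?_⟩
  have := hsq _ s1
  rw [norm_sub_rev]; exact this

theorem el_sq (hel : el ≤ 147 / 100) (h : ApexData V κ el X k a m) : el ^ 2 ≤ 8 / 3 := by
  have h0 : (0 : ℤ × ℤ) ≤ 0 := le_rfl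
  have g := ps_all h (nz_10 h0).1 (nz_10 h0).2
  have h1 : 0 < el := lt_of_le_of_lt (norm_nonneg _) g.l1
  nlinarith

/-- the real piece and its cost -/
theorem real_piece (hX : Sep X) (hel : el ≤ 147 / 100) (h : ApexData V κ el X k a m) (hR : RealOut V κ X k a y)
    (hu : 1 / 2 ≤ ‖y - a‖ ∨ (Mat X a ∧ y = pos X a)) :
    ∃ (P : Set ℂ) (C : Finset (ℂ × ℂ × ℂ)) (w : ℝ), Piece X P C ∧ P ⊆ Qo y (g1 X k a) (g2 X k a) (g3 X k a) ∧
      √3 / 2 * w ≤ val P C ∧ 1 / 3 < w + Rest X k a m := by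
  obtain ⟨f1, f2, f3⟩ := frame h
  obtain ⟨b1, b2⟩ := base_len (el_sq hel h) h
  have hQ : QC y (g1 X k a) (g2 X k a) (g3 X k a) := ⟨hR.rf.c12, base_abc h, hR.rf.c23, hR.rf.c13⟩
  obtain ⟨P, C, h1, h2, h3⟩ := rpiece hX hR.rf.yX f1.1 f2.1 f3.1 hQ hR.rf.l1 hR.rf.l3 b1 b2 hR.rf.nx
  refine ⟨P, C, _, h1, h2, h3, ?_⟩
  have hphi : PhiF V κ X k a ≤ Rest X k a m := h.phi
  change 1 / 3 < fanY X k a y - lossL (‖g1 X k a - y‖ ^ 2) - lossL (‖g3 X k a - y‖ ^ 2) + Rest X k a m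
  by_cases c1 : ‖g1 X k a - y‖ ^ 2 ≤ 8 / 3
  · by_cases c3 : ‖g3 X k a - y‖ ^ 2 ≤ 8 / 3
    · have e1 : lossL (‖g1 X k a - y‖ ^ 2) = 0 := by unfold lossL; rw [if_pos c1]
      have e3 : lossL (‖g3 X k a - y‖ ^ 2) = 0 := by unfold lossL; rw [if_pos c3]
      rw [e1, e3]
      rcases hu with hu | ⟨hm, rfl⟩
      · have := hR.free hu
        linarith
      · rcases h.bad with hb | ⟨-, hb⟩
        · obtain ⟨x, hx, hd⟩ := hm
          exact absurd hd (not_lt.2 (hb x hx))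
        · rw [fan_pos] at hb
          unfold Rest
          linarith
    · have e1 : lossL (‖g1 X k a - y‖ ^ 2) = 0 := by unfold lossL; rw [if_pos c1]
      have e3 : lossL (‖g3 X k a - y‖ ^ 2) = 52 / 1000 := by unfold lossL; rw [if_neg c3]
      rw [e1, e3]
      have := hR.long (Or.inr (not_le.1 c3))
      linarith
  · have c3 : ‖g3 X k a - y‖ ^ 2 ≤ 8 / 3 := hR.one.resolve_left c1
    have e1 : lossL (‖g1 X k a - y‖ ^ 2) = 52 / 1000 := by unfold lossL; rw [if_neg c1]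
    have e3 : lossL (‖g3 X k a - y‖ ^ 2) = 0 := by unfold lossL; rw [if_pos c3]
    rw [e1, e3]
    have := hR.long (Or.inl (not_le.1 c1))
    linarith

end Pool.Agent.H16.AP
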