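import Pool.Agent.H16.AP.GLA
import Pool.Agent.H63.P6.First

/-!
# GLB: the glue: `RealSpec`, `HitSpec`, `VirtSpec` imply `T3`
-/

set_option autoImplicit false

open Set Real Finset MeasureTheory

noncomputable section

namespace Pool.Agent.H16.AP

open Pool.Agent.H20.AL Pool.Agent.H63.P6 Pool.Agent.H16.T3 Pool.Agent.H78.P6 Pool.Agent.H20.AP

/-- a free short hit at the site `z0` -/
def FS (X : Set ℂ) (a : Fin 3 → ℂ) (act : Fin 3 → Prop) (z0 y : ℂ) : Prop :=
  ∃ k, act k ∧ a k = z0 ∧ Hit X k z0 y ∧ Shrt X k z0 y ∧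
    ∀ l, act l → a l = z0 → y ≠ g1 X l z0 ∧ y ≠ g2 X l z0 ∧ y ≠ g3 X l z0

open Classical in
/-- the apex point of the site `z0` -/
def ap (X : Set ℂ) (a : Fin 3 → ℂ) (act : Fin 3 → Prop) (z0 : ℂ) : ℂ :=
  if Mat X z0 then pos X z0 else if h : ∃ y, FS X a act z0 y then h.choose else z0

/-- the site has a real apex point -/
def IsR (X : Set ℂ) (a : Fin 3 → ℂ) (act : Fin 3 → Prop) (z0 : ℂ) : Prop := Mat X z0 ∨ ∃ y, FS X a act z0 y

theorem ap_mat {X : Set ℂ} {a : Fin 3 → ℂ} {act : Fin 3 → Prop} {z0 : ℂ} (h : Mat X z0) : ap X a act z0 = pos X z0 := by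
  unfold ap; rw [if_pos h]

theorem ap_fs {X : Set ℂ} {a : Fin 3 → ℂ} {act : Fin 3 → Prop} {z0 : ℂ} (h : ¬ Mat X z0) (h' : ∃ y, FS X a act z0 y) :
    FS X a act z0 (ap X a act z0) := by
  unfold ap; rw [if_neg h, dif_pos h']; exact h'.choose_spec

theorem ap_v {X : Set ℂ} {a : Fin 3 → ℂ} {act : Fin 3 → Prop} {z0 : ℂ} (h : ¬ IsR X a act z0) : ap X a act z0 = z0 := by
  unfold IsR at h
  push Not at h
  unfold ap; rw [if_neg h.1, dif_neg]
  rintro ⟨y, hy⟩
  exact h.2 y hy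

theorem unm_of {X : Set ℂ} {z0 : ℂ} (h : ¬ Mat X z0) : Unm X z0 := by
  intro x hx
  by_contra hcon
  push Not at hcon
  exact h ⟨x, hx, hcon⟩

variable {V : ℂ → ℝ} {κ el : ℝ}

/-- everything about the real sites -/
theorem real_out (hvb : VB V) (hRS : RealSpec V κ el) (hH : HitSpec V κ el) {X : Set ℂ} (hX : Sep X) {a : Fin 3 → ℂ}
    {M : Fin 3 → ℤ} {act : Fin 3 → Prop} (had : ∀ k, ApexData V κ el X k (a k) (M k))
    (hact : ∀ k, act k → Rest X k (a k) (M k) ≤ 1 / 3) {k : Fin 3} (hk : act k) (hr : IsR X a act (a k)) :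
    RealOut V κ X k (a k) (ap X a act (a k)) ∧
      (1 / 2 ≤ ‖ap X a act (a k) - a k‖ ∨ (Mat X (a k) ∧ ap X a act (a k) = pos X (a k))) := by
  by_cases hm : Mat X (a k)
  · have e := ap_mat (a := a) (act := act) hm
    refine ⟨?_, Or.inr ⟨hm, e⟩⟩
    rw [e]
    obtain ⟨n1, n2, n3⟩ := pos_ne (had k) hm
    have hp := pos_spec hm
    have hd := hp.2
    rw [dist_eq_norm] at hd
    have hlo := (abs_le.1 (dt_le_norm (pos X (a k) - a k) (E (kk k + 1)))).1
    rw [norm_E, mul_one] at hlo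
    exact hRS X k (a k) _ (M k) hX (had k) (hact k hk) hp.1 n1 n2 n3 (by linarith) (by linarith) (Or.inl hd)
  · have hfs := ap_fs hm (hr.resolve_left hm)
    set y := ap X a act (a k) with hy
    obtain ⟨l, hl, e, hit, hs, hfree⟩ := hfs
    have hu := unm_of hm
    have hadl := had l
    rw [e] at hadl
    have hRl := hact l hl
    rw [e] at hRl
    have hlo := hit_lo hadl hit
    obtain ⟨h1, h2⟩ := hH X l (a k) y (M l) hX hadl hRl hu hit
    obtain ⟨n1, n2, n3⟩ := hfree k hk rfl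
    have hun : 1 / 2 ≤ ‖y - a k‖ := by
      have := hu y hit.1
      rwa [dist_eq_norm] at this
    refine ⟨?_, Or.inl hun⟩
    by_cases hkl : k = l
    · subst hkl
      exact hRS X k (a k) y (M k) hX (had k) (hact k hk) hit.1 n1 n2 n3 h1 hlo (Or.inr hs)
    · obtain ⟨s1, s2⟩ := nb_ok hvb hkl (had k) h1 h2 hs
      exact hRS X k (a k) y (M k) hX (had k) (hact k hk) hit.1 n1 n2 n3 h1 s2 (Or.inr s1)

open Classical in
theorem glue (hdp : DP V κ el) (hvb : VB V) (hel : el ≤ 147 / 100) (hRS : RealSpec V κ el) (hH : HitSpec V κ el)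
    (hVS : VirtSpec V κ el) : T3 V κ el := by
  classical
  intro s hs g hfin hg X hXg c a M cL hc had
  have hX : Sep X := by
    subst hXg
    rintro x ⟨c, hc, rfl⟩ y ⟨d, hd, rfl⟩ hne
    exact hg c hc d hd (fun h => hne (by rw [h]))
  set act : Fin 3 → Prop := fun k => Rest X k (a k) (M k) ≤ 1 / 3 with hactd
  have hact : ∀ k, act k → Rest X k (a k) (M k) ≤ 1 / 3 := fun k h => h
  -- the configuration
  set p : Fin 3 → ℂ := fun k => ap X a act (a k) with hp
  set re : Fin 3 → Prop := fun k => IsR X a act (a k) with hre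
  have hmat : ∀ k, ¬ re k → ¬ Mat X (a k) := fun k h hm => h (Or.inl hm)
  have hcf : Cf V κ el X a M c act re p := by
    refine ⟨hX, hvb, hel, cL, hc, had, ?_, ?_, ?_, ?_⟩
    · intro k hk hr
      exact (real_out hvb hRS hH hX had hact hk hr).1.rf
    · intro k hk hr
      exact ⟨ap_v hr, vf_of hH hX (had k) (hact k hk) (unm_of (hmat k hr))⟩
    · intro k l _ _ e
      simp only [hp, hre, e, and_self]
    · intro k _ hm
      exact ⟨Or.inl hm, ap_mat hm⟩
  -- the pieces of the real sites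
  have hr : ∀ k, ∃ (P : Set ℂ) (C : Finset (ℂ × ℂ × ℂ)) (w : ℝ), act k → re k →
      Piece X P C ∧ P ⊆ QK X a p k ∧ √3 / 2 * w ≤ val P C ∧ 1 / 3 < w + Rest X k (a k) (M k) := by
    intro k
    by_cases hk : act k ∧ re k
    · obtain ⟨h1, h2⟩ := real_out hvb hRS hH hX had hact hk.1 hk.2
      obtain ⟨P, C, w, h3, h4, h5, h6⟩ := real_piece hX hel (had k) h1 h2
      exact ⟨P, C, w, fun _ _ => ⟨h3, h4, h5, h6⟩⟩
    · exact ⟨∅, ∅, 0, fun h1 h2 => absurd ⟨h1, h2⟩ hk⟩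
  choose PR CR wR hR using hr
  -- the groups
  set A : Finset (Fin 3) := Finset.univ.filter act with hA
  have hmA : ∀ {k}, k ∈ A ↔ act k := by
    intro k
    rw [hA, Finset.mem_filter]
    exact ⟨fun h => h.2, fun h => ⟨Finset.mem_univ _, h⟩⟩
  set W : ℂ → Finset (Fin 3) := fun z0 => A.filter fun k => a k = z0 with hW
  have hmW : ∀ {z0 k}, k ∈ W z0 ↔ act k ∧ a k = z0 := by
    intro z0 k
    rw [hW, Finset.mem_filter, hmA]
  have hv : ∀ z0, ∃ (P : Fin 3 → Set ℂ) (C : Fin 3 → Finset (ℂ × ℂ × ℂ)) (w : Fin 3 → ℝ),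
      (W z0).Nonempty → ¬ IsR X a act z0 →
      (∀ k ∈ W z0, Piece X (P k) (C k) ∧ P k ⊆ Qo z0 (g1 X k z0) (g2 X k z0) (g3 X k z0) ∧
        √3 / 2 * w k ≤ val (P k) (C k)) ∧
      ((W z0).card : ℝ) / 3 ≤ ∑ k ∈ W z0, (w k + Rest X k z0 (M k)) ∧
      (∑ k ∈ W z0, (w k + Rest X k z0 (M k)) ≤ ((W z0).card : ℝ) / 3 →
        ∀ k ∈ W z0, Rest X k z0 (M k) ≤ 0 ∧ ∀ z, ¬ Hit X k z0 z) := by
    intro z0
    by_cases hcon : (W z0).Nonempty ∧ ¬ IsR X a act z0
    · obtain ⟨h1, h2⟩ := hcon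
      have h3 : ∀ k ∈ W z0, ApexData V κ el X k z0 (M k) := by
        intro k hk
        have h4 := hmW.1 hk
        rw [← h4.2]; exact had k
      have h3' : ∀ k ∈ W z0, Rest X k z0 (M k) ≤ 1 / 3 := by
        intro k hk
        have h4 := hmW.1 hk
        rw [← h4.2]; exact hact k h4.1
      unfold IsR at h2
      push Not at h2
      obtain ⟨P, C, w, h5⟩ := hVS X z0 (W z0) M hX h1 h3 h3' (unm_of h2.1) (by
        intro k hk z hz hsz
        by_contra hcon
        push Not at hcon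
        refine h2.2 z ⟨k, (hmW.1 hk).1, (hmW.1 hk).2, hz, hsz, ?_⟩
        intro l hl e
        exact hcon l (hmW.2 ⟨hl, e⟩))
      exact ⟨P, C, w, fun _ _ => h5⟩
    · exact ⟨fun _ => ∅, fun _ => ∅, fun _ => 0, fun h1 h2 => absurd ⟨h1, h2⟩ hcon⟩
  choose PV CV wV hV using hv
  set w : Fin 3 → ℝ := fun k => if re k then wR k else wV (a k) k with hw
  have htot := total hs g hfin hg hXg hcf (fun k => if re k then PR k else PV (a k) k)
    (fun k => if re k then CR k else CV (a k) k) w (by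
      intro k hk
      by_cases hrk : re k
      · simp only [hw, if_pos hrk]
        exact ⟨(hR k hk hrk).1, (hR k hk hrk).2.1, (hR k hk hrk).2.2.1⟩
      · simp only [hw, if_neg hrk]
        have hkW : k ∈ W (a k) := hmW.2 ⟨hk, rfl⟩
        obtain ⟨h1, h2, h3⟩ := (hV (a k) ⟨k, hkW⟩ hrk).1 k hkW
        refine ⟨h1, ?_, h3⟩
        have : p k = a k := ap_v hrk
        unfold QK
        rw [this]; exact h2)
  -- the sum over a group
  set f : Fin 3 → ℝ := fun k => w k + Rest X k (a k) (M k) with hf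
  have hgv : ∀ z0, (W z0).Nonempty → ¬ IsR X a act z0 →
      ∑ k ∈ W z0, f k = ∑ k ∈ W z0, (wV z0 k + Rest X k z0 (M k)) := by
    intro z0 _ h2
    refine Finset.sum_congr rfl fun k hk => ?_
    have h4 := hmW.1 hk
    have hnr : ¬ re k := by
      simp only [hre, h4.2]; exact h2
    simp only [hf, hw, if_neg hnr, h4.2]
  have hgr : ∀ z0, (W z0).Nonempty → IsR X a act z0 → ((W z0).card : ℝ) / 3 < ∑ k ∈ W z0, f k := by
    intro z0 h1 h2
    have h3 : ∑ k ∈ W z0, (1 / 3 : ℝ) < ∑ k ∈ W z0, f k := by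
      refine Finset.sum_lt_sum_of_nonempty h1 fun k hk => ?_
      have h4 := hmW.1 hk
      have hrk : re k := by
        simp only [hre, h4.2]; exact h2
      simp only [hf, hw, if_pos hrk]
      exact (hR k h4.1 hrk).2.2.2
    rw [Finset.sum_const, nsmul_eq_mul] at h3
    linarith
  have hge : ∀ z0, (W z0).Nonempty → ((W z0).card : ℝ) / 3 ≤ ∑ k ∈ W z0, f k := by
    intro z0 h1
    by_cases h2 : IsR X a act z0
    · exact (hgr z0 h1 h2).le
    · rw [hgv z0 h1 h2]; exact (hV z0 h1 h2).2.1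
  -- sum over all groups
  have hfib : ∑ z0 ∈ A.image a, ∑ k ∈ W z0, f k = ∑ k ∈ A, f k :=
    Finset.sum_fiberwise_of_maps_to (fun k hk => Finset.mem_image_of_mem a hk) f
  have hfib1 : ∑ z0 ∈ A.image a, ∑ k ∈ W z0, (1 / 3 : ℝ) = ∑ k ∈ A, (1 / 3 : ℝ) :=
    Finset.sum_fiberwise_of_maps_to (fun k hk => Finset.mem_image_of_mem a hk) fun _ => (1 / 3 : ℝ)
  have hne : ∀ z0 ∈ A.image a, (W z0).Nonempty := by
    intro z0 hz
    obtain ⟨k, hk, e⟩ := Finset.mem_image.1 hz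
    exact ⟨k, hmW.2 ⟨hmA.1 hk, e⟩⟩
  have hc3 : ∀ z0, ∑ k ∈ W z0, (1 / 3 : ℝ) = ((W z0).card : ℝ) / 3 := by
    intro z0
    rw [Finset.sum_const, nsmul_eq_mul]; ring
  have hAge : ∑ k ∈ A, (1 / 3 : ℝ) ≤ ∑ k ∈ A, f k := by
    rw [← hfib, ← hfib1]
    refine Finset.sum_le_sum fun z0 hz => ?_
    rw [hc3]; exact hge z0 (hne z0 hz)
  -- split of the total inequality
  have hsplit : ∑ k, Rest X k (a k) (M k) = ∑ k ∈ A, Rest X k (a k) (M k) +
      ∑ k ∈ Finset.univ.filter (fun k => ¬ act k), Rest X k (a k) (M k) :=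
    (Finset.sum_filter_add_sum_filter_not _ _ _).symm
  have hcard : ∑ k ∈ A, (1 / 3 : ℝ) + ∑ k ∈ Finset.univ.filter (fun k => ¬ act k), (1 / 3 : ℝ) = 1 := by
    rw [hA, Finset.sum_filter_add_sum_filter_not, Finset.sum_const, Finset.card_univ, Fintype.card_fin]
    norm_num
  have htot' : ∑ k ∈ A, f k + ∑ k ∈ Finset.univ.filter (fun k => ¬ act k), Rest X k (a k) (M k) ≤ 1 := by
    have h1 : ∑ k ∈ A, f k = ∑ k ∈ A, w k + ∑ k ∈ A, Rest X k (a k) (M k) := Finset.sum_add_distrib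
    rw [h1]
    have h2 : ∑ k ∈ Finset.univ.filter act, w k = ∑ k ∈ A, w k := rfl
    rw [hsplit] at htot
    linarith
  -- all wedges are active
  have hall : ∀ k, act k := by
    by_contra hcon
    push Not at hcon
    obtain ⟨k0, hk0⟩ := hcon
    have h1 : ∑ k ∈ Finset.univ.filter (fun k => ¬ act k), (1 / 3 : ℝ) <
        ∑ k ∈ Finset.univ.filter (fun k => ¬ act k), Rest X k (a k) (M k) := by
      refine Finset.sum_lt_sum_of_nonempty ⟨k0, Finset.mem_filter.2 ⟨Finset.mem_univ _, hk0⟩⟩ fun k hk => ?_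
      exact not_le.1 (Finset.mem_filter.1 hk).2
    linarith
  have hnoact : Finset.univ.filter (fun k => ¬ act k) = ∅ := by
    rw [Finset.filter_eq_empty_iff]
    intro k _
    simpa using hall k
  rw [hnoact] at htot' hcard
  rw [Finset.sum_empty, add_zero] at htot' hcard
  -- every group is extremal
  have hext : ∀ z0 ∈ A.image a, ∑ k ∈ W z0, f k ≤ ((W z0).card : ℝ) / 3 := by
    intro z0 hz
    have h0 : ∑ z0 ∈ A.image a, (∑ k ∈ W z0, f k - ((W z0).card : ℝ) / 3) = ∑ k ∈ A, f k - ∑ k ∈ A, (1 / 3 : ℝ) := by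
      rw [Finset.sum_sub_distrib, hfib, ← hfib1]
      congr 1
      exact Finset.sum_congr rfl fun z0 _ => (hc3 z0).symm
    have h1 : ∑ k ∈ W z0, f k - ((W z0).card : ℝ) / 3 ≤
        ∑ z0 ∈ A.image a, (∑ k ∈ W z0, f k - ((W z0).card : ℝ) / 3) :=
      Finset.single_le_sum (f := fun z0 => ∑ k ∈ W z0, f k - ((W z0).card : ℝ) / 3)
        (fun z hz => sub_nonneg.2 (hge z (hne z hz))) hz
    linarith
  have hfin' : ∀ k, Unm X (a k) ∧ Rest X k (a k) (M k) ≤ 0 ∧ ∀ z, ¬ Hit X k (a k) z := by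
    intro k
    have hk : k ∈ A := hmA.2 (hall k)
    have hz : a k ∈ A.image a := Finset.mem_image_of_mem a hk
    have hkW : k ∈ W (a k) := hmW.2 ⟨hall k, rfl⟩
    have h1 := hext _ hz
    by_cases h2 : IsR X a act (a k)
    · have := hgr (a k) ⟨k, hkW⟩ h2
      linarith
    · have h3 : ¬ Mat X (a k) := fun hm => h2 (Or.inl hm)
      rw [hgv (a k) ⟨k, hkW⟩ h2] at h1
      exact ⟨unm_of h3, (hV (a k) ⟨k, hkW⟩ h2).2.2 h1 k hkW⟩
  -- the equality case
  refine eq_case hs g hfin hg hXg hdp hdp.nz hc had (fun k => (hfin' k).1) (fun k => (hfin' k).2.1) ?_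
  intro k y hy n1 n2 n3 b
  rw [Set.disjoint_left]
  intro q hq hT
  have hQ := qc_v (had k)
  refine (hfin' k).2.2 y ⟨hy, n1, n2, n3, q, ?_, ?_⟩
  · refine Qo_sub_Qd _ _ _ _ ?_
    have e0 : NT X a ⟨k, (0, b)⟩ 0 = a k := by
      change pos X (cs (a k) k 0) = a k
      rw [cs_zero, pos_unm (hfin' k).1]
    cases b
    · have e1 : NT X a ⟨k, (0, false)⟩ 1 = g1 X k (a k) := by
        change pos X (cs (a k) k 0 + E (kk k)) = _
        rw [cs_zero]; rfl
      have e2 : NT X a ⟨k, (0, false)⟩ 2 = g2 X k (a k) := by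
        change pos X (cs (a k) k 0 + E (kk k + 1)) = _
        rw [cs_zero]; rfl
      unfold Pool.Agent.H20.AL.T3 at hT
      rw [e0, e1, e2] at hT
      exact qo_tri1 hQ hT
    · have e1 : NT X a ⟨k, (0, true)⟩ 1 = g2 X k (a k) := by
        change pos X (cs (a k) k 0 + E (kk k + 1)) = _
        rw [cs_zero]; rfl
      have e2 : NT X a ⟨k, (0, true)⟩ 2 = g3 X k (a k) := by
        change pos X (cs (a k) k 0 + E (kk k + 1 + 1)) = _
        rw [cs_zero, kk2a]; rfl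
      unfold Pool.Agent.H20.AL.T3 at hT
      rw [e0, e1, e2] at hT
      exact qo_tri2 hQ hT
  · rw [dist_comm]; exact hq

end Pool.Agent.H16.AP
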