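import Pool.Agent.H16.AP.TOT
import Pool.Agent.H20.AP.RVL

/-!
# GLD: interface of the glue (what the certificates and the virtual classes have to deliver)
-/

set_option autoImplicit false

open Set Real Finset MeasureTheory

noncomputable section

namespace Pool.Agent.H16.AP

open Pool.Agent.H20.AL Pool.Agent.H63.P6 Pool.Agent.H16.T3 Pool.Agent.H78.P6 Pool.Agent.H20.AP

/-- the foreign point `z` hits the quadrilateral of the wedge `k` with virtual apex `a` -/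
def Hit (X : Set ℂ) (k : Fin 3) (a z : ℂ) : Prop :=
  z ∈ X ∧ z ≠ g1 X k a ∧ z ≠ g2 X k a ∧ z ≠ g3 X k a ∧
    ∃ q ∈ Qd a (g1 X k a) (g2 X k a) (g3 X k a), dist z q < 1 / √3

/-- both legs are short -/
def Shrt (X : Set ℂ) (k : Fin 3) (a z : ℂ) : Prop := ‖g1 X k a - z‖ ^ 2 ≤ 3 ∧ ‖g3 X k a - z‖ ^ 2 ≤ 3

/-- the area excess of the fan with apex `y` -/
def fanY (X : Set ℂ) (k : Fin 3) (a y : ℂ) : ℝ := fanw (g1 X k a - y) (g2 X k a - y) (g3 X k a - y)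

/-- output of the certificates for a real apex point -/
structure RealOut (V : ℂ → ℝ) (κ : ℝ) (X : Set ℂ) (k : Fin 3) (a y : ℂ) : Prop where
  rf : RF X k a y
  one : ‖g1 X k a - y‖ ^ 2 ≤ 8 / 3 ∨ ‖g3 X k a - y‖ ^ 2 ≤ 8 / 3
  long : 8 / 3 < ‖g1 X k a - y‖ ^ 2 ∨ 8 / 3 < ‖g3 X k a - y‖ ^ 2 → 386 / 1000 ≤ fanY X k a y + PhiF V κ X k a
  free : 1 / 2 ≤ ‖y - a‖ → 1 / 3 < fanY X k a y + PhiF V κ X k a

/-- (helper78, helper30) real apex points -/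
def RealSpec (V : ℂ → ℝ) (κ el : ℝ) : Prop :=
  ∀ (X : Set ℂ) (k : Fin 3) (a y : ℂ) (M : ℤ), Sep X → ApexData V κ el X k a M → Rest X k a M ≤ 1 / 3 → y ∈ X →
    y ≠ g1 X k a → y ≠ g2 X k a → y ≠ g3 X k a → ‖y - a‖ ≤ 709 / 1000 → -(578 / 1000) ≤ dt (y - a) (E (kk k + 1)) →
    (‖y - a‖ < 1 / 2 ∨ Shrt X k a y) → RealOut V κ X k a y

/-- (helper63) hits of the quadrilateral of an unmatched apex are near and low -/
def HitSpec (V : ℂ → ℝ) (κ el : ℝ) : Prop :=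
  ∀ (X : Set ℂ) (k : Fin 3) (a z : ℂ) (M : ℤ), Sep X → ApexData V κ el X k a M → Rest X k a M ≤ 1 / 3 → Unm X a →
    Hit X k a z → ‖z - a‖ ≤ 709 / 1000 ∧ dt (z - a) (E (kk k + 1)) ≤ -(1 / 5)

/-- (helper84, helper20) the wedges of a group `W` with the same unmatched apex `z0`, without a free short hit -/
def VirtSpec (V : ℂ → ℝ) (κ el : ℝ) : Prop :=
  ∀ (X : Set ℂ) (z0 : ℂ) (W : Finset (Fin 3)) (M : Fin 3 → ℤ), Sep X → W.Nonempty →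
    (∀ k ∈ W, ApexData V κ el X k z0 (M k)) → (∀ k ∈ W, Rest X k z0 (M k) ≤ 1 / 3) → Unm X z0 →
    (∀ k ∈ W, ∀ z, Hit X k z0 z → Shrt X k z0 z → ∃ l ∈ W, z = g1 X l z0 ∨ z = g2 X l z0 ∨ z = g3 X l z0) →
    ∃ (P : Fin 3 → Set ℂ) (C : Fin 3 → Finset (ℂ × ℂ × ℂ)) (w : Fin 3 → ℝ),
      (∀ k ∈ W, Piece X (P k) (C k) ∧ P k ⊆ Qo z0 (g1 X k z0) (g2 X k z0) (g3 X k z0) ∧
        √3 / 2 * w k ≤ val (P k) (C k)) ∧
      (W.card : ℝ) / 3 ≤ ∑ k ∈ W, (w k + Rest X k z0 (M k)) ∧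
      (∑ k ∈ W, (w k + Rest X k z0 (M k)) ≤ (W.card : ℝ) / 3 →
        ∀ k ∈ W, Rest X k z0 (M k) ≤ 0 ∧ ∀ z, ¬ Hit X k z0 z)

end Pool.Agent.H16.AP
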