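import Pool.Agent.H16.AP.NCD
import Pool.Agent.H63.P6.V1
import Pool.Agent.H30.P6.HitC

/-!
# HIT: hits of the quadrilateral of an unmatched apex are near and low
-/

set_option autoImplicit false

open Set Real Finset MeasureTheory

noncomputable section

namespace Pool.Agent.H16.AP

open Pool.Agent.H20.AL Pool.Agent.H63.P6 Pool.Agent.H16.T3 Pool.Agent.H78.P6 Pool.Agent.H20.AP

open Pool.Agent.H30.P6 (V30 V30_self V30_nonneg V30_le_iff)

/-- a leg is hit only near the apex -/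
theorem H1_leg {u a q : ℂ} {σ : ℝ} (h0 : 0 ≤ σ) (h1 : σ ≤ 1) (hl : ‖a‖ ≤ 12279 / 10000) (ua : 1 ≤ ‖u - a‖)
    (hq : q = (σ : ℂ) * a) (hd : ‖u - q‖ < 1 / √3) : ‖u‖ ≤ 709 / 1000 := by
  have e := D1_stewart u 0 a σ
  rw [sub_zero, sub_zero, zero_add, ← hq] at e
  have h2 : ‖u - q‖ ^ 2 < 1 / 3 := by
    rw [← D1_third]
    exact pow_lt_pow_left₀ hd (norm_nonneg _) (by norm_num)
  have h3 : ‖a‖ ^ 2 ≤ (12279 / 10000) ^ 2 := pow_le_pow_left₀ (norm_nonneg _) hl 2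
  have h5 : 1 ≤ ‖u - a‖ ^ 2 := by nlinarith
  have h6 : 0 ≤ σ * (1 - σ) := mul_nonneg h0 (by linarith)
  have h8 := mul_le_mul_of_nonneg_left h3 h6
  have h10 := mul_le_mul_of_nonneg_left h5 h0
  have h11 : (1 - σ) * ‖u‖ ^ 2 < 1 / 3 - σ + σ * (1 - σ) * (12279 / 10000) ^ 2 := by linarith
  have h12 : 1 / 3 - σ + σ * (1 - σ) * (12279 / 10000) ^ 2 ≤ (1 - σ) * (709 / 1000) ^ 2 := by
    nlinarith [sq_nonneg (σ - 335085 / 1000000)]
  have h13 : 0 < 1 - σ := by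
    rcases h1.lt_or_eq with h | h
    · linarith
    · exfalso; rw [h] at h11; norm_num at h11
  have h14 : ‖u‖ ^ 2 < (709 / 1000) ^ 2 := by
    by_contra hc
    push Not at hc
    have := mul_le_mul_of_nonneg_left hc h13.le
    linarith
  have := norm_nonneg u
  nlinarith

/-- a point inside a triangle `0, a, b` at distance `≥ 1` from `a` and `b` is near `0` -/
theorem H1_tri {u a b : ℂ} (hc : 0 < cr a b) (ha : ‖a‖ ≤ 12279 / 10000) (hb : ‖b‖ ≤ 12279 / 10000)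
    (hab : ‖b - a‖ ≤ 147 / 100)
    (ua : 1 ≤ ‖u - a‖) (ub : 1 ≤ ‖u - b‖) (c1 : 0 ≤ cr u b) (c2 : 0 ≤ cr a u) (c3 : 0 ≤ cr (b - a) (u - a)) :
    ‖u‖ ≤ 709 / 1000 := by
  set s := cr u b / cr a b with hs
  set t := cr a u / cr a b with ht
  have hs0 : 0 ≤ s := div_nonneg c1 hc.le
  have ht0 : 0 ≤ t := div_nonneg c2 hc.le
  have hu : u = (s : ℂ) * a + (t : ℂ) * b := by
    have hne : cr a b ≠ 0 := hc.ne'
    apply Complex.ext
    · simp only [Complex.add_re, Complex.mul_re, Complex.ofReal_re, Complex.ofReal_im, zero_mul, sub_zero, hs, ht]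
      field_simp
      simp only [cr]; ring
    · simp only [Complex.add_im, Complex.mul_im, Complex.ofReal_re, Complex.ofReal_im, zero_mul, add_zero, hs, ht]
      field_simp
      simp only [cr]; ring
  have hst : s + t ≤ 1 := by
    have h : cr (b - a) (u - a) = cr a b * (1 - s - t) := by
      rw [hu]; simp [cr]; ring
    rw [h] at c3
    by_contra hcon
    push Not at hcon
    have := mul_neg_of_pos_of_neg hc (show 1 - s - t < 0 by linarith)
    linarith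
  have e : (1 - s - t) * ‖u‖ ^ 2 + s * ‖u - a‖ ^ 2 + t * ‖u - b‖ ^ 2 =
      (1 - s - t) * s * ‖a‖ ^ 2 + (1 - s - t) * t * ‖b‖ ^ 2 + s * t * ‖b - a‖ ^ 2 := by
    have h1 : u.re = s * a.re + t * b.re := by rw [hu]; simp
    have h2 : u.im = s * a.im + t * b.im := by rw [hu]; simp
    simp only [D1_nsq, Complex.sub_re, Complex.sub_im]
    rw [h1, h2]; ring
  have hw : 0 ≤ 1 - s - t := by linarith
  have h3 : ‖a‖ ^ 2 ≤ 151 / 100 := by have := norm_nonneg a; nlinarith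
  have h4 : ‖b‖ ^ 2 ≤ 151 / 100 := by have := norm_nonneg b; nlinarith
  have h4' : ‖b - a‖ ^ 2 ≤ 217 / 100 := by have := norm_nonneg (b - a); nlinarith
  have h5 : 1 ≤ ‖u - a‖ ^ 2 := by nlinarith
  have h6 : 1 ≤ ‖u - b‖ ^ 2 := by nlinarith
  have h7 := mul_le_mul_of_nonneg_left h3 (mul_nonneg hw hs0)
  have h8 := mul_le_mul_of_nonneg_left h4 (mul_nonneg hw ht0)
  have h8' := mul_le_mul_of_nonneg_left h4' (mul_nonneg hs0 ht0)
  have h9 := mul_le_mul_of_nonneg_left h5 hs0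
  have h10 := mul_le_mul_of_nonneg_left h6 ht0
  by_contra hcon
  push Not at hcon
  have h11 : 1 / 2 ≤ ‖u‖ ^ 2 := by nlinarith
  have h12 := mul_le_mul_of_nonneg_left h11 hw
  have h13 : s * t ≤ (s + t) ^ 2 / 4 := by nlinarith [sq_nonneg (s - t)]
  have key : (1 - s - t) * (1 / 2) + (s + t) ≤ 151 / 100 * ((1 - s - t) * (s + t)) + 217 / 100 * (s * t) := by
    have e2 : 151 / 100 * ((1 - s - t) * (s + t)) = (1 - s - t) * s * (151 / 100) + (1 - s - t) * t * (151 / 100) := by ring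
    rw [e2]
    linarith
  have h14 : 0 < 1 / 2 - 101 / 100 * (s + t) + 9675 / 10000 * (s + t) ^ 2 := by
    have := sq_nonneg ((s + t) - 522 / 1000)
    linarith
  have h15 : 151 / 100 * ((1 - s - t) * (s + t)) = 151 / 100 * (s + t) - 151 / 100 * (s + t) ^ 2 := by ring
  linarith

/-- a foreign point within `1/√3` of the quadrilateral is near the apex -/
theorem h1_near {u x1 x2 x3 q : ℂ} (hQ : QC 0 x1 x2 x3) (n1 : ‖x1‖ ≤ 12279 / 10000) (n2 : ‖x2‖ ≤ 12279 / 10000)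
    (n3 : ‖x3‖ ≤ 12279 / 10000) (l12 : ‖x2 - x1‖ ≤ 147 / 100) (l23 : ‖x3 - x2‖ ≤ 147 / 100) (u1 : 1 ≤ ‖u - x1‖)
    (u2 : 1 ≤ ‖u - x2‖) (u3 : 1 ≤ ‖u - x3‖) (hq : q ∈ Qd 0 x1 x2 x3) (hd : ‖u - q‖ < 1 / √3) : ‖u‖ ≤ 709 / 1000 := by
  by_cases hin : u ∈ Qd 0 x1 x2 x3
  · obtain ⟨a1, a2, a3, a4⟩ := hin
    have e1 : 0 ≤ cr x1 u := by simpa using a1
    have e4 : 0 ≤ cr u x3 := by
      have h : cr (0 - x3) (u - x3) = cr u x3 := by simp [cr]; ring
      rwa [h] at a4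
    have c12 : 0 < cr x1 x2 := by simpa using hQ.pab
    have c23 : 0 < cr x2 x3 := by simpa using hQ.bcp
    rcases le_total 0 (cr u x2) with h | h
    · exact H1_tri c12 n1 n2 l12 u1 u2 h e1 a2
    · refine H1_tri c23 n2 n3 l23 u2 u3 e4 ?_ a3
      have h5 : cr x2 u = - cr u x2 := by simp [cr]; ring
      rw [h5]; linarith
  · obtain ⟨τ, σ, t0, t1, s0, s1, hh⟩ := exit4 hQ hq hin
    set b := q + (τ : ℂ) * (u - q) with hb
    have hdb : ‖u - b‖ < 1 / √3 := by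
      have h1 : u - b = ((1 - τ : ℝ) : ℂ) * (u - q) := by rw [hb]; push_cast; ring
      rw [h1, norm_mul, Complex.norm_real, Real.norm_of_nonneg (by linarith)]
      have := norm_nonneg (u - q)
      nlinarith
    rcases hh with ⟨-, hh⟩ | ⟨-, hh⟩ | ⟨-, hh⟩ | ⟨-, hh⟩
    · exact H1_leg s0 s1 n1 u1 (by rw [hh]; ring) hdb
    · exact (D1_base s0 s1 l12 u1 u2 hh hdb).elim
    · exact (D1_base s0 s1 l23 u2 u3 hh hdb).elim
    · refine H1_leg (σ := 1 - σ) (by linarith) (by linarith) n3 u3 ?_ hdb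
      rw [hh]; push_cast; ring

theorem hitSpec30 : HitSpec V30 (4 / 25) (147 / 100) := by
  intro X k a z M hX h hR hu hz
  obtain ⟨v1, v2, v3⟩ := v_le h
  obtain ⟨n1, n2, n3⟩ := hit_norms hX h hz
  have k1 : K30 (w1 X k a) := V30_le_iff.1 v1
  have k2 : K30 (w2 X k a) := V30_le_iff.1 v2
  have k3 : K30 (w3 X k a) := V30_le_iff.1 v3
  have m1 : ‖g1 X k a - a‖ ≤ 12279 / 10000 := by rw [← nrm_rho k, r1]; exact V1_n1 k1
  have m2 : ‖g2 X k a - a‖ ≤ 12279 / 10000 := by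
    rw [← nrm_rho k, r2]; exact (V1_n2 k2).trans (by norm_num)
  have m3 : ‖g3 X k a - a‖ ≤ 12279 / 10000 := by rw [← nrm_rho k, r3]; exact V1_n3 k3
  obtain ⟨l12, l23⟩ := D1_edges h le_rfl
  obtain ⟨hzX, z1, z2, z3, q, hq, hd⟩ := hz
  obtain ⟨u1, u2, u3⟩ := D1_far hX h hzX z1 z2 z3
  have hQ := qc_v h
  have near : ‖z - a‖ ≤ 709 / 1000 := by
    have hQ' : QC 0 (g1 X k a - a) (g2 X k a - a) (g3 X k a - a) := by
      refine ⟨?_, ?_, ?_, ?_⟩
      · simpa using hQ.pab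
      · have := hQ.abc; simpa using this
      · simpa using hQ.bcp
      · simpa using hQ.cpa
    have hq' : q - a ∈ Qd 0 (g1 X k a - a) (g2 X k a - a) (g3 X k a - a) := by
      obtain ⟨a1, a2, a3, a4⟩ := hq
      refine ⟨by simpa using a1, by simpa using a2, by simpa using a3, ?_⟩
      have e : cr (0 - (g3 X k a - a)) (q - a - (g3 X k a - a)) = cr (a - g3 X k a) (q - g3 X k a) := by
        congr 1 <;> ring
      rw [e]; exact a4
    have hd' : ‖z - a - (q - a)‖ < 1 / √3 := by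
      rw [sub_sub_sub_cancel_right, ← dist_eq_norm]; exact hd
    exact h1_near hQ' m1 m2 m3 (by rwa [sub_sub_sub_cancel_right]) (by rwa [sub_sub_sub_cancel_right])
      (by rwa [sub_sub_sub_cancel_right]) (by rwa [sub_sub_sub_cancel_right]) (by rwa [sub_sub_sub_cancel_right]) hq' hd'
  refine ⟨near, ?_⟩
  have hlow := hu z hzX
  rw [← rho_im]
  refine Pool.Agent.H30.Q.hitC v1 v2 v3 n1 n2 n3 ?_ (by rw [nrm_rho]; exact near)
  rw [nrm_rho]
  rwa [dist_eq_norm] at hlow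

end Pool.Agent.H16.AP
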