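import Pool.Agent.H16.AP.NC

/-!
# LEV: levels of the vertices of the wedges relative to the legs of a virtual fan
-/

set_option autoImplicit false

open Set Real

noncomputable section

namespace Pool.Agent.H16.AP

open Pool.Agent.H20.AL Pool.Agent.H63.P6 Pool.Agent.H16.T3 Pool.Agent.H78.P6

theorem dt_le_norm (u v : ℂ) : |dt u v| ≤ ‖u‖ * ‖v‖ := by
  have h := lag u v
  have h1 : dt u v ^ 2 ≤ (‖u‖ * ‖v‖) ^ 2 := by nlinarith [sq_nonneg (cr u v)]
  exact abs_le_of_sq_le_sq h1 (by positivity)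

theorem dt_line (z w n : ℂ) (t : ℝ) : dt (z + (t : ℂ) * (w - z)) n = (1 - t) * dt z n + t * dt w n := by
  simp [dt]; ring

/-- a long edge does not come near -/
theorem lev {z w N D : ℂ} (hD : ‖D‖ = 1) (hz : (dt z N ≤ 226 / 1000 ∧ 1 / 2 ≤ dt z D) ∨ dt z N ≤ -(633 / 1000))
    (hw : (dt w N ≤ 226 / 1000 ∧ 1 / 2 ≤ dt w D) ∨ dt w N ≤ -(633 / 1000)) (hl : ‖w - z‖ ^ 2 ≤ 8 / 3) {t : ℝ}
    (t0 : 0 ≤ t) (t1 : t ≤ 1) (h1 : 0 ≤ dt (z + (t : ℂ) * (w - z)) N) (h2 : dt (z + (t : ℂ) * (w - z)) D ≤ 0) : False := by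
  rw [dt_line] at h1 h2
  have hn : ‖w - z‖ ≤ 1634 / 1000 := by
    by_contra hcon
    push Not at hcon
    nlinarith
  have hd := dt_le_norm (w - z) D
  rw [hD, mul_one] at hd
  have hd' := abs_le.1 (hd.trans hn)
  have e : dt (w - z) D = dt w D - dt z D := dt_sub_l _ _ _
  rw [e] at hd'
  have t1' : 0 ≤ 1 - t := by linarith
  rcases hz with ⟨a1, a2⟩ | a1 <;> rcases hw with ⟨b1, b2⟩ | b1
  · nlinarith [mul_le_mul_of_nonneg_left a2 t1', mul_le_mul_of_nonneg_left b2 t0]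
  · -- z on the row, w below
    have k1 : t * (859 / 1000) ≤ 226 / 1000 := by
      nlinarith [mul_le_mul_of_nonneg_left a1 t1', mul_le_mul_of_nonneg_left b1 t0]
    nlinarith [mul_le_mul_of_nonneg_left hd'.1 t0]
  · have k1 : (1 - t) * (859 / 1000) ≤ 226 / 1000 := by
      nlinarith [mul_le_mul_of_nonneg_left a1 t1', mul_le_mul_of_nonneg_left b1 t0]
    nlinarith [mul_le_mul_of_nonneg_left hd'.2 t1']
  · nlinarith [mul_le_mul_of_nonneg_left a1 t1', mul_le_mul_of_nonneg_left b1 t0]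

variable {V : ℂ → ℝ} {κ el : ℝ} {X : Set ℂ} {k : Fin 3} {a y : ℂ} {m : ℤ}

/-- position bounds at the site `t` of the wedge `l` -/
structure PB (X : Set ℂ) (l : Fin 3) (t : ℂ) : Prop where
  mt : Mt X t
  up : dt (pos X t - t) (E (kk l + 1)) ≤ 8 / 100
  dn : -(35 / 100) ≤ dt (pos X t - t) (E (kk l + 1))
  nl : dt (pos X t - t) (E (kk l + 1) + E (kk l + 2)) ≤ 226 / 1000
  nr : dt (pos X t - t) (E (kk l) + E (kk l + 1)) ≤ 226 / 1000

theorem sq3_hi : √3 < 17321 / 10000 := by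
  rw [Real.sqrt_lt' (by norm_num)]; norm_num

theorem sq3_lo : 17320 / 10000 < √3 := by
  apply Real.lt_sqrt_of_sq_lt; norm_num

theorem pb (hvb : VB V) {l : Fin 3} {z : ℂ} (h : ApexData V κ el X l z m) {p : ℤ × ℤ} (hp : 0 ≤ p) (h0 : p ≠ 0) :
    PB X l (cs z l p) := by
  have hV : V (disp (lx X l z) p) ≤ 1 / 3 := (h.pot p hp h0).trans (h.en p hp h0)
  set v := pos X (cs z l p) - cs z l p with hv
  have e : disp (lx X l z) p = rho l * v := disp_rho X l z p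
  rw [e] at hV
  have u1 := hvb.up _ hV
  have u2 := hvb.dn _ hV
  have u3 := hvb.n120 _ hV
  have u4 := hvb.n60 _ hV
  have d2e : ∀ w : ℂ, dt w d2 = w.im := by intro w; simp [dt, d2]
  have d23 : ∀ w : ℂ, dt w (d2 + d3) = √3 * (-(1 / 2) * w.re + √3 / 2 * w.im) := by
    intro w
    have := sq3
    simp [dt, d2, d3]
    linear_combination (-(w.im / 2)) * this
  have d12 : ∀ w : ℂ, dt w (d1 + d2) = √3 * (1 / 2 * w.re + √3 / 2 * w.im) := by
    intro w
    have := sq3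
    simp [dt, d2, d1]
    linear_combination (-(w.im / 2)) * this
  have f1 : dt v (E (kk l + 1)) = dt (rho l * v) d2 := by rw [← rho_E1 l, dt_rho]
  have f2 : dt v (E (kk l + 1) + E (kk l + 2)) = dt (rho l * v) (d2 + d3) := by
    rw [← rho_E1 l, ← rho_E2 l, ← mul_add, dt_rho]
  have f3 : dt v (E (kk l) + E (kk l + 1)) = dt (rho l * v) (d1 + d2) := by
    rw [← rho_E1 l, ← rho_E l, ← mul_add, dt_rho]
  have s0 := sq3_pos
  have s1 := sq3_hi
  refine ⟨mt_of hvb h hp h0, ?_, ?_, ?_, ?_⟩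
  · rw [f1, d2e]; exact u1
  · rw [f1, d2e]; linarith
  · rw [f2, d23]; nlinarith
  · rw [f3, d12]; nlinarith

/-- displacement bounds -/
theorem mt_dt {X : Set ℂ} {t n : ℂ} (h : Mt X t) {c : ℝ} (hn : ‖n‖ ≤ c) :
    |dt (pos X t - t) n| ≤ c / 2 := by
  have h1 := dt_le_norm (pos X t - t) n
  have h2 := h.lt
  rw [dist_eq_norm] at h2
  have h3 : ‖pos X t - t‖ * ‖n‖ ≤ 1 / 2 * c := mul_le_mul h2.le hn (norm_nonneg _) (by norm_num)
  linarith

/-- displacement bounds, version with 47/100 -/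
theorem mt_dt' {X : Set ℂ} {t n : ℂ} (h : Mt X t) (hn : ‖n‖ = 1) : |dt (pos X t - t) n| ≤ 47 / 100 := by
  have h1 := dt_le_norm (pos X t - t) n
  have h2 := h.2
  rw [dist_eq_norm] at h2
  rw [hn, mul_one] at h1
  linarith

theorem norm_NN (j : Fin 6) : ‖E j + E (j + 1)‖ = √3 := by
  have h : ‖E j + E (j + 1)‖ ^ 2 = 3 := by
    rw [← dt_self, dt_add_l, dt_add_r, dt_add_r, dtE0, dtE0, dtE1, dt_comm (E (j + 1)), dtE1]; norm_num
  rw [← Real.sqrt_sq (norm_nonneg _), h]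

/-- values of the normal `N = E (j+1) + E (j+2)` of `E j` -/
theorem dtN0 (j : Fin 6) : dt (E j) (E (j + 1) + E (j + 2)) = 0 := by
  rw [dt_add_r, dtE1, dtE2]; norm_num
theorem dtN2 (j : Fin 6) : dt (E (j + 2)) (E (j + 1) + E (j + 2)) = 3 / 2 := by
  have := dtE1 (j + 1)
  rw [show j + 1 + 1 = j + 2 by rw [add_assoc]; rfl, dt_comm] at this
  rw [dt_add_r, dtE0, this]; norm_num
/-- values of the normal `N = E j + E (j + 1)` of `E (j + 2)` -/
theorem dtM2 (j : Fin 6) : dt (E (j + 2)) (E j + E (j + 1)) = 0 := by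
  have := dtE1 (j + 1)
  rw [show j + 1 + 1 = j + 2 by rw [add_assoc]; rfl, dt_comm] at this
  rw [dt_add_r, this, dt_comm, dtE2]; norm_num
theorem dtM0 (j : Fin 6) : dt (E j) (E j + E (j + 1)) = 3 / 2 := by
  rw [dt_add_r, dtE0, dtE1]; norm_num

end Pool.Agent.H16.AP
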