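import Pool.Agent.H16.T3.TRN

/-!
# LOW: the apex point of the lower wedge is lower

`low1`: proof.  Put `x = w - a`, `z = y - w`, `n` unit.  Suppose `0 ≤ dt z n`.  Then `‖y - (a - n)‖^2 = ‖x + z + n‖^2 =
  ‖x‖^2 + ‖z‖^2 + 1 + 2 dt x z + 2 dt x n + 2 dt z n`.  Decompose with the unit vector `τ = I * n` (`dt`, `cr` with `n`): `x = x1 n + x2 τ`,
  `z = z1 n + z2 τ`, `z1 ≥ 0`, `z1^2 + z2^2 ≥ 1`, `x1^2 + x2^2 ≤ .705^2`.  Then
  `‖x+z+n‖^2 = (x1+z1+1)^2 + (x2+z2)^2 = (x1+1)^2 + x2^2 + ‖z‖^2 + 2 (x1+1) z1 + 2 x2 z2 ≥ (x1+1)^2 + x2^2 + ρ^2 - 2 |x2| ρ` (`ρ = ‖z‖ ≥ 1`, `x1 + 1 ≥ 0`,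
  `|z2| ≤ ρ`) `≥ (x1+1)^2 + x2^2 + 1 - 2|x2| = (x1+1)^2 + (|x2|-1)^2` (because `ρ^2 - 2|x2|ρ` is increasing for `ρ ≥ 1 ≥ |x2|`), and this is
  the squared distance of `(x1, |x2|)` to `(-1, 1)`, which is `≥ (√2 - .705)^2 > .705^2` (`√2 > 1.41`): contradiction.
  (With `p = x1, q = |x2|`: `(p+1)^2+(q-1)^2 = p^2+q^2+2+2p-2q ≥ m + 2 - 2 √(2 m)` with `m = p^2+q^2 ≤ .497025`.)
`low2`: `dt (y - w) n = dt (y - c) n + dt (c - a) n + dt (a - w) n ≤ .705 - 1.5 + .705 < 0` (Cauchy-Schwarz from `lag`).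
-/

set_option autoImplicit false

open Set Real

noncomputable section

namespace Pool.Agent.H16.AP

open Pool.Agent.H20.AL Pool.Agent.H16.T3

private theorem LOW_sq {u n : ℂ} (hn : ‖n‖ = 1) : dt u n ^ 2 + cr u n ^ 2 = ‖u‖ ^ 2 := by
  rw [lag, hn]; ring

private theorem LOW_le {u n : ℂ} (hn : ‖n‖ = 1) : dt u n ≤ ‖u‖ := by
  apply abs_le_of_sq_le_sq' _ (norm_nonneg u) |>.2
  have := LOW_sq (u := u) hn
  nlinarith [sq_nonneg (cr u n)]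

private theorem LOW_real {x1 x2 z1 z2 : ℝ} (hx : x1 ^ 2 + x2 ^ 2 ≤ (705 / 1000) ^ 2)
    (hy : (x1 + z1 + 1) ^ 2 + (x2 + z2) ^ 2 ≤ (705 / 1000) ^ 2) (hz : 1 ≤ z1 ^ 2 + z2 ^ 2) :
    z1 < 0 := by
  by_contra hz1
  push Not at hz1
  obtain ⟨q, hq⟩ : ∃ q, q = |x2| := ⟨_, rfl⟩
  obtain ⟨s, hs⟩ : ∃ s, s = |z2| := ⟨_, rfl⟩
  have hq0 : 0 ≤ q := by rw [hq]; exact abs_nonneg _
  have hs0 : 0 ≤ s := by rw [hs]; exact abs_nonneg _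
  have hq2 : q ^ 2 = x2 ^ 2 := by rw [hq]; exact sq_abs _
  have hs2 : s ^ 2 = z2 ^ 2 := by rw [hs]; exact sq_abs _
  have hqs : -(q * s) ≤ x2 * z2 := by rw [hq, hs, ← abs_mul]; exact neg_abs_le _
  have hx1 : -1 ≤ x1 := by nlinarith [sq_nonneg x2, sq_nonneg (x1 + 1)]
  have hq1 : q ≤ 1 := by nlinarith [sq_nonneg x1, sq_nonneg (q - 1)]
  have h1 : 0 ≤ (x1 + 1) * z1 := mul_nonneg (by linarith) hz1
  have h2 : 1 - 2 * q ≤ z1 ^ 2 + s ^ 2 - 2 * (q * s) := by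
    rcases le_or_gt s 1 with h | h
    · have : q * s ≤ q * 1 := mul_le_mul_of_nonneg_left h hq0
      linarith
    · have : 0 ≤ (s - 1) * (s + 1 - 2 * q) := mul_nonneg (by linarith) (by linarith)
      nlinarith [sq_nonneg z1]
  nlinarith [sq_nonneg (x1 + 1 / 2), sq_nonneg (q - 1 / 2)]

theorem low1 {n a w y : ℂ} (hn : ‖n‖ = 1) (hw : ‖w - a‖ ≤ 705 / 1000) (hy : ‖y - (a - n)‖ ≤ 705 / 1000)
    (h1 : 1 ≤ ‖y - w‖) : dt (y - w) n < 0 := by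
  obtain ⟨x, hx⟩ : ∃ x, x = w - a := ⟨_, rfl⟩
  obtain ⟨z, hz⟩ : ∃ z, z = y - w := ⟨_, rfl⟩
  have hy' : y - (a - n) = x + z + n := by rw [hx, hz]; ring
  rw [← hx] at hw
  rw [hy'] at hy
  rw [← hz] at h1 ⊢
  have e1 : dt (x + z + n) n = dt x n + dt z n + 1 := by
    have h := dt_self n
    rw [hn] at h
    have h' : dt (x + z + n) n = dt x n + dt z n + dt n n := by
      unfold dt
      simp only [Complex.add_re, Complex.add_im]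
      ring
    rw [h', h]
    ring
  have e2 : cr (x + z + n) n = cr x n + cr z n := by
    unfold cr
    simp only [Complex.add_re, Complex.add_im]
    ring
  have e3 := LOW_sq (u := x) hn
  have e4 := LOW_sq (u := z) hn
  have e5 := LOW_sq (u := x + z + n) hn
  rw [e1, e2] at e5
  have n1 : ‖x‖ ^ 2 ≤ (705 / 1000) ^ 2 := pow_le_pow_left₀ (norm_nonneg _) hw 2
  have n2 : ‖x + z + n‖ ^ 2 ≤ (705 / 1000) ^ 2 := pow_le_pow_left₀ (norm_nonneg _) hy 2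
  have n3 : 1 ≤ ‖z‖ ^ 2 := one_le_pow₀ h1
  exact LOW_real (x2 := cr x n) (z2 := cr z n) (by rw [e3]; exact n1) (by rw [e5]; exact n2)
    (by rw [e4]; exact n3)

theorem low2 {n a c w y : ℂ} (hn : ‖n‖ = 1) (hw : ‖w - a‖ ≤ 705 / 1000) (hy : ‖y - c‖ ≤ 705 / 1000)
    (hc : dt (c - a) n ≤ -(3 / 2)) : dt (y - w) n < 0 := by
  have e1 : dt (y - w) n = dt (y - c) n + dt (c - a) n + dt (a - w) n := by
    unfold dt
    simp only [Complex.sub_re, Complex.sub_im]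
    ring
  have e2 := LOW_le (u := y - c) hn
  have e3 := LOW_le (u := a - w) hn
  rw [norm_sub_rev] at e3
  rw [e1]
  linarith

end Pool.Agent.H16.AP
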