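import Pool.Agent.H16.T3.TRN

/-!
# LOWB: the apex point of the lower wedge is lower (version with radius .709)
-/

set_option autoImplicit false

open Set Real

noncomputable section

namespace Pool.Agent.H16.AP

open Pool.Agent.H20.AL Pool.Agent.H16.T3

theorem LOWB_real {p1 q1 p2 q2 : ℝ} (h1 : p1 ^ 2 + 4 / 3 * q1 ^ 2 ≤ (709 / 1000) ^ 2) (h2 : p2 ^ 2 + 4 / 3 * q2 ^ 2 ≤ (709 / 1000) ^ 2)
    (m1 : 53 / 100 ≤ -p1 / 2 + q1) (m2 : -(578 / 1000) ≤ -p2 / 2 + q2)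
    (hd : 1 ≤ (p2 - 1 - p1) ^ 2 + 4 / 3 * (q2 - q1) ^ 2) : p2 - 1 - p1 < 0 := by
  by_contra hp
  push Not at hp
  have a1 : p2 ≤ 709 / 1000 := by nlinarith [sq_nonneg q2]
  have a2 : -(709 / 1000) ≤ p1 := by nlinarith [sq_nonneg q1]
  have a3 : -p1 / 2 + q1 ≤ 709 / 1000 := by
    have : (-p1 / 2 + q1) ^ 2 ≤ (709 / 1000) ^ 2 := by nlinarith [sq_nonneg (p1 + 2 / 3 * q1)]
    nlinarith
  have a4 : q2 ≤ 615 / 1000 := by nlinarith [sq_nonneg p2]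
  obtain ⟨p, hpd⟩ : ∃ p, p = p2 - 1 - p1 := ⟨_, rfl⟩
  obtain ⟨q, hqd⟩ : ∃ q, q = q2 - q1 := ⟨_, rfl⟩
  rw [← hpd] at hd hp
  rw [← hqd] at hd
  have b1 : p ≤ 418 / 1000 := by linarith
  have b2 : q ≤ 44 / 100 := by linarith
  have b3 : -q ≤ 787 / 1000 - p / 2 := by linarith
  rcases le_total 0 q with hq | hq
  · have c1 : q ^ 2 ≤ (44 / 100) ^ 2 := pow_le_pow_left₀ hq b2 2
    have c2 : p ^ 2 ≤ (418 / 1000) ^ 2 := pow_le_pow_left₀ hp b1 2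
    norm_num at c1 c2 hd
    linarith
  · have b4 : (-q) ^ 2 ≤ (787 / 1000 - p / 2) ^ 2 := pow_le_pow_left₀ (by linarith) b3 2
    have b5 : 0 ≤ p * (418 / 1000 - p) := mul_nonneg hp (by linarith)
    have b6 : (-q) ^ 2 = q ^ 2 := by ring
    rw [b6] at b4
    have b7 : (787 / 1000 - p / 2) ^ 2 = (787 / 1000) ^ 2 - 787 / 1000 * p + p ^ 2 / 4 := by ring
    rw [b7] at b4
    have b8 : p * (418 / 1000 - p) = 418 / 1000 * p - p ^ 2 := by ring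
    rw [b8] at b5
    norm_num at b4 hd
    linarith

theorem LOWB_split {n m : ℂ} (hn : ‖n‖ = 1) (hm : ‖m‖ = 1) (hnm : dt n m = -(1 / 2)) (v : ℂ) :
    dt v m = -(dt v n) / 2 + cr n m * cr n v ∧ ‖v‖ ^ 2 = dt v n ^ 2 + 4 / 3 * (cr n m * cr n v) ^ 2 := by
  have hn2 : n.re ^ 2 + n.im ^ 2 = 1 := by rw [← nsq, hn]; norm_num
  have hc : cr n m ^ 2 = 3 / 4 := by
    have := lag n m
    rw [hnm, hn, hm] at this
    linarith
  constructor
  · have e : dt v m * (n.re ^ 2 + n.im ^ 2) = dt n m * dt v n + cr n m * cr n v := by simp [dt, cr]; ring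
    rw [hn2, hnm] at e
    linarith
  · have e : dt v n ^ 2 + cr n v ^ 2 = ‖v‖ ^ 2 * (n.re ^ 2 + n.im ^ 2) := by
      rw [nsq]; simp [dt, cr]; ring
    rw [hn2] at e
    rw [mul_pow, hc]
    linarith

/-- the apex point `y` near `a - n` is lower than `w`, a point near `a` and near `a + m` -/
theorem low3 {n m a w y : ℂ} (hn : ‖n‖ = 1) (hm : ‖m‖ = 1) (hnm : dt n m = -(1 / 2)) (hw : ‖w - a‖ ≤ 709 / 1000)
    (hwm : 53 / 100 ≤ dt (w - a) m) (hy : ‖y - (a - n)‖ ≤ 709 / 1000) (hym : -(578 / 1000) ≤ dt (y - (a - n)) m)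
    (h1 : 1 ≤ ‖y - w‖) : dt (y - w) n < 0 := by
  obtain ⟨s1, t1⟩ := LOWB_split hn hm hnm (w - a)
  obtain ⟨s2, t2⟩ := LOWB_split hn hm hnm (y - (a - n))
  obtain ⟨s3, t3⟩ := LOWB_split hn hm hnm (y - w)
  have hw2 : ‖w - a‖ ^ 2 ≤ (709 / 1000) ^ 2 := pow_le_pow_left₀ (norm_nonneg _) hw 2
  have hy2 : ‖y - (a - n)‖ ^ 2 ≤ (709 / 1000) ^ 2 := pow_le_pow_left₀ (norm_nonneg _) hy 2
  have h12 : 1 ≤ ‖y - w‖ ^ 2 := one_le_pow₀ h1
  have hnn : dt n n = 1 := by rw [dt_self, hn]; norm_num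
  have e1 : dt (y - w) n = dt (y - (a - n)) n - 1 - dt (w - a) n := by
    rw [← hnn]; simp [dt]; ring
  have e2 : cr n (y - w) = cr n (y - (a - n)) - cr n (w - a) := by simp [cr]; ring
  rw [e1]
  refine LOWB_real (q1 := cr n m * cr n (w - a)) (q2 := cr n m * cr n (y - (a - n))) (by rw [← t1]; exact hw2)
    (by rw [← t2]; exact hy2) (by linarith) (by linarith) ?_
  rw [t3, e1, e2] at h12
  have : cr n m * cr n (y - (a - n)) - cr n m * cr n (w - a) = cr n m * (cr n (y - (a - n)) - cr n (w - a)) := by ring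
  rw [this]; exact h12

theorem low4 {n a c w y : ℂ} (hn : ‖n‖ = 1) (hw : ‖w - a‖ ≤ 709 / 1000) (hy : ‖y - c‖ ≤ 709 / 1000)
    (hc : dt (c - a) n ≤ -(3 / 2)) : dt (y - w) n < 0 := by
  have le : ∀ u : ℂ, dt u n ≤ ‖u‖ := by
    intro u
    have h := lag u n
    rw [hn] at h
    have h0 := norm_nonneg u
    nlinarith [sq_nonneg (cr u n)]
  have e1 : dt (y - w) n = dt (y - c) n + dt (c - a) n + dt (a - w) n := by simp [dt]; ring
  have e2 := le (y - c)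
  have e3 := le (a - w)
  rw [norm_sub_rev] at e3
  rw [e1]
  linarith

end Pool.Agent.H16.AP
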