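import Pool.Agent.H16.AP.CNY

/-!
# NC: a good triangle without common vertex is disjoint from the quadrilateral
-/

set_option autoImplicit false

open Set Real

noncomputable section

namespace Pool.Agent.H16.AP

open Pool.Agent.H20.AL Pool.Agent.H63.P6 Pool.Agent.H16.T3 Pool.Agent.H78.P6

variable {X : Set ℂ} {k : Fin 3} {a y : ℂ}

theorem QC_mem {p a b c : ℂ} (h : QC p a b c) : p ∈ Qd p a b c ∧ a ∈ Qd p a b c ∧ b ∈ Qd p a b c ∧ c ∈ Qd p a b c := by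
  obtain ⟨h1, h2, h3, h4⟩ := h
  refine ⟨⟨?_, ?_, ?_, ?_⟩, ⟨?_, ?_, ?_, ?_⟩, ⟨?_, ?_, ?_, ?_⟩, ⟨?_, ?_, ?_, ?_⟩⟩
  all_goals simp only [cr, Complex.sub_re, Complex.sub_im] at h1 h2 h3 h4 ⊢
  all_goals linarith

theorem Qd_convex {p a b c z w : ℂ} (hz : z ∈ Qd p a b c) (hw : w ∈ Qd p a b c) {σ : ℝ} (h0 : 0 ≤ σ) (h1 : σ ≤ 1) :
    z + (σ : ℂ) * (w - z) ∈ Qd p a b c := by
  have key : ∀ e v : ℂ, 0 ≤ cr e (z - v) → 0 ≤ cr e (w - v) → 0 ≤ cr e (z + (σ : ℂ) * (w - z) - v) := by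
    intro e v hp hq
    rw [cr_line]
    have h2 : 0 ≤ (1 - σ) * cr e (z - v) := mul_nonneg (by linarith) hp
    have h3 : 0 ≤ σ * cr e (w - v) := mul_nonneg h0 hq
    linarith
  exact ⟨key _ _ hz.1 hw.1, key _ _ hz.2.1 hw.2.1, key _ _ hz.2.2.1 hw.2.2.1, key _ _ hz.2.2.2 hw.2.2.2⟩

/-- no crossing of an edge `[z, w]` of the region `A` with both base edges -/
theorem no_base {z w y g1 g2 g3 : ℂ} (hq : QC y g1 g2 g3) {A B1 B2 : Set ℂ} (hA : LL A z w) (hB1 : LL B1 g2 g1) (hB2 : LL B2 g3 g2)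
    (d1 : Disjoint A B1) (d2 : Disjoint A B2) (hz : z ∉ Qd y g1 g2 g3) (hw : w ∉ Qd y g1 g2 g3)
    (n1 : ∀ s : ℝ, 0 ≤ s → s ≤ 1 → z + (s : ℂ) * (w - z) ≠ g1)
    (n2 : ∀ s : ℝ, 0 ≤ s → s ≤ 1 → z + (s : ℂ) * (w - z) ≠ g2)
    (n3 : ∀ s : ℝ, 0 ≤ s → s ≤ 1 → z + (s : ℂ) * (w - z) ≠ g3) :
    (∀ s σ : ℝ, 0 ≤ s → s ≤ 1 → 0 ≤ σ → σ ≤ 1 → z + (s : ℂ) * (w - z) ≠ g1 + (σ : ℂ) * (g2 - g1)) ∧
    (∀ s σ : ℝ, 0 ≤ s → s ≤ 1 → 0 ≤ σ → σ ≤ 1 → z + (s : ℂ) * (w - z) ≠ g2 + (σ : ℂ) * (g3 - g2)) := by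
  obtain ⟨q0, q1, q2, q3⟩ := QC_mem hq
  constructor
  · refine nm (a := g1) (b := g2) d1 hA hB1 (fun s s0 s1 => ⟨n1 s s0 s1, n2 s s0 s1⟩) ?_
    intro σ s0 s1
    have := Qd_convex q1 q2 s0 s1
    exact ⟨fun e => hz (e ▸ this), fun e => hw (e ▸ this)⟩
  · refine nm (a := g2) (b := g3) d2 hA hB2 (fun s s0 s1 => ⟨n2 s s0 s1, n3 s s0 s1⟩) ?_
    intro σ s0 s1
    have := Qd_convex q2 q3 s0 s1
    exact ⟨fun e => hz (e ▸ this), fun e => hw (e ▸ this)⟩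

theorem fq_nc (hX : Sep X) (h : QF X k a y) {v : Fin 3 → ℂ} (hv : ∀ i, v i ∈ X) (hg : Good v)
    (hn : ∀ i, v i ≠ y ∧ v i ≠ g1 X k a ∧ v i ≠ g2 X k a ∧ v i ≠ g3 X k a) {B1 B2 : Set ℂ}
    (hB1 : LL B1 (g2 X k a) (g1 X k a)) (hB2 : LL B2 (g3 X k a) (g2 X k a)) (d1 : Disjoint (T3 v) B1)
    (d2 : Disjoint (T3 v) B2) (hcr : ∀ i, ¬ Cross2 y (g1 X k a) (g3 X k a) (v i) (v (i + 1))) :
    Disjoint (T3 v) (Qo y (g1 X k a) (g2 X k a) (g3 X k a)) := by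
  rw [Set.disjoint_left]
  intro u hu hq
  have gX1 : g1 X k a ∈ X := h.m1.1
  have gX2 : g2 X k a ∈ X := h.m2.1
  have gX3 : g3 X k a ∈ X := h.m3.1
  have o1 : g1 X k a ∉ C3 v := NOV_out hg fun i => hX _ gX1 _ (hv i) (hn i).2.1.symm
  have o2 : g2 X k a ∉ C3 v := NOV_out hg fun i => hX _ gX2 _ (hv i) (hn i).2.2.1.symm
  have o3 : g3 X k a ∉ C3 v := NOV_out hg fun i => hX _ gX3 _ (hv i) (hn i).2.2.2.symm
  obtain ⟨i, τ, s, τ0, τ1, s0, s1, -, he⟩ := NOV_exit v hg.1 (T3_sub_C3 v hu) o1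
  obtain ⟨q0, q1, q2, q3⟩ := QC_mem h.qc
  have hedge : ∀ σ : ℝ, 0 ≤ σ → σ ≤ 1 → v i + (σ : ℂ) * (v (i + 1) - v i) ∈ C3 v := fun σ a0 a1 => NOV_edge v hg.1 i a0 a1
  -- the exit point is in the quadrilateral
  have hτ : τ < 1 := by
    rcases τ1.eq_or_lt with hh | hh
    · exfalso
      apply o1
      have : g1 X k a = v i + (s : ℂ) * (v (i + 1) - v i) := by
        rw [← he, hh]; push_cast; ring
      rw [this]; exact hedge s s0 s1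
    · exact hh
  have hm := Qo_inner hq q1 τ0 hτ
  rw [he] at hm
  have zo : v i ∉ Qd y (g1 X k a) (g2 X k a) (g3 X k a) := h.nin _ (hv i) (hn i).1 (hn i).2.1 (hn i).2.2.1 (hn i).2.2.2
  have wo : v (i + 1) ∉ Qd y (g1 X k a) (g2 X k a) (g3 X k a) :=
    h.nin _ (hv (i + 1)) (hn (i + 1)).1 (hn (i + 1)).2.1 (hn (i + 1)).2.2.1 (hn (i + 1)).2.2.2
  obtain ⟨b1, b2⟩ := no_base h.qc (A := T3 v) (LL_tri hg.1 i) hB1 hB2 d1 d2 zo wo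
    (fun s s0 s1 e => o1 (e ▸ hedge s s0 s1)) (fun s s0 s1 e => o2 (e ▸ hedge s s0 s1))
    (fun s s0 s1 e => o3 (e ▸ hedge s s0 s1))
  exact hcr i (cross_legs h.qc s0 s1 (Qo_sub_Qd _ _ _ _ hm) zo wo b1 b2)

end Pool.Agent.H16.AP
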