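import Pool.Agent.H16.AP.VCL

/-!
# NCD: classes N (near leg) and S (hit by the opposite frame), from certificates
-/

set_option autoImplicit false

open Set Real Finset MeasureTheory

noncomputable section

namespace Pool.Agent.H16.AP

open Pool.Agent.H20.AL Pool.Agent.H63.P6 Pool.Agent.H16.T3 Pool.Agent.H78.P6 Pool.Agent.H20.AP

open Pool.Agent.H30.P6 (V30 V30_self V30_nonneg V30_le_iff)
open Pool.Agent.H30.Q (pB)

/-- hypotheses common to the certificates -/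
structure Fr (v1 v2 v3 : ℂ) : Prop where
  V1 : V30 v1 ≤ 1 / 3
  V2 : V30 v2 ≤ 1 / 3
  V3 : V30 v3 ≤ 1 / 3
  Ph : Phi V30 (4 / 25) v1 v2 v3 ≤ 1 / 3
  e12 : 1 ≤ ‖(d2 + v2) - (d1 + v1)‖
  e12' : ‖(d2 + v2) - (d1 + v1)‖ ≤ 147 / 100
  e23 : 1 ≤ ‖(d3 + v3) - (d2 + v2)‖
  e23' : ‖(d3 + v3) - (d2 + v2)‖ ≤ 147 / 100

/-- facts about the near class with the shifted apex `P` -/
structure NF (v1 v2 v3 P : ℂ) : Prop where
  f : 9 / 200 ≤ fanw (d1 + v1 - P) (d2 + v2 - P) (d3 + v3 - P) + Phi V30 (4 / 25) v1 v2 v3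
  ang : dt (d1 + v1 - P) (d3 + v3 - P) ≤ -(612 / 1000) * (‖d1 + v1 - P‖ * ‖d3 + v3 - P‖)
  n1 : 29 / 50 ≤ ‖d1 + v1 - P‖
  n3 : 29 / 50 ≤ ‖d3 + v3 - P‖
  c12 : 1 / 2 * ‖d1 + v1 - P‖ ≤ cr (d1 + v1 - P) (d2 + v2 - P)
  c23 : 1 / 2 * ‖d3 + v3 - P‖ ≤ cr (d2 + v2 - P) (d3 + v3 - P)

/-- certificates without a hitting point -/
structure NearCert : Prop where
  G1r : ∀ v1 v2 v3 : ℂ, Fr v1 v2 v3 → 29 / 50 * ‖d1 + v1‖ ≤ cr (d1 + v1) (d2 + v2)
  G3r : ∀ v1 v2 v3 : ℂ, Fr v1 v2 v3 → 29 / 50 * ‖d3 + v3‖ ≤ cr (d2 + v2) (d3 + v3)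
  S1 : ∀ v1 v2 v3 : ℂ, Fr v1 v2 v3 →
    -(11 / 200) ≤ fanw (d1 + v1 - pB) (d2 + v2 - pB) (d3 + v3 - pB) + Phi V30 (4 / 25) v1 v2 v3
  S2 : ∀ v1 v2 v3 : ℂ, Fr v1 v2 v3 →
    dt (d1 + v1 - pB) (d3 + v3 - pB) ≤ -(44 / 100) * (‖d1 + v1 - pB‖ * ‖d3 + v3 - pB‖)
  N1 : ∀ v1 v2 v3 : ℂ, Fr v1 v2 v3 → ‖d1 + v1‖ ≤ 59 / 100 → NF v1 v2 v3 ((1 / 16 : ℂ) * (d3 + v3))
  N3 : ∀ v1 v2 v3 : ℂ, Fr v1 v2 v3 → ‖d3 + v3‖ ≤ 59 / 100 → NF v1 v2 v3 ((1 / 16 : ℂ) * (d1 + v1))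
  L3 : ∀ v1 v2 v3 : ℂ, Fr v1 v2 v3 → ‖d1 + v1‖ ≤ 59 / 100 → 4 / 5 ≤ ‖d3 + v3‖
  L1 : ∀ v1 v2 v3 : ℂ, Fr v1 v2 v3 → ‖d3 + v3‖ ≤ 59 / 100 → 4 / 5 ≤ ‖d1 + v1‖

variable {X : Set ℂ} {k : Fin 3} {a z p : ℂ} {M : ℤ}

theorem fr_of (hX : Sep X) (h : ApexData V30 (4 / 25) (147 / 100) X k a M) (hR : Rest X k a M ≤ 1 / 3) :
    Fr (w1 X k a) (w2 X k a) (w3 X k a) := by
  obtain ⟨v1, v2, v3⟩ := v_le h
  obtain ⟨⟨e1, e2⟩, e3, e4⟩ := loc_e12 hX h
  exact ⟨v1, v2, v3, (phi_le h).trans hR, e1, e2, e3, e4⟩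

theorem cos_gen {c q : ℝ} (hq0 : 0 ≤ q) (hc : 2 * q * (31416 / 10000) -
    (2 * q * (31416 / 10000)) ^ 3 / 6 + (2 * q * (31416 / 10000)) ^ 5 / 100 ≤ c) (hx : 2 * q * (31416 / 10000) ≤ 1) :
    -c ≤ Real.cos (2 * π * (1 / 4 + q)) := by
  have e : 2 * π * (1 / 4 + q) = 2 * π * q + π / 2 := by ring
  rw [e, Real.cos_add_pi_div_two]
  have hp : π < 3.1416 := Real.pi_lt_d4
  have hp0 : 0 < π := Real.pi_pos
  have hp1 : 3.14 < π := Real.pi_gt_d2
  set x := 2 * q * (31416 / 10000) with hxd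
  have hx0 : 0 ≤ x := by positivity
  have h1 : Real.sin (2 * π * q) ≤ Real.sin x := by
    apply Real.sin_le_sin_of_le_of_le_pi_div_two
    · have := mul_nonneg hp0.le hq0
      linarith
    · linarith
    · rw [hxd]
      have := mul_le_mul_of_nonneg_right hp.le hq0
      norm_num at this ⊢
      linarith
  have h3 := Real.sin_bound (x := x) (by rw [abs_of_nonneg hx0]; exact hx)
  rw [abs_le, abs_of_nonneg hx0] at h3
  have h4 := h3.2
  linarith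

theorem cosN : -(612 / 1000) ≤ Real.cos (2 * π * (3547 / 10000)) := by
  have := cos_gen (c := 612 / 1000) (q := 1047 / 10000) (by norm_num) (by norm_num) (by norm_num)
  rwa [show (1 / 4 + 1047 / 10000 : ℝ) = 3547 / 10000 by norm_num] at this

theorem cosS : -(44 / 100) ≤ Real.cos (2 * π * (3224 / 10000)) := by
  have := cos_gen (c := 44 / 100) (q := 724 / 10000) (by norm_num) (by norm_num) (by norm_num)
  rwa [show (1 / 4 + 724 / 10000 : ℝ) = 3224 / 10000 by norm_num] at this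

theorem inv3_lt : 1 / √3 ≤ 578 / 1000 := inv_sq3

theorem inv3_50 : 1 / √3 ≤ 29 / 50 := inv_sq3.trans (by norm_num)

/-- class N -/
theorem classN (hX : Sep X) (h : ApexData V30 (4 / 25) (147 / 100) X k a M)
    (hno : ∀ z, ¬ Hit X k a z) {P : ℂ} (hp : p ∈ Qd a (g1 X k a) (g2 X k a) (g3 X k a)) (hP : rho k * (p - a) = P)
    (hN : NF (w1 X k a) (w2 X k a) (w3 X k a) P)
    (h13 : 0 < cr (g1 X k a - p) (g3 X k a - p)) :
    ∃ (P : Set ℂ) (C : Finset (ℂ × ℂ × ℂ)) (w : ℝ), Piece X P C ∧ P ⊆ Qo a (g1 X k a) (g2 X k a) (g3 X k a) ∧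
      √3 / 2 * w ≤ val P C ∧ 3997 / 10000 ≤ w + Rest X k a M := by
  have q1 : rho k * (g1 X k a - p) = d1 + w1 X k a - P := by
    rw [← r1, ← hP]; ring
  have q2 : rho k * (g2 X k a - p) = d2 + w2 X k a - P := by
    rw [← r2, ← hP]; ring
  have q3 : rho k * (g3 X k a - p) = d3 + w3 X k a - P := by
    rw [← r3, ← hP]; ring
  have n1 : 29 / 50 ≤ ‖g1 X k a - p‖ := by rw [← nrm_rho k, q1]; exact hN.n1
  have n3 : 29 / 50 ≤ ‖g3 X k a - p‖ := by rw [← nrm_rho k, q3]; exact hN.n3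
  have c12 : 1 / 2 * ‖g1 X k a - p‖ ≤ cr (g1 X k a - p) (g2 X k a - p) := by
    rw [← nrm_rho k, ← cr_rho k, q1, q2]; exact hN.c12
  have c23 : 1 / 2 * ‖g3 X k a - p‖ ≤ cr (g2 X k a - p) (g3 X k a - p) := by
    rw [← nrm_rho k, ← cr_rho k, q2, q3]; exact hN.c23
  have ha : dt (g1 X k a - p) (g3 X k a - p) ≤ -(612 / 1000) * (‖g1 X k a - p‖ * ‖g3 X k a - p‖) := by
    rw [← nrm_rho k, ← nrm_rho k (g3 X k a - p), ← dt_rho k, q1, q3]; exact hN.ang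
  have hf : 9 / 200 ≤ fanY X k a p + Phi V30 (4 / 25) (w1 X k a) (w2 X k a) (w3 X k a) := by
    have := hN.f
    rw [← q1, ← q2, ← q3] at this
    unfold fanY
    unfold fanw at this ⊢
    rwa [cr_rho, cr_rho] at this
  have hQ : QC p (g1 X k a) (g2 X k a) (g3 X k a) := ⟨by linarith, (qc_v h).abc, by linarith, h13⟩
  have i3 := inv3_50
  have hprod : 0 ≤ ‖g1 X k a - p‖ * ‖g3 X k a - p‖ := by positivity
  obtain ⟨P', C, t1, t2, t3⟩ := in_piece hX h hp hQ (by linarith) (by linarith) c12 c23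
    (ha.trans (by nlinarith)) fun z hz => absurd hz (hno z)
  have hang := ag_sum (t := 2 * π * (3547 / 10000)) hQ.pab hQ.bcp (by
    have := Real.pi_pos
    linarith) (by
      refine ha.trans ?_
      exact mul_le_mul_of_nonneg_right cosN (by positivity))
  have h1 : 3547 / 10000 ≤ (Ag p (g1 X k a) (g2 X k a) + Ag p (g2 X k a) (g3 X k a)) / (2 * π) := by
    rw [le_div_iff₀ (by positivity)]
    linarith
  have hphi := phi_le h
  exact ⟨P', C, _, t1, t2, t3, by linarith⟩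

/-- class N, near leg 1 -/
theorem classN1 (hc : NearCert) (hX : Sep X) (h : ApexData V30 (4 / 25) (147 / 100) X k a M) (hR : Rest X k a M ≤ 1 / 3)
    (hno : ∀ z, ¬ Hit X k a z) (hn : ‖g1 X k a - a‖ ≤ 59 / 100) :
    ∃ (P : Set ℂ) (C : Finset (ℂ × ℂ × ℂ)) (w : ℝ), Piece X P C ∧ P ⊆ Qo a (g1 X k a) (g2 X k a) (g3 X k a) ∧
      √3 / 2 * w ≤ val P C ∧ 3997 / 10000 ≤ w + Rest X k a M := by
  have hF := fr_of hX h hR
  have hn' : ‖d1 + w1 X k a‖ ≤ 59 / 100 := by rw [← r1, nrm_rho]; exact hn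
  have hA := qc_v h
  have e : a + ((1 / 16 : ℝ) : ℂ) * (g3 X k a - a) ∈ Qd a (g1 X k a) (g2 X k a) (g3 X k a) :=
    qd_seg (a_mem h) (qd_d hA) (by norm_num) (by norm_num)
  refine classN hX h hno e (P := (1 / 16 : ℂ) * (d3 + w3 X k a)) ?_ (hc.N1 _ _ _ hF hn') ?_
  · rw [← r3]; push_cast; ring
  · have e2 : cr (g1 X k a - (a + ((1 / 16 : ℝ) : ℂ) * (g3 X k a - a))) (g3 X k a - (a + ((1 / 16 : ℝ) : ℂ) * (g3 X k a - a)))
        = 15 / 16 * cr (g1 X k a - a) (g3 X k a - a) := by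
      simp [cr]; ring
    rw [e2]
    have := hA.cpa
    positivity

/-- class N, near leg 3 -/
theorem classN3 (hc : NearCert) (hX : Sep X) (h : ApexData V30 (4 / 25) (147 / 100) X k a M) (hR : Rest X k a M ≤ 1 / 3)
    (hno : ∀ z, ¬ Hit X k a z) (hn : ‖g3 X k a - a‖ ≤ 59 / 100) :
    ∃ (P : Set ℂ) (C : Finset (ℂ × ℂ × ℂ)) (w : ℝ), Piece X P C ∧ P ⊆ Qo a (g1 X k a) (g2 X k a) (g3 X k a) ∧
      √3 / 2 * w ≤ val P C ∧ 3997 / 10000 ≤ w + Rest X k a M := by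
  have hF := fr_of hX h hR
  have hn' : ‖d3 + w3 X k a‖ ≤ 59 / 100 := by rw [← r3, nrm_rho]; exact hn
  have hA := qc_v h
  have e : a + ((1 / 16 : ℝ) : ℂ) * (g1 X k a - a) ∈ Qd a (g1 X k a) (g2 X k a) (g3 X k a) :=
    qd_seg (a_mem h) (qd_b hA) (by norm_num) (by norm_num)
  refine classN hX h hno e (P := (1 / 16 : ℂ) * (d1 + w1 X k a)) ?_ (hc.N3 _ _ _ hF hn') ?_
  · rw [← r1]; push_cast; ring
  · have e2 : cr (g1 X k a - (a + ((1 / 16 : ℝ) : ℂ) * (g1 X k a - a))) (g3 X k a - (a + ((1 / 16 : ℝ) : ℂ) * (g1 X k a - a)))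
        = 15 / 16 * cr (g1 X k a - a) (g3 X k a - a) := by
      simp [cr]; ring
    rw [e2]
    have := hA.cpa
    positivity

/-- facts about the shifted apex that need no certificate of the hitting point -/
theorem pv_facts (hX : Sep X) (h : ApexData V30 (4 / 25) (147 / 100) X k a M) :
    1 / 2 * ‖g1 X k a - pv k a‖ ≤ cr (g1 X k a - pv k a) (g2 X k a - pv k a) ∧
      1 / 2 * ‖g3 X k a - pv k a‖ ≤ cr (g2 X k a - pv k a) (g3 X k a - pv k a) ∧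
      pv k a ∈ Qd a (g1 X k a) (g2 X k a) (g3 X k a) ∧ 0 < cr (g1 X k a - pv k a) (g3 X k a - pv k a) ∧
      (1 / 20 ≤ (rho k * (g1 X k a - a)).im ∧ 1 / 20 ≤ (rho k * (g2 X k a - a)).im ∧
        1 / 20 ≤ (rho k * (g3 X k a - a)).im) := by
  obtain ⟨v1, v2, v3⟩ := v_le h
  obtain ⟨⟨e1, e2⟩, e3, e4⟩ := loc_e12 hX h
  have c12 : 1 / 2 * ‖g1 X k a - pv k a‖ ≤ cr (g1 X k a - pv k a) (g2 X k a - pv k a) := by
    have := Pool.Agent.H30.Q.g1_p v1 v2 e1 e2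
    rwa [← rp1, ← rp2, cr_rho, nrm_rho] at this
  have c23 : 1 / 2 * ‖g3 X k a - pv k a‖ ≤ cr (g2 X k a - pv k a) (g3 X k a - pv k a) := by
    have := Pool.Agent.H30.Q.g3_p v2 v3 e3 e4
    rwa [← rp2, ← rp3, cr_rho, nrm_rho] at this
  obtain ⟨b1, -, b1'⟩ := v_box v1
  obtain ⟨b2, -, b2'⟩ := v_box v2
  obtain ⟨b3, -, b3'⟩ := v_box v3
  obtain ⟨b4, b5⟩ := abs_le.1 b1
  obtain ⟨b6, b7⟩ := abs_le.1 b3
  have h3 := s3v
  have n1 : 0 ≤ ‖g1 X k a - pv k a‖ := norm_nonneg _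
  have n3 : 0 ≤ ‖g3 X k a - pv k a‖ := norm_nonneg _
  have epv : rho k * (pv k a - a) = pB := by
    have := rho_pv k a a
    have e : rho k * (pv k a - a) = -(rho k * (a - pv k a)) := by ring
    rw [e, this]; simp
  refine ⟨c12, c23, ⟨?_, ?_, ?_, ?_⟩, ?_, ?_, ?_, ?_⟩
  · rw [← cr_rho k, r1, epv]
    simp only [cr, d1, pB, Complex.add_re, Complex.add_im]
    nlinarith
  · have e : cr (g2 X k a - g1 X k a) (pv k a - g1 X k a) = cr (g1 X k a - pv k a) (g2 X k a - pv k a) := by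
      simp [cr]; ring
    rw [e]; linarith
  · have e : cr (g3 X k a - g2 X k a) (pv k a - g2 X k a) = cr (g2 X k a - pv k a) (g3 X k a - pv k a) := by
      simp [cr]; ring
    rw [e]; linarith
  · have e : cr (a - g3 X k a) (pv k a - g3 X k a) = -cr (g3 X k a - a) (pv k a - a) := by
      simp [cr]; ring
    rw [e, ← cr_rho k, r3, epv]
    simp only [cr, d3, pB, Complex.add_re, Complex.add_im]
    nlinarith
  · rw [← cr_rho k, rp1, rp3]
    simp only [cr, d1, d3, pB, Complex.add_re, Complex.add_im, Complex.sub_re, Complex.sub_im]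
    have k1 : 0 < √3 / 2 + (w1 X k a).re - 0 := by linarith
    have k2 : 0 < 1 / 2 + (w3 X k a).im - 1 / 20 := by linarith
    have k3 : 0 < 1 / 2 + (w1 X k a).im - 1 / 20 := by linarith
    have k4 : -(√3 / 2) + (w3 X k a).re - 0 < 0 := by linarith
    have := mul_pos k1 k2
    have := mul_pos k3 (neg_pos.2 k4)
    linarith
  · rw [r1, Complex.add_im]; simp only [d1]; linarith
  · rw [r2, Complex.add_im]; simp only [d2]; linarith
  · rw [r3, Complex.add_im]; simp only [d3]; linarith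

/-- class S: the only hit is low -/
theorem classS (hc : NearCert) (hX : Sep X) (h : ApexData V30 (4 / 25) (147 / 100) X k a M) (hR : Rest X k a M ≤ 1 / 3)
    (hlow : ∀ z, Hit X k a z → (rho k * (z - a)).im ≤ -(11 / 20))
    (h1 : 1 / √3 ≤ ‖g1 X k a - pv k a‖) (h3 : 1 / √3 ≤ ‖g3 X k a - pv k a‖) :
    ∃ (P : Set ℂ) (C : Finset (ℂ × ℂ × ℂ)) (w : ℝ), Piece X P C ∧ P ⊆ Qo a (g1 X k a) (g2 X k a) (g3 X k a) ∧
      √3 / 2 * w ≤ val P C ∧ 2674 / 10000 ≤ w + Rest X k a M := by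
  have hF := fr_of hX h hR
  obtain ⟨c12, c23, hp, h13, i1, i2, i3⟩ := pv_facts hX h
  have hQ : QC (pv k a) (g1 X k a) (g2 X k a) (g3 X k a) := by
    have n1 : 0 < 1 / √3 := by positivity
    exact ⟨by linarith, (qc_v h).abc, by linarith, h13⟩
  have ha : dt (g1 X k a - pv k a) (g3 X k a - pv k a) ≤ -(44 / 100) * (‖g1 X k a - pv k a‖ * ‖g3 X k a - pv k a‖) := by
    rw [← nrm_rho k, ← nrm_rho k (g3 X k a - pv k a), ← dt_rho k, rp1, rp3]; exact hc.S2 _ _ _ hF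
  have hf : -(11 / 200) ≤ fanY X k a (pv k a) + Phi V30 (4 / 25) (w1 X k a) (w2 X k a) (w3 X k a) := by
    have := hc.S1 _ _ _ hF
    rw [← rp1, ← rp2, ← rp3] at this
    unfold fanY
    unfold fanw at this ⊢
    rwa [cr_rho, cr_rho] at this
  have hprod : 0 ≤ ‖g1 X k a - pv k a‖ * ‖g3 X k a - pv k a‖ := by positivity
  have i0 : (rho k * (pv k a - a)).im = 1 / 20 := by
    have e : rho k * (pv k a - a) = -(rho k * (a - pv k a)) := by ring
    rw [e, rho_pv]; simp [pB]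
  -- distance from points with ordinate at least `1/20`
  have hdist : ∀ z q : ℂ, (rho k * (z - a)).im ≤ -(11 / 20) → 1 / 20 ≤ (rho k * (q - a)).im → 1 / √3 ≤ ‖q - z‖ := by
    intro z q hz hq
    have e1 : |(rho k * (q - z)).im| ≤ ‖rho k * (q - z)‖ := Complex.abs_im_le_norm _
    rw [nrm_rho] at e1
    have e2 : (rho k * (q - z)).im = (rho k * (q - a)).im - (rho k * (z - a)).im := by
      rw [← Complex.sub_im]; congr 1; ring
    have e3 := (abs_le.1 e1).2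
    have := inv3_lt
    linarith
  have him : ∀ (u v : ℂ) (t : ℝ), (rho k * (u + (t : ℂ) * (v - u) - a)).im =
      (1 - t) * (rho k * (u - a)).im + t * (rho k * (v - a)).im := by
    intro u v t
    have : rho k * (u + (t : ℂ) * (v - u) - a) = ((1 - t : ℝ) : ℂ) * (rho k * (u - a)) + (t : ℂ) * (rho k * (v - a)) := by
      push_cast; ring
    rw [this, Complex.add_im, Complex.im_ofReal_mul, Complex.im_ofReal_mul]
  obtain ⟨P', C, t1, t2, t3⟩ := in_piece hX h hp hQ h1 h3 c12 c23 (ha.trans (by nlinarith)) fun z hz => by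
    have hl := hlow z hz
    refine ⟨?_, ?_, ?_⟩
    · refine nocap_miss (by rw [norm_sub_rev]; exact h1) fun t h0 h1' => ?_
      refine hdist z _ hl ?_
      rw [him, i0]
      nlinarith
    · refine nocap_miss (by rw [norm_sub_rev]; exact h3) fun t h0 h1' => ?_
      refine hdist z _ hl ?_
      rw [him, i0]
      nlinarith
    · intro q hq
      rw [dist_comm, dist_eq_norm]
      refine hdist z _ hl ?_
      rw [rho_im]
      rw [rho_im] at i0 i1 i2 i3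
      have := Qd_level hQ (Qo_sub_Qd _ _ _ _ hq) (n := E (kk k + 1)) (l := dt a (E (kk k + 1)) + 1 / 20)
        (by rw [dt_sub_l] at i0; linarith) (by rw [dt_sub_l] at i1; linarith) (by rw [dt_sub_l] at i2; linarith)
        (by rw [dt_sub_l] at i3; linarith)
      rw [dt_sub_l]; linarith
  have hang := ag_sum (t := 2 * π * (3224 / 10000)) hQ.pab hQ.bcp (by
    have := Real.pi_pos
    linarith) (by
      refine ha.trans ?_
      exact mul_le_mul_of_nonneg_right cosS (by positivity))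
  have h1' : 3224 / 10000 ≤ (Ag (pv k a) (g1 X k a) (g2 X k a) + Ag (pv k a) (g2 X k a) (g3 X k a)) / (2 * π) := by
    rw [le_div_iff₀ (by positivity)]
    linarith
  have hphi := phi_le h
  exact ⟨P', C, _, t1, t2, t3, by linarith⟩

end Pool.Agent.H16.AP
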