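import Pool.Agent.H16.AP.VIS
import Pool.Agent.H30.P6.BNear

/-!
# NCI: the certificates of helper30 give `NearCert`
-/

set_option autoImplicit false

noncomputable section

namespace Pool.Agent.H16.AP

open Pool.Agent.H20.AL Pool.Agent.H63.P6 Pool.Agent.H30.P6 Pool.Agent.H30.Q

theorem fan0_of {v1 v2 v3 : ℂ} (H : Fr v1 v2 v3) : Fan0 v1 v2 v3 :=
  ⟨H.V1, H.V2, H.V3, H.Ph, H.e12, H.e12', H.e23, H.e23'⟩

theorem n16 (w : ℂ) : ‖w - (1 / 16 : ℂ) * w‖ = 15 / 16 * ‖w‖ := by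
  have e : w - (1 / 16 : ℂ) * w = ((15 / 16 : ℝ) : ℂ) * w := by push_cast; ring
  rw [e, norm_mul, Complex.norm_real, Real.norm_of_nonneg (by norm_num)]

theorem nearCert : NearCert where
  G1r := fun _ _ _ H => (fan0_of H).G1r
  G3r := fun _ _ _ H => (fan0_of H).G3r
  S1 := fun _ _ _ H => (fan0_of H).S1
  S2 := fun _ _ _ H => (fan0_of H).S2'
  N1 := fun _ _ _ H n =>
    ⟨(fan0_of H).N1 n, (fan0_of H).N2' n, (fan0_of H).N3 n, by
      rw [n16]; have := (fan0_of H).N5 n; linarith, (fan0_of H).N4a n, (fan0_of H).N4b⟩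
  N3 := fun _ _ _ H n =>
    ⟨(fan0_of H).N1m n, (fan0_of H).N2m' n, by
      rw [n16]; have := (fan0_of H).N5m n; linarith, (fan0_of H).N3m n, (fan0_of H).N4bm, (fan0_of H).N4am n⟩
  L3 := fun _ _ _ H n => (fan0_of H).N5 n
  L1 := fun _ _ _ H n => (fan0_of H).N5m n

/-- `VirtSpec` from the elementary facts of helper63 and `HitSpec` -/
theorem virt30 (ho : OppCert) (hH : HitSpec V30 (4 / 25) (147 / 100)) : VirtSpec V30 (4 / 25) (147 / 100) :=
  virt_of nearCert ho hH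

end Pool.Agent.H16.AP
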