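import Pool.Agent.H16.AP.NCI

/-!
# OPC: elementary facts about the frames of a neighbouring wedge
-/

set_option autoImplicit false

open Set Real Finset MeasureTheory

noncomputable section

namespace Pool.Agent.H16.AP

open Pool.Agent.H20.AL Pool.Agent.H63.P6 Pool.Agent.H16.T3 Pool.Agent.H78.P6 Pool.Agent.H20.AP

open Pool.Agent.H30.P6 (V30 V30_self V30_nonneg V30_le_iff VLe)
open Pool.Agent.H30.Q (pB)

theorem om4_eq : om ^ 4 = ⟨-(1 / 2), -(√3 / 2)⟩ := by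
  have h2 : om ^ 2 = ⟨-(1 / 2), √3 / 2⟩ := by
    rw [om_sq]
    apply Complex.ext
    · simp [om]; norm_num
    · simp [om]
  have : om ^ 4 = om ^ 2 * om ^ 2 := by ring
  have s3 : √3 * √3 = 3 := Real.mul_self_sqrt (by norm_num)
  rw [this, h2]
  apply Complex.ext
  · simp only [Complex.mul_re]; nlinarith
  · simp only [Complex.mul_im]; ring

theorem om2_eq : om ^ 2 = ⟨-(1 / 2), √3 / 2⟩ := by
  rw [om_sq]
  apply Complex.ext
  · simp [om]; norm_num
  · simp [om]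

theorem s33 : √3 * √3 = 3 := Real.mul_self_sqrt (by norm_num)

/-- coordinates of the third frame of `k + 1` -/
theorem co3 (z : ℂ) : 2 * (om ^ 4 * z - d3).re / √3 = -(z.re / √3) + z.im + 1 ∧
    2 * (om ^ 4 * z - d3).im = -z.im - 3 * (z.re / √3) - 1 := by
  have hp : (0:ℝ) < √3 := sq3_pos
  have h3 := s33
  rw [om4_eq]
  constructor
  · simp only [Complex.sub_re, Complex.mul_re, d3]
    field_simp
    ring
  · simp only [Complex.sub_im, Complex.mul_im, d3]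
    have : 3 * (z.re / √3) = √3 * z.re := by
      rw [mul_div_assoc', div_eq_iff hp.ne']; linear_combination (-z.re) * h3
    rw [this]; ring

/-- coordinates of the first frame of `k + 2` -/
theorem co1 (z : ℂ) : 2 * (om ^ 2 * z - d1).re / √3 = -(z.re / √3) - z.im - 1 ∧
    2 * (om ^ 2 * z - d1).im = -z.im + 3 * (z.re / √3) - 1 := by
  have hp : (0:ℝ) < √3 := sq3_pos
  have h3 := s33
  rw [om2_eq]
  constructor
  · simp only [Complex.sub_re, Complex.mul_re, d1]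
    field_simp
    try ring
  · simp only [Complex.sub_im, Complex.mul_im, d1]
    have : 3 * (z.re / √3) = √3 * z.re := by
      rw [mul_div_assoc', div_eq_iff hp.ne']; linear_combination (-z.re) * h3
    rw [this]; ring

/-- coordinates of the middle frame of `k + 1` -/
theorem co2 (z : ℂ) : 2 * (om ^ 4 * z - d2).re / √3 = -(z.re / √3) + z.im ∧
    2 * (om ^ 4 * z - d2).im = -z.im - 3 * (z.re / √3) - 2 := by
  have hp : (0:ℝ) < √3 := sq3_pos
  have h3 := s33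
  rw [om4_eq]
  constructor
  · simp only [Complex.sub_re, Complex.mul_re, d2]
    field_simp
    ring
  · simp only [Complex.sub_im, Complex.mul_im, d2]
    have : 3 * (z.re / √3) = √3 * z.re := by
      rw [mul_div_assoc', div_eq_iff hp.ne']; linear_combination (-z.re) * h3
    rw [this]; ring

/-- linear facts about the opposite frame -/
theorem opp_lin {z : ℂ} (h : V30 (om ^ 4 * z - d3) ≤ 1 / 3) :
    z.im ≤ -(11 / 20) ∧ z.im ≤ -(2 / 3) + 3 * (z.re / √3) ∧ z.im + 3 * (z.re / √3) ≤ -(3055 / 10000) := by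
  have k := V30_le_iff.1 h
  rw [(co3 z).1, (co3 z).2] at k
  have f1 := k.f1
  have f4 := k.f4
  have f6 := k.f6
  have f8 := k.f8
  refine ⟨by linarith, by linarith, by linarith⟩

theorem re_rho (z : ℂ) : z.re = √3 * (z.re / √3) := by
  have hp : (0:ℝ) < √3 := sq3_pos
  field_simp

theorem im_le_norm {z : ℂ} {c : ℝ} (h : ‖z‖ ≤ c) : -c ≤ z.im ∧ -c ≤ z.re ∧ z.re ≤ c := by
  have h1 := (abs_le.1 (Complex.abs_im_le_norm z)).1
  have h2 := abs_le.1 (Complex.abs_re_le_norm z)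
  exact ⟨by linarith, by linarith [h2.1], by linarith [h2.2]⟩

theorem third_sq {x : ℝ} (h0 : 0 ≤ x) (h : x < 1 / √3) : x ^ 2 < 1 / 3 := by
  have hr2 : (1 / √3 : ℝ) ^ 2 = 1 / 3 := by
    rw [div_pow, Real.sq_sqrt (by norm_num)]; norm_num
  rw [← hr2]; exact pow_lt_pow_left₀ h h0 two_ne_zero

theorem third_ge {x : ℝ} (h0 : 0 ≤ x) (h : 1 / 3 ≤ x ^ 2) : 1 / √3 ≤ x := by
  by_contra hc
  push Not at hc
  have := third_sq h0 hc
  linarith

/-- directions and sizes of the frames -/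
theorem fr_dir1 {v : ℂ} (h : V30 v ≤ 1 / 3) : 53 / 100 ≤ (d1 + v).re ∧ 15 / 100 ≤ (d1 + v).im ∧
    13 / 100 * (d1 + v).re ≤ (d1 + v).im ∧ (d1 + v).im ≤ 58 / 100 := by
  obtain ⟨h1, h2, h3, -⟩ := V1_dir1 (V30_le_iff.1 h)
  obtain ⟨b1, b2, b3⟩ := v_box h
  have hs := s3v
  have := (abs_le.1 b1).1
  refine ⟨?_, ?_, h3, ?_⟩
  · rw [Complex.add_re]; simp only [d1]; linarith
  · rw [Complex.add_im]; simp only [d1]; linarith
  · rw [Complex.add_im]; simp only [d1]; linarith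

theorem fr_dir3 {v : ℂ} (h : V30 v ≤ 1 / 3) : (d3 + v).re < 0 ∧ 0 < (d3 + v).im ∧
    13 / 100 * -(d3 + v).re ≤ (d3 + v).im := by
  obtain ⟨h1, h2, h3, -⟩ := V1_dir3 (V30_le_iff.1 h)
  exact ⟨h1, h2, h3⟩

theorem opp2a {x y qx qy ρ : ℝ} (hx : x = √3 * ρ) (hρ0 : -(142 / 10000) ≤ ρ) (hρ : y + 3 * ρ ≤ -(3055 / 10000))
    (y0 : -(709 / 1000) ≤ y) (y1 : y ≤ -(11 / 20)) (q1 : 13 / 100 * qx ≤ qy)
    (h : (x - qx) ^ 2 + (y - qy) ^ 2 < 1 / 3) : x ^ 2 + y ^ 2 ≤ 3481 / 10000 := by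
  have hs := s3v
  have hs0 := sq3_pos
  have e0 : √3 * (142 / 10000) ≤ 17321 / 10000 * (142 / 10000) := mul_le_mul_of_nonneg_right hs.2.le (by norm_num)
  have e0' : √3 * (-(142 / 10000)) ≤ √3 * ρ := mul_le_mul_of_nonneg_left hρ0 hs0.le
  have hβ : x ^ 2 + y ^ 2 < 1 / 3 + 2 * qx * (x + 13 / 100 * y) - qx ^ 2 := by
    have h5 : 0 ≤ (-y) * (qy - 13 / 100 * qx) := mul_nonneg (by linarith) (by linarith)
    nlinarith [sq_nonneg qy]
  have hβ2 : x ^ 2 + y ^ 2 < 1 / 3 + (x + 13 / 100 * y) ^ 2 := by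
    nlinarith [sq_nonneg (qx - (x + 13 / 100 * y))]
  have e2 : ρ ≤ (-(3055 / 10000) - y) / 3 := by linarith
  have e3 : 0 ≤ (-(3055 / 10000) - y) / 3 := by linarith
  have e1 : √3 * ρ ≤ 17321 / 10000 * ((-(3055 / 10000) - y) / 3) := by
    calc √3 * ρ ≤ √3 * ((-(3055 / 10000) - y) / 3) := mul_le_mul_of_nonneg_left e2 hs0.le
      _ ≤ _ := mul_le_mul_of_nonneg_right hs.2.le e3
  rw [← hx] at e1 e0'
  by_cases hm : -(66 / 100) ≤ y
  · have b1 : x + 13 / 100 * y ≤ 1189 / 10000 := by linarith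
    have b2 : -(1189 / 10000) ≤ x + 13 / 100 * y := by linarith
    have := sq_le_sq' b2 b1
    linarith
  · push Not at hm
    exfalso
    have b1 : x + 13 / 100 * y ≤ 15 / 100 := by linarith
    have b2 : -(15 / 100) ≤ x + 13 / 100 * y := by linarith
    have h7 := sq_le_sq' b2 b1
    have h6 : (66 / 100 : ℝ) ^ 2 < y ^ 2 := by nlinarith
    have h8 := sq_nonneg x
    linarith

theorem opp2b {x y qx qy ρ : ℝ} (hx : x = √3 * ρ) (hρ0 : -(142 / 10000) ≤ ρ) (y1 : y ≤ -(11 / 20))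
    (q0 : 0 ≤ qx) (q1 : 13 / 100 * qx ≤ qy)
    (h : (x + qx) ^ 2 + (y - qy) ^ 2 < 1 / 3) : x ^ 2 + y ^ 2 ≤ 3481 / 10000 := by
  have hs := s3v
  have hs0 := sq3_pos
  have e0 : √3 * (142 / 10000) ≤ 17321 / 10000 * (142 / 10000) := mul_le_mul_of_nonneg_right hs.2.le (by norm_num)
  have e0' : √3 * (-(142 / 10000)) ≤ √3 * ρ := mul_le_mul_of_nonneg_left hρ0 hs0.le
  rw [← hx] at e0'
  have b2 : 0 ≤ x - 13 / 100 * y := by linarith
  have h5 : 0 ≤ (-y) * (qy - 13 / 100 * qx) := mul_nonneg (by linarith) (by linarith)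
  have h6 : 0 ≤ qx * (x - 13 / 100 * y) := mul_nonneg q0 b2
  nlinarith [sq_nonneg qx, sq_nonneg qy]

theorem opp2 {z v1 v3 : ℂ} {t : ℝ} (h : V30 (om ^ 4 * z - d3) ≤ 1 / 3) (h1 : V30 v1 ≤ 1 / 3) (h3 : V30 v3 ≤ 1 / 3)
    (hz : ‖z‖ ≤ 709 / 1000) (t0 : 0 ≤ t)
    (hd : ‖z - (t : ℂ) * (d1 + v1)‖ < 1 / √3 ∨ ‖z - (t : ℂ) * (d3 + v3)‖ < 1 / √3) : ‖z‖ ≤ 59 / 100 := by
  obtain ⟨l1, l2, l3⟩ := opp_lin h
  obtain ⟨i1, -, -⟩ := im_le_norm hz
  have hre : z.re = √3 * (z.re / √3) := re_rho z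
  have nz : ‖z‖ ^ 2 = z.re ^ 2 + z.im ^ 2 := nsq z
  have goal : z.re ^ 2 + z.im ^ 2 ≤ 3481 / 10000 → ‖z‖ ≤ 59 / 100 := by
    intro hq
    rw [← nz] at hq
    have := norm_nonneg z
    nlinarith
  apply goal
  rcases hd with hd | hd
  · have hq := third_sq (norm_nonneg _) hd
    rw [nsq] at hq
    have er : (z - (t : ℂ) * (d1 + v1)).re = z.re - t * (d1 + v1).re := by
      rw [Complex.sub_re, Complex.re_ofReal_mul]
    have ei : (z - (t : ℂ) * (d1 + v1)).im = z.im - t * (d1 + v1).im := by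
      rw [Complex.sub_im, Complex.im_ofReal_mul]
    rw [er, ei] at hq
    obtain ⟨a1, a2, a3, a4⟩ := fr_dir1 h1
    refine opp2a hre (by linarith) l3 i1 l1 ?_ hq
    have := mul_le_mul_of_nonneg_left a3 t0
    linarith
  · have hq := third_sq (norm_nonneg _) hd
    rw [nsq] at hq
    have er : (z - (t : ℂ) * (d3 + v3)).re = z.re + t * -(d3 + v3).re := by
      rw [Complex.sub_re, Complex.re_ofReal_mul]; ring
    have ei : (z - (t : ℂ) * (d3 + v3)).im = z.im - t * (d3 + v3).im := by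
      rw [Complex.sub_im, Complex.im_ofReal_mul]
    rw [er, ei] at hq
    obtain ⟨a1, a2, a3⟩ := fr_dir3 h3
    refine opp2b hre (by linarith) l1 (mul_nonneg t0 (by linarith)) ?_ hq
    have := mul_le_mul_of_nonneg_left a3 t0
    linarith

/-- (O4), real form -/
theorem opp4 {x y A B : ℝ} (hx : 44 / 1000 ≤ x) (hy0 : -(59 / 100) ≤ y) (nz : x ^ 2 + y ^ 2 ≤ 3481 / 10000) (a1 : 53 / 100 ≤ A)
    (a2 : 15 / 100 ≤ B) (hd : 1 ≤ (A - x) ^ 2 + (B - y) ^ 2) :
    1 / 3 ≤ A ^ 2 + (B - 1 / 20) ^ 2 ∧ 3481 / 10000 < A ^ 2 + B ^ 2 := by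
  have k1 : 53 / 100 * (44 / 1000) ≤ A * x := mul_le_mul a1 hx (by norm_num) (by linarith)
  have k2 : B * (-y) ≤ B * (59 / 100) := mul_le_mul_of_nonneg_left (by linarith) (by linarith)
  have hexp : 1 ≤ A ^ 2 + B ^ 2 + 3481 / 10000 - 2 * (53 / 100 * (44 / 1000)) + 2 * (B * (59 / 100)) := by
    have e : (A - x) ^ 2 + (B - y) ^ 2 = A ^ 2 + B ^ 2 + (x ^ 2 + y ^ 2) - 2 * (A * x) + 2 * (B * (-y)) := by ring
    rw [e] at hd; linarith
  have a3 : (53 / 100 : ℝ) ^ 2 ≤ A ^ 2 := pow_le_pow_left₀ (by norm_num) a1 2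
  constructor
  · by_contra hc
    push Not at hc
    have h5 : (B - 1 / 20) ^ 2 < (2291 / 10000) ^ 2 := by linarith
    have h6 : B - 1 / 20 < 2291 / 10000 := lt_of_pow_lt_pow_left₀ 2 (by norm_num) h5
    nlinarith
  · by_contra hc
    push Not at hc
    have h5 : B ^ 2 ≤ (26 / 100) ^ 2 := by linarith
    have h6 : B ≤ 26 / 100 := le_of_sq_le_sq'' h5 (by norm_num)
    nlinarith
where
  le_of_sq_le_sq'' {x y : ℝ} (h : x ^ 2 ≤ y ^ 2) (hy : 0 ≤ y) : x ≤ y := (abs_le_of_sq_le_sq' h hy).2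

theorem oppCert : OppCert where
  O1 := fun z h => (opp_lin h).1
  O2 := fun z v1 v3 t h h1 h3 hz t0 _ hd => opp2 h h1 h3 hz t0 hd
  O3 := fun z h h' => by
    obtain ⟨l1, l2, l3⟩ := opp_lin h
    have k := V30_le_iff.1 h'
    rw [(co1 z).1, (co1 z).2] at k
    have f9 := k.f9
    have h1 : z.im ≤ -(2 / 3) := by linarith
    have h2 := (abs_le.1 (Complex.abs_im_le_norm z)).1
    linarith
  O4 := fun z v1 h h1 hz hd => by
    obtain ⟨l1, l2, l3⟩ := opp_lin h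
    obtain ⟨i1, -, -⟩ := im_le_norm hz
    obtain ⟨a1, a2, a3, a4⟩ := fr_dir1 h1
    have hs := s3v
    have hre : z.re = √3 * (z.re / √3) := re_rho z
    have hρ0 : 255 / 10000 ≤ z.re / √3 := by linarith
    have hr1 : 44 / 1000 ≤ z.re := by
      rw [hre]
      calc (44 / 1000 : ℝ) ≤ 1732 / 1000 * (255 / 10000) := by norm_num
        _ ≤ √3 * (z.re / √3) := mul_le_mul hs.1.le hρ0 (by norm_num) sq3_pos.le
    have nz : z.re ^ 2 + z.im ^ 2 ≤ 3481 / 10000 := by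
      rw [← nsq]
      have := pow_le_pow_left₀ (norm_nonneg z) hz 2
      norm_num at this ⊢
      exact this
    have hd2 : 1 ≤ ((d1 + v1).re - z.re) ^ 2 + ((d1 + v1).im - z.im) ^ 2 := by
      have : (1 : ℝ) ^ 2 ≤ ‖d1 + v1 - z‖ ^ 2 := pow_le_pow_left₀ (by norm_num) hd 2
      rw [nsq, Complex.sub_re, Complex.sub_im, one_pow] at this
      exact this
    obtain ⟨q1, q2⟩ := opp4 hr1 i1 nz a1 a2 hd2
    constructor
    · apply third_ge (norm_nonneg _)
      rw [nsq, Complex.sub_re, Complex.sub_im]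
      simp only [pB, sub_zero]
      exact q1
    · rw [← nsq] at q2
      by_contra hc
      push Not at hc
      have := pow_le_pow_left₀ (norm_nonneg (d1 + v1)) hc 2
      norm_num at this q2
      linarith
  O5 := fun z y h hz hy hi => by
    obtain ⟨l1, l2, l3⟩ := opp_lin h
    obtain ⟨i1, -, -⟩ := im_le_norm hz
    obtain ⟨j1, j2, j3⟩ := im_le_norm hy
    have hs := s3v
    have hre : z.re = √3 * (z.re / √3) := re_rho z
    set ρ := z.re / √3 with hρ
    have hρ0 : 0 ≤ ρ := by linarith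
    have hρ1 : ρ ≤ 95 / 1000 := by linarith
    have hr0 : 0 ≤ z.re := by rw [hre]; positivity
    have hr1 : z.re ≤ 165 / 1000 := by
      rw [hre]; nlinarith
    have nz : z.re ^ 2 + z.im ^ 2 ≤ 3481 / 10000 := by
      rw [← nsq]; have := norm_nonneg z; nlinarith
    have ny : y.re ^ 2 + y.im ^ 2 ≤ 503 / 1000 := by
      rw [← nsq]; have := norm_nonneg y; nlinarith
    have k1 : -(709 / 1000 * (165 / 1000)) ≤ y.re * z.re := by
      have : -(709 / 1000) * z.re ≤ y.re * z.re := mul_le_mul_of_nonneg_right j2 hr0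
      nlinarith
    have k2 : 1 / 5 * (11 / 20) ≤ y.im * z.im := by nlinarith
    have h4 : ‖y - z‖ ^ 2 < 1 := by
      rw [nsq, Complex.sub_re, Complex.sub_im]
      nlinarith
    have := norm_nonneg (y - z)
    nlinarith
  O7 := fun m v1 t h h1 t0 => by
    have k := V30_le_iff.1 h
    rw [(co2 m).1, (co2 m).2] at k
    have f1 := k.f1
    have f6 := k.f6
    have f7 := k.f7
    obtain ⟨a1, a2, a3, a4⟩ := fr_dir1 h1
    have hs := s3v
    have hre : m.re = √3 * (m.re / √3) := re_rho m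
    set ρ := m.re / √3 with hρ
    have hρ0 : ρ ≤ -(229 / 1000) := by linarith
    have him : m.im ≤ -(3 / 100) := by linarith
    have hmre : m.re ≤ 0 := by
      rw [hre]
      have := mul_nonneg sq3_pos.le (show 0 ≤ -ρ by linarith)
      linarith
    have hm : 1 / 3 ≤ m.re ^ 2 + m.im ^ 2 := by
      -- `3 ρ + m.im ≤ -1.3055`
      have h3ρ : m.im + 3 * ρ ≤ -(13055 / 10000) := by linarith
      have e : m.re ^ 2 = 3 * ρ ^ 2 := by rw [hre]; linear_combination (ρ ^ 2) * s33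
      rw [e]
      nlinarith [sq_nonneg (ρ - m.im)]
    apply third_ge (norm_nonneg _)
    have er : (m - (t : ℂ) * (d1 + v1)).re = m.re - t * (d1 + v1).re := by
      rw [Complex.sub_re, Complex.re_ofReal_mul]
    have ei : (m - (t : ℂ) * (d1 + v1)).im = m.im - t * (d1 + v1).im := by
      rw [Complex.sub_im, Complex.im_ofReal_mul]
    rw [nsq, er, ei]
    have k1 : 0 ≤ (-m.re) * (t * (d1 + v1).re) := mul_nonneg (by linarith) (mul_nonneg t0 (by linarith))
    have k2 : 0 ≤ (-m.im) * (t * (d1 + v1).im) := mul_nonneg (by linarith) (mul_nonneg t0 (by linarith))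
    nlinarith [sq_nonneg (t * (d1 + v1).re), sq_nonneg (t * (d1 + v1).im)]

/-- `VirtSpec` from `HitSpec` -/
theorem virtSpec30 (hH : HitSpec V30 (4 / 25) (147 / 100)) : VirtSpec V30 (4 / 25) (147 / 100) := virt30 oppCert hH

end Pool.Agent.H16.AP
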