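import Pool.Agent.H16.AP.QUAD
import Pool.Agent.H16.AP.FLIP
import Pool.Agent.H16.AP.LOWB
import Pool.Agent.H16.AP.CX0
import Pool.Agent.H16.AP.CX1
import Pool.Agent.H16.AP.CX2
import Pool.Agent.H16.AP.CX3

/-!
# QF: facts common to real and virtual fans
-/

set_option autoImplicit false

open Set Real

noncomputable section

namespace Pool.Agent.H16.AP

open Pool.Agent.H20.AL Pool.Agent.H63.P6 Pool.Agent.H16.T3 Pool.Agent.H78.P6

/-- the site `t` is matched, with a displacement at most 47/100 -/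
def Mt (X : Set ℂ) (t : ℂ) : Prop := pos X t ∈ X ∧ dist (pos X t) t ≤ 47 / 100

theorem Mt.lt {X : Set ℂ} {t : ℂ} (h : Mt X t) : dist (pos X t) t < 1 / 2 := by
  have := h.2
  linarith

theorem E3 (j : Fin 6) : E (j + 3) = -E j := Dir_three 1 j
theorem E4 (j : Fin 6) : E (j + 4) = -E (j + 1) := Dir_four 1 j
theorem E5 (j : Fin 6) : E (j + 5) = -E (j + 2) := Dir_five 1 j
theorem E1s (j : Fin 6) : E (j + 1) = E j + E (j + 2) := by rw [E_two_sub]; ring

theorem dt_neg_r (u v : ℂ) : dt u (-v) = -dt u v := by simp [dt]; ring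
theorem dt_neg_l (u v : ℂ) : dt (-u) v = -dt u v := by simp [dt]; ring
theorem dt_add_r (u v w : ℂ) : dt u (v + w) = dt u v + dt u w := by simp [dt]; ring
theorem dt_add_l (u v w : ℂ) : dt (u + v) w = dt u w + dt v w := by simp [dt]; ring
theorem dt_sub_l (u v w : ℂ) : dt (u - v) w = dt u w - dt v w := by simp [dt]; ring

theorem dtE0 (j : Fin 6) : dt (E j) (E j) = 1 := by rw [dt_self, norm_E]; norm_num
theorem dtE1 (j : Fin 6) : dt (E j) (E (j + 1)) = 1 / 2 := dt_E j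
theorem dtE2 (j : Fin 6) : dt (E j) (E (j + 2)) = -(1 / 2) := by
  have h := E1s j
  have h2 : dt (E j) (E (j + 1)) = dt (E j) (E j) + dt (E j) (E (j + 2)) := by rw [h, dt_add_r]
  rw [dtE1, dtE0] at h2; linarith

theorem DirE (j i : Fin 6) : Dir (E j) i = E (j + i) := by
  have h0 : Dir (E j) 0 = E j := by simp [Dir]
  have hs : ∀ i : Fin 6, Dir (E j) i = E (j + i) → Dir (E j) (i + 1) = E (j + (i + 1)) := by
    intro i hi
    rw [Dir_succ, hi, ← add_assoc, E_succ]
  have h1 := hs 0 (by rw [add_zero]; exact h0)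
  have h2 := hs 1 h1
  have h3 := hs 2 h2
  have h4 := hs 3 h3
  have h5 := hs 4 h4
  fin_cases i
  · simpa using h0
  · exact h1
  · exact h2
  · exact h3
  · exact h4
  · exact h5

theorem tp0 {j : Fin 6} {w : ℂ} (h : Turn (E j) w) : 0 < dt w (E j) := by
  rw [dt_comm]; exact sgn0 h
theorem tp1 {j : Fin 6} {w : ℂ} (h : Turn (E j) w) : 0 < dt w (E (j + 1)) := by
  rw [dt_comm]
  apply sgn5
  rw [← E_succ, E1s j, show j + 1 + 1 = j + 2 by rw [add_assoc]; rfl, add_sub_cancel_right]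
  exact h
theorem tp5 {j : Fin 6} {w : ℂ} (h : Turn (E j) w) : 0 < dt w (E (j + 5)) := by
  rw [dt_comm]
  apply sgn1
  rw [← E_succ, show j + 5 + 1 = j by rw [add_assoc]; exact add_zero j]
  exact h
theorem tm2 {j : Fin 6} {w : ℂ} (h : Turn (E j) w) : dt w (E (j + 2)) < 0 := by
  have := tp5 h
  rw [E5, dt_neg_r] at this; linarith
theorem tm3 {j : Fin 6} {w : ℂ} (h : Turn (E j) w) : dt w (E (j + 3)) < 0 := by
  have := tp0 h
  rw [E3, dt_neg_r]; linarith
theorem tm4 {j : Fin 6} {w : ℂ} (h : Turn (E j) w) : dt w (E (j + 4)) < 0 := by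
  have := tp1 h
  rw [E4, dt_neg_r]; linarith

/-- cyclic symmetry of the orientation -/
theorem cr_cyc (a b c : ℂ) : cr (b - a) (c - a) = cr (c - b) (a - b) := by simp [cr]; ring
theorem cr_cyc2 (a b c : ℂ) : cr (b - a) (c - a) = cr (a - c) (b - c) := by simp [cr]; ring

variable {V : ℂ → ℝ} {κ el : ℝ} {X : Set ℂ} {k : Fin 3} {a y : ℂ} {m : ℤ}

/-- facts common to real and virtual fans -/
structure QF (X : Set ℂ) (k : Fin 3) (a y : ℂ) : Prop where
  aL : a ∈ Lam
  m1 : Mt X (a + E (kk k))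
  m2 : Mt X (a + E (kk k + 1))
  m3 : Mt X (a + E (kk k + 2))
  near : ‖y - a‖ ≤ 709 / 1000
  lo : -(578 / 1000) ≤ dt (y - a) (E (kk k + 1))
  c12 : 0 < cr (g1 X k a - y) (g2 X k a - y)
  c23 : 0 < cr (g2 X k a - y) (g3 X k a - y)
  c13 : 0 < cr (g1 X k a - y) (g3 X k a - y)
  abc : 0 < cr (g2 X k a - g1 X k a) (g3 X k a - g1 X k a)
  up1 : 0 < dt (g1 X k a - y) (E (kk k + 1))
  up3 : 0 < dt (g3 X k a - y) (E (kk k + 1))
  s1 : 0 < dt (g1 X k a - y) (E (kk k))
  s3 : 0 < dt (g3 X k a - y) (E (kk k + 2))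
  t12 : Turn (E (kk k + 2)) (g2 X k a - g1 X k a)
  t32 : Turn (E (kk k)) (g2 X k a - g3 X k a)
  nin : ∀ z ∈ X, z ≠ y → z ≠ g1 X k a → z ≠ g2 X k a → z ≠ g3 X k a → z ∉ Qd y (g1 X k a) (g2 X k a) (g3 X k a)
  ori : ∀ i : Fin 6, Mt X (a + E i) → Mt X (a + E (i + 1)) → y ≠ pos X (a + E i) → y ≠ pos X (a + E (i + 1)) →
    0 < cr (pos X (a + E i) - y) (pos X (a + E (i + 1)) - y)

theorem QF.qc (h : QF X k a y) : QC y (g1 X k a) (g2 X k a) (g3 X k a) := ⟨h.c12, h.abc, h.c23, h.c13⟩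

theorem base_turn (h : ApexData V κ el X k a m) :
    Turn (E (kk k + 2)) (g2 X k a - g1 X k a) ∧ Turn (E (kk k)) (g2 X k a - g3 X k a) := by
  have h0 : (0 : ℤ × ℤ) ≤ 0 := le_rfl
  have g1' := ps_all h (nz_10 h0).1 (nz_10 h0).2
  have g3' := ps_all h (nz_01 h0).1 (nz_01 h0).2
  rw [cs_10, cs_zero] at g1'
  rw [cs_01, cs_zero] at g3'
  have e1 : a + E (kk k) + E (kk k + 2) = a + E (kk k + 1) := by rw [E_two_sub]; ring
  have e3 : a + E (kk k + 2) + E (kk k) = a + E (kk k + 1) := by rw [E_two_sub]; ring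
  have s3 := g1'.t3
  have s1 := g3'.t1
  rw [e1] at s3
  rw [e3] at s1
  exact ⟨s3, s1⟩

theorem base_abc (h : ApexData V κ el X k a m) : 0 < cr (g2 X k a - g1 X k a) (g3 X k a - g1 X k a) := by
  obtain ⟨h1, h2⟩ := base_turn h
  have h3 : Turn (E (kk k + 3)) (g3 X k a - g2 X k a) := by
    rw [E3, ← neg_sub]; exact turn_neg h2
  have h4 : Turn (om * E (kk k + 2)) (g3 X k a - g2 X k a) := by
    rw [← E_succ, show kk k + 2 + 1 = kk k + 3 by rw [add_assoc]; rfl]; exact h3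
  have h5 := cr_next h1 h4
  have h6 : cr (g2 X k a - g1 X k a) (g3 X k a - g1 X k a) = cr (g2 X k a - g1 X k a) (g3 X k a - g2 X k a) := by
    simp [cr]; ring
  rw [h6]; exact h5

theorem rho_ws (k : Fin 3) (p : ℤ × ℤ) : rho k * ws k p = st p := by
  unfold ws st
  rw [← E_kk, ← E_kk2, ← rho_E k, ← rho_E2 k]; ring

theorem disp_rho (X : Set ℂ) (k : Fin 3) (z : ℂ) (p : ℤ × ℤ) :
    disp (lx X k z) p = rho k * (pos X (cs z k p) - cs z k p) := by
  unfold disp lx cs
  rw [← rho_ws k]; ring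

/-- nonapex sites are matched with a displacement at most 47/100 -/
theorem mt_of (hvb : VB V) (h : ApexData V κ el X k a m) {p : ℤ × ℤ} (hp : 0 ≤ p) (h0 : p ≠ 0) : Mt X (a + ws k p) := by
  refine ⟨(h.mat p hp h0).1, ?_⟩
  have hV : V (disp (lx X k a) p) ≤ 1 / 3 := (h.pot p hp h0).trans (h.en p hp h0)
  have h1 := hvb.nrm _ hV
  rw [disp_rho, norm_rho_mul] at h1
  rw [dist_eq_norm]; exact h1

theorem apex_m (hvb : VB V) (h : ApexData V κ el X k a m) :
    Mt X (a + E (kk k)) ∧ Mt X (a + E (kk k + 1)) ∧ Mt X (a + E (kk k + 2)) := by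
  have h0 : (0 : ℤ × ℤ) ≤ 0 := le_rfl
  have a1 := mt_of hvb h (nz_10 h0).1 (nz_10 h0).2
  have a2 := mt_of hvb h (nz_11 h0).1 (nz_11 h0).2
  have a3 := mt_of hvb h (nz_01 h0).1 (nz_01 h0).2
  have e1 := cs_10 a k 0
  have e2 := cs_11 a k 0
  have e3 := cs_01 a k 0
  rw [cs_zero] at e1 e2 e3
  unfold cs at e1 e2 e3
  rw [e1] at a1
  rw [e2] at a2
  rw [e3] at a3
  exact ⟨a1, a2, a3⟩

theorem qf_real (hvb : VB V) (hX : Sep X) (h : ApexData V κ el X k a m) (r : RF X k a y) : QF X k a y where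
  aL := h.mem
  m1 := (apex_m hvb h).1
  m2 := (apex_m hvb h).2.1
  m3 := (apex_m hvb h).2.2
  near := r.near
  lo := r.lo
  c12 := r.c12
  c23 := r.c23
  c13 := r.c13
  abc := base_abc h
  up1 := r.up1
  up3 := r.up3
  s1 := r.s1
  s3 := r.s3
  t12 := (base_turn h).1
  t32 := (base_turn h).2
  nin := by
    intro z hz h0 h1 h2 h3 hq
    rcases r.nx z hz hq with h | h | h | h
    · exact h0 h
    · exact h1 h
    · exact h2 h
    · exact h3 h
  ori := by
    intro i m1 m2 h1 h2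
    have hne : pos X (a + E i) ≠ pos X (a + E (i + 1)) := by
      intro e
      have hL1 : a + E i ∈ Lam := lam_E h.mem i
      have hL2 : a + E (i + 1) ∈ Lam := lam_E h.mem (i + 1)
      have := pos_inj hL1 hL2 m1.lt m2.lt e
      have h3 : E i = E (i + 1) := add_left_cancel this
      have h4 := dtE1 i
      rw [← h3, dtE0] at h4
      norm_num at h4
    refine flip a i (hX _ r.yX _ m1.1 h1) (hX _ r.yX _ m2.1 h2) (hX _ m1.1 _ m2.1 hne) ?_
    have n0 : ‖y - a‖ ^ 2 ≤ (709 / 1000) ^ 2 := by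
      have := norm_nonneg (y - a)
      have := r.near
      gcongr
    have n1 : ‖pos X (a + E i) - (a + E i)‖ ^ 2 ≤ (47 / 100) ^ 2 := by
      have h3 := m1.2
      rw [dist_eq_norm] at h3
      have := norm_nonneg (pos X (a + E i) - (a + E i))
      gcongr
    have n2 : ‖pos X (a + E (i + 1)) - (a + E (i + 1))‖ ^ 2 ≤ (47 / 100) ^ 2 := by
      have h3 := m2.2
      rw [dist_eq_norm] at h3
      have := norm_nonneg (pos X (a + E (i + 1)) - (a + E (i + 1)))
      gcongr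
    norm_num at n0 n1 n2 ⊢
    linarith

theorem g1_turn (h : ApexData V κ el X k a m) : Turn (E (kk k)) (g1 X k a - a) := near_turn (norm_E _) (frame h).1.2
theorem g2_turn (h : ApexData V κ el X k a m) : Turn (E (kk k + 1)) (g2 X k a - a) := near_turn (norm_E _) (frame h).2.1.2
theorem g3_turn (h : ApexData V κ el X k a m) : Turn (E (kk k + 2)) (g3 X k a - a) := near_turn (norm_E _) (frame h).2.2.2

theorem qf_virt (hvb : VB V) (h : ApexData V κ el X k a m) (r : VF X k a) : QF X k a a where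
  aL := h.mem
  m1 := (apex_m hvb h).1
  m2 := (apex_m hvb h).2.1
  m3 := (apex_m hvb h).2.2
  near := by rw [sub_self, norm_zero]; norm_num
  lo := by rw [sub_self]; simp [dt]; norm_num
  c12 := cr_next (g1_turn h) (by rw [← E_succ]; exact g2_turn h)
  c23 := cr_next (g2_turn h) (by
    rw [← E_succ, show kk k + 1 + 1 = kk k + 2 by rw [add_assoc]; rfl]; exact g3_turn h)
  c13 := by
    have h1 := g1_turn h
    have h3 := g3_turn h
    -- tr3 in the half plane of E (kk k + 1), through g2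
    exact tr3 (tp1 h1) (tp0 (g2_turn h)) (by
      have := tp5 h3
      rwa [show kk k + 2 + 5 = kk k + 1 by rw [add_assoc]; rfl] at this)
      (cr_next (g1_turn h) (by rw [← E_succ]; exact g2_turn h)) (cr_next (g2_turn h) (by
    rw [← E_succ, show kk k + 1 + 1 = kk k + 2 by rw [add_assoc]; rfl]; exact g3_turn h))
  abc := base_abc h
  up1 := tp1 (g1_turn h)
  up3 := by
    have := tp5 (g3_turn h)
    rwa [show kk k + 2 + 5 = kk k + 1 by rw [add_assoc]; rfl] at this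
  s1 := tp0 (g1_turn h)
  s3 := tp0 (g3_turn h)
  t12 := (base_turn h).1
  t32 := (base_turn h).2
  nin := by
    intro z hz _ h1 h2 h3
    exact r.nx z hz h1 h2 h3
  ori := by
    intro i m1 m2 _ _
    refine cr_next (near_turn (norm_E _) m1.lt) ?_
    rw [← E_succ]
    exact near_turn (norm_E _) m2.lt

end Pool.Agent.H16.AP
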