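import Pool.Agent.H16.AP.Defs

/-!
# QUAD: small facts on the open quadrilateral, local sides of edges
-/

set_option autoImplicit false

open Set Real

noncomputable section

namespace Pool.Agent.H16.AP

open Pool.Agent.H20.AL Pool.Agent.H63.P6 Pool.Agent.H16.T3 Pool.Agent.H78.P6

theorem Qo_sub_Qd (p a b c : ℂ) : Qo p a b c ⊆ Qd p a b c := fun _ h => ⟨h.1.le, h.2.1.le, h.2.2.1.le, h.2.2.2.le⟩

theorem Qo_cone_p {p a b c u : ℂ} (h : u ∈ Qo p a b c) : 0 < cr (a - p) (u - p) ∧ 0 < cr (u - p) (c - p) := by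
  refine ⟨h.1, ?_⟩
  have e : cr (u - p) (c - p) = cr (p - c) (u - c) := by simp [cr]; ring
  rw [e]; exact h.2.2.2

theorem Qo_cone_a {p a b c u : ℂ} (h : u ∈ Qo p a b c) : 0 < cr (b - a) (u - a) ∧ 0 < cr (u - a) (p - a) := by
  refine ⟨h.2.1, ?_⟩
  have e : cr (u - a) (p - a) = cr (a - p) (u - p) := by simp [cr]; ring
  rw [e]; exact h.1

theorem Qo_cone_b {p a b c u : ℂ} (h : u ∈ Qo p a b c) : 0 < cr (c - b) (u - b) ∧ 0 < cr (u - b) (a - b) := by
  refine ⟨h.2.2.1, ?_⟩
  have e : cr (u - b) (a - b) = cr (b - a) (u - a) := by simp [cr]; ring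
  rw [e]; exact h.2.1

theorem Qo_cone_c {p a b c u : ℂ} (h : u ∈ Qo p a b c) : 0 < cr (p - c) (u - c) ∧ 0 < cr (u - c) (b - c) := by
  refine ⟨h.2.2.2, ?_⟩
  have e : cr (u - c) (b - c) = cr (c - b) (u - b) := by simp [cr]; ring
  rw [e]; exact h.2.2.1

theorem Qo_sub_p (p a b c : ℂ) : Qo p a b c ⊆ Cone p a c := fun _ h => Qo_cone_p h
theorem Qo_sub_a (p a b c : ℂ) : Qo p a b c ⊆ Cone a b p := fun _ h => Qo_cone_a h
theorem Qo_sub_b (p a b c : ℂ) : Qo p a b c ⊆ Cone b c a := fun _ h => Qo_cone_b h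
theorem Qo_sub_c (p a b c : ℂ) : Qo p a b c ⊆ Cone c p b := fun _ h => Qo_cone_c h

theorem cr_line (e v p w : ℂ) (τ : ℝ) : cr e (p + (τ : ℂ) * (w - p) - v) = (1 - τ) * cr e (p - v) + τ * cr e (w - v) := by
  simp [cr]; ring

/-- points of the segment from an inner point to a point of the closed quadrilateral -/
theorem Qo_inner {p a b c u g : ℂ} (hu : u ∈ Qo p a b c) (hg : g ∈ Qd p a b c) {τ : ℝ} (h0 : 0 ≤ τ) (h1 : τ < 1) :
    u + (τ : ℂ) * (g - u) ∈ Qo p a b c := by
  have key : ∀ e v : ℂ, 0 < cr e (u - v) → 0 ≤ cr e (g - v) → 0 < cr e (u + (τ : ℂ) * (g - u) - v) := by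
    intro e v hp hq
    rw [cr_line]
    have h2 : 0 < (1 - τ) * cr e (u - v) := mul_pos (by linarith) hp
    have h3 : 0 ≤ τ * cr e (g - v) := mul_nonneg h0 hq
    linarith
  exact ⟨key _ _ hu.1 hg.1, key _ _ hu.2.1 hg.2.1, key _ _ hu.2.2.1 hg.2.2.1, key _ _ hu.2.2.2 hg.2.2.2⟩

theorem Qo_open (p a b c : ℂ) : IsOpen (Qo p a b c) := by
  have h : ∀ e v : ℂ, IsOpen {u : ℂ | 0 < cr e (u - v)} := by
    intro e v
    have hc : Continuous fun u : ℂ => cr e (u - v) := by
      unfold cr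
      simp only [Complex.sub_re, Complex.sub_im]
      fun_prop
    exact isOpen_lt continuous_const hc
  have e : Qo p a b c = {u : ℂ | 0 < cr (a - p) (u - p)} ∩ ({u : ℂ | 0 < cr (b - a) (u - a)} ∩
      ({u : ℂ | 0 < cr (c - b) (u - b)} ∩ {u : ℂ | 0 < cr (p - c) (u - c)})) := rfl
  rw [e]
  exact (h _ _).inter ((h _ _).inter ((h _ _).inter (h _ _)))

/-- `A` is locally on the left of the open segment from `z` to `w` -/
def LL (A : Set ℂ) (z w : ℂ) : Prop :=
  ∀ s : ℝ, 0 < s → s < 1 → ∀ d : ℂ, 0 < cr (w - z) d → ∃ ε0 : ℝ, 0 < ε0 ∧ ∀ ε : ℝ, 0 < ε → ε < ε0 →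
    z + (s : ℂ) * (w - z) + (ε : ℂ) * d ∈ A

/-- a strict affine inequality survives a small displacement -/
theorem small_pos {x y : ℝ} (hx : 0 < x) : ∃ ε0 : ℝ, 0 < ε0 ∧ ∀ ε : ℝ, 0 < ε → ε < ε0 → 0 < x + ε * y := by
  refine ⟨x / (1 + |y|), by positivity, fun ε h0 h1 => ?_⟩
  have hy : 0 < 1 + |y| := by positivity
  rw [lt_div_iff₀ hy] at h1
  have h2 : -(ε * |y|) ≤ ε * y := by
    have := neg_abs_le y
    nlinarith
  nlinarith [abs_nonneg y]

/-- the triangle is on the left of its edges -/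
theorem LL_tri {v : Fin 3 → ℂ} (h : 0 < A3 v) (i : Fin 3) : LL (T3 v) (v i) (v (i + 1)) := by
  intro s s0 s1 d hd
  have h3 : ∀ j : Fin 3, 0 < cr (v (j + 1) - v j) (v (j + 2) - v j) := by
    intro j
    have := NOV_orient v j
    rw [this]; exact h
  set m := v i + (s : ℂ) * (v (i + 1) - v i) with hm
  have e0 : cr (v (i + 1) - v i) (m - v i) = 0 := by rw [hm]; simp [cr]; ring
  have e1 : cr (v (i + 2) - v (i + 1)) (m - v (i + 1)) = (1 - s) * cr (v (i + 1) - v i) (v (i + 2) - v i) := by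
    rw [hm]; simp [cr]; ring
  have e2 : cr (v i - v (i + 2)) (m - v (i + 2)) = s * cr (v (i + 1) - v i) (v (i + 2) - v i) := by
    rw [hm]; simp [cr]; ring
  have p1 : 0 < cr (v (i + 2) - v (i + 1)) (m - v (i + 1)) := by
    rw [e1]; exact mul_pos (by linarith) (h3 i)
  have p2 : 0 < cr (v i - v (i + 2)) (m - v (i + 2)) := by
    rw [e2]; exact mul_pos s0 (h3 i)
  obtain ⟨ε1, E1, F1⟩ := small_pos (y := cr (v (i + 2) - v (i + 1)) d) p1
  obtain ⟨ε2, E2, F2⟩ := small_pos (y := cr (v i - v (i + 2)) d) p2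
  refine ⟨min ε1 ε2, lt_min E1 E2, fun ε h0 hε => ?_⟩
  have G : ∀ e w : ℂ, cr e (m + (ε : ℂ) * d - w) = cr e (m - w) + ε * cr e d := by
    intro e w; simp [cr]; ring
  have q0 : 0 < cr (v (i + 1) - v i) (m + (ε : ℂ) * d - v i) := by
    rw [G, e0, zero_add]; exact mul_pos h0 hd
  have q1 : 0 < cr (v (i + 2) - v (i + 1)) (m + (ε : ℂ) * d - v (i + 1)) := by
    rw [G]; exact F1 ε h0 (lt_of_lt_of_le hε (min_le_left _ _))
  have q2 : 0 < cr (v i - v (i + 2)) (m + (ε : ℂ) * d - v (i + 2)) := by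
    rw [G]; exact F2 ε h0 (lt_of_lt_of_le hε (min_le_right _ _))
  fin_cases i
  · exact ⟨q0, q1, q2⟩
  · exact ⟨q2, q0, q1⟩
  · exact ⟨q1, q2, q0⟩

/-- the quadrilateral is on the left of its leg `[p, a]` -/
theorem LL_pa {p a b c : ℂ} (h : QC p a b c) : LL (Qo p a b c) p a := by
  intro s s0 s1 d hd
  set m := p + (s : ℂ) * (a - p) with hm
  have e0 : cr (a - p) (m - p) = 0 := by rw [hm]; simp [cr]; ring
  have e1 : cr (b - a) (m - a) = (1 - s) * cr (a - p) (b - p) := by rw [hm]; simp [cr]; ring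
  have e2 : cr (c - b) (m - b) = (1 - s) * cr (b - p) (c - p) + s * cr (b - a) (c - a) := by rw [hm]; simp [cr]; ring
  have e3 : cr (p - c) (m - c) = s * cr (a - p) (c - p) := by rw [hm]; simp [cr]; ring
  have p1 : 0 < cr (b - a) (m - a) := by rw [e1]; exact mul_pos (by linarith) h.pab
  have p2 : 0 < cr (c - b) (m - b) := by
    rw [e2]; exact add_pos (mul_pos (by linarith) h.bcp) (mul_pos s0 h.abc)
  have p3 : 0 < cr (p - c) (m - c) := by rw [e3]; exact mul_pos s0 h.cpa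
  obtain ⟨ε1, E1, F1⟩ := small_pos (y := cr (b - a) d) p1
  obtain ⟨ε2, E2, F2⟩ := small_pos (y := cr (c - b) d) p2
  obtain ⟨ε3, E3, F3⟩ := small_pos (y := cr (p - c) d) p3
  refine ⟨min ε1 (min ε2 ε3), lt_min E1 (lt_min E2 E3), fun ε h0 hε => ?_⟩
  have G : ∀ e w : ℂ, cr e (m + (ε : ℂ) * d - w) = cr e (m - w) + ε * cr e d := by
    intro e w; simp [cr]; ring
  refine ⟨?_, ?_, ?_, ?_⟩
  · rw [G, e0, zero_add]; exact mul_pos h0 hd
  · rw [G]; exact F1 ε h0 (lt_of_lt_of_le hε (min_le_left _ _))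
  · rw [G]; exact F2 ε h0 (lt_of_lt_of_le hε ((min_le_right _ _).trans (min_le_left _ _)))
  · rw [G]; exact F3 ε h0 (lt_of_lt_of_le hε ((min_le_right _ _).trans (min_le_right _ _)))

/-- the quadrilateral is on the left of its leg `[c, p]` -/
theorem LL_cp {p a b c : ℂ} (h : QC p a b c) : LL (Qo p a b c) c p := by
  intro s s0 s1 d hd
  set m := c + (s : ℂ) * (p - c) with hm
  have e0 : cr (p - c) (m - c) = 0 := by rw [hm]; simp [cr]; ring
  have e1 : cr (a - p) (m - p) = (1 - s) * cr (a - p) (c - p) := by rw [hm]; simp [cr]; ring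
  have e2 : cr (b - a) (m - a) = (1 - s) * cr (b - a) (c - a) + s * cr (a - p) (b - p) := by rw [hm]; simp [cr]; ring
  have e3 : cr (c - b) (m - b) = s * cr (b - p) (c - p) := by rw [hm]; simp [cr]; ring
  have p1 : 0 < cr (a - p) (m - p) := by rw [e1]; exact mul_pos (by linarith) h.cpa
  have p2 : 0 < cr (b - a) (m - a) := by
    rw [e2]; exact add_pos (mul_pos (by linarith) h.abc) (mul_pos s0 h.pab)
  have p3 : 0 < cr (c - b) (m - b) := by rw [e3]; exact mul_pos s0 h.bcp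
  obtain ⟨ε1, E1, F1⟩ := small_pos (y := cr (a - p) d) p1
  obtain ⟨ε2, E2, F2⟩ := small_pos (y := cr (b - a) d) p2
  obtain ⟨ε3, E3, F3⟩ := small_pos (y := cr (c - b) d) p3
  refine ⟨min ε1 (min ε2 ε3), lt_min E1 (lt_min E2 E3), fun ε h0 hε => ?_⟩
  have G : ∀ e w : ℂ, cr e (m + (ε : ℂ) * d - w) = cr e (m - w) + ε * cr e d := by
    intro e w; simp [cr]; ring
  refine ⟨?_, ?_, ?_, ?_⟩
  · rw [G]; exact F1 ε h0 (lt_of_lt_of_le hε (min_le_left _ _))
  · rw [G]; exact F2 ε h0 (lt_of_lt_of_le hε ((min_le_right _ _).trans (min_le_left _ _)))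
  · rw [G]; exact F3 ε h0 (lt_of_lt_of_le hε ((min_le_right _ _).trans (min_le_right _ _)))
  · rw [G, e0, zero_add]; exact mul_pos h0 hd

/-- edges of disjoint regions do not cross -/
theorem nm {z w a b : ℂ} {A B : Set ℂ} (hAB : Disjoint A B) (hA : LL A z w) (hB : LL B b a)
    (ha : ∀ s : ℝ, 0 ≤ s → s ≤ 1 → z + (s : ℂ) * (w - z) ≠ a ∧ z + (s : ℂ) * (w - z) ≠ b)
    (hz : ∀ σ : ℝ, 0 ≤ σ → σ ≤ 1 → a + (σ : ℂ) * (b - a) ≠ z ∧ a + (σ : ℂ) * (b - a) ≠ w) :
    ∀ s σ : ℝ, 0 ≤ s → s ≤ 1 → 0 ≤ σ → σ ≤ 1 → z + (s : ℂ) * (w - z) ≠ a + (σ : ℂ) * (b - a) := by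
  intro s σ s0 s1 σ0 σ1 e
  have hs0 : 0 < s := by
    rcases s0.eq_or_lt with h | h
    · exfalso
      rw [← h] at e
      exact (hz σ σ0 σ1).1 (by rw [← e]; simp)
    · exact h
  have hs1 : s < 1 := by
    rcases s1.eq_or_lt with h | h
    · exfalso
      rw [h] at e
      exact (hz σ σ0 σ1).2 (by rw [← e]; push_cast; ring)
    · exact h
  have hσ0 : 0 < σ := by
    rcases σ0.eq_or_lt with h | h
    · exfalso
      rw [← h] at e
      exact (ha s s0 s1).1 (by rw [e]; simp)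
    · exact h
  have hσ1 : σ < 1 := by
    rcases σ1.eq_or_lt with h | h
    · exfalso
      rw [h] at e
      exact (ha s s0 s1).2 (by rw [e]; push_cast; ring)
    · exact h
  -- `B` at the same point, from `b` to `a`
  have e' : b + ((1 - σ : ℝ) : ℂ) * (a - b) = z + (s : ℂ) * (w - z) := by rw [e]; push_cast; ring
  by_cases hc : cr (w - z) (b - a) = 0
  · -- collinear
    have hwz : w ≠ z := by
      rintro rfl
      have h1 := (hz σ σ0 σ1).1
      apply h1
      rw [← e]; simp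
    -- b - a = lam * (w - z)
    obtain ⟨lam, hlam⟩ : ∃ lam : ℝ, b - a = (lam : ℂ) * (w - z) := by
      obtain ⟨r, hr⟩ : ∃ r : ℝ, r = (w - z).re ^ 2 + (w - z).im ^ 2 := ⟨_, rfl⟩
      have hr0 : r ≠ 0 := by
        intro h0
        apply hwz
        have h1 : (w - z).re ^ 2 = 0 := by nlinarith [sq_nonneg (w - z).re, sq_nonneg (w - z).im]
        have h2 : (w - z).im ^ 2 = 0 := by nlinarith [sq_nonneg (w - z).re, sq_nonneg (w - z).im]
        have h3 : w - z = 0 := Complex.ext (by simpa using h1) (by simpa using h2)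
        exact sub_eq_zero.1 h3
      refine ⟨dt (w - z) (b - a) / r, ?_⟩
      have h2 : (r : ℂ) * (b - a) = (dt (w - z) (b - a) : ℂ) * (w - z) := by
        have h3 : (r : ℂ) * (b - a) =
            (dt (w - z) (b - a) : ℂ) * (w - z) + (cr (w - z) (b - a) : ℂ) * (Complex.I * (w - z)) := by
          rw [hr]
          generalize w - z = P
          generalize b - a = Q
          apply Complex.ext
          · rw [Complex.re_ofReal_mul, Complex.add_re, Complex.re_ofReal_mul, Complex.re_ofReal_mul]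
            simp [cr, dt]; ring
          · rw [Complex.im_ofReal_mul, Complex.add_im, Complex.im_ofReal_mul, Complex.im_ofReal_mul]
            simp [cr, dt]; ring
        rw [h3, hc]; simp
      have hne : (r : ℂ) ≠ 0 := Complex.ofReal_ne_zero.2 hr0
      push_cast
      rw [div_mul_eq_mul_div, ← h2, mul_div_cancel_left₀ _ hne]
    have ha' : z + ((s - σ * lam : ℝ) : ℂ) * (w - z) = a := by
      have : a = z + (s : ℂ) * (w - z) - (σ : ℂ) * (b - a) := by rw [e]; ring
      rw [this, hlam]; push_cast; ring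
    have hb' : z + ((s + (1 - σ) * lam : ℝ) : ℂ) * (w - z) = b := by
      have : b = z + (s : ℂ) * (w - z) + (1 - (σ : ℂ)) * (b - a) := by rw [e]; ring
      rw [this, hlam]; push_cast; ring
    have k1 : s - σ * lam < 0 ∨ 1 < s - σ * lam := by
      by_contra hcon
      push Not at hcon
      exact (ha _ hcon.1 hcon.2).1 ha'
    have k2 : s + (1 - σ) * lam < 0 ∨ 1 < s + (1 - σ) * lam := by
      by_contra hcon
      push Not at hcon
      exact (ha _ hcon.1 hcon.2).2 hb'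
    -- lam > 0: a before z, b after w ; then z in [a,b]
    have hl : lam ≠ 0 := by
      rintro rfl
      rcases k1 with h | h <;> simp at h <;> linarith
    -- z = a + t (b - a) with t = σ - s / lam
    have hz' : a + ((σ - s / lam : ℝ) : ℂ) * (b - a) = z := by
      have h1 : ((σ - s / lam : ℝ) : ℂ) * (b - a) = ((σ * lam - s : ℝ) : ℂ) * (w - z) := by
        rw [hlam]
        have hl' : (lam : ℂ) ≠ 0 := Complex.ofReal_ne_zero.2 hl
        push_cast
        field_simp
      rw [h1, ← ha']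
      push_cast; ring
    rcases lt_or_gt_of_ne hl with hneg | hpos
    · -- lam < 0
      have k1' : 1 < s - σ * lam := by
        rcases k1 with h | h
        · exfalso; nlinarith
        · exact h
      have k2' : s + (1 - σ) * lam < 0 := by
        rcases k2 with h | h
        · exact h
        · exfalso; nlinarith
      refine (hz (σ - s / lam) ?_ ?_).1 hz'
      · have : s / lam ≤ 0 := div_nonpos_of_nonneg_of_nonpos hs0.le hneg.le
        linarith
      · have h1 : -(1 - σ) ≤ s / lam := by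
          rw [le_div_iff_of_neg hneg]; nlinarith
        linarith
    · have k1' : s - σ * lam < 0 := by
        rcases k1 with h | h
        · exact h
        · exfalso; nlinarith
      refine (hz (σ - s / lam) ?_ ?_).1 hz'
      · have h1 : s / lam ≤ σ := by rw [div_le_iff₀ hpos]; linarith
        linarith
      · have : 0 ≤ s / lam := by positivity
        linarith
  · -- transversal: choose d with cr (w - z) d > 0 and cr (a - b) d > 0
    set K := cr (w - z) (b - a) with hK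
    have hK2 : 0 < K ^ 2 := by positivity
    -- d = K * ((w - z) + (b - a)) : cr (w-z) d = K^2 ; cr (a-b) d = K * cr (a-b) (w-z) = K * K
    obtain ⟨d, hd1, hd2⟩ : ∃ d : ℂ, 0 < cr (w - z) d ∧ 0 < cr (a - b) d := by
      refine ⟨(K : ℂ) * ((w - z) + (b - a)), ?_, ?_⟩
      · have : cr (w - z) ((K : ℂ) * ((w - z) + (b - a))) = K * cr (w - z) (b - a) := by simp [cr]; ring
        rw [this, ← hK]; nlinarith
      · have : cr (a - b) ((K : ℂ) * ((w - z) + (b - a))) = K * cr (w - z) (b - a) := by simp [cr]; ring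
        rw [this, ← hK]; nlinarith
    obtain ⟨ε1, E1, F1⟩ := hA s hs0 hs1 d hd1
    obtain ⟨ε2, E2, F2⟩ := hB (1 - σ) (by linarith) (by linarith) d hd2
    set ε := min ε1 ε2 / 2 with hε
    have hm : 0 < min ε1 ε2 := lt_min E1 E2
    have i1 := F1 ε (by positivity) (by have := min_le_left ε1 ε2; linarith)
    have i2 := F2 ε (by positivity) (by have := min_le_right ε1 ε2; linarith)
    rw [e'] at i2
    exact Set.disjoint_left.1 hAB i1 i2

end Pool.Agent.H16.AP
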