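import Pool.Agent.H16.AP.NCD

/-!
# RCD: interface of the certificates of the real apex
-/

set_option autoImplicit false

noncomputable section

namespace Pool.Agent.H16.AP

open Pool.Agent.H20.AL Pool.Agent.H63.P6

open Pool.Agent.H30.P6 (V30)

/-- real apex `u` (position minus the site), without the legs -/
structure Rm (v1 v2 v3 u : ℂ) : Prop where
  fr : Fr v1 v2 v3
  n1 : 1 ≤ ‖d1 + v1 - u‖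
  n2 : 1 ≤ ‖d2 + v2 - u‖
  n3 : 1 ≤ ‖d3 + v3 - u‖

/-- real apex `u` with legs at most `√3` -/
structure Rl (v1 v2 v3 u : ℂ) : Prop where
  rm : Rm v1 v2 v3 u
  un : ‖u‖ ≤ 709 / 1000
  lo : -(578 / 1000) ≤ u.im
  l1 : ‖d1 + v1 - u‖ ^ 2 ≤ 3
  l3 : ‖d3 + v3 - u‖ ^ 2 ≤ 3

/-- the facts (only the non-mirrored half; the mirrored half follows by reflection) -/
structure RealCert : Prop where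
  up1 : ∀ v1 v2 v3 u : ℂ, Rl v1 v2 v3 u → 0 < (d1 + v1 - u).im
  ray1 : ∀ v1 v2 v3 u : ℂ, Rl v1 v2 v3 u → 0 < (d1 + v1 - u).re
  l2 : ∀ v1 v2 v3 u : ℂ, Rl v1 v2 v3 u → ‖d2 + v2 - u‖ ^ 2 ≤ 3
  pair : ∀ v1 v2 v3 u : ℂ, Rl v1 v2 v3 u → ¬ (8 / 3 < ‖d1 + v1 - u‖ ^ 2 ∧ 8 / 3 < ‖d3 + v3 - u‖ ^ 2)
  R6 : ∀ v1 v2 v3 u : ℂ, Rl v1 v2 v3 u → 8 / 3 < ‖d1 + v1 - u‖ ^ 2 →
    386 / 1000 ≤ fanw (d1 + v1 - u) (d2 + v2 - u) (d3 + v3 - u) + Phi V30 (4 / 25) v1 v2 v3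
  free : ∀ v1 v2 v3 u : ℂ, Rl v1 v2 v3 u → 1 / 2 ≤ ‖u‖ →
    1 / 3 < fanw (d1 + v1 - u) (d2 + v2 - u) (d3 + v3 - u) + Phi V30 (4 / 25) v1 v2 v3
  M1 : ∀ v1 v2 v3 u : ℂ, Rm v1 v2 v3 u → ‖u‖ ≤ 1 / 2 → ‖d1 + v1 - u‖ ^ 2 ≤ 3
  C1 : ∀ v1 v2 v3 u : ℂ, Rl v1 v2 v3 u → ‖d1 + v1 - u‖ ^ 2 + ‖d3 + v3 - u‖ ^ 2 ≤ 103 / 20
  C2 : ∀ v1 v2 v3 u : ℂ, Rl v1 v2 v3 u → dt (d1 + v1 - u) (d3 + v3 - u) ≤ 9 / 10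
  C3 : ∀ v1 v2 v3 u : ℂ, Rl v1 v2 v3 u →
    dt (d1 + v1 - u) (d3 + v3 - u) + (‖d1 + v1 - u‖ ^ 2 + ‖d3 + v3 - u‖ ^ 2) / 4 ≤ 209 / 100

end Pool.Agent.H16.AP
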