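import Pool.Agent.H16.AP.RGL
import Pool.Agent.H84.P6.RS3
import Pool.Agent.H30.P6.VBt

/-!
# RG3: `RealSpec` for the certificate potential
-/

set_option autoImplicit false

open Set Real Finset MeasureTheory

noncomputable section

namespace Pool.Agent.H16.AP

open Pool.Agent.H20.AL Pool.Agent.H63.P6 Pool.Agent.H16.T3 Pool.Agent.H78.P6 Pool.Agent.H20.AP

open Pool.Agent.H30.P6 (V30 V30_self V30_nonneg V30_le_iff)

variable {X : Set ℂ} {k : Fin 3} {a y z : ℂ} {M : ℤ} {v1 v2 v3 u : ℂ}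

theorem free_of (H : Rl v1 v2 v3 u) (hu : 1 / 2 ≤ ‖u‖) :
    1 / 3 < fanw (d1 + v1 - u) (d2 + v2 - u) (d3 + v3 - u) + Phi V30 (4 / 25) v1 v2 v3 := by
  by_contra hc
  push Not at hc
  have h := (Pool.Agent.H30.P6.dp_main (by linarith [H.un]) H.rm.fr.V1 H.rm.fr.V2 H.rm.fr.V3 H.rm.n1 H.rm.n2 H.rm.n3
    H.rm.fr.e12 H.rm.fr.e23 hc le_rfl).1
  have := Pool.Agent.H30.P6.VB30.nrm _ h
  linarith

theorem Rm.rc (H : Rm v1 v2 v3 u) (hn : ‖u‖ ≤ 709 / 1000) (hlo : -(578 / 1000) ≤ u.im) :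
    Pool.Agent.H84.P6.RC u v1 v2 v3 :=
  ⟨H.fr.V1, H.fr.V2, H.fr.V3, H.fr.Ph, H.fr.e12, H.fr.e23, H.fr.e12', H.fr.e23', H.n1, H.n2, H.n3, hn, hlo⟩

theorem realSpec30 : RealSpec V30 (4 / 25) (147 / 100) := by
  intro X k a y M hX h hR hyX y1 y2 y3 hn hlo hsh
  have hfr := fr_of hX h hR
  obtain ⟨f1, f2, f3⟩ := frame h
  -- local coordinates
  have t1 : rho k * (g1 X k a - y) = d1 + w1 X k a - rho k * (y - a) := by rw [← r1]; ring
  have t2 : rho k * (g2 X k a - y) = d2 + w2 X k a - rho k * (y - a) := by rw [← r2]; ring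
  have t3 : rho k * (g3 X k a - y) = d3 + w3 X k a - rho k * (y - a) := by rw [← r3]; ring
  have n1 : 1 ≤ ‖g1 X k a - y‖ := ge_one hX f1.1 hyX y1.symm
  have n2 : 1 ≤ ‖g2 X k a - y‖ := ge_one hX f2.1 hyX y2.symm
  have n3 : 1 ≤ ‖g3 X k a - y‖ := ge_one hX f3.1 hyX y3.symm
  have q1 : ‖g1 X k a - y‖ = ‖d1 + w1 X k a - rho k * (y - a)‖ := by rw [← t1, nrm_rho]
  have q2 : ‖g2 X k a - y‖ = ‖d2 + w2 X k a - rho k * (y - a)‖ := by rw [← t2, nrm_rho]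
  have q3 : ‖g3 X k a - y‖ = ‖d3 + w3 X k a - rho k * (y - a)‖ := by rw [← t3, nrm_rho]
  have hm : Rm (w1 X k a) (w2 X k a) (w3 X k a) (rho k * (y - a)) := ⟨hfr, q1 ▸ n1, q2 ▸ n2, q3 ▸ n3⟩
  have hun : ‖rho k * (y - a)‖ = ‖y - a‖ := nrm_rho _ _
  obtain ⟨A, B, X1, Y1, X2, Y2, X3, Y3, V1, V2, V3, p, q, r, s, h', k', hco⟩ :=
    (hm.rc (by rw [hun]; exact hn) (by rw [rho_im]; exact hlo)).co
  have hlegs : ‖d1 + w1 X k a - rho k * (y - a)‖ ^ 2 ≤ 3 ∧ ‖d3 + w3 X k a - rho k * (y - a)‖ ^ 2 ≤ 3 := by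
    rcases hsh with h5 | h5
    · exact hco.mat (by rw [hun]; exact h5.le)
    · rw [← q1, ← q3]; exact h5
  have hl : Rl (w1 X k a) (w2 X k a) (w3 X k a) (rho k * (y - a)) :=
    ⟨hm, by rw [hun]; exact hn, by rw [rho_im]; exact hlo, hlegs.1, hlegs.2⟩
  have l1 : ‖g1 X k a - y‖ ^ 2 ≤ 3 := by rw [q1]; exact hlegs.1
  have l3 : ‖g3 X k a - y‖ ^ 2 ≤ 3 := by rw [q3]; exact hlegs.2
  have hr := hco.rays hlegs.1 hlegs.2
  have l2 : ‖g2 X k a - y‖ ^ 2 ≤ 3 := by rw [q2]; exact hr.l2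
  have c12 := hr.c12
  have c23 := hr.c23
  have c13 := hr.c13
  rw [← t1, ← t2, cr_rho] at c12
  rw [← t2, ← t3, cr_rho] at c23
  rw [← t1, ← t3, cr_rho] at c13
  have hfan : fanw (d1 + w1 X k a - rho k * (y - a)) (d2 + w2 X k a - rho k * (y - a))
      (d3 + w3 X k a - rho k * (y - a)) = fanY X k a y := by
    rw [← t1, ← t2, ← t3]
    unfold fanY fanw
    rw [cr_rho, cr_rho]
  have h3 := s3v
  have b21 : ‖g2 X k a - g1 X k a‖ ^ 2 ≤ 8 / 3 := by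
    have e : ‖g2 X k a - g1 X k a‖ = ‖(d2 + w2 X k a) - (d1 + w1 X k a)‖ := by
      rw [← r1, ← r2, ← mul_sub, nrm_rho, sub_sub_sub_cancel_right]
    rw [e]
    have := hfr.e12'
    have := norm_nonneg ((d2 + w2 X k a) - (d1 + w1 X k a))
    nlinarith
  have b32 : ‖g3 X k a - g2 X k a‖ ^ 2 ≤ 8 / 3 := by
    have e : ‖g3 X k a - g2 X k a‖ = ‖(d3 + w3 X k a) - (d2 + w2 X k a)‖ := by
      rw [← r3, ← r2, ← mul_sub, nrm_rho, sub_sub_sub_cancel_right]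
    rw [e]
    have := hfr.e23'
    have := norm_nonneg ((d3 + w3 X k a) - (d2 + w2 X k a))
    nlinarith
  refine ⟨⟨hyX, y1, y2, y3, hn, hlo, c12, c23, c13, ?_, ?_, ?_, ?_, l1, l3, ?_, ?_⟩, ?_, ?_, ?_⟩
  · rw [← rho_im, t1]; exact hr.up1
  · rw [← rho_im, t3]; exact hr.up3
  · rw [← dt_rho k, rho_E, t1]
    exact hr.s1
  · rw [← dt_rho k, rho_E2, t3]
    exact hr.s3
  · intro z hz hzq
    by_contra hc
    push Not at hc
    obtain ⟨z0, z1, z2, z3⟩ := hc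
    have m0 : 1 ≤ ‖z - y‖ := ge_one hX hz hyX z0
    have m1 : 1 ≤ ‖z - g1 X k a‖ := ge_one hX hz f1.1 z1
    have m2 : 1 ≤ ‖z - g2 X k a‖ := ge_one hX hz f2.1 z2
    have m3 : 1 ≤ ‖z - g3 X k a‖ := ge_one hX hz f3.1 z3
    rcases qd_sub _ _ _ _ hzq with g | g
    · exact tri_nx c12 g l1 l2 b21 m0 m1 m2
    · exact tri_nx c23 g l2 l3 b32 m0 m2 m3
  · intro z hz w hw hne hd hv hcr
    obtain ⟨z0, w0⟩ := hv y (Or.inl rfl)
    obtain ⟨z1, w1'⟩ := hv _ (Or.inr (Or.inl rfl))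
    obtain ⟨z3, w3'⟩ := hv _ (Or.inr (Or.inr rfl))
    refine hco.cross hlegs.1 hlegs.2 (y := y) (g := g1 X k a) (g' := g3 X k a) (z := z) (w := w)
      ⟨hcr, hX z hz y hyX z0, hX z hz _ f1.1 z1, hX z hz _ f3.1 z3, hX w hw y hyX w0, hX w hw _ f1.1 w1',
        hX w hw _ f3.1 w3'⟩ ?_ q1 q3 ?_ n1 n3
    · rw [← norm_neg, neg_sub]; exact hd
    · rw [← t1, ← t3, ← mul_sub, nrm_rho, sub_sub_sub_cancel_right]
  · have := hco.one hlegs.1 hlegs.2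
    rw [← q1, ← q3] at this
    exact this
  · intro hlong
    rw [q1, q3] at hlong
    have := hco.long hlegs.1 hlegs.2 hlong
    rw [hfan] at this
    exact this
  · intro hf
    have := free_of hl (by rw [hun]; exact hf)
    rw [hfan] at this
    exact this

end Pool.Agent.H16.AP
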