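import Pool.Agent.H16.AP.RCD
import Pool.Agent.H78.P6.CL

/-!
# RGL: `RealSpec` from the certificates of the real apex
-/

set_option autoImplicit false

open Set Real Finset MeasureTheory

noncomputable section

namespace Pool.Agent.H16.AP

open Pool.Agent.H20.AL Pool.Agent.H63.P6 Pool.Agent.H16.T3 Pool.Agent.H78.P6 Pool.Agent.H20.AP

open Pool.Agent.H30.P6 (V30 V30_self V30_nonneg V30_le_iff)
open Pool.Agent.H30.Q (mu mu_norm mu_re mu_im mu_cr mu_dt V30_mu m1 m2 m3 mu_sub mu_add mu_d1 mu_d2 mu_d3 Phi_mu fanw_mu mu_mu)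

variable {X : Set ℂ} {k : Fin 3} {a y z : ℂ} {M : ℤ} {v1 v2 v3 u : ℂ}

theorem Fr.mir' (H : Fr v1 v2 v3) : Fr (mu v3) (mu v2) (mu v1) where
  V1 := by rw [V30_mu]; exact H.V3
  V2 := by rw [V30_mu]; exact H.V2
  V3 := by rw [V30_mu]; exact H.V1
  Ph := by rw [Phi_mu]; exact H.Ph
  e12 := by rw [m1, m2, ← mu_sub, mu_norm, ← norm_neg, neg_sub]; exact H.e23
  e12' := by rw [m1, m2, ← mu_sub, mu_norm, ← norm_neg, neg_sub]; exact H.e23'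
  e23 := by rw [m3, m2, ← mu_sub, mu_norm, ← norm_neg, neg_sub]; exact H.e12
  e23' := by rw [m3, m2, ← mu_sub, mu_norm, ← norm_neg, neg_sub]; exact H.e12'

theorem Rm.mir' (H : Rm v1 v2 v3 u) : Rm (mu v3) (mu v2) (mu v1) (mu u) where
  fr := H.fr.mir'
  n1 := by rw [m1, ← mu_sub, mu_norm]; exact H.n3
  n2 := by rw [m2, ← mu_sub, mu_norm]; exact H.n2
  n3 := by rw [m3, ← mu_sub, mu_norm]; exact H.n1

theorem Rl.mir' (H : Rl v1 v2 v3 u) : Rl (mu v3) (mu v2) (mu v1) (mu u) where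
  rm := H.rm.mir'
  un := by rw [mu_norm]; exact H.un
  lo := H.lo
  l1 := by rw [m1, ← mu_sub, mu_norm]; exact H.l3
  l3 := by rw [m3, ← mu_sub, mu_norm]; exact H.l1

/-- no point of the packing in a closed triangle with short sides -/
theorem tri_nx {a b c z : ℂ} (h : 0 < cr (b - a) (c - a)) (hz : z ∈ CTri a b c) (l1 : ‖b - a‖ ^ 2 ≤ 3)
    (l2 : ‖c - a‖ ^ 2 ≤ 3) (l3 : ‖c - b‖ ^ 2 ≤ 8 / 3) (n1 : 1 ≤ ‖z - a‖) (n2 : 1 ≤ ‖z - b‖) (n3 : 1 ≤ ‖z - c‖) :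
    False := by
  obtain ⟨α, β, γ, ha, hb, hc, hs, hp⟩ := ctri_bary h hz
  have q1 : 1 ≤ ‖z - a‖ ^ 2 := by nlinarith
  have q2 : 1 ≤ ‖z - b‖ ^ 2 := by nlinarith
  have q3 : 1 ≤ ‖z - c‖ ^ 2 := by nlinarith
  have hα : α = 1 - β - γ := by linarith
  have e : α * ‖z - a‖ ^ 2 + β * ‖z - b‖ ^ 2 + γ * ‖z - c‖ ^ 2 =
      α * β * ‖b - a‖ ^ 2 + α * γ * ‖c - a‖ ^ 2 + β * γ * ‖c - b‖ ^ 2 := by
    rw [hp, nsq, nsq, nsq, nsq, nsq, nsq, hα]
    simp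
    ring
  have i1 := mul_le_mul_of_nonneg_left q1 ha
  have i2 := mul_le_mul_of_nonneg_left q2 hb
  have i3 := mul_le_mul_of_nonneg_left q3 hc
  have j1 := mul_le_mul_of_nonneg_left l1 (mul_nonneg ha hb)
  have j2 := mul_le_mul_of_nonneg_left l2 (mul_nonneg ha hc)
  have j3 := mul_le_mul_of_nonneg_left l3 (mul_nonneg hb hc)
  have key : 1 ≤ 3 * (α * β) + 3 * (α * γ) + 8 / 3 * (β * γ) := by linarith
  rw [hα] at key
  -- `3 (1 - s) s + 8/3 β γ ≥ 1` with `s = β + γ`, `β γ ≤ s ^ 2 / 4`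
  have k1 : β * γ ≤ (β + γ) ^ 2 / 4 := by nlinarith [sq_nonneg (β - γ)]
  nlinarith [sq_nonneg ((β + γ) - 9 / 14)]

/-- the legs are short -/
theorem shrt_of (rc : RealCert) (H : Rm v1 v2 v3 u) (hu : ‖u‖ ≤ 1 / 2) :
    ‖d1 + v1 - u‖ ^ 2 ≤ 3 ∧ ‖d3 + v3 - u‖ ^ 2 ≤ 3 := by
  refine ⟨rc.M1 _ _ _ _ H hu, ?_⟩
  have := rc.M1 _ _ _ _ H.mir' (by rwa [mu_norm])
  rwa [m1, ← mu_sub, mu_norm] at this

theorem sgn (rc : RealCert) (H : Rl v1 v2 v3 u) :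
    0 < (d1 + v1 - u).im ∧ 0 < (d1 + v1 - u).re ∧ 0 < (d3 + v3 - u).im ∧ (d3 + v3 - u).re < 0 := by
  have h1 := rc.up1 _ _ _ _ H
  have h2 := rc.ray1 _ _ _ _ H
  have h3 := rc.up1 _ _ _ _ H.mir'
  have h4 := rc.ray1 _ _ _ _ H.mir'
  rw [m1, ← mu_sub, mu_im] at h3
  rw [m1, ← mu_sub, mu_re] at h4
  exact ⟨h1, h2, h3, by linarith⟩

theorem dt_pos1 {A : ℂ} (h1 : 0 < A.re) (h2 : 0 < A.im) : 0 < dt A d1 := by
  have h3 := s3v
  unfold dt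
  simp only [d1]
  have := mul_pos h1 (show (0 : ℝ) < √3 / 2 by linarith)
  linarith

theorem dt_pos3 {A : ℂ} (h1 : A.re < 0) (h2 : 0 < A.im) : 0 < dt A d3 := by
  have h3 := s3v
  unfold dt
  simp only [d3]
  have := mul_pos (neg_pos.2 h1) (show (0 : ℝ) < √3 / 2 by linarith)
  linarith

/-- signs of the cross products -/
theorem crs (rc : RealCert) (H : Rl v1 v2 v3 u) :
    0 < cr (d1 + v1 - u) (d2 + v2 - u) ∧ 0 < cr (d2 + v2 - u) (d3 + v3 - u) ∧ 0 < cr (d1 + v1 - u) (d3 + v3 - u) := by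
  obtain ⟨p1, p2, p3, p4⟩ := sgn rc H
  obtain ⟨a1, a2, a3⟩ := v_box H.rm.fr.V1
  obtain ⟨b1, b2, b3⟩ := v_box H.rm.fr.V2
  obtain ⟨c1, c2, c3⟩ := v_box H.rm.fr.V3
  obtain ⟨a4, a5⟩ := abs_le.1 a1
  obtain ⟨b4, b5⟩ := abs_le.1 b1
  obtain ⟨c4, c5⟩ := abs_le.1 c1
  have h3 := s3v
  have e1 : (d2 + v2 - u).re < (d1 + v1 - u).re := by
    simp only [d1, d2, Complex.sub_re, Complex.add_re]; linarith
  have e2 : (d1 + v1 - u).im < (d2 + v2 - u).im := by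
    simp only [d1, d2, Complex.sub_im, Complex.add_im]; linarith
  have e3 : (d3 + v3 - u).re < (d2 + v2 - u).re := by
    simp only [d3, d2, Complex.sub_re, Complex.add_re]; linarith
  have e4 : (d3 + v3 - u).im < (d2 + v2 - u).im := by
    simp only [d3, d2, Complex.sub_im, Complex.add_im]; linarith
  set A := d1 + v1 - u
  set B := d2 + v2 - u
  set C := d3 + v3 - u
  unfold cr
  refine ⟨?_, ?_, ?_⟩
  · have := mul_lt_mul_of_pos_left e2 p2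
    have := mul_lt_mul_of_pos_left e1 p1
    linarith
  · have := mul_lt_mul_of_pos_right e3 p3
    have := mul_lt_mul_of_pos_left e4 (neg_pos.2 p4)
    linarith
  · have := mul_pos p2 p3
    have := mul_pos p1 (neg_pos.2 p4)
    linarith

theorem realSpec_of (rc : RealCert) : RealSpec V30 (4 / 25) (147 / 100) := by
  intro X k a y M hX h hR hyX y1 y2 y3 hn hlo hsh
  have hfr := fr_of hX h hR
  obtain ⟨f1, f2, f3⟩ := frame h
  -- local coordinates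
  have t1 : rho k * (g1 X k a - y) = d1 + w1 X k a - rho k * (y - a) := by rw [← r1]; ring
  have t2 : rho k * (g2 X k a - y) = d2 + w2 X k a - rho k * (y - a) := by rw [← r2]; ring
  have t3 : rho k * (g3 X k a - y) = d3 + w3 X k a - rho k * (y - a) := by rw [← r3]; ring
  have n1 : 1 ≤ ‖g1 X k a - y‖ := ge_one hX f1.1 hyX y1.symm
  have n2 : 1 ≤ ‖g2 X k a - y‖ := ge_one hX f2.1 hyX y2.symm
  have n3 : 1 ≤ ‖g3 X k a - y‖ := ge_one hX f3.1 hyX y3.symm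
  have q1 : ‖g1 X k a - y‖ = ‖d1 + w1 X k a - rho k * (y - a)‖ := by rw [← t1, nrm_rho]
  have q2 : ‖g2 X k a - y‖ = ‖d2 + w2 X k a - rho k * (y - a)‖ := by rw [← t2, nrm_rho]
  have q3 : ‖g3 X k a - y‖ = ‖d3 + w3 X k a - rho k * (y - a)‖ := by rw [← t3, nrm_rho]
  have hm : Rm (w1 X k a) (w2 X k a) (w3 X k a) (rho k * (y - a)) := ⟨hfr, q1 ▸ n1, q2 ▸ n2, q3 ▸ n3⟩
  have hun : ‖rho k * (y - a)‖ = ‖y - a‖ := nrm_rho _ _
  have hlegs : ‖d1 + w1 X k a - rho k * (y - a)‖ ^ 2 ≤ 3 ∧ ‖d3 + w3 X k a - rho k * (y - a)‖ ^ 2 ≤ 3 := by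
    rcases hsh with h5 | h5
    · exact shrt_of rc hm (by rw [hun]; exact h5.le)
    · rw [← q1, ← q3]; exact h5
  have hl : Rl (w1 X k a) (w2 X k a) (w3 X k a) (rho k * (y - a)) :=
    ⟨hm, by rw [hun]; exact hn, by rw [rho_im]; exact hlo, hlegs.1, hlegs.2⟩
  have l1 : ‖g1 X k a - y‖ ^ 2 ≤ 3 := by rw [q1]; exact hlegs.1
  have l3 : ‖g3 X k a - y‖ ^ 2 ≤ 3 := by rw [q3]; exact hlegs.2
  have l2 : ‖g2 X k a - y‖ ^ 2 ≤ 3 := by rw [q2]; exact rc.l2 _ _ _ _ hl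
  obtain ⟨s1, s2, s3, s4⟩ := sgn rc hl
  obtain ⟨c12, c23, c13⟩ := crs rc hl
  rw [← t1, ← t2, cr_rho] at c12
  rw [← t2, ← t3, cr_rho] at c23
  rw [← t1, ← t3, cr_rho] at c13
  have hfan : fanw (d1 + w1 X k a - rho k * (y - a)) (d2 + w2 X k a - rho k * (y - a))
      (d3 + w3 X k a - rho k * (y - a)) = fanY X k a y := by
    rw [← t1, ← t2, ← t3]
    unfold fanY fanw
    rw [cr_rho, cr_rho]
  have h3 := s3v
  have b21 : ‖g2 X k a - g1 X k a‖ ^ 2 ≤ 8 / 3 := by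
    have e : ‖g2 X k a - g1 X k a‖ = ‖(d2 + w2 X k a) - (d1 + w1 X k a)‖ := by
      rw [← r1, ← r2, ← mul_sub, nrm_rho, sub_sub_sub_cancel_right]
    rw [e]
    have := hfr.e12'
    have := norm_nonneg ((d2 + w2 X k a) - (d1 + w1 X k a))
    nlinarith
  have b32 : ‖g3 X k a - g2 X k a‖ ^ 2 ≤ 8 / 3 := by
    have e : ‖g3 X k a - g2 X k a‖ = ‖(d3 + w3 X k a) - (d2 + w2 X k a)‖ := by
      rw [← r3, ← r2, ← mul_sub, nrm_rho, sub_sub_sub_cancel_right]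
    rw [e]
    have := hfr.e23'
    have := norm_nonneg ((d3 + w3 X k a) - (d2 + w2 X k a))
    nlinarith
  refine ⟨⟨hyX, y1, y2, y3, hn, hlo, c12, c23, c13, ?_, ?_, ?_, ?_, l1, l3, ?_, ?_⟩, ?_, ?_, ?_⟩
  · rw [← rho_im, t1]; exact s1
  · rw [← rho_im, t3]; exact s3
  · rw [← dt_rho k, rho_E, t1]
    exact dt_pos1 s2 s1
  · rw [← dt_rho k, rho_E2, t3]
    exact dt_pos3 s4 s3
  · intro z hz hzq
    by_contra hc
    push Not at hc
    obtain ⟨z0, z1, z2, z3⟩ := hc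
    have m0 : 1 ≤ ‖z - y‖ := ge_one hX hz hyX z0
    have m1 : 1 ≤ ‖z - g1 X k a‖ := ge_one hX hz f1.1 z1
    have m2 : 1 ≤ ‖z - g2 X k a‖ := ge_one hX hz f2.1 z2
    have m3 : 1 ≤ ‖z - g3 X k a‖ := ge_one hX hz f3.1 z3
    rcases qd_sub _ _ _ _ hzq with g | g
    · exact tri_nx c12 g l1 l2 b21 m0 m1 m2
    · exact tri_nx c23 g l2 l3 b32 m0 m2 m3
  · intro z hz w hw hne hd hv hcr
    obtain ⟨z0, w0⟩ := hv y (Or.inl rfl)
    obtain ⟨z1, w1'⟩ := hv _ (Or.inr (Or.inl rfl))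
    obtain ⟨z3, w3'⟩ := hv _ (Or.inr (Or.inr rfl))
    have C1 := rc.C1 _ _ _ _ hl
    have C2 := rc.C2 _ _ _ _ hl
    have C3 := rc.C3 _ _ _ _ hl
    rw [← t1, ← t3, dt_rho] at C2 C3
    rw [nrm_rho, nrm_rho] at C3
    rw [← q1, ← q3] at C1
    refine no_leg (p := y) (a := g1 X k a) (c := g3 X k a) (z := z) (w := w)
      ⟨hcr, hX z hz y hyX z0, hX z hz _ f1.1 z1, hX z hz _ f3.1 z3, hX w hw y hyX w0, hX w hw _ f1.1 w1',
        hX w hw _ f3.1 w3'⟩ l1 l3 (by nlinarith) (by nlinarith) C1 C2 C3 ?_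
    rw [← norm_neg, neg_sub]; exact hd
  · have := rc.pair _ _ _ _ hl
    rw [← q1, ← q3] at this
    by_contra hc
    push Not at hc
    exact this hc
  · intro hlong
    rcases hlong with g | g
    · rw [q1] at g
      have := rc.R6 _ _ _ _ hl g
      rw [hfan] at this
      exact this
    · rw [q3] at g
      have := rc.R6 _ _ _ _ hl.mir' (by rw [m1, ← mu_sub, mu_norm]; exact g)
      rw [m1, m2, m3, ← mu_sub, ← mu_sub, ← mu_sub, fanw_mu, Phi_mu, hfan] at this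
      exact this
  · intro hf
    have := rc.free _ _ _ _ hl (by rw [hun]; exact hf)
    rw [hfan] at this
    exact this

end Pool.Agent.H16.AP
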