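import Pool.Agent.H16.AP.D2C
import Pool.Agent.H20.AP.PCS

/-!
# TOT: the total inequality for a configuration
-/

set_option autoImplicit false

open Set Real Finset MeasureTheory

noncomputable section

namespace Pool.Agent.H16.AP

open Pool.Agent.H20.AL Pool.Agent.H63.P6 Pool.Agent.H16.T3 Pool.Agent.H78.P6 Pool.Agent.H20.AP

variable {V : ℂ → ℝ} {κ el : ℝ} {X : Set ℂ} {a : Fin 3 → ℂ} {M : Fin 3 → ℤ} {c : ℂ} {act re : Fin 3 → Prop}
  {p : Fin 3 → ℂ}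

open Classical in
/-- accounting for the cell triangles and the apex pieces -/
theorem total {s : ℂ} (hs : s ∈ Lam) (g : ℂ → ℂ) (hfin : ((Lam \ {s}) ∩ {c | g c ≠ c}).Finite)
    (hg : ∀ c ∈ Lam \ {s}, ∀ d ∈ Lam \ {s}, c ≠ d → (1 : ℝ) ≤ dist (g c) (g d))
    (hXg : X = g '' (Lam \ {s})) (h : Cf V κ el X a M c act re p) (P : Fin 3 → Set ℂ) (C : Fin 3 → Finset (ℂ × ℂ × ℂ))
    (w : Fin 3 → ℝ) (hP : ∀ k, act k → Piece X (P k) (C k) ∧ P k ⊆ QK X a p k ∧ √3 / 2 * w k ≤ val (P k) (C k)) :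
    ∑ k, Rest X k (a k) (M k) + ∑ k ∈ Finset.univ.filter act, w k ≤ 1 := by
  classical
  set A : Finset (Fin 3) := Finset.univ.filter act with hA
  have hmA : ∀ {k}, k ∈ A → act k := fun hk => (Finset.mem_filter.1 hk).2
  -- the family
  set I : Finset (Cell ⊕ Fin 3) := (NI M).disjSum A with hI
  let PP : Cell ⊕ Fin 3 → Set ℂ := Sum.elim (fun q => T3 (NT X a q)) P
  let CC : Cell ⊕ Fin 3 → Finset (ℂ × ℂ × ℂ) := Sum.elim (fun q => Crn (NT X a q)) C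
  have hpc : ∀ i ∈ I, Piece X (PP i) (CC i) := by
    intro i hi
    rcases Finset.mem_disjSum.1 hi with ⟨q, hq, rfl⟩ | ⟨k, hk, rfl⟩
    · obtain ⟨h1, h2⟩ := mem_NI hq
      exact piece_tri h.sep (nt_good h.el2 h.ad h1 h2).2 (fun m => nt_mem h.ad h1 m (Or.inl h2))
    · exact (hP k (hmA hk)).1
  have hdis : ∀ i ∈ I, ∀ j ∈ I, i ≠ j → Disjoint (PP i) (PP j) := by
    intro i hi j hj hij
    rcases Finset.mem_disjSum.1 hi with ⟨q, hq, rfl⟩ | ⟨k, hk, rfl⟩ <;>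
    rcases Finset.mem_disjSum.1 hj with ⟨q', hq', rfl⟩ | ⟨l, hl, rfl⟩
    · obtain ⟨h1, h2⟩ := mem_NI hq
      obtain ⟨h3, h4⟩ := mem_NI hq'
      exact nt_disj h.sep h.el2 h.ad h.hc h1 h2 h3 h4 (fun e => hij (by rw [e]))
    · obtain ⟨h1, h2⟩ := mem_NI hq
      exact (fq_disj h (hmA hl) h1 h2).mono_right (hP l (hmA hl)).2.1
    · obtain ⟨h3, h4⟩ := mem_NI hq'
      exact ((fq_disj h (hmA hk) h3 h4).mono_right (hP k (hmA hk)).2.1).symm
    · exact (qq_disj h (fun e => hij (by rw [e])) (hmA hk) (hmA hl)).mono (hP k (hmA hk)).2.1 (hP l (hmA hl)).2.1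
  have key := al_pieces hs g hfin hg hXg I PP CC hpc hdis
  rw [hI, Finset.sum_disjSum] at key
  have k1 : ∑ q ∈ NI M, (A3 (NT X a q) / 2 - √3 / 4) ≤ ∑ q ∈ NI M, val (PP (Sum.inl q)) (CC (Sum.inl q)) := by
    refine Finset.sum_le_sum fun q hq => ?_
    obtain ⟨h1, h2⟩ := mem_NI hq
    exact val_tri (nt_good h.el2 h.ad h1 h2).2.1
  have k2 : ∑ k ∈ A, √3 / 2 * w k ≤ ∑ k ∈ A, val (PP (Sum.inr k)) (CC (Sum.inr k)) :=
    Finset.sum_le_sum fun k hk => (hP k (hmA hk)).2.2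
  rw [nt_sum (fun k => (h.ad k).one)] at k1
  rw [← Finset.mul_sum] at k2
  have k3 : √3 / 2 * (∑ k, Rest X k (a k) (M k) + ∑ k ∈ A, w k) ≤ √3 / 2 * 1 := by
    unfold Rest
    rw [mul_add, mul_one]
    linarith
  have s0 := sq3_pos
  exact le_of_mul_le_mul_left k3 (by positivity)

end Pool.Agent.H16.AP
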