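import Pool.Agent.H16.T3.TRN

/-!
# TR: transitivity of the orientation in an open half plane; header of the corner lemmas CX0 .. CX3
-/

set_option autoImplicit false

open Set Real

noncomputable section

namespace Pool.Agent.H16.AP

open Pool.Agent.H20.AL Pool.Agent.H16.T3

/-- transitivity in an open half plane -/
theorem tr3 {f x y z : ℂ} (hx : 0 < dt x f) (hy : 0 < dt y f) (hz : 0 < dt z f) (h1 : 0 < cr x y) (h2 : 0 < cr y z) :
    0 < cr x z := by
  have e : cr x z * dt y f = cr x y * dt z f + cr y z * dt x f := by simp [cr, dt]; ring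
  have h3 : 0 < cr x z * dt y f := by rw [e]; positivity
  exact (pos_iff_pos_of_mul_pos h3).2 hy

end Pool.Agent.H16.AP
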