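import Pool.Agent.H16.AP.VPP

/-!
# VCL: class V (no hits, both legs of length at least `1/√3`)
-/

set_option autoImplicit false

open Set Real Finset MeasureTheory

noncomputable section

namespace Pool.Agent.H16.AP

open Pool.Agent.H20.AL Pool.Agent.H63.P6 Pool.Agent.H16.T3 Pool.Agent.H78.P6 Pool.Agent.H20.AP

open Pool.Agent.H30.P6 (V30 V30_self V30_nonneg V30_le_iff)
open Pool.Agent.H30.Q (pB)

variable {X : Set ℂ} {k : Fin 3} {a z p : ℂ} {M : ℤ}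

theorem Vh_V30 (u : ℂ) : Pool.Agent.H84.P6.Vh u.re u.im ≤ V30 u := by
  have hs := V30_self u
  have h0 := V30_nonneg u
  have hp : (0:ℝ) < √3 := sq3_pos
  have h3 : √3 * √3 = 3 := Real.mul_self_sqrt (by norm_num)
  have e : u.re = √3 / 2 * (2 * u.re / √3) := by field_simp
  set Xc := 2 * u.re / √3 with hXc
  have e2 : u.re / √3 = Xc / 2 := by rw [hXc]; ring
  have e4 : √3 / 2 * u.re = 3 / 4 * Xc := by rw [e]; linear_combination (Xc / 4) * h3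
  have f1 := hs.f1
  have f4 := hs.f4
  have f5 := hs.f5
  have f6 := hs.f6
  have f7 := hs.f7
  have f8 := hs.f8
  have f9 := hs.f9
  have f12 := hs.f12
  refine Pool.Agent.H84.P6.Vh_le h0 ?_ ?_ ?_ ?_ ?_ ?_
  · linarith
  · rw [e2]
    rcases le_total u.im 0 with g | g
    · linarith
    · linarith
  · rw [show -u.re / √3 = -(u.re / √3) by ring, e2]
    rcases le_total u.im 0 with g | g
    · linarith
    · linarith
  · rw [e4]; linarith
  · rw [show -(√3 / 2) * u.re = -(√3 / 2 * u.re) by ring, e4]; linarith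
  · linarith

theorem rest_zero (h : ApexData V30 (4 / 25) (147 / 100) X k a M) (e1 : w1 X k a = 0) (e2 : w2 X k a = 0)
    (e3 : w3 X k a = 0) : Phi V30 (4 / 25) (w1 X k a) (w2 X k a) (w3 X k a) ≤ 0 := by
  have hV : V30 0 ≤ 0 := V30_le_iff.2 (by
    constructor <;> simp)
  have n12 : ‖(d2 + 0) - (d1 + 0)‖ = 1 := by
    have : ‖(d2 + 0) - (d1 + 0)‖ ^ 2 = 1 ^ 2 := by
      rw [nsq]
      simp only [d1, d2, add_zero, Complex.sub_re, Complex.sub_im]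
      have h3 : √3 ^ 2 = 3 := Real.sq_sqrt (by norm_num)
      nlinarith
    exact (sq_eq_sq₀ (norm_nonneg _) (by norm_num)).1 this
  have n23 : ‖(d3 + 0) - (d2 + 0)‖ = 1 := by
    have : ‖(d3 + 0) - (d2 + 0)‖ ^ 2 = 1 ^ 2 := by
      rw [nsq]
      simp only [d3, d2, add_zero, Complex.sub_re, Complex.sub_im]
      have h3 : √3 ^ 2 = 3 := Real.sq_sqrt (by norm_num)
      nlinarith
    exact (sq_eq_sq₀ (norm_nonneg _) (by norm_num)).1 this
  rw [e1, e2, e3]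
  unfold Phi sig
  rw [n12, n23]
  have d0 : ∀ d : ℂ, dt 0 d = 0 := fun d => by simp [dt]
  simp only [d0, neg_zero, max_self, sub_self, add_zero, mul_zero]
  exact hV

/-- class V -/
theorem classV (hX : Sep X) (h : ApexData V30 (4 / 25) (147 / 100) X k a M) (hno : ∀ z, ¬ Hit X k a z)
    (h1 : 1 / √3 ≤ ‖g1 X k a - a‖) (h3 : 1 / √3 ≤ ‖g3 X k a - a‖) :
    ∃ (P : Set ℂ) (C : Finset (ℂ × ℂ × ℂ)) (w : ℝ), Piece X P C ∧ P ⊆ Qo a (g1 X k a) (g2 X k a) (g3 X k a) ∧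
      √3 / 2 * w ≤ val P C ∧ 1 / 3 ≤ w + Rest X k a M ∧ (w + Rest X k a M ≤ 1 / 3 → Rest X k a M ≤ 0) := by
  obtain ⟨v1, v2, v3⟩ := v_le h
  obtain ⟨⟨e1, e2⟩, e3, e4⟩ := loc_e12 hX h
  have hA := qc_v h
  have c12 : 1 / 2 * ‖g1 X k a - a‖ ≤ cr (g1 X k a - a) (g2 X k a - a) := by
    have := Pool.Agent.H30.Q.g1_0 v1 v2 e1 e2
    rwa [← r1, ← r2, cr_rho, nrm_rho] at this
  have c23 : 1 / 2 * ‖g3 X k a - a‖ ≤ cr (g2 X k a - a) (g3 X k a - a) := by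
    have := Pool.Agent.H30.Q.g3_0 v2 v3 e3 e4
    rwa [← r2, ← r3, cr_rho, nrm_rho] at this
  have ha : dt (g1 X k a - a) (g3 X k a - a) ≤ -(3 / 8) * (‖g1 X k a - a‖ * ‖g3 X k a - a‖) := by
    have := V1_ang (V30_le_iff.1 v1) (V30_le_iff.1 v2) (V30_le_iff.1 v3) e1 e3
    rwa [← r1, ← r3, dt_rho, nrm_rho, nrm_rho] at this
  obtain ⟨P, C, q1, q2, q3⟩ := in_piece hX h (a_mem h) hA h1 h3 c12 c23 ha fun z hz => absurd hz (hno z)
  have hv := Pool.Agent.H84.P6.VOIDC (κ := 4 / 25) Vh_V30 (by norm_num) v1 v2 v3 e1 e3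
  have hphi := phi_le h
  have ef : fanw (d1 + w1 X k a) (d2 + w2 X k a) (d3 + w3 X k a) = fanY X k a a := by
    rw [← r1, ← r2, ← r3]
    unfold fanY fanw
    rw [cr_rho, cr_rho]
  have ea : Real.arccos (dt (d1 + w1 X k a) (d2 + w2 X k a) / (‖d1 + w1 X k a‖ * ‖d2 + w2 X k a‖))
      = Ag a (g1 X k a) (g2 X k a) := by
    rw [← r1, ← r2, dt_rho, nrm_rho, nrm_rho]; rfl
  have eb : Real.arccos (dt (d2 + w2 X k a) (d3 + w3 X k a) / (‖d2 + w2 X k a‖ * ‖d3 + w3 X k a‖))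
      = Ag a (g2 X k a) (g3 X k a) := by
    rw [← r2, ← r3, dt_rho, nrm_rho, nrm_rho]; rfl
  rw [ef, ea, eb] at hv
  refine ⟨P, C, _, q1, q2, q3, by linarith [hv.1], fun hle => ?_⟩
  obtain ⟨z1, z2, z3⟩ := hv.2 (le_antisymm (by linarith) hv.1)
  have hz := rest_zero h z1 z2 z3
  have hph0 : Phi V30 (4 / 25) (w1 X k a) (w2 X k a) (w3 X k a) ≤ 0 := hz
  linarith [hv.1]

end Pool.Agent.H16.AP
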