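import Pool.Agent.H16.AP.NCD
import Pool.Agent.H16.AP.CBX

/-!
# VIR: group of wedges with the same unmatched apex: `VirtSpec` from the certificates
-/

set_option autoImplicit false

open Set Real Finset MeasureTheory

noncomputable section

namespace Pool.Agent.H16.AP

open Pool.Agent.H20.AL Pool.Agent.H63.P6 Pool.Agent.H16.T3 Pool.Agent.H78.P6 Pool.Agent.H20.AP

open Pool.Agent.H30.P6 (V30 V30_self V30_nonneg V30_le_iff)
open Pool.Agent.H30.Q (pB FarH FarR mu mu_norm mu_re mu_im V30_mu m1 m3 mu_sub mu_mu mu_add mu_d1 mu_d2 mu_d3)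

/-- elementary facts about the frames of a neighbouring wedge (helper63) -/
structure OppCert : Prop where
  O1 : ∀ z : ℂ, V30 (om ^ 4 * z - d3) ≤ 1 / 3 → z.im ≤ -(11 / 20)
  O2 : ∀ (z v1 v3 : ℂ) (t : ℝ), V30 (om ^ 4 * z - d3) ≤ 1 / 3 → V30 v1 ≤ 1 / 3 → V30 v3 ≤ 1 / 3 → ‖z‖ ≤ 709 / 1000 →
    0 ≤ t → t ≤ 1 → (‖z - (t : ℂ) * (d1 + v1)‖ < 1 / √3 ∨ ‖z - (t : ℂ) * (d3 + v3)‖ < 1 / √3) → ‖z‖ ≤ 59 / 100
  O3 : ∀ z : ℂ, V30 (om ^ 4 * z - d3) ≤ 1 / 3 → V30 (om ^ 2 * z - d1) ≤ 1 / 3 → 2 / 3 ≤ ‖z‖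
  O4 : ∀ z v1 : ℂ, V30 (om ^ 4 * z - d3) ≤ 1 / 3 → V30 v1 ≤ 1 / 3 → ‖z‖ ≤ 59 / 100 → 1 ≤ ‖d1 + v1 - z‖ →
    1 / √3 ≤ ‖d1 + v1 - pB‖ ∧ 59 / 100 < ‖d1 + v1‖
  O5 : ∀ z y : ℂ, V30 (om ^ 4 * z - d3) ≤ 1 / 3 → ‖z‖ ≤ 59 / 100 → ‖y‖ ≤ 709 / 1000 → y.im ≤ -(1 / 5) → ‖y - z‖ < 1
  O7 : ∀ (m v1 : ℂ) (t : ℝ), V30 (om ^ 4 * m - d2) ≤ 1 / 3 → V30 v1 ≤ 1 / 3 → 0 ≤ t →
    1 / √3 ≤ ‖m - (t : ℂ) * (d1 + v1)‖

variable {X : Set ℂ} {k : Fin 3} {a z p : ℂ} {M : ℤ}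

theorem om_mul_mu (w : ℂ) : mu (om ^ 4 * w) = om ^ 2 * mu w := by
  have h2 : om ^ 2 = ⟨-(1 / 2), √3 / 2⟩ := by
    rw [om_sq]
    apply Complex.ext <;> simp [om] <;> norm_num
  have h4 : om ^ 4 = ⟨-(1 / 2), -(√3 / 2)⟩ := by
    have : om ^ 4 = om ^ 2 * om ^ 2 := by ring
    have s3 : √3 * √3 = 3 := Real.mul_self_sqrt (by norm_num)
    rw [this, h2]
    apply Complex.ext
    · simp only [Complex.mul_re]; nlinarith
    · simp only [Complex.mul_im]; ring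
  rw [h2, h4]
  apply Complex.ext
  · simp only [mu_re, mu_im, Complex.mul_re]; ring
  · simp only [mu_re, mu_im, Complex.mul_im]; ring

theorem m4 (z d e : ℂ) (hd : mu d = e) : om ^ 2 * z - e = mu (om ^ 4 * mu z - d) := by
  rw [mu_sub, om_mul_mu, mu_mu, hd]

theorem mu_smul (t : ℝ) (w : ℂ) : mu ((t : ℂ) * w) = (t : ℂ) * mu w := by
  apply Complex.ext <;> simp

namespace OppCert

theorem O1' (ho : OppCert) {z : ℂ} (h : V30 (om ^ 2 * z - d1) ≤ 1 / 3) : z.im ≤ -(11 / 20) := by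
  rw [m4 z d3 d1 mu_d3, V30_mu] at h
  exact ho.O1 (mu z) h

theorem O2' (ho : OppCert) {z v1 v3 : ℂ} {t : ℝ} (h : V30 (om ^ 2 * z - d1) ≤ 1 / 3) (h1 : V30 v1 ≤ 1 / 3)
    (h3 : V30 v3 ≤ 1 / 3) (hz : ‖z‖ ≤ 709 / 1000) (t0 : 0 ≤ t) (t1 : t ≤ 1)
    (hd : ‖z - (t : ℂ) * (d1 + v1)‖ < 1 / √3 ∨ ‖z - (t : ℂ) * (d3 + v3)‖ < 1 / √3) : ‖z‖ ≤ 59 / 100 := by
  rw [m4 z d3 d1 mu_d3, V30_mu] at h
  have := ho.O2 (mu z) (mu v3) (mu v1) t h (by rwa [V30_mu]) (by rwa [V30_mu]) (by rwa [mu_norm]) t0 t1 (by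
    rcases hd with g | g
    · right
      rw [m3, ← mu_smul, ← mu_sub, mu_norm]; exact g
    · left
      rw [m1, ← mu_smul, ← mu_sub, mu_norm]; exact g)
  rwa [mu_norm] at this

theorem O4' (ho : OppCert) {z v3 : ℂ} (h : V30 (om ^ 2 * z - d1) ≤ 1 / 3) (h3 : V30 v3 ≤ 1 / 3) (hz : ‖z‖ ≤ 59 / 100)
    (hd : 1 ≤ ‖d3 + v3 - z‖) : 1 / √3 ≤ ‖d3 + v3 - pB‖ ∧ 59 / 100 < ‖d3 + v3‖ := by
  rw [m4 z d3 d1 mu_d3, V30_mu] at h
  have := ho.O4 (mu z) (mu v3) h (by rwa [V30_mu]) (by rwa [mu_norm]) (by rw [m1, ← mu_sub, mu_norm]; exact hd)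
  rw [m1, mu_norm, ← Pool.Agent.H30.Q.mu_pB, ← mu_sub, mu_norm] at this
  exact this

theorem O5' (ho : OppCert) {z y : ℂ} (h : V30 (om ^ 2 * z - d1) ≤ 1 / 3) (hz : ‖z‖ ≤ 59 / 100) (hy : ‖y‖ ≤ 709 / 1000)
    (hi : y.im ≤ -(1 / 5)) : ‖y - z‖ < 1 := by
  rw [m4 z d3 d1 mu_d3, V30_mu] at h
  have := ho.O5 (mu z) (mu y) h (by rwa [mu_norm]) (by rwa [mu_norm]) hi
  rwa [← mu_sub, mu_norm] at this

theorem O7' (ho : OppCert) {m v3 : ℂ} {t : ℝ} (h : V30 (om ^ 2 * m - d2) ≤ 1 / 3) (h3 : V30 v3 ≤ 1 / 3) (t0 : 0 ≤ t) :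
    1 / √3 ≤ ‖m - (t : ℂ) * (d3 + v3)‖ := by
  rw [m4 m d2 d2 mu_d2, V30_mu] at h
  have := ho.O7 (mu m) (mu v3) t h (by rwa [V30_mu]) t0
  rwa [m1, ← mu_smul, ← mu_sub, mu_norm] at this

end OppCert

/-! ## rotation of the wedges -/

theorem rho_s1 (k : Fin 3) (w : ℂ) : rho (k + 1) * w = om ^ 4 * (rho k * w) := by
  have h6 : om ^ 6 = 1 := om_six
  have e : rho (k + 1) = om ^ 4 * rho k := by
    fin_cases k
    · change d1 * om ^ (6 - 2 * 1) = om ^ 4 * (d1 * om ^ (6 - 2 * 0))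
      norm_num
      rw [h6]; ring
    · change d1 * om ^ (6 - 2 * 2) = om ^ 4 * (d1 * om ^ (6 - 2 * 1))
      norm_num
      linear_combination (-(d1 * om ^ 2)) * h6
    · change d1 * om ^ (6 - 2 * 0) = om ^ 4 * (d1 * om ^ (6 - 2 * 2))
      norm_num
      ring
  rw [e]; ring

theorem rho_s2 (k : Fin 3) (w : ℂ) : rho (k + 2) * w = om ^ 2 * (rho k * w) := by
  have h6 : om ^ 6 = 1 := om_six
  have e : k + 2 = k + 1 + 1 := by rw [add_assoc]; rfl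
  rw [e, rho_s1, rho_s1]
  linear_combination (om ^ 2 * (rho k * w)) * h6

theorem g13 (X : Set ℂ) (k : Fin 3) (a : ℂ) : g1 X (k + 1) a = g3 X k a := by
  unfold g1 g3; rw [El0]

theorem g31 (X : Set ℂ) (k : Fin 3) (a : ℂ) : g3 X (k + 2) a = g1 X k a := by
  unfold g1 g3; rw [Er2]

theorem g13' (X : Set ℂ) (k : Fin 3) (a : ℂ) : g1 X (k + 2) a = g3 X (k + 1) a := by
  have e : k + 2 = k + 1 + 1 := by rw [add_assoc]; rfl
  rw [e, g13]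

/-- the frames of the wedge `k + 1` in the frame `k` -/
theorem nb1 (X : Set ℂ) (k : Fin 3) (a : ℂ) : om ^ 4 * (rho k * (g3 X (k + 1) a - a)) - d3 = w3 X (k + 1) a ∧
    om ^ 4 * (rho k * (g2 X (k + 1) a - a)) - d2 = w2 X (k + 1) a := by
  rw [← rho_s1, ← rho_s1, r3, r2]
  constructor <;> ring

/-- the frames of the wedge `k + 2` in the frame `k` -/
theorem nb2 (X : Set ℂ) (k : Fin 3) (a : ℂ) : om ^ 2 * (rho k * (g1 X (k + 2) a - a)) - d1 = w1 X (k + 2) a ∧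
    om ^ 2 * (rho k * (g2 X (k + 2) a - a)) - d2 = w2 X (k + 2) a := by
  rw [← rho_s2, ← rho_s2, r1, r2]
  constructor <;> ring

/-! ## a hit is a hit of a leg -/

theorem hit_leg (hX : Sep X) (h : ApexData V30 (4 / 25) (147 / 100) X k a M) (hz : Hit X k a z)
    (hi : dt (z - a) (E (kk k + 1)) ≤ -(1 / 5)) :
    ∃ t : ℝ, 0 ≤ t ∧ t ≤ 1 ∧ (‖rho k * (z - a) - (t : ℂ) * (d1 + w1 X k a)‖ < 1 / √3 ∨
      ‖rho k * (z - a) - (t : ℂ) * (d3 + w3 X k a)‖ < 1 / √3) := by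
  obtain ⟨hzX, z1, z2, z3, q, hq, hd⟩ := hz
  obtain ⟨u1, u2, u3⟩ := D1_far hX h hzX z1 z2 z3
  obtain ⟨l12, l23⟩ := D1_edges h le_rfl
  have hout : z ∉ Qd a (g1 X k a) (g2 X k a) (g3 X k a) := by
    intro hin
    have := qd_up h hin
    linarith
  obtain ⟨τ, σ, t0, t1, s0, s1, hh⟩ := exit4 (qc_v h) hq hout
  set b := q + (τ : ℂ) * (z - q) with hb
  have hdb : ‖z - b‖ < 1 / √3 := by
    have h1 : z - b = ((1 - τ : ℝ) : ℂ) * (z - q) := by rw [hb]; push_cast; ring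
    rw [h1, norm_mul, Complex.norm_real, Real.norm_of_nonneg (by linarith)]
    rw [dist_eq_norm] at hd
    have := norm_nonneg (z - q)
    nlinarith
  rcases hh with ⟨-, hh⟩ | ⟨-, hh⟩ | ⟨-, hh⟩ | ⟨-, hh⟩
  · refine ⟨σ, s0, s1, Or.inl ?_⟩
    rw [← r1]
    have e : rho k * (z - a) - (σ : ℂ) * (rho k * (g1 X k a - a)) = rho k * (z - b) := by rw [hh]; ring
    rw [e, nrm_rho]; exact hdb
  · exact (D1_base s0 s1 l12 u1 u2 hh hdb).elim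
  · exact (D1_base s0 s1 l23 u2 u3 hh hdb).elim
  · refine ⟨1 - σ, by linarith, by linarith, Or.inr ?_⟩
    rw [← r3]
    have e : rho k * (z - a) - ((1 - σ : ℝ) : ℂ) * (rho k * (g3 X k a - a)) = rho k * (z - b) := by
      rw [hh]; push_cast; ring
    rw [e, nrm_rho]; exact hdb

/-- distance from a line through the apex -/
theorem line_far {x m : ℂ} {t : ℝ} (h : 29 / 50 * ‖x‖ ≤ cr x m ∨ 29 / 50 * ‖x‖ ≤ cr m x) (hx : 0 < ‖x‖) :
    1 / √3 ≤ ‖m - (t : ℂ) * x‖ := by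
  have e : cr x (m - (t : ℂ) * x) = cr x m := by simp [cr]; ring
  have e' : cr m x = -cr x m := by simp [cr]; ring
  have hl := lag x (m - (t : ℂ) * x)
  have h1 : (29 / 50 * ‖x‖) ^ 2 ≤ cr x m ^ 2 := by
    rcases h with g | g
    · exact pow_le_pow_left₀ (by positivity) g 2
    · rw [e'] at g
      have := pow_le_pow_left₀ (by positivity) g 2
      rwa [neg_sq] at this
  have h2 : (29 / 50) ^ 2 ≤ ‖m - (t : ℂ) * x‖ ^ 2 := by
    rw [e] at hl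
    have h3 : ‖x‖ ^ 2 * (29 / 50) ^ 2 ≤ ‖x‖ ^ 2 * ‖m - (t : ℂ) * x‖ ^ 2 := by nlinarith [sq_nonneg (dt x (m - (t : ℂ) * x))]
    exact le_of_mul_le_mul_left h3 (by positivity)
  have h3 : 29 / 50 ≤ ‖m - (t : ℂ) * x‖ := by
    by_contra hc
    push Not at hc
    have := norm_nonneg (m - (t : ℂ) * x)
    nlinarith
  exact inv3_50.trans h3

/-- the middle frame of the wedge `k + 1` does not hit the wedge `k` -/
theorem mid1 (hc : NearCert) (ho : OppCert) (hX : Sep X) {M' : ℤ} (h : ApexData V30 (4 / 25) (147 / 100) X k a M)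
    (h' : ApexData V30 (4 / 25) (147 / 100) X (k + 1) a M') (hR' : Rest X (k + 1) a M' ≤ 1 / 3)
    (hh : ∀ z, Hit X k a z → ‖z - a‖ ≤ 709 / 1000 ∧ dt (z - a) (E (kk k + 1)) ≤ -(1 / 5)) :
    ¬ Hit X k a (g2 X (k + 1) a) := by
  intro hz
  obtain ⟨t, t0, t1, ht⟩ := hit_leg hX h hz (hh _ hz).2
  obtain ⟨v1, v2, v3⟩ := v_le h
  obtain ⟨v1', v2', v3'⟩ := v_le h'
  rcases ht with ht | ht
  · have := ho.O7 _ (w1 X k a) t (by rw [(nb1 X k a).2]; exact v2') v1 t0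
    linarith
  · have hG := hc.G1r _ _ _ (fr_of hX h' hR')
    rw [← r1, ← r2, cr_rho, nrm_rho, g13] at hG
    have hpos : 0 < ‖g3 X k a - a‖ := by
      rw [norm_pos_iff]
      intro e0
      have := (qc_v h).cpa
      rw [e0] at this
      simp [cr] at this
    have := line_far (t := t) (Or.inl hG) hpos
    have e : rho k * (g2 X (k + 1) a - a) - (t : ℂ) * (d3 + w3 X k a) =
        rho k * (g2 X (k + 1) a - a - (t : ℂ) * (g3 X k a - a)) := by rw [← r3]; ring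
    rw [e, nrm_rho] at ht
    linarith

/-- the middle frame of the wedge `k + 2` does not hit the wedge `k` -/
theorem mid2 (hc : NearCert) (ho : OppCert) (hX : Sep X) {M' : ℤ} (h : ApexData V30 (4 / 25) (147 / 100) X k a M)
    (h' : ApexData V30 (4 / 25) (147 / 100) X (k + 2) a M') (hR' : Rest X (k + 2) a M' ≤ 1 / 3)
    (hh : ∀ z, Hit X k a z → ‖z - a‖ ≤ 709 / 1000 ∧ dt (z - a) (E (kk k + 1)) ≤ -(1 / 5)) :
    ¬ Hit X k a (g2 X (k + 2) a) := by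
  intro hz
  obtain ⟨t, t0, t1, ht⟩ := hit_leg hX h hz (hh _ hz).2
  obtain ⟨v1, v2, v3⟩ := v_le h
  obtain ⟨v1', v2', v3'⟩ := v_le h'
  rcases ht with ht | ht
  · have hG := hc.G3r _ _ _ (fr_of hX h' hR')
    rw [← r3, ← r2, cr_rho, nrm_rho, g31] at hG
    have hpos : 0 < ‖g1 X k a - a‖ := by
      rw [norm_pos_iff]
      intro e0
      have := (qc_v h).cpa
      rw [e0] at this
      simp [cr] at this
    have := line_far (t := t) (Or.inr hG) hpos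
    have e : rho k * (g2 X (k + 2) a - a) - (t : ℂ) * (d1 + w1 X k a) =
        rho k * (g2 X (k + 2) a - a - (t : ℂ) * (g1 X k a - a)) := by rw [← r1]; ring
    rw [e, nrm_rho] at ht
    linarith
  · have := ho.O7' (m := rho k * (g2 X (k + 2) a - a)) (v3 := w3 X k a) (t := t)
      (by rw [(nb2 X k a).2]; exact v2') v3 t0
    linarith

end Pool.Agent.H16.AP
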