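import Pool.Agent.H16.AP.VIR

/-!
# VIS: `VirtSpec` from the certificates, assembly
-/

set_option autoImplicit false

open Set Real Finset MeasureTheory

noncomputable section

namespace Pool.Agent.H16.AP

open Pool.Agent.H20.AL Pool.Agent.H63.P6 Pool.Agent.H16.T3 Pool.Agent.H78.P6 Pool.Agent.H20.AP

open Pool.Agent.H30.P6 (V30)
open Pool.Agent.H30.Q (pB FarH FarR)

variable {X : Set ℂ} {k : Fin 3} {a z : ℂ} {M M' : ℤ}

/-- output for one wedge with cost at least `c` -/
def WOut (X : Set ℂ) (k : Fin 3) (a : ℂ) (M : ℤ) (c : ℝ) : Prop :=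
  ∃ (P : Set ℂ) (C : Finset (ℂ × ℂ × ℂ)) (w : ℝ), Piece X P C ∧ P ⊆ Qo a (g1 X k a) (g2 X k a) (g3 X k a) ∧
    √3 / 2 * w ≤ val P C ∧ c ≤ w + Rest X k a M

/-- facts about the hits -/
def HFc (X : Set ℂ) (k : Fin 3) (a : ℂ) : Prop :=
  ∀ z, Hit X k a z → ‖z - a‖ ≤ 709 / 1000 ∧ dt (z - a) (E (kk k + 1)) ≤ -(1 / 5)

/-- a wedge without short hits -/
theorem noS (hc : NearCert) (hX : Sep X) (h : ApexData V30 (4 / 25) (147 / 100) X k a M) (hR : Rest X k a M ≤ 1 / 3)
    (hh : HFc X k a) (hs : ∀ z, Hit X k a z → ¬ Shrt X k a z) :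
    ∃ (P : Set ℂ) (C : Finset (ℂ × ℂ × ℂ)) (w : ℝ), Piece X P C ∧ P ⊆ Qo a (g1 X k a) (g2 X k a) (g3 X k a) ∧
      √3 / 2 * w ≤ val P C ∧ 1 / 3 ≤ w + Rest X k a M ∧
      (w + Rest X k a M ≤ 1 / 3 → Rest X k a M ≤ 0 ∧ ∀ z, ¬ Hit X k a z) := by
  by_cases hex : ∃ z, Hit X k a z
  · obtain ⟨P, C, w, h1, h2, h3, h4⟩ := classB hX h hR hh hex hs
    exact ⟨P, C, w, h1, h2, h3, h4.le, fun h5 => absurd h5 (not_le.2 h4)⟩
  · have hno : ∀ z, ¬ Hit X k a z := fun z hz => hex ⟨z, hz⟩
    have i3 := inv3_50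
    by_cases c1 : 1 / √3 ≤ ‖g1 X k a - a‖
    · by_cases c3 : 1 / √3 ≤ ‖g3 X k a - a‖
      · obtain ⟨P, C, w, h1, h2, h3, h4, h5⟩ := classV hX h hno c1 c3
        exact ⟨P, C, w, h1, h2, h3, h4, fun h6 => ⟨h5 h6, hno⟩⟩
      · push Not at c3
        obtain ⟨P, C, w, h1, h2, h3, h4⟩ := classN3 hc hX h hR hno (by linarith)
        exact ⟨P, C, w, h1, h2, h3, by linarith, fun h6 => by linarith⟩
    · push Not at c1
      obtain ⟨P, C, w, h1, h2, h3, h4⟩ := classN1 hc hX h hR hno (by linarith)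
      exact ⟨P, C, w, h1, h2, h3, by linarith, fun h6 => by linarith⟩

theorem k12 (k : Fin 3) : k + 1 + 2 = k := by fin_cases k <;> rfl
theorem k21 (k : Fin 3) : k + 2 + 1 = k := by fin_cases k <;> rfl

theorem pv_dist (k : Fin 3) (a : ℂ) : ‖pv k a - a‖ = 1 / 20 := by
  have e : rho k * (pv k a - a) = -(rho k * (a - pv k a)) := by ring
  rw [← nrm_rho k, e, rho_pv, norm_neg]
  simp only [sub_self, mul_zero, zero_sub, norm_neg]
  exact pB_norm

/-! ## the opposite frame is the third frame of `k + 1` -/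

theorem near1 (ho : OppCert) (hX : Sep X) (h : ApexData V30 (4 / 25) (147 / 100) X k a M)
    (h' : ApexData V30 (4 / 25) (147 / 100) X (k + 1) a M') (hh : HFc X k a) (hz : Hit X k a (g3 X (k + 1) a)) :
    ‖g3 X (k + 1) a - a‖ ≤ 59 / 100 := by
  obtain ⟨t, t0, t1, ht⟩ := hit_leg hX h hz (hh _ hz).2
  obtain ⟨v1, v2, v3⟩ := v_le h
  obtain ⟨-, -, v3'⟩ := v_le h'
  have := ho.O2 (rho k * (g3 X (k + 1) a - a)) _ _ t (by rw [(nb1 X k a).1]; exact v3') v1 v3
    (by rw [nrm_rho]; exact (hh _ hz).1) t0 t1 ht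
  rwa [nrm_rho] at this

theorem nohit1 (hc : NearCert) (ho : OppCert) (hX : Sep X) (h : ApexData V30 (4 / 25) (147 / 100) X k a M)
    (hR : Rest X k a M ≤ 1 / 3)
    (h' : ApexData V30 (4 / 25) (147 / 100) X (k + 1) a M') (hR' : Rest X (k + 1) a M' ≤ 1 / 3)
    (hh' : HFc X (k + 1) a) (hz : Hit X k a (g3 X (k + 1) a))
    (hn : ‖g3 X (k + 1) a - a‖ ≤ 59 / 100)
    (hsh : ∀ y, Hit X (k + 1) a y → Shrt X (k + 1) a y → y = g1 X k a ∨ y = g2 X k a ∨ y = g3 X k a) :
    ∀ y, ¬ Hit X (k + 1) a y := by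
  intro y hy
  obtain ⟨v1, v2, v3⟩ := v_le h
  obtain ⟨v1', v2', v3'⟩ := v_le h'
  by_cases hs : Shrt X (k + 1) a y
  · rcases hsh y hy hs with e | e | e
    · -- the first frame of `k` is the first frame of `(k + 1) + 2`
      subst e
      obtain ⟨t, t0, t1, ht⟩ := hit_leg hX h' hy (hh' _ hy).2
      have hnb := (nb2 X (k + 1) a).1
      rw [k12] at hnb
      have := ho.O2' (z := rho (k + 1) * (g1 X k a - a)) (by rw [hnb]; exact v1) v1' v3'
        (by rw [nrm_rho]; exact (hh' _ hy).1) t0 t1 ht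
      rw [nrm_rho] at this
      have h4 := (ho.O4 (rho k * (g3 X (k + 1) a - a)) (w1 X k a) (by rw [(nb1 X k a).1]; exact v3') v1
        (by rw [nrm_rho]; exact hn) (hit_norms hX h hz).1).2
      rw [← r1, nrm_rho] at h4
      linarith
    · subst e
      have := mid2 hc ho hX (k := k + 1) (M := M') (M' := M) h' (by rw [k12]; exact h) (by rw [k12]; exact hR) hh'
      rw [k12] at this
      exact this hy
    · rw [← g13] at e
      exact hy.2.1 e
  · unfold Shrt at hs
    rw [not_and_or, not_le, not_le] at hs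
    rcases hs with hs | hs
    · have hF := (farH_of hX h' hR' hy (hh' _ hy).1 (hh' _ hy).2 hs).1
      have h4 := hF.B4
      have h5 : ‖d3 + w3 X (k + 1) a - pB‖ ≤ ‖d3 + w3 X (k + 1) a‖ + ‖pB‖ := norm_sub_le _ _
      rw [pB_norm, ← r3, nrm_rho] at h5
      rw [← r3] at h4
      linarith
    · have h5 : ‖g3 X (k + 1) a - y‖ ≤ ‖g3 X (k + 1) a - a‖ + ‖y - a‖ := by
        have : g3 X (k + 1) a - y = (g3 X (k + 1) a - a) - (y - a) := by ring
        rw [this]; exact norm_sub_le _ _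
      have h6 := (hh' _ hy).1
      have h7 := norm_nonneg (g3 X (k + 1) a - y)
      nlinarith

theorem pair1 (hc : NearCert) (ho : OppCert) (hX : Sep X) (h : ApexData V30 (4 / 25) (147 / 100) X k a M)
    (hR : Rest X k a M ≤ 1 / 3)
    (h' : ApexData V30 (4 / 25) (147 / 100) X (k + 1) a M') (hR' : Rest X (k + 1) a M' ≤ 1 / 3)
    (hh : HFc X k a) (hh' : HFc X (k + 1) a) (hz : Hit X k a (g3 X (k + 1) a))
    (hsh : ∀ y, Hit X (k + 1) a y → Shrt X (k + 1) a y → y = g1 X k a ∨ y = g2 X k a ∨ y = g3 X k a) :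
    WOut X k a M (2674 / 10000) ∧ WOut X (k + 1) a M' (3997 / 10000) := by
  have hn := near1 ho hX h h' hh hz
  obtain ⟨v1, v2, v3⟩ := v_le h
  obtain ⟨v1', v2', v3'⟩ := v_le h'
  have hv : V30 (om ^ 4 * (rho k * (g3 X (k + 1) a - a)) - d3) ≤ 1 / 3 := by rw [(nb1 X k a).1]; exact v3'
  have hn' : ‖rho k * (g3 X (k + 1) a - a)‖ ≤ 59 / 100 := by rw [nrm_rho]; exact hn
  constructor
  · refine classS hc hX h hR (fun y hy => ?_) ?_ ?_
    · have e : y = g3 X (k + 1) a := by
        by_contra hne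
        have h1 := ge_one hX hy.1 hz.1 hne
        have h2 := ho.O5 _ (rho k * (y - a)) hv hn' (by rw [nrm_rho]; exact (hh _ hy).1)
          (by rw [rho_im]; exact (hh _ hy).2)
        rw [← mul_sub, nrm_rho, sub_sub_sub_cancel_right] at h2
        linarith
      rw [e]
      exact ho.O1 _ hv
    · have := (ho.O4 _ _ hv v1 hn' (hit_norms hX h hz).1).1
      rwa [← rp1, nrm_rho] at this
    · have hL := hc.L1 _ _ _ (fr_of hX h' hR') (by rw [← r3, nrm_rho]; exact hn)
      rw [← r1, nrm_rho, g13] at hL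
      have h5 : ‖g3 X k a - a‖ ≤ ‖g3 X k a - pv k a‖ + ‖pv k a - a‖ := by
        have : g3 X k a - a = (g3 X k a - pv k a) + (pv k a - a) := by ring
        rw [this]; exact norm_add_le _ _
      rw [pv_dist] at h5
      have := inv3_50
      linarith
  · exact classN3 hc hX h' hR' (nohit1 hc ho hX h hR h' hR' hh' hz hn hsh) hn

/-! ## the opposite frame is the first frame of `k + 2` -/

theorem near2 (ho : OppCert) (hX : Sep X) (h : ApexData V30 (4 / 25) (147 / 100) X k a M)
    (h' : ApexData V30 (4 / 25) (147 / 100) X (k + 2) a M') (hh : HFc X k a) (hz : Hit X k a (g1 X (k + 2) a)) :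
    ‖g1 X (k + 2) a - a‖ ≤ 59 / 100 := by
  obtain ⟨t, t0, t1, ht⟩ := hit_leg hX h hz (hh _ hz).2
  obtain ⟨v1, v2, v3⟩ := v_le h
  obtain ⟨v1', -, -⟩ := v_le h'
  have := ho.O2' (z := rho k * (g1 X (k + 2) a - a)) (by rw [(nb2 X k a).1]; exact v1') v1 v3
    (by rw [nrm_rho]; exact (hh _ hz).1) t0 t1 ht
  rwa [nrm_rho] at this

theorem nohit2 (hc : NearCert) (ho : OppCert) (hX : Sep X) (h : ApexData V30 (4 / 25) (147 / 100) X k a M)
    (hR : Rest X k a M ≤ 1 / 3)
    (h' : ApexData V30 (4 / 25) (147 / 100) X (k + 2) a M') (hR' : Rest X (k + 2) a M' ≤ 1 / 3)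
    (hh' : HFc X (k + 2) a) (hz : Hit X k a (g1 X (k + 2) a))
    (hn : ‖g1 X (k + 2) a - a‖ ≤ 59 / 100)
    (hsh : ∀ y, Hit X (k + 2) a y → Shrt X (k + 2) a y → y = g1 X k a ∨ y = g2 X k a ∨ y = g3 X k a) :
    ∀ y, ¬ Hit X (k + 2) a y := by
  intro y hy
  obtain ⟨v1, v2, v3⟩ := v_le h
  obtain ⟨v1', v2', v3'⟩ := v_le h'
  by_cases hs : Shrt X (k + 2) a y
  · rcases hsh y hy hs with e | e | e
    · rw [← g31] at e
      exact hy.2.2.2.1 e
    · subst e
      have := mid1 hc ho hX (k := k + 2) (M := M') (M' := M) h' (by rw [k21]; exact h) (by rw [k21]; exact hR) hh'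
      rw [k21] at this
      exact this hy
    · subst e
      obtain ⟨t, t0, t1, ht⟩ := hit_leg hX h' hy (hh' _ hy).2
      have hnb := (nb1 X (k + 2) a).1
      rw [k21] at hnb
      have := ho.O2 (rho (k + 2) * (g3 X k a - a)) _ _ t (by rw [hnb]; exact v3) v1' v3'
        (by rw [nrm_rho]; exact (hh' _ hy).1) t0 t1 ht
      rw [nrm_rho] at this
      have h4 := (ho.O4' (z := rho k * (g1 X (k + 2) a - a)) (v3 := w3 X k a) (by rw [(nb2 X k a).1]; exact v1') v3
        (by rw [nrm_rho]; exact hn) (hit_norms hX h hz).2.2).2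
      rw [← r3, nrm_rho] at h4
      linarith
  · unfold Shrt at hs
    rw [not_and_or, not_le, not_le] at hs
    rcases hs with hs | hs
    · have h5 : ‖g1 X (k + 2) a - y‖ ≤ ‖g1 X (k + 2) a - a‖ + ‖y - a‖ := by
        have : g1 X (k + 2) a - y = (g1 X (k + 2) a - a) - (y - a) := by ring
        rw [this]; exact norm_sub_le _ _
      have h6 := (hh' _ hy).1
      have h7 := norm_nonneg (g1 X (k + 2) a - y)
      nlinarith
    · have hF := (farR_of hX h' hR' hy (hh' _ hy).1 (hh' _ hy).2 hs).1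
      have h4 := hF.B4
      have h5 : ‖d1 + w1 X (k + 2) a - pB‖ ≤ ‖d1 + w1 X (k + 2) a‖ + ‖pB‖ := norm_sub_le _ _
      rw [pB_norm, ← r1, nrm_rho] at h5
      rw [← r1] at h4
      linarith

theorem pair2 (hc : NearCert) (ho : OppCert) (hX : Sep X) (h : ApexData V30 (4 / 25) (147 / 100) X k a M)
    (hR : Rest X k a M ≤ 1 / 3)
    (h' : ApexData V30 (4 / 25) (147 / 100) X (k + 2) a M') (hR' : Rest X (k + 2) a M' ≤ 1 / 3)
    (hh : HFc X k a) (hh' : HFc X (k + 2) a) (hz : Hit X k a (g1 X (k + 2) a))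
    (hsh : ∀ y, Hit X (k + 2) a y → Shrt X (k + 2) a y → y = g1 X k a ∨ y = g2 X k a ∨ y = g3 X k a) :
    WOut X k a M (2674 / 10000) ∧ WOut X (k + 2) a M' (3997 / 10000) := by
  have hn := near2 ho hX h h' hh hz
  obtain ⟨v1, v2, v3⟩ := v_le h
  obtain ⟨v1', v2', v3'⟩ := v_le h'
  have hv : V30 (om ^ 2 * (rho k * (g1 X (k + 2) a - a)) - d1) ≤ 1 / 3 := by rw [(nb2 X k a).1]; exact v1'
  have hn' : ‖rho k * (g1 X (k + 2) a - a)‖ ≤ 59 / 100 := by rw [nrm_rho]; exact hn
  constructor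
  · refine classS hc hX h hR (fun y hy => ?_) ?_ ?_
    · have e : y = g1 X (k + 2) a := by
        by_contra hne
        have h1 := ge_one hX hy.1 hz.1 hne
        have h2 := ho.O5' (y := rho k * (y - a)) hv hn' (by rw [nrm_rho]; exact (hh _ hy).1)
          (by rw [rho_im]; exact (hh _ hy).2)
        rw [← mul_sub, nrm_rho, sub_sub_sub_cancel_right] at h2
        linarith
      rw [e]
      exact ho.O1' hv
    · have hL := hc.L3 _ _ _ (fr_of hX h' hR') (by rw [← r1, nrm_rho]; exact hn)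
      rw [← r3, nrm_rho, g31] at hL
      have h5 : ‖g1 X k a - a‖ ≤ ‖g1 X k a - pv k a‖ + ‖pv k a - a‖ := by
        have : g1 X k a - a = (g1 X k a - pv k a) + (pv k a - a) := by ring
        rw [this]; exact norm_add_le _ _
      rw [pv_dist] at h5
      have := inv3_50
      linarith
    · have := (ho.O4' hv v3 hn' (hit_norms hX h hz).2.2).1
      rwa [← rp3, nrm_rho] at this
  · exact classN1 hc hX h' hR' (nohit2 hc ho hX h hR h' hR' hh' hz hn hsh) hn

/-- the third wedge cannot share the near frame -/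
theorem third (ho : OppCert) (h' : ApexData V30 (4 / 25) (147 / 100) X (k + 1) a M)
    (h'' : ApexData V30 (4 / 25) (147 / 100) X (k + 2) a M') : 2 / 3 ≤ ‖g3 X (k + 1) a - a‖ := by
  obtain ⟨-, -, v3'⟩ := v_le h'
  obtain ⟨v1'', -, -⟩ := v_le h''
  have := ho.O3 (rho k * (g3 X (k + 1) a - a)) (by rw [(nb1 X k a).1]; exact v3') (by
    rw [← g13', (nb2 X k a).1]; exact v1'')
  rwa [nrm_rho] at this

/-- two wedges -/
theorem two_out {W : Finset (Fin 3)} {M : Fin 3 → ℤ} {z0 : ℂ} {k l : Fin 3} (hkl : k ≠ l) (hW : W = {k, l})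
    (h1 : WOut X k z0 (M k) (2674 / 10000)) (h2 : WOut X l z0 (M l) (3997 / 10000)) :
    ∃ (P : Fin 3 → Set ℂ) (C : Fin 3 → Finset (ℂ × ℂ × ℂ)) (w : Fin 3 → ℝ),
      (∀ k ∈ W, Piece X (P k) (C k) ∧ P k ⊆ Qo z0 (g1 X k z0) (g2 X k z0) (g3 X k z0) ∧
        √3 / 2 * w k ≤ val (P k) (C k)) ∧
      (W.card : ℝ) / 3 ≤ ∑ k ∈ W, (w k + Rest X k z0 (M k)) ∧
      (∑ k ∈ W, (w k + Rest X k z0 (M k)) ≤ (W.card : ℝ) / 3 →
        ∀ k ∈ W, Rest X k z0 (M k) ≤ 0 ∧ ∀ z, ¬ Hit X k z0 z) := by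
  obtain ⟨P1, C1, x1, a1, a2, a3, a4⟩ := h1
  obtain ⟨P2, C2, x2, b1, b2, b3, b4⟩ := h2
  have hcard : (W.card : ℝ) = 2 := by
    rw [hW, Finset.card_pair hkl]; norm_num
  have hs : ∑ j ∈ W, ((if j = k then x1 else x2) + Rest X j z0 (M j)) = (x1 + Rest X k z0 (M k)) + (x2 + Rest X l z0 (M l)) := by
    rw [hW, Finset.sum_pair hkl, if_pos rfl, if_neg hkl.symm]
  refine ⟨fun j => if j = k then P1 else P2, fun j => if j = k then C1 else C2, fun j => if j = k then x1 else x2, ?_, ?_, ?_⟩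
  · intro j hj
    rw [hW, Finset.mem_insert, Finset.mem_singleton] at hj
    rcases hj with rfl | rfl
    · simp only [if_true]
      exact ⟨a1, a2, a3⟩
    · simp only [if_neg hkl.symm]
      exact ⟨b1, b2, b3⟩
  · rw [hs, hcard]; linarith
  · rw [hs, hcard]; intro h; linarith

theorem cases3 (k l : Fin 3) (h : l ≠ k) : l = k + 1 ∨ l = k + 2 := by
  revert h
  fin_cases k <;> fin_cases l <;> first | (intro h; exact absurd rfl h) | (intro _; decide)

/-- **VirtSpec** from the certificates -/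
theorem virt_of (hc : NearCert) (ho : OppCert) (hH : HitSpec V30 (4 / 25) (147 / 100)) :
    VirtSpec V30 (4 / 25) (147 / 100) := by
  classical
  intro X z0 W M hX hWn had hR hU hsh
  have hh : ∀ k ∈ W, HFc X k z0 := fun k hk z hz => hH X k z0 z (M k) hX (had k hk) (hR k hk) hU hz
  by_cases hB : ∃ k ∈ W, ∃ z, Hit X k z0 z ∧ Shrt X k z0 z
  · obtain ⟨k, hk, z, hz, hs⟩ := hB
    obtain ⟨l, hl, he⟩ := hsh k hk z hz hs
    have hlk : l ≠ k := by
      rintro rfl
      rcases he with e | e | e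
      · exact hz.2.1 e
      · exact hz.2.2.1 e
      · exact hz.2.2.2.1 e
    have hfr : ∀ m ∈ W, ∀ y, Hit X m z0 y → Shrt X m z0 y → (∀ j ∈ W, j = m ∨ j = k ∨ j = l) → m ≠ k → m = l →
        y = g1 X k z0 ∨ y = g2 X k z0 ∨ y = g3 X k z0 := by
      intro m hm y hy hsy hall hmk hml
      obtain ⟨j, hj, hej⟩ := hsh m hm y hy hsy
      rcases hall j hj with rfl | rfl | rfl
      · exfalso
        rcases hej with e | e | e
        · exact hy.2.1 e
        · exact hy.2.2.1 e
        · exact hy.2.2.2.1 e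
      · exact hej
      · exfalso
        subst hml
        rcases hej with e | e | e
        · exact hy.2.1 e
        · exact hy.2.2.1 e
        · exact hy.2.2.2.1 e
    rcases cases3 k l hlk with rfl | rfl
    · -- `l = k + 1`
      have e3 : z = g3 X (k + 1) z0 := by
        rcases he with e | e | e
        · rw [g13] at e
          exact absurd e hz.2.2.2.1
        · exfalso
          rw [e] at hz
          exact mid1 hc ho hX (had k hk) (had _ hl) (hR _ hl) (hh k hk) hz
        · exact e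
      subst e3
      have hn := near1 ho hX (had k hk) (had _ hl) (hh k hk) hz
      have hno : k + 2 ∉ W := by
        intro hm
        have := third ho (had _ hl) (had _ hm)
        linarith
      have hW : W = {k, k + 1} := by
        ext j
        rw [Finset.mem_insert, Finset.mem_singleton]
        constructor
        · intro hj
          by_cases hjk : j = k
          · exact Or.inl hjk
          · rcases cases3 k j hjk with rfl | rfl
            · exact Or.inr rfl
            · exact absurd hj hno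
        · rintro (rfl | rfl)
          · exact hk
          · exact hl
      obtain ⟨o1, o2⟩ := pair1 hc ho hX (had k hk) (hR k hk) (had _ hl) (hR _ hl) (hh k hk) (hh _ hl) hz
        (fun y hy hsy => hfr (k + 1) hl y hy hsy (fun j hj => by
          rw [hW, Finset.mem_insert, Finset.mem_singleton] at hj
          rcases hj with rfl | rfl
          · exact Or.inr (Or.inl rfl)
          · exact Or.inl rfl) hlk rfl)
      exact two_out hlk.symm hW o1 o2
    · -- `l = k + 2`
      have e1 : z = g1 X (k + 2) z0 := by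
        rcases he with e | e | e
        · exact e
        · exfalso
          rw [e] at hz
          exact mid2 hc ho hX (had k hk) (had _ hl) (hR _ hl) (hh k hk) hz
        · rw [g31] at e
          exact absurd e hz.2.1
      subst e1
      have hn := near2 ho hX (had k hk) (had _ hl) (hh k hk) hz
      have hno : k + 1 ∉ W := by
        intro hm
        have := third ho (had _ hm) (had _ hl)
        rw [← g13'] at this
        linarith
      have hW : W = {k, k + 2} := by
        ext j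
        rw [Finset.mem_insert, Finset.mem_singleton]
        constructor
        · intro hj
          by_cases hjk : j = k
          · exact Or.inl hjk
          · rcases cases3 k j hjk with rfl | rfl
            · exact absurd hj hno
            · exact Or.inr rfl
        · rintro (rfl | rfl)
          · exact hk
          · exact hl
      obtain ⟨o1, o2⟩ := pair2 hc ho hX (had k hk) (hR k hk) (had _ hl) (hR _ hl) (hh k hk) (hh _ hl) hz
        (fun y hy hsy => hfr (k + 2) hl y hy hsy (fun j hj => by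
          rw [hW, Finset.mem_insert, Finset.mem_singleton] at hj
          rcases hj with rfl | rfl
          · exact Or.inr (Or.inl rfl)
          · exact Or.inl rfl) hlk rfl)
      exact two_out hlk.symm hW o1 o2
  · push Not at hB
    have hall : ∀ k, ∃ (P : Set ℂ) (C : Finset (ℂ × ℂ × ℂ)) (w : ℝ), k ∈ W → Piece X P C ∧
        P ⊆ Qo z0 (g1 X k z0) (g2 X k z0) (g3 X k z0) ∧
        √3 / 2 * w ≤ val P C ∧ 1 / 3 ≤ w + Rest X k z0 (M k) ∧
        (w + Rest X k z0 (M k) ≤ 1 / 3 → Rest X k z0 (M k) ≤ 0 ∧ ∀ z, ¬ Hit X k z0 z) := by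
      intro k
      by_cases hk : k ∈ W
      · obtain ⟨P, C, w, h1⟩ := noS hc hX (had k hk) (hR k hk) (hh k hk) (hB k hk)
        exact ⟨P, C, w, fun _ => h1⟩
      · exact ⟨∅, ∅, 0, fun h => absurd h hk⟩
    choose P C w hP using hall
    have hsum : ∑ k ∈ W, (1 / 3 : ℝ) = (W.card : ℝ) / 3 := by
      rw [Finset.sum_const, nsmul_eq_mul]; ring
    refine ⟨P, C, w, fun k hk => ⟨(hP k hk).1, (hP k hk).2.1, (hP k hk).2.2.1⟩, ?_, ?_⟩
    · rw [← hsum]
      exact Finset.sum_le_sum fun k hk => (hP k hk).2.2.2.1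
    · intro hle k hk
      refine (hP k hk).2.2.2.2 ?_
      by_contra hc'
      push Not at hc'
      have := Finset.sum_lt_sum (s := W) (f := fun _ => (1 / 3 : ℝ)) (g := fun j => w j + Rest X j z0 (M j))
        (fun j hj => (hP j hj).2.2.2.1) ⟨k, hk, hc'⟩
      rw [hsum] at this
      linarith

end Pool.Agent.H16.AP
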