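import Pool.Agent.H16.AP.LEV

/-!
# VNC: edges of cell triangles do not cross both legs of a virtual fan
-/

set_option autoImplicit false

open Set Real

noncomputable section

namespace Pool.Agent.H16.AP

open Pool.Agent.H20.AL Pool.Agent.H63.P6 Pool.Agent.H16.T3 Pool.Agent.H78.P6

theorem wsE (k : Fin 3) (p : ℤ × ℤ) : ws k p = (p.1 : ℂ) * E (kk k) + (p.2 : ℂ) * E (kk k + 2) := by
  unfold ws; rw [← E_kk, ← E_kk2]

theorem kk_r (k : Fin 3) : kk (k + 2) = kk k + 4 := by fin_cases k <;> rfl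
theorem kk_l (k : Fin 3) : kk (k + 1) = kk k + 2 := by fin_cases k <;> rfl

theorem Er0 (k : Fin 3) : E (kk (k + 2)) = -(E (kk k) + E (kk k + 2)) := by rw [kk_r, Ek4]
theorem Er1 (k : Fin 3) : E (kk (k + 2) + 1) = -E (kk k + 2) := by
  rw [kk_r, show kk k + 4 + 1 = kk k + 5 by rw [add_assoc]; rfl, Ek5]
theorem Er2 (k : Fin 3) : E (kk (k + 2) + 2) = E (kk k) := by
  rw [kk_r, add_assoc]; congr 1; exact add_zero _
theorem El0 (k : Fin 3) : E (kk (k + 1)) = E (kk k + 2) := by rw [kk_l]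
theorem El1 (k : Fin 3) : E (kk (k + 1) + 1) = -E (kk k) := by
  rw [kk_l, show kk k + 2 + 1 = kk k + 3 by rw [add_assoc]; rfl, Ek3]
theorem El2 (k : Fin 3) : E (kk (k + 1) + 2) = -(E (kk k) + E (kk k + 2)) := by
  rw [kk_l, show kk k + 2 + 2 = kk k + 4 by rw [add_assoc]; rfl, Ek4]

variable {V : ℂ → ℝ} {κ el : ℝ} {X : Set ℂ} {k : Fin 3} {a : Fin 3 → ℂ} {M : Fin 3 → ℤ} {c : ℂ}

/-- the apex of the right neighbour -/
theorem ad_right (hc : ∀ k, ∃ q : ℤ × ℤ, 0 ≤ q ∧ a k = c + ws k q) (k : Fin 3) :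
    ∃ α β : ℤ, 0 ≤ β ∧ a (k + 2) = a k + (α : ℂ) * E (kk k) - (β : ℂ) * E (kk k + 2) := by
  obtain ⟨q, hq, e⟩ := hc k
  obtain ⟨r, hr, f⟩ := hc (k + 2)
  rw [wsE] at e f
  rw [Er0, Er2] at f
  have q2 : 0 ≤ q.2 := hq.2
  have r1 : 0 ≤ r.1 := hr.1
  refine ⟨r.2 - r.1 - q.1, r.1 + q.2, by omega, ?_⟩
  rw [e, f]; push_cast; ring

/-- the apex of the left neighbour -/
theorem ad_left (hc : ∀ k, ∃ q : ℤ × ℤ, 0 ≤ q ∧ a k = c + ws k q) (k : Fin 3) :
    ∃ α β : ℤ, 0 ≤ β ∧ a (k + 1) = a k + (α : ℂ) * E (kk k + 2) - (β : ℂ) * E (kk k) := by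
  obtain ⟨q, hq, e⟩ := hc k
  obtain ⟨r, hr, f⟩ := hc (k + 1)
  rw [wsE] at e f
  rw [El0, El2] at f
  have q1 : 0 ≤ q.1 := hq.1
  have r2 : 0 ≤ r.2 := hr.2
  refine ⟨r.1 - r.2 - q.2, r.2 + q.1, by omega, ?_⟩
  rw [e, f]; push_cast; ring

theorem unm_mt {t : ℂ} (h : Unm X t) : ¬ Mt X t := fun hm => absurd hm.lt (not_lt.2 (h _ hm.1))

theorem dt_smul (n : ℤ) (u v : ℂ) : dt ((n : ℂ) * u) v = n * dt u v := by
  simp [dt]; ring

theorem vnc_right (hvb : VB V) (hA : ∀ k, ApexData V κ el X k (a k) (M k)) (hc : ∀ k, ∃ q : ℤ × ℤ, 0 ≤ q ∧ a k = c + ws k q)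
    (hu : Unm X (a k)) {p : ℤ × ℤ} (hp : 0 ≤ p) (h0 : p ≠ 0) :
    (dt (pos X (cs (a (k + 2)) (k + 2) p) - a k) (E (kk k + 1) + E (kk k + 2)) ≤ 226 / 1000 ∧
      1 / 2 ≤ dt (pos X (cs (a (k + 2)) (k + 2) p) - a k) (E (kk k))) ∨
    dt (pos X (cs (a (k + 2)) (k + 2) p) - a k) (E (kk k + 1) + E (kk k + 2)) ≤ -(633 / 1000) := by
  obtain ⟨α, β, hβ, e⟩ := ad_right hc k
  have hP := pb hvb (hA (k + 2)) hp h0
  have p1 : 0 ≤ p.1 := hp.1
  have p2 : 0 ≤ p.2 := hp.2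
  have ht : cs (a (k + 2)) (k + 2) p = a k + ((α - p.1 + p.2 : ℤ) : ℂ) * E (kk k) - ((β + p.1 : ℤ) : ℂ) * E (kk k + 2) := by
    unfold cs
    rw [wsE, Er0, Er2, e]; push_cast; ring
  set t := cs (a (k + 2)) (k + 2) p with htd
  have hsplit : pos X t - a k = (pos X t - t) + (((α - p.1 + p.2 : ℤ) : ℂ) * E (kk k) +
      ((-(β + p.1) : ℤ) : ℂ) * E (kk k + 2)) := by
    have h1 : t - a k = ((α - p.1 + p.2 : ℤ) : ℂ) * E (kk k) + ((-(β + p.1) : ℤ) : ℂ) * E (kk k + 2) := by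
      rw [ht]; push_cast; ring
    rw [← h1]; ring
  have hN : dt (pos X t - a k) (E (kk k + 1) + E (kk k + 2)) =
      dt (pos X t - t) (E (kk k + 1) + E (kk k + 2)) - (β + p.1 : ℤ) * (3 / 2) := by
    rw [hsplit, dt_add_l, dt_add_l, dt_smul, dt_smul, dtN0, dtN2]; push_cast; ring
  by_cases hrow : β + p.1 = 0
  · left
    have hp1 : p.1 = 0 := by omega
    set x := α - p.1 + p.2 with hx
    have ht' : t = a k + (x : ℂ) * E (kk k) := by
      rw [ht, hrow]; simp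
    have hx1 : 1 ≤ x := by
      by_contra hcon
      push Not at hcon
      rcases (show x = 0 ∨ x < 0 by omega) with h2 | h2
      · apply unm_mt hu
        have : t = a k := by rw [ht', h2]; simp
        rw [← this]; exact hP.mt
      · apply unm_mt hu
        have h3 : a k = a (k + 2) + ws (k + 2) (0, p.2 - x) := by
          have h4 : a (k + 2) = t - ws (k + 2) p := by rw [htd]; unfold cs; ring
          rw [h4, ht', wsE, wsE, Er0, Er2, hp1]; push_cast; ring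
        have h5 : (0 : ℤ × ℤ) ≤ (0, p.2 - x) := ⟨le_rfl, by change 0 ≤ p.2 - x; omega⟩
        have h6 : ((0, p.2 - x) : ℤ × ℤ) ≠ 0 := by
          intro h7
          have := congrArg Prod.snd h7
          simp only [Prod.snd_zero] at this
          omega
        have := mt_of hvb (hA (k + 2)) h5 h6
        rw [← h3] at this
        exact this
    have hts : t = cs (a k) k (x, 0) := by
      rw [ht']; unfold cs; rw [wsE]; push_cast; ring
    have h5 : (0 : ℤ × ℤ) ≤ (x, 0) := ⟨by change 0 ≤ x; omega, le_rfl⟩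
    have h6 : ((x, 0) : ℤ × ℤ) ≠ 0 := by
      intro h7
      have := congrArg Prod.fst h7
      simp only [Prod.fst_zero] at this
      omega
    have hPk := pb hvb (hA k) h5 h6
    rw [← hts] at hPk
    constructor
    · rw [hN, hrow]
      have := hPk.nl
      push_cast; linarith
    · have h8 : dt (pos X t - a k) (E (kk k)) = dt (pos X t - t) (E (kk k)) + x := by
        rw [hsplit, hrow, dt_add_l, dt_add_l, dt_smul, dt_smul, dtE0]; push_cast; ring
      have h9 := (abs_le.1 (mt_dt hP.mt (n := E (kk k)) (c := 1) (norm_E _).le)).1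
      have h10 : (1 : ℝ) ≤ x := by exact_mod_cast hx1
      rw [h8]; linarith
  · right
    have h1 : (1 : ℝ) ≤ (β + p.1 : ℤ) := by
      have : 1 ≤ β + p.1 := by omega
      exact_mod_cast this
    have h2 : ‖E (kk k + 1) + E (kk k + 2)‖ ≤ √3 := by rw [← kk2a]; exact (norm_NN _).le
    have h9 := (abs_le.1 (mt_dt hP.mt h2)).2
    have := sq3_hi
    rw [hN]; linarith

theorem vnc_left (hvb : VB V) (hA : ∀ k, ApexData V κ el X k (a k) (M k)) (hc : ∀ k, ∃ q : ℤ × ℤ, 0 ≤ q ∧ a k = c + ws k q)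
    (hu : Unm X (a k)) {p : ℤ × ℤ} (hp : 0 ≤ p) (h0 : p ≠ 0) :
    (dt (pos X (cs (a (k + 1)) (k + 1) p) - a k) (E (kk k) + E (kk k + 1)) ≤ 226 / 1000 ∧
      1 / 2 ≤ dt (pos X (cs (a (k + 1)) (k + 1) p) - a k) (E (kk k + 2))) ∨
    dt (pos X (cs (a (k + 1)) (k + 1) p) - a k) (E (kk k) + E (kk k + 1)) ≤ -(633 / 1000) := by
  obtain ⟨α, β, hβ, e⟩ := ad_left hc k
  have hP := pb hvb (hA (k + 1)) hp h0
  have p1 : 0 ≤ p.1 := hp.1
  have p2 : 0 ≤ p.2 := hp.2
  have ht : cs (a (k + 1)) (k + 1) p = a k + ((α + p.1 - p.2 : ℤ) : ℂ) * E (kk k + 2) - ((β + p.2 : ℤ) : ℂ) * E (kk k) := by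
    unfold cs
    rw [wsE, El0, El2, e]; push_cast; ring
  set t := cs (a (k + 1)) (k + 1) p with htd
  have hsplit : pos X t - a k = (pos X t - t) + (((α + p.1 - p.2 : ℤ) : ℂ) * E (kk k + 2) +
      ((-(β + p.2) : ℤ) : ℂ) * E (kk k)) := by
    have h1 : t - a k = ((α + p.1 - p.2 : ℤ) : ℂ) * E (kk k + 2) + ((-(β + p.2) : ℤ) : ℂ) * E (kk k) := by
      rw [ht]; push_cast; ring
    rw [← h1]; ring
  have hN : dt (pos X t - a k) (E (kk k) + E (kk k + 1)) =
      dt (pos X t - t) (E (kk k) + E (kk k + 1)) - (β + p.2 : ℤ) * (3 / 2) := by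
    rw [hsplit, dt_add_l, dt_add_l, dt_smul, dt_smul, dtM0, dtM2]; push_cast; ring
  by_cases hrow : β + p.2 = 0
  · left
    have hp2 : p.2 = 0 := by omega
    set x := α + p.1 - p.2 with hx
    have ht' : t = a k + (x : ℂ) * E (kk k + 2) := by
      rw [ht, hrow]; simp
    have hx1 : 1 ≤ x := by
      by_contra hcon
      push Not at hcon
      rcases (show x = 0 ∨ x < 0 by omega) with h2 | h2
      · apply unm_mt hu
        have : t = a k := by rw [ht', h2]; simp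
        rw [← this]; exact hP.mt
      · apply unm_mt hu
        have h3 : a k = a (k + 1) + ws (k + 1) (p.1 - x, 0) := by
          have h4 : a (k + 1) = t - ws (k + 1) p := by rw [htd]; unfold cs; ring
          rw [h4, ht', wsE, wsE, El0, El2, hp2]; push_cast; ring
        have h5 : (0 : ℤ × ℤ) ≤ (p.1 - x, 0) := ⟨by change 0 ≤ p.1 - x; omega, le_rfl⟩
        have h6 : ((p.1 - x, 0) : ℤ × ℤ) ≠ 0 := by
          intro h7
          have := congrArg Prod.fst h7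
          simp only [Prod.fst_zero] at this
          omega
        have := mt_of hvb (hA (k + 1)) h5 h6
        rw [← h3] at this
        exact this
    have hts : t = cs (a k) k (0, x) := by
      rw [ht']; unfold cs; rw [wsE]; push_cast; ring
    have h5 : (0 : ℤ × ℤ) ≤ (0, x) := ⟨le_rfl, by change 0 ≤ x; omega⟩
    have h6 : ((0, x) : ℤ × ℤ) ≠ 0 := by
      intro h7
      have := congrArg Prod.snd h7
      simp only [Prod.snd_zero] at this
      omega
    have hPk := pb hvb (hA k) h5 h6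
    rw [← hts] at hPk
    constructor
    · rw [hN, hrow]
      have := hPk.nr
      push_cast; linarith
    · have h8 : dt (pos X t - a k) (E (kk k + 2)) = dt (pos X t - t) (E (kk k + 2)) + x := by
        rw [hsplit, hrow, dt_add_l, dt_add_l, dt_smul, dt_smul, dtE0]; push_cast; ring
      have h9 := (abs_le.1 (mt_dt hP.mt (n := E (kk k + 2)) (c := 1) (norm_E _).le)).1
      have h10 : (1 : ℝ) ≤ x := by exact_mod_cast hx1
      rw [h8]; linarith
  · right
    have h1 : (1 : ℝ) ≤ (β + p.2 : ℤ) := by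
      have : 1 ≤ β + p.2 := by omega
      exact_mod_cast this
    have h9 := (abs_le.1 (mt_dt hP.mt (norm_NN (kk k)).le)).2
    have := sq3_hi
    rw [hN]; linarith

/-- sites of the same wedge -/
theorem vnc_same (hvb : VB V) (hA : ∀ k, ApexData V κ el X k (a k) (M k)) {p : ℤ × ℤ} (hp : 0 ≤ p) (h0 : p ≠ 0)
    (h1 : p ≠ (1, 0)) (h2 : p ≠ (0, 1)) : 65 / 100 ≤ dt (pos X (cs (a k) k p) - a k) (E (kk k + 1)) := by
  have hP := pb hvb (hA k) hp h0
  have p1 : 0 ≤ p.1 := hp.1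
  have p2 : 0 ≤ p.2 := hp.2
  have hs : 2 ≤ p.1 + p.2 := by
    by_contra hcon
    push Not at hcon
    rcases (show (p.1 = 0 ∧ p.2 = 0) ∨ (p.1 = 1 ∧ p.2 = 0) ∨ (p.1 = 0 ∧ p.2 = 1) by omega) with h | h | h
    · exact h0 (Prod.ext h.1 h.2)
    · exact h1 (Prod.ext h.1 h.2)
    · exact h2 (Prod.ext h.1 h.2)
  have hsplit : pos X (cs (a k) k p) - a k = (pos X (cs (a k) k p) - cs (a k) k p) +
      ((p.1 : ℂ) * E (kk k) + (p.2 : ℂ) * E (kk k + 2)) := by
    unfold cs; rw [wsE]; ring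
  have e2 := dtE1 (kk k + 1)
  rw [kk2a, dt_comm] at e2
  rw [hsplit, dt_add_l, dt_add_l, dt_smul, dt_smul, dtE1, e2]
  have h3 : (2 : ℝ) ≤ (p.1 : ℝ) + p.2 := by exact_mod_cast hs
  have := hP.dn
  linarith

end Pool.Agent.H16.AP
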