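import Pool.Agent.H16.AP.CBW
import Pool.Agent.H84.P6.VOIDC
import Pool.Agent.H63.P6.V1

/-!
# VPP: virtual pieces without caps; class V
-/

set_option autoImplicit false

open Set Real Finset MeasureTheory

noncomputable section

namespace Pool.Agent.H16.AP

open Pool.Agent.H20.AL Pool.Agent.H63.P6 Pool.Agent.H16.T3 Pool.Agent.H78.P6 Pool.Agent.H20.AP

open Pool.Agent.H30.P6 (V30 V30_self V30_nonneg V30_le_iff)
open Pool.Agent.H30.Q (pB)

variable {X : Set ℂ} {k : Fin 3} {a z p : ℂ} {M : ℤ}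

/-- legs at an angle of at least 112 degrees -/
theorem nocap_opp {b e p : ℂ} (h1 : 1 / √3 ≤ ‖b - p‖) (h3 : 1 / √3 ≤ ‖e - p‖)
    (ha : dt (b - p) (e - p) ≤ -(3 / 8) * (‖b - p‖ * ‖e - p‖)) : NoCap b p e := by
  unfold NoCap
  have hs : (0:ℝ) < √3 := sq3_pos
  have hs2 : √3 * √3 = 3 := Real.mul_self_sqrt (by norm_num)
  have e1 : dt (p - b) (e - b) = ‖b - p‖ ^ 2 - dt (b - p) (e - p) := by
    rw [nsq]; simp [dt]; ring
  have e2 : ‖e - b‖ ^ 2 = ‖b - p‖ ^ 2 + ‖e - p‖ ^ 2 - 2 * dt (b - p) (e - p) := by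
    rw [nsq, nsq, nsq]; simp [dt]; ring
  rw [e1, e2, norm_sub_rev p b]
  set m := ‖b - p‖
  set s := ‖e - p‖
  set D := dt (b - p) (e - p)
  have hm : 1 ≤ √3 * m := by rw [div_le_iff₀ hs] at h1; linarith
  have hss : 1 ≤ √3 * s := by rw [div_le_iff₀ hs] at h3; linarith
  have hm0 : 0 < m := by
    by_contra hc; push Not at hc; nlinarith
  have hs0 : 0 < s := by
    by_contra hc; push Not at hc; nlinarith
  -- everything divided by `m`
  have key : m - 3 / 8 * s * (√3 * m - 1) ≤ √3 / 2 * (m ^ 2 + s ^ 2) := by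
    have q1 : m ≤ √3 * m * m := by nlinarith
    have q2 : s ≤ √3 * s * s := by nlinarith
    have q3 : 0 ≤ s * (√3 * m - 1) := mul_nonneg hs0.le (by linarith)
    -- `√3/2 (m²+s²) ≥ √3 m s ≥ ...`
    have q4 : 0 ≤ (√3 * m - 1) * (√3 * s - 1) := mul_nonneg (by linarith) (by linarith)
    have q5 : 0 ≤ √3 * (m - s) ^ 2 := by positivity
    have q6 : 0 ≤ (√3 * m - 1) * (√3 * m - 1) := mul_nonneg (by linarith) (by linarith)
    have q7 : √3 * ((√3 * m - 1) * (√3 * s - 1)) = √3 * (3 * m * s - √3 * m - √3 * s + 1) := by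
      have : (√3 * m - 1) * (√3 * s - 1) = (√3 * √3) * m * s - √3 * m - √3 * s + 1 := by ring
      rw [this, hs2]
    nlinarith
  have k2 : D * (1 - √3 * m) ≥ 3 / 8 * (m * s) * (√3 * m - 1) := by
    have := mul_le_mul_of_nonneg_right ha (show 0 ≤ √3 * m - 1 by linarith)
    linarith
  have k3 := mul_le_mul_of_nonneg_left key hm0.le
  nlinarith

/-- rays to an inner apex, no point hits -/
theorem rays_in (hX : Sep X) (h : ApexData V30 (4 / 25) (147 / 100) X k a M)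
    (hp : p ∈ Qd a (g1 X k a) (g2 X k a) (g3 X k a)) (h1 : 1 / √3 ≤ ‖g1 X k a - p‖) (h3 : 1 / √3 ≤ ‖g3 X k a - p‖)
    (c12 : 1 / 2 * ‖g1 X k a - p‖ ≤ cr (g1 X k a - p) (g2 X k a - p))
    (c23 : 1 / 2 * ‖g3 X k a - p‖ ≤ cr (g2 X k a - p) (g3 X k a - p))
    (ha : dt (g1 X k a - p) (g3 X k a - p) ≤ -(3 / 8) * (‖g1 X k a - p‖ * ‖g3 X k a - p‖))
    (hh : ∀ z, Hit X k a z → NoCap (g1 X k a) p z ∧ NoCap (g3 X k a) p z) :
    Free X (g1 X k a) p ∧ Free X (g3 X k a) p := by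
  have hA := qc_v h
  obtain ⟨f1, f2, f3⟩ := frame h
  constructor
  · refine free_of_nocap fun z hz hz1 => ?_
    by_cases z2 : z = g2 X k a
    · subst z2
      refine nocap_line (ge_one hX hz f1.1 hz1) ?_
      have e : cr (p - g1 X k a) (g2 X k a - g1 X k a) = -cr (g1 X k a - p) (g2 X k a - p) := by simp [cr]; ring
      rw [e, abs_neg, norm_sub_rev]
      exact c12.trans (le_abs_self _)
    by_cases z3 : z = g3 X k a
    · subst z3
      exact nocap_opp h1 h3 ha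
    by_cases hhz : Hit X k a z
    · exact (hh z hhz).1
    · refine nocap_out (qd_b hA) hp ?_ ?_
      · rw [norm_sub_rev]; exact h1
      · intro q hq
        by_contra hc
        push Not at hc
        exact hhz ⟨hz, hz1, z2, z3, q, hq, hc⟩
  · refine free_of_nocap fun z hz hz3 => ?_
    by_cases z2 : z = g2 X k a
    · subst z2
      refine nocap_line (ge_one hX hz f3.1 hz3) ?_
      have e : cr (p - g3 X k a) (g2 X k a - g3 X k a) = cr (g2 X k a - p) (g3 X k a - p) := by simp [cr]; ring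
      rw [e, norm_sub_rev]
      exact c23.trans (le_abs_self _)
    by_cases z1 : z = g1 X k a
    · subst z1
      refine nocap_opp h3 h1 ?_
      have e : dt (g3 X k a - p) (g1 X k a - p) = dt (g1 X k a - p) (g3 X k a - p) := by simp [dt]; ring
      rw [e, mul_comm ‖g3 X k a - p‖]
      exact ha
    by_cases hhz : Hit X k a z
    · exact (hh z hhz).2
    · refine nocap_out (qd_d hA) hp ?_ ?_
      · rw [norm_sub_rev]; exact h3
      · intro q hq
        by_contra hc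
        push Not at hc
        exact hhz ⟨hz, z1, z2, hz3, q, hq, hc⟩

/-- the piece: no disc meets the quadrilateral with the inner apex `p` -/
theorem in_piece (hX : Sep X) (h : ApexData V30 (4 / 25) (147 / 100) X k a M)
    (hp : p ∈ Qd a (g1 X k a) (g2 X k a) (g3 X k a)) (hQ : QC p (g1 X k a) (g2 X k a) (g3 X k a))
    (h1 : 1 / √3 ≤ ‖g1 X k a - p‖) (h3 : 1 / √3 ≤ ‖g3 X k a - p‖)
    (c12 : 1 / 2 * ‖g1 X k a - p‖ ≤ cr (g1 X k a - p) (g2 X k a - p))
    (c23 : 1 / 2 * ‖g3 X k a - p‖ ≤ cr (g2 X k a - p) (g3 X k a - p))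
    (ha : dt (g1 X k a - p) (g3 X k a - p) ≤ -(3 / 8) * (‖g1 X k a - p‖ * ‖g3 X k a - p‖))
    (hh : ∀ z, Hit X k a z → NoCap (g1 X k a) p z ∧ NoCap (g3 X k a) p z ∧
      ∀ q ∈ Qo p (g1 X k a) (g2 X k a) (g3 X k a), 1 / √3 ≤ dist z q) :
    ∃ (P : Set ℂ) (C : Finset (ℂ × ℂ × ℂ)), Piece X P C ∧ P ⊆ Qo a (g1 X k a) (g2 X k a) (g3 X k a) ∧
      √3 / 2 * (fanY X k a p + (Ag p (g1 X k a) (g2 X k a) + Ag p (g2 X k a) (g3 X k a)) / (2 * π)) ≤ val P C := by
  have hA := qc_v h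
  obtain ⟨f1, f2, f3⟩ := frame h
  obtain ⟨ray1, ray3⟩ := rays_in hX h hp h1 h3 c12 c23 ha fun z hz => ⟨(hh z hz).1, (hh z hz).2.1⟩
  obtain ⟨b1, b2⟩ := base_len (el_sq le_rfl h) h
  have hsub := qo_shift hQ hp hA
  have fx1 : g1 X k a ∈ X := f1.1
  have fx2 : g2 X k a ∈ X := f2.1
  have fx3 : g3 X k a ∈ X := f3.1
  obtain ⟨P, C, c1, c2, c3⟩ := vpiece hX fx1 fx2 fx3 hQ (b1.trans (by norm_num)) (b2.trans (by norm_num)) ray1 ray3
    (S := ∅) (β := 0) (by
      intro w hw w1 w2 w3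
      rintro q ⟨hq, hqD⟩
      exfalso
      have h2 := mem_D.1 hqD
      by_cases hhz : Hit X k a w
      · have := (hh w hhz).2.2 q hq
        rw [dist_comm, dist_eq_norm] at this
        linarith
      · refine hhz ⟨hw, w1, w2, w3, q, Qo_sub_Qd _ _ _ _ (hsub hq), ?_⟩
        rw [dist_comm, dist_eq_norm]; exact h2)
    (by simp) (by simp)
  refine ⟨P, C, c1, c2.trans hsub, le_trans ?_ c3⟩
  rw [sub_zero]
  exact le_rfl

/-- `a` itself is in its quadrilateral -/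
theorem a_mem (h : ApexData V30 (4 / 25) (147 / 100) X k a M) : a ∈ Qd a (g1 X k a) (g2 X k a) (g3 X k a) := by
  have hA := qc_v h
  refine ⟨by simp [cr], ?_, ?_, by rw [cr_self]⟩
  · have := hA.pab
    simp only [cr, Complex.sub_re, Complex.sub_im] at *; linarith
  · have := hA.bcp
    simp only [cr, Complex.sub_re, Complex.sub_im] at *; linarith

end Pool.Agent.H16.AP
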